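import Pool.Agent.Lib.MP_0430e4_lc.BY.P.Good

/-!
# N04 (BEYOND block P): rectangle shift

PROOF. `Complex.integral_boundary_rect_eq_zero_of_differentiableOn` for `H` on the rectangle with corners
`s0 + i pa`, `s1 + i pb` (no order between `s0` and `s1` needed):
`(∫ x in s0..s1, H(x + pa i)) - (∫ x in s0..s1, H(x + pb i)) + i ∫ φ in pa..pb, H(s1 + φ i) - i ∫ φ in pa..pb, H(s0 + φ i) = 0`,
then `intervalIntegral.norm_integral_le_of_norm_le_const` three times.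
-/

set_option autoImplicit false

open Finset Polynomial

namespace Pool.Agent.Lib.MP_0430e4_lc.BY

theorem rect_le {H : ℂ → ℂ} (hH : Differentiable ℂ H) {s0 s1 pa pb A Ba Bb : ℝ} (hab : pa ≤ pb)
    (hA : ∀ φ : ℝ, pa ≤ φ → φ ≤ pb → ‖H ((s1 : ℂ) + (φ : ℂ) * Complex.I)‖ ≤ A)
    (hBa : ∀ s ∈ Set.uIcc s0 s1, ‖H ((s : ℂ) + (pa : ℂ) * Complex.I)‖ ≤ Ba)
    (hBb : ∀ s ∈ Set.uIcc s0 s1, ‖H ((s : ℂ) + (pb : ℂ) * Complex.I)‖ ≤ Bb) :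
    ‖∫ φ in pa..pb, H ((s0 : ℂ) + (φ : ℂ) * Complex.I)‖ ≤
      (pb - pa) * A + |s1 - s0| * (Ba + Bb) := by
  have h := Complex.integral_boundary_rect_eq_zero_of_differentiableOn H ⟨s0, pa⟩ ⟨s1, pb⟩ hH.differentiableOn
  simp only at h
  have h1 : ‖∫ x in s0..s1, H ((x : ℂ) + (pa : ℂ) * Complex.I)‖ ≤ Ba * |s1 - s0| :=
    intervalIntegral.norm_integral_le_of_norm_le_const fun x hx => hBa x (Set.uIoc_subset_uIcc hx)
  have h2 : ‖∫ x in s0..s1, H ((x : ℂ) + (pb : ℂ) * Complex.I)‖ ≤ Bb * |s1 - s0| :=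
    intervalIntegral.norm_integral_le_of_norm_le_const fun x hx => hBb x (Set.uIoc_subset_uIcc hx)
  have h3 : ‖∫ φ in pa..pb, H ((s1 : ℂ) + (φ : ℂ) * Complex.I)‖ ≤ A * |pb - pa| := by
    refine intervalIntegral.norm_integral_le_of_norm_le_const fun φ hφ => ?_
    rw [Set.uIoc_of_le hab] at hφ
    exact hA φ hφ.1.le hφ.2
  rw [abs_of_nonneg (by linarith : (0 : ℝ) ≤ pb - pa)] at h3
  obtain ⟨J0, hJ0⟩ : ∃ J0, J0 = ∫ φ in pa..pb, H ((s0 : ℂ) + (φ : ℂ) * Complex.I) := ⟨_, rfl⟩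
  obtain ⟨J1, hJ1⟩ : ∃ J1, J1 = ∫ φ in pa..pb, H ((s1 : ℂ) + (φ : ℂ) * Complex.I) := ⟨_, rfl⟩
  obtain ⟨Xa, hXa⟩ : ∃ Xa, Xa = ∫ x in s0..s1, H ((x : ℂ) + (pa : ℂ) * Complex.I) := ⟨_, rfl⟩
  obtain ⟨Xb, hXb⟩ : ∃ Xb, Xb = ∫ x in s0..s1, H ((x : ℂ) + (pb : ℂ) * Complex.I) := ⟨_, rfl⟩
  rw [← hJ0, ← hJ1, ← hXa, ← hXb] at h
  rw [← hJ1] at h3
  rw [← hXa] at h1
  rw [← hXb] at h2
  rw [← hJ0]
  have h4 : Complex.I • J0 = Xa - Xb + Complex.I • J1 := by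
    linear_combination -h
  have h5 : ‖J0‖ = ‖Xa - Xb + Complex.I • J1‖ := by
    rw [← h4, norm_smul, Complex.norm_I, one_mul]
  rw [h5]
  have h6 : ‖Xa - Xb + Complex.I • J1‖ ≤ ‖Xa‖ + ‖Xb‖ + ‖J1‖ := by
    refine (norm_add_le _ _).trans ?_
    rw [norm_smul, Complex.norm_I, one_mul]
    linarith [norm_sub_le Xa Xb]
  linarith

end Pool.Agent.Lib.MP_0430e4_lc.BY
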