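import Pool.Agent.Lib.MP_0430e4_lc.BY.P.Good

/-!
# N05 (BEYOND block P): coefficient of a real polynomial as an integral over the upper half circle

PROOF of `coeff_half`. `aeval (up σ φ) G * exp (-w (σ + i φ)) = ∑_j g_j exp ((j - w)(σ + i φ))`; the real part of
the integral over `[0, π]` of the `j`-th term is `g_j exp((j-w)σ) ∫_0^π cos ((j-w) φ) dφ = 0` for `j ≠ w` and
`π g_w` for `j = w` (`integral_cos`, `Real.sin_int_mul_pi`).  (finite sum: `aeval_eq_sum_range`.)
`coeff_split`: split `[0,π]` at `pa` and `pb` (`intervalIntegral.integral_add_adjacent_intervals`, everything is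
continuous); on the two outer pieces the integrand has norm `≤ A exp(-wσ)`, total length `≤ π`.
`coeff_circle` (Cauchy estimate for a polynomial): from `coeff_half` with `A = ∞`-arc, or directly
`coeff_split` with `pa = pb`; it is stated for all radii `R > 0`.
`continuous_up`, `nr_eq` are only there for the users.
-/

set_option autoImplicit false

open Finset Polynomial

namespace Pool.Agent.Lib.MP_0430e4_lc.BY

theorem continuous_up (s : ℝ) : Continuous fun φ : ℝ => up s φ := by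
  unfold up; fun_prop

private theorem N05_cont (G : ℝ[X]) (σ : ℝ) (w : ℕ) :
    Continuous fun φ : ℝ => (G.aeval (up σ φ)) *
      Complex.exp (-(w : ℂ) * ((σ : ℂ) + (φ : ℂ) * Complex.I)) := by
  have h1 : Continuous fun φ : ℝ => G.aeval (up σ φ) := by
    have h := continuous_up σ
    have h2 : Continuous fun z : ℂ => G.aeval z := Polynomial.continuous_aeval G
    exact h2.comp h
  exact h1.mul (by fun_prop)

private theorem N05_re (G : ℝ[X]) (σ a b : ℝ) (w : ℕ) :
    (nr G σ a b w).re = ∫ φ in a..b, ((G.aeval (up σ φ)) *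
      Complex.exp (-(w : ℂ) * ((σ : ℂ) + (φ : ℂ) * Complex.I))).re := by
  unfold nr
  have h := Complex.reCLM.intervalIntegral_comp_comm (μ := MeasureTheory.volume) (a := a) (b := b)
    ((N05_cont G σ w).intervalIntegrable a b)
  simpa using h.symm

private theorem N05_add (G H : ℝ[X]) (σ a b : ℝ) (w : ℕ) :
    nr (G + H) σ a b w = nr G σ a b w + nr H σ a b w := by
  unfold nr
  rw [← intervalIntegral.integral_add ((N05_cont G σ w).intervalIntegrable a b)
    ((N05_cont H σ w).intervalIntegrable a b)]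
  apply intervalIntegral.integral_congr
  intro φ _
  simp only [map_add]
  ring

private theorem N05_mono (j : ℕ) (c σ : ℝ) (w : ℕ) (φ : ℝ) :
    (((monomial j c : ℝ[X]).aeval (up σ φ)) *
      Complex.exp (-(w : ℂ) * ((σ : ℂ) + (φ : ℂ) * Complex.I))).re =
      (c * Real.exp (((j : ℝ) - w) * σ)) * Real.cos (((j : ℝ) - w) * φ) := by
  have h1 : ((monomial j c : ℝ[X]).aeval (up σ φ)) *
      Complex.exp (-(w : ℂ) * ((σ : ℂ) + (φ : ℂ) * Complex.I)) =
      ((c : ℝ) : ℂ) * Complex.exp (((((j : ℝ) - w) * σ : ℝ) : ℂ) +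
        ((((j : ℝ) - w) * φ : ℝ) : ℂ) * Complex.I) := by
    rw [aeval_monomial]
    unfold up
    rw [← Complex.exp_nat_mul, mul_assoc, ← Complex.exp_add]
    have h2 : (j : ℂ) * ((σ : ℂ) + (φ : ℂ) * Complex.I) +
        -(w : ℂ) * ((σ : ℂ) + (φ : ℂ) * Complex.I) =
        (((((j : ℝ) - w) * σ : ℝ) : ℂ) + ((((j : ℝ) - w) * φ : ℝ) : ℂ) * Complex.I) := by
      push_cast
      ring
    rw [h2]
    rfl
  rw [h1, Complex.exp_add_mul_I, Complex.re_ofReal_mul]
  have h3 : (Complex.exp ((((j : ℝ) - w) * σ : ℝ) : ℂ) *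
      (Complex.cos ((((j : ℝ) - w) * φ : ℝ) : ℂ) +
        Complex.sin ((((j : ℝ) - w) * φ : ℝ) : ℂ) * Complex.I)).re =
      Real.exp (((j : ℝ) - w) * σ) * Real.cos (((j : ℝ) - w) * φ) := by
    rw [← Complex.ofReal_exp, ← Complex.ofReal_cos, ← Complex.ofReal_sin, Complex.re_ofReal_mul,
      Complex.add_re, Complex.ofReal_re, Complex.re_ofReal_mul, Complex.I_re, mul_zero, add_zero]
  rw [h3]
  ring

private theorem N05_cos (j w : ℕ) : ∫ φ in (0 : ℝ)..Real.pi, Real.cos (((j : ℝ) - w) * φ) =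
    if j = w then Real.pi else 0 := by
  split_ifs with h
  · subst h
    simp
  · have h1 : ((j : ℝ) - w) ≠ 0 := by
      intro h2
      apply h
      have h3 : (j : ℝ) = w := by linarith
      exact_mod_cast h3
    rw [intervalIntegral.integral_comp_mul_left (f := Real.cos) h1, integral_cos]
    have h2 : Real.sin (((j : ℝ) - w) * Real.pi) = 0 := by
      have h3 := Real.sin_int_mul_pi ((j : ℤ) - w)
      push_cast at h3
      exact h3
    rw [h2]
    simp

theorem coeff_half (G : ℝ[X]) (σ : ℝ) (w : ℕ) :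
    Real.pi * G.coeff w = (nr G σ 0 Real.pi w).re := by
  induction G using Polynomial.induction_on' with
  | add p q hp hq =>
    rw [N05_add, Complex.add_re, ← hp, ← hq, coeff_add]
    ring
  | monomial j c =>
    rw [N05_re]
    have h1 : ∫ φ in (0 : ℝ)..Real.pi, (((monomial j c : ℝ[X]).aeval (up σ φ)) *
        Complex.exp (-(w : ℂ) * ((σ : ℂ) + (φ : ℂ) * Complex.I))).re =
        ∫ φ in (0 : ℝ)..Real.pi, (c * Real.exp (((j : ℝ) - w) * σ)) *
          Real.cos (((j : ℝ) - w) * φ) := by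
      apply intervalIntegral.integral_congr
      intro φ _
      exact N05_mono j c σ w φ
    rw [h1, intervalIntegral.integral_const_mul, N05_cos, coeff_monomial]
    by_cases h : j = w
    · subst h
      simp
      ring
    · simp [h]

private theorem N05_bound (G : ℝ[X]) {σ a b A : ℝ} (w : ℕ)
    (hA : ∀ φ ∈ Set.uIoc a b, ‖G.aeval (up σ φ)‖ ≤ A) :
    ‖nr G σ a b w‖ ≤ A * Real.exp (-σ * w) * |b - a| := by
  unfold nr
  apply intervalIntegral.norm_integral_le_of_norm_le_const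
  intro φ hφ
  rw [norm_mul, Complex.norm_exp]
  have h1 : (-(w : ℂ) * ((σ : ℂ) + (φ : ℂ) * Complex.I)).re = -σ * w := by
    simp
    ring
  rw [h1]
  exact mul_le_mul_of_nonneg_right (hA φ hφ) (Real.exp_pos _).le

theorem coeff_split (G : ℝ[X]) {σ pa pb A : ℝ} (w : ℕ) (h0 : 0 ≤ pa) (hab : pa ≤ pb)
    (hpi : pb ≤ Real.pi)
    (hA : ∀ φ : ℝ, 0 ≤ φ → φ ≤ Real.pi → (φ ≤ pa ∨ pb ≤ φ) → ‖G.aeval (up σ φ)‖ ≤ A) :
    |G.coeff w - (nr G σ pa pb w).re / Real.pi| ≤ A * Real.exp (-σ * w) := by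
  have hpp : 0 < Real.pi := Real.pi_pos
  have hA0 : 0 ≤ A := le_trans (norm_nonneg _) (hA 0 le_rfl hpp.le (Or.inl h0))
  have hB0 : 0 ≤ A * Real.exp (-σ * w) := mul_nonneg hA0 (Real.exp_pos _).le
  have h1 : nr G σ 0 Real.pi w = nr G σ 0 pa w + nr G σ pa pb w + nr G σ pb Real.pi w := by
    unfold nr
    have hc := N05_cont G σ w
    rw [intervalIntegral.integral_add_adjacent_intervals (hc.intervalIntegrable _ _)
      (hc.intervalIntegrable _ _),
      intervalIntegral.integral_add_adjacent_intervals (hc.intervalIntegrable _ _)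
      (hc.intervalIntegrable _ _)]
  have h2 : G.coeff w = (nr G σ 0 Real.pi w).re / Real.pi := by
    rw [← coeff_half G σ w]
    field_simp
  have h3 : G.coeff w - (nr G σ pa pb w).re / Real.pi =
      ((nr G σ 0 pa w).re + (nr G σ pb Real.pi w).re) / Real.pi := by
    rw [h2, h1, Complex.add_re, Complex.add_re]
    ring
  rw [h3, abs_div, abs_of_pos hpp, div_le_iff₀ hpp]
  have h4 : ‖nr G σ 0 pa w‖ ≤ A * Real.exp (-σ * w) * |pa - 0| := by
    apply N05_bound
    intro φ hφ
    rw [Set.uIoc_of_le h0] at hφ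
    exact hA φ hφ.1.le (hφ.2.trans (hab.trans hpi)) (Or.inl hφ.2)
  have h5 : ‖nr G σ pb Real.pi w‖ ≤ A * Real.exp (-σ * w) * |Real.pi - pb| := by
    apply N05_bound
    intro φ hφ
    rw [Set.uIoc_of_le hpi] at hφ
    exact hA φ ((h0.trans hab).trans hφ.1.le) hφ.2 (Or.inr hφ.1.le)
  rw [sub_zero, abs_of_nonneg h0] at h4
  rw [abs_of_nonneg (by linarith)] at h5
  have h6 : |(nr G σ 0 pa w).re + (nr G σ pb Real.pi w).re| ≤
      ‖nr G σ 0 pa w‖ + ‖nr G σ pb Real.pi w‖ :=
    (abs_add_le _ _).trans (add_le_add (Complex.abs_re_le_norm _) (Complex.abs_re_le_norm _))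
  calc |(nr G σ 0 pa w).re + (nr G σ pb Real.pi w).re|
      ≤ ‖nr G σ 0 pa w‖ + ‖nr G σ pb Real.pi w‖ := h6
    _ ≤ A * Real.exp (-σ * w) * pa + A * Real.exp (-σ * w) * (Real.pi - pb) := add_le_add h4 h5
    _ = A * Real.exp (-σ * w) * (Real.pi - (pb - pa)) := by ring
    _ ≤ A * Real.exp (-σ * w) * Real.pi := by
        apply mul_le_mul_of_nonneg_left _ hB0
        linarith

theorem coeff_circle (G : ℝ[X]) {R A : ℝ} (hR : 0 < R) (w : ℕ)
    (hA : ∀ u : ℂ, ‖u‖ = R → ‖G.aeval u‖ ≤ A) : |G.coeff w| * R ^ w ≤ A := by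
  have hn : ∀ φ : ℝ, ‖up (Real.log R) φ‖ = R := by
    intro φ
    unfold up
    rw [Complex.norm_exp]
    rw [show (((Real.log R : ℝ) : ℂ) + (φ : ℂ) * Complex.I).re = Real.log R by simp]
    exact Real.exp_log hR
  have h1 := coeff_split G (σ := Real.log R) (pa := 0) (pb := 0) (A := A) w le_rfl le_rfl
    Real.pi_pos.le (fun φ _ _ _ => hA _ (hn φ))
  have h2 : nr G (Real.log R) 0 0 w = 0 := by
    unfold nr
    simp
  rw [h2, Complex.zero_re, zero_div, sub_zero] at h1
  have h3 : Real.exp (-Real.log R * w) * R ^ w = 1 := by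
    have h4 : R ^ w = Real.exp (Real.log R * w) := by
      rw [mul_comm, Real.exp_nat_mul, Real.exp_log hR]
    rw [h4, ← Real.exp_add]
    simp
  calc |G.coeff w| * R ^ w ≤ (A * Real.exp (-Real.log R * w)) * R ^ w :=
        mul_le_mul_of_nonneg_right h1 (pow_pos hR w).le
    _ = A * (Real.exp (-Real.log R * w) * R ^ w) := by ring
    _ = A := by rw [h3, mul_one]

end Pool.Agent.Lib.MP_0430e4_lc.BY
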