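import Pool.Agent.Lib.MP_0430e4_lc.BY.P.Pair
import Pool.Agent.Lib.MP_0430e4_lc.BY.PsiA

/-!
# BLOCK P of BEYOND: the interface `Good` (helper80)

`L = Psi + a V`; `u = exp (s + i φ)`, `z = zu u = (1-u)/(1+u)`.  Everything is stated with absolute values:
`‖1+u‖ * exp (re (L (zu u)))` is the `n`-th root of `|(1+u)^n E(z)^n|`.
-/

set_option autoImplicit false

open Finset Polynomial

namespace Pool.Agent.Lib.MP_0430e4_lc.BY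

/-- `z = (1-u)/(1+u)` -/
noncomputable def zu (u : ℂ) : ℂ := (1 - u) / (1 + u)

/-- the point with logarithmic coordinates `s + i φ` -/
noncomputable def up (s φ : ℝ) : ℂ := Complex.exp ((s : ℂ) + (φ : ℂ) * Complex.I)

/-- What block P needs of `L = Psi + a V`. `ρ` = relative width of the window of weights, `[pa, pb]` =
the arc with the bump, `τ` = size of the rectangle shift, `η` = height of the bump, `e` = gain of the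
order of `a`, `σ` = logarithm of the radius of the circle, `ε` = gain of the order of `a σ`. -/
structure Good (L : ℂ → ℂ) (ρ pa pb τ η e σ ε : ℝ) : Prop where
  diff : DifferentiableOn ℂ L (Metric.ball 0 1)
  conj : ∀ z : ℂ, ‖z‖ < 1 → L (starRingEnd ℂ z) = starRingEnd ℂ (L z)
  zero : L 0 = 0
  /-- the low coefficients are nonnegative -/
  low : ∀ n k : ℕ, (k : ℝ) ≤ 7 / 100 * n →
    0 ≤ (iteratedDeriv k (fun z : ℂ => Complex.exp ((n : ℂ) * L z)) 0).re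
  /-- `|E| ≤ √2 e^(-e)` near the unit circle -/
  top : ∃ x0 : ℝ, x0 < 1 ∧ ∀ z : ℂ, x0 ≤ ‖z‖ → ‖z‖ < 1 → (L z).re ≤ Real.log 2 / 2 - e
  /-- the B side -/
  bside : ∀ z : ℂ, 1 / 10 ≤ ‖z‖ → ‖z‖ < 1 → Real.exp (L z).re ≤ ‖Es (‖z‖ : ℂ)‖ * Real.exp (-e)
  /-- the circle `|u| = e^σ` away from the bump -/
  far : ∀ φ : ℝ, 0 ≤ φ → φ ≤ Real.pi → (φ ≤ pa ∨ pb ≤ φ) → ‖1 - up σ φ‖ < ‖1 + up σ φ‖ →
    ‖1 + up σ φ‖ * Real.exp (L (zu (up σ φ))).re ≤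
      2 * Real.exp (σ * (1 / 2 - 1 / Real.pi) - ε)
  /-- everywhere outside the unit disc of `u` -/
  out : ∀ u : ℂ, 1 ≤ ‖u‖ → ‖1 - u‖ < ‖1 + u‖ →
    ‖1 + u‖ * Real.exp (L (zu u)).re ≤ 4 * ‖u‖ / Real.sqrt (2 + 2 * ‖u‖ ^ 2) * Real.exp η
  /-- inside the unit disc of `u`, on the arc of the bump -/
  inn : ∀ s φ : ℝ, -τ ≤ s → s ≤ 0 → pa ≤ φ → φ ≤ pb →
    ‖1 + up s φ‖ * Real.exp (L (zu (up s φ))).re ≤ 2 * Real.exp (s * (1 / 2 - ρ / 2) + η)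
  /-- at the two ends of the arc -/
  edge : ∀ s φ : ℝ, -τ ≤ s → s ≤ τ → (φ = pa ∨ φ = pb) →
    ‖1 + up s φ‖ * Real.exp (L (zu (up s φ))).re ≤
      2 * Real.exp (max (s / 2) (s * (1 / 2 - ρ / 2)) - e)
  hρ : 0 < ρ
  hρ' : ρ ≤ 1 / 80
  hpa : 0 < pa
  hab : pa < pb
  hpb : pb < Real.pi / 2
  hτ : 0 < τ
  hτρ : τ ≤ ρ
  he : 0 < e
  he1 : e ≤ 1
  hε : 0 < ε
  hεe : ε ≤ e
  hσ : 0 < σ
  hσe : σ ≤ e
  hση : σ ≤ η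
  hστ : σ ≤ τ

/-- `c_k = [z^k] exp (n L)` -/
noncomputable def cf (L : ℂ → ℂ) (n k : ℕ) : ℝ :=
  (iteratedDeriv k (fun z : ℂ => Complex.exp ((n : ℂ) * L z)) 0).re / k.factorial

/-- the polynomial `(1+u)^n F((1-u)/(1+u))`, `F = ∑_{k ≤ n/2} c_k z^k` -/
noncomputable def Gn (L : ℂ → ℂ) (n : ℕ) : ℝ[X] := Gp n (n / 2) (cf L n)

/-- the part of the coefficient integral over the arc of the bump -/
noncomputable def nr (G : ℝ[X]) (σ pa pb : ℝ) (w : ℕ) : ℂ :=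
  ∫ φ in pa..pb, (G.aeval (up σ φ)) * Complex.exp (-(w : ℂ) * ((σ : ℂ) + (φ : ℂ) * Complex.I))

/-- inner part of `1 / choose n w = (n+1) ∫ t^w (1-t)^(n-w)` -/
noncomputable def bin (n : ℕ) (ρ : ℝ) (w : ℕ) : ℝ :=
  (n + 1) * ∫ t in (1 / 2 - 2 * ρ)..(1 / 2 + 2 * ρ), t ^ w * (1 - t) ^ (n - w)

/-- block A (analytic half), helper64 -/
def ExistsGood : Prop := ∀ ρ : ℝ, 0 < ρ → ρ ≤ 1 / 80 → ∃ pa pb τ : ℝ,
  Real.pi / 2 - ρ < pa ∧ pa < pb ∧ pb < Real.pi / 2 ∧ 0 < τ ∧ τ ≤ ρ ∧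
    ∀ η : ℝ, 0 < η → ∃ (L : ℂ → ℂ) (e σ ε : ℝ), Good L ρ pa pb τ η e σ ε

/-- distance `⌈(1/2 - 1/π) n⌉` -/
noncomputable def Dst (n : ℕ) : ℕ := ⌈(1 / 2 - 1 / Real.pi) * n⌉₊

/-- (HA) of block H -/
def HA : Prop := ∀ ε : ℝ, 0 < ε → ∃ n₀ : ℕ, ∀ n ≥ n₀, ∀ C : Finset (Wd n), IsCode (Dst n) C →
  ∀ w : ℕ, Dst n ≤ w → w + Dst n ≤ n →
    (Nw C w : ℝ) ≤ C.card * pw n (-(1 / 2) + ε) * n.choose w

/-- (HB) of block H -/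
def HB : Prop := ∀ ε : ℝ, 0 < ε → ∀ x2 : ℝ, 0 < x2 → x2 < 1 → ∃ n₀ : ℕ, ∀ n ≥ n₀,
  ∀ C : Finset (Wd n), IsCode (Dst n) C → ∀ k : ℕ, x2 * (psi1 (x2 : ℂ)).re * n ≤ k → 2 * k ≤ n →
    ∃ x : ℝ, x2 ≤ x ∧ x < 1 ∧
      Sk C k * ‖Es (x : ℂ)‖ ^ n ≤ C.card * pw n (1 / 2 + ε) * x ^ k * n.choose k

/-- (HHigh) of block H -/
def HHigh : Prop := ∀ ε : ℝ, 0 < ε → ∃ n₀ : ℕ, ∀ n ≥ n₀, ∀ C : Finset (Wd n), IsCode (Dst n) C →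
  ∀ v : ℕ, v ≤ Dst n → (Nw C (n - v) : ℝ) ≤ C.card * pw n ε * (1 + Real.sqrt 2) ^ v

end Pool.Agent.Lib.MP_0430e4_lc.BY
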