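import Pool.Agent.Lib.MP_0430e4_lc.BY.PsiB
import Pool.Agent.Lib.MP_0430e4_lc.BY.P.Good

/-!
# Block P, analytic half: the far part of the circle `|u| = e^σ` (helper30)

`zs φ s = (1-u)/(1+u)` with `u = e^(s + iφ)`; along a ray the function
`log |1+u| + Re Psi(z)` has derivative `Re (1/2 - lev z / 2)`.
-/

set_option autoImplicit false

namespace Pool.Agent.Lib.MP_0430e4_lc.BY

open Complex

/-- the point `z = (1-u)/(1+u)`, `u = exp (s + iφ)` -/
noncomputable def zs (φ s : ℝ) : ℂ := (1 - exp (s + φ * I)) / (1 + exp (s + φ * I))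

theorem exp_re' (s φ : ℝ) : (exp (s + φ * I)).re = Real.exp s * Real.cos φ := by
  rw [Complex.exp_re]; simp

theorem exp_im' (s φ : ℝ) : (exp (s + φ * I)).im = Real.exp s * Real.sin φ := by
  rw [Complex.exp_im]; simp

theorem norm_exp' (s φ : ℝ) : ‖exp ((s : ℂ) + φ * I)‖ = Real.exp s := by
  rw [Complex.norm_exp]; simp

theorem norm_one_add_exp_sq (s φ : ℝ) :
    ‖1 + exp (s + φ * I)‖ ^ 2 = 2 * Real.exp s * (Real.cosh s + Real.cos φ) := by
  rw [← Complex.normSq_eq_norm_sq, Complex.normSq_apply, add_re, add_im, one_re, one_im,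
    exp_re', exp_im', Real.cosh_eq, Real.exp_neg]
  have h1 := Real.sin_sq_add_cos_sq φ
  have h2 := (Real.exp_pos s).ne'
  have h3 : Real.sin φ ^ 2 = 1 - Real.cos φ ^ 2 := by linarith
  field_simp
  ring_nf
  rw [h3]
  ring

theorem norm_one_sub_exp_sq (s φ : ℝ) :
    ‖1 - exp (s + φ * I)‖ ^ 2 = 2 * Real.exp s * (Real.cosh s - Real.cos φ) := by
  rw [← Complex.normSq_eq_norm_sq, Complex.normSq_apply, sub_re, sub_im, one_re, one_im,
    exp_re', exp_im', Real.cosh_eq, Real.exp_neg]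
  have h1 := Real.sin_sq_add_cos_sq φ
  have h2 := (Real.exp_pos s).ne'
  have h3 : Real.sin φ ^ 2 = 1 - Real.cos φ ^ 2 := by linarith
  field_simp
  ring_nf
  rw [h3]
  ring

theorem one_add_exp_slit {φ : ℝ} (h : 0 ≤ Real.cos φ) (s : ℝ) :
    1 + exp ((s : ℂ) + φ * I) ∈ slitPlane := by
  rw [Complex.mem_slitPlane_iff]
  left
  rw [add_re, one_re, exp_re']
  have := mul_nonneg (Real.exp_pos s).le h
  linarith

theorem one_add_exp_ne {φ : ℝ} (h : 0 ≤ Real.cos φ) (s : ℝ) :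
    1 + exp ((s : ℂ) + φ * I) ≠ 0 := slitPlane_ne_zero (one_add_exp_slit h s)

theorem norm_zs_sq {φ : ℝ} (_h : 0 ≤ Real.cos φ) (s : ℝ) :
    ‖zs φ s‖ ^ 2 = (Real.cosh s - Real.cos φ) / (Real.cosh s + Real.cos φ) := by
  unfold zs
  rw [norm_div, div_pow, norm_one_add_exp_sq, norm_one_sub_exp_sq]
  have h1 := Real.one_le_cosh s
  rw [mul_div_mul_left _ _ (by positivity)]

theorem norm_zs_lt_one {φ : ℝ} (h : 0 < Real.cos φ) (s : ℝ) : ‖zs φ s‖ < 1 := by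
  have h1 := Real.one_le_cosh s
  have h2 : ‖zs φ s‖ ^ 2 < 1 := by
    rw [norm_zs_sq h.le, div_lt_one (by linarith)]
    linarith
  nlinarith [norm_nonneg (zs φ s)]

theorem cosh_sub_one_le {s : ℝ} (hs : |s| ≤ 1) : Real.cosh s - 1 ≤ s ^ 2 := by
  have h1 := Real.cosh_le_exp_half_sq s
  have h2 : s ^ 2 / 2 ≤ 1 := by
    have := sq_abs s
    have : |s| ^ 2 ≤ 1 := pow_le_one₀ (abs_nonneg s) hs
    nlinarith
  have h3 := Real.abs_exp_sub_one_sub_id_le (x := s ^ 2 / 2)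
    (by rw [abs_of_nonneg (by positivity)]; exact h2)
  have h4 := (abs_le.mp h3).2
  nlinarith [sq_nonneg s, mul_nonneg (sq_nonneg s) (sub_nonneg.mpr h2)]

theorem norm_zs_sq_le {φ s : ℝ} (h : 0 ≤ Real.cos φ) (hs : |s| ≤ 1) :
    ‖zs φ s‖ ^ 2 ≤ (1 - Real.cos φ) / (1 + Real.cos φ) + s ^ 2 / 2 := by
  rw [norm_zs_sq h]
  have h1 := Real.one_le_cosh s
  have h2 := cosh_sub_one_le hs
  have h3 : (Real.cosh s - Real.cos φ) / (Real.cosh s + Real.cos φ) -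
      (1 - Real.cos φ) / (1 + Real.cos φ) =
      2 * Real.cos φ * (Real.cosh s - 1) / ((Real.cosh s + Real.cos φ) * (1 + Real.cos φ)) := by
    have h4 : Real.cosh s + Real.cos φ ≠ 0 := by positivity
    have h5 : 1 + Real.cos φ ≠ 0 := by positivity
    field_simp
    ring
  have h4 : 2 * Real.cos φ * (Real.cosh s - 1) / ((Real.cosh s + Real.cos φ) * (1 + Real.cos φ)) ≤
      s ^ 2 / 2 := by
    rw [div_le_iff₀ (by positivity)]
    have h5 : (4 * Real.cos φ) ≤ (Real.cosh s + Real.cos φ) * (1 + Real.cos φ) := by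
      nlinarith [sq_nonneg (1 - Real.cos φ), mul_nonneg h (sub_nonneg.mpr h1)]
    have h6 : 2 * Real.cos φ * (Real.cosh s - 1) ≤ 2 * Real.cos φ * s ^ 2 :=
      mul_le_mul_of_nonneg_left h2 (by positivity)
    nlinarith [mul_le_mul_of_nonneg_left h5 (sq_nonneg s)]
  linarith

theorem hasDerivAt_exp' (φ s : ℝ) :
    HasDerivAt (fun s : ℝ => exp ((s : ℂ) + φ * I)) (exp (s + φ * I)) s := by
  have h1 : HasDerivAt (fun s : ℝ => ((s : ℂ) + φ * I)) 1 s :=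
    (Complex.ofRealCLM.hasDerivAt (x := s)).add_const _
  have h2 := h1.cexp
  rwa [mul_one] at h2

theorem hasDerivAt_zs {φ : ℝ} (h : 0 ≤ Real.cos φ) (s : ℝ) :
    HasDerivAt (zs φ) (-(1 - zs φ s ^ 2) / 2) s := by
  have h1 := hasDerivAt_exp' φ s
  have hne := one_add_exp_ne h s
  have h2 := (h1.const_sub 1).div (h1.const_add 1) hne
  refine h2.congr_deriv ?_
  unfold zs
  field_simp
  ring

/-- `log |1+u| + Re Psi(z)` along a ray -/
noncomputable def Fr (φ s : ℝ) : ℝ := Real.log ‖1 + exp ((s : ℂ) + φ * I)‖ + (Psi (zs φ s)).re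

theorem hasDerivAt_Fr {φ : ℝ} (h : 0 < Real.cos φ) (s : ℝ) :
    HasDerivAt (Fr φ) (1 / 2 - (lev (zs φ s)).re / 2) s := by
  have h1 := hasDerivAt_exp' φ s
  have hz := norm_zs_lt_one h s
  have hne := one_add_exp_ne h.le s
  have h2 := (h1.const_add 1).clog_real (one_add_exp_slit h.le s)
  have h3 : HasDerivAt (fun s : ℝ => Psi (zs φ s)) (psi1 (zs φ s) * (-(1 - zs φ s ^ 2) / 2)) s :=
    (hasDerivAt_Psi hz).comp s (hasDerivAt_zs h.le s)
  have h23 : HasDerivAt (fun s : ℝ => Complex.log (1 + exp ((s : ℂ) + φ * I)) + Psi (zs φ s))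
      ((exp ((s : ℂ) + φ * I)) / (1 + exp (s + φ * I)) +
      psi1 (zs φ s) * (-(1 - zs φ s ^ 2) / 2)) s := h2.add h3
  have h4 := (Complex.reCLM.hasFDerivAt.comp_hasDerivAt s h23)
  have h5 : (Complex.reCLM ∘ fun s : ℝ => Complex.log (1 + exp ((s : ℂ) + φ * I)) +
      Psi (zs φ s)) = Fr φ := by
    funext t
    simp only [Function.comp_apply, Complex.reCLM_apply, Fr, add_re, Complex.log_re]
  have h6 : (Complex.reCLM ((exp ((s : ℂ) + φ * I)) / (1 + exp (s + φ * I)) +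
      psi1 (zs φ s) * (-(1 - zs φ s ^ 2) / 2))) = 1 / 2 - (lev (zs φ s)).re / 2 := by
    have h7 : (exp ((s : ℂ) + φ * I)) / (1 + exp (s + φ * I)) +
        psi1 (zs φ s) * (-(1 - zs φ s ^ 2) / 2) = 1 / 2 - lev (zs φ s) / 2 := by
      have h8 : (exp ((s : ℂ) + φ * I)) / (1 + exp (s + φ * I)) = (1 - zs φ s) / 2 := by
        unfold zs
        field_simp
        ring
      rw [h8]
      unfold lev
      ring
    rw [h7, Complex.reCLM_apply, sub_re]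
    have h9 : ((1 : ℂ) / 2).re = 1 / 2 := by norm_num
    have h10 : (lev (zs φ s) / 2).re = (lev (zs φ s)).re / 2 := by
      have : lev (zs φ s) / 2 = ((1 / 2 : ℝ) : ℂ) * lev (zs φ s) := by push_cast; ring
      rw [this, Complex.re_ofReal_mul]; ring
    rw [h9, h10]
  rw [← h5, ← h6]
  exact h4

theorem zs_zero {φ : ℝ} (h : 0 < Real.cos (φ / 2)) :
    zs φ 0 = ((-Real.tan (φ / 2) : ℝ) : ℂ) * I := by
  unfold zs
  have h1 : exp (((0 : ℝ) : ℂ) + φ * I) = exp ((φ / 2 : ℝ) * I) * exp ((φ / 2 : ℝ) * I) := by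
    rw [← Complex.exp_add]; congr 1; push_cast; ring
  have h2 : exp ((φ / 2 : ℝ) * I) * exp (-((φ / 2 : ℝ) * I)) = 1 := by
    rw [← Complex.exp_add, add_neg_cancel, Complex.exp_zero]
  have hne : exp ((φ / 2 : ℝ) * I) ≠ 0 := Complex.exp_ne_zero _
  have e1 : (1 : ℂ) + exp (((0 : ℝ) : ℂ) + φ * I) =
      2 * (Real.cos (φ / 2) : ℂ) * exp ((φ / 2 : ℝ) * I) := by
    rw [h1, Complex.ofReal_cos, Complex.cos, ← h2, ← neg_mul]
    ring
  have e2 : (1 : ℂ) - exp (((0 : ℝ) : ℂ) + φ * I) =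
      -(2 * (Real.sin (φ / 2) : ℂ) * I * exp ((φ / 2 : ℝ) * I)) := by
    rw [h1, Complex.ofReal_sin, Complex.sin, ← h2, ← neg_mul]
    linear_combination (exp (-((φ / 2 : ℝ) : ℂ) * I) - exp (((φ / 2 : ℝ) : ℂ) * I)) *
      exp ((φ / 2 : ℝ) * I) * Complex.I_sq
  have hc' : ((Real.cos (φ / 2) : ℝ) : ℂ) ≠ 0 := by exact_mod_cast h.ne'
  have e3 : ((-(Real.sin (φ / 2) / Real.cos (φ / 2)) : ℝ) : ℂ) =
      -((Real.sin (φ / 2) : ℂ) / (Real.cos (φ / 2) : ℂ)) := by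
    rw [Complex.ofReal_neg, Complex.ofReal_div]
  rw [e1, e2, Real.tan_eq_sin_div_cos, e3]
  field_simp

/-- on the unit circle of `u` -/
theorem Fr_zero {φ : ℝ} (h0 : 0 ≤ φ) (h1 : φ < Real.pi / 2) : Fr φ 0 = Real.log 2 := by
  have hpi := Real.pi_pos
  have hc : 0 < Real.cos (φ / 2) := Real.cos_pos_of_mem_Ioo ⟨by linarith, by linarith⟩
  have hs : 0 ≤ Real.sin (φ / 2) := Real.sin_nonneg_of_nonneg_of_le_pi (by linarith) (by linarith)
  have hcφ : 0 < Real.cos φ := Real.cos_pos_of_mem_Ioo ⟨by linarith, by linarith⟩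
  have hz := norm_zs_lt_one hcφ 0
  have hzz := zs_zero hc
  have hy : |(-Real.tan (φ / 2))| < 1 := by
    rw [hzz, norm_mul, Complex.norm_real, Complex.norm_I, mul_one, Real.norm_eq_abs] at hz
    exact hz
  have h2 := norm_Es_I hy
  rw [← hzz, norm_Es] at h2
  have h3 : ‖1 + exp (((0 : ℝ) : ℂ) + φ * I)‖ ^ 2 = 4 * Real.cos (φ / 2) ^ 2 := by
    rw [norm_one_add_exp_sq, Real.exp_zero, Real.cosh_zero]
    have h4 := Real.cos_sq (φ / 2)
    rw [show 2 * (φ / 2) = φ from by ring] at h4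
    rw [h4]; ring
  have h5 : (‖1 + exp (((0 : ℝ) : ℂ) + φ * I)‖ * Real.exp (Psi (zs φ 0)).re) ^ 2 = 2 ^ 2 := by
    rw [mul_pow, h3, h2, neg_sq, Real.tan_eq_sin_div_cos]
    have h6 := Real.sin_sq_add_cos_sq (φ / 2)
    field_simp
    nlinarith
  have h7 : ‖1 + exp (((0 : ℝ) : ℂ) + φ * I)‖ * Real.exp (Psi (zs φ 0)).re = 2 :=
    (pow_left_inj₀ (by positivity) (by norm_num) (by norm_num)).mp h5
  have h8 : 0 < ‖1 + exp (((0 : ℝ) : ℂ) + φ * I)‖ := by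
    rw [norm_pos_iff]; exact one_add_exp_ne hcφ.le 0
  unfold Fr
  rw [← Real.log_exp ((Psi (zs φ 0)).re), ← Real.log_mul h8.ne' (Real.exp_pos _).ne', h7]

/-- mean value inequality on `[0, s]` -/
theorem mvt_le {f f' : ℝ → ℝ} {C s : ℝ} (hs : 0 ≤ s) (hf : ∀ x, HasDerivAt f (f' x) x)
    (hC : ∀ x, 0 ≤ x → x ≤ s → f' x ≤ C) : f s ≤ f 0 + C * s := by
  have h := Convex.image_sub_le_mul_sub_of_deriv_le (convex_Icc (0 : ℝ) s)
    (f := f) (fun x _ => (hf x).continuousAt.continuousWithinAt)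
    (fun x _ => (hf x).differentiableAt.differentiableWithinAt) (C := C)
    (fun x hx => by
      rw [interior_Icc] at hx
      rw [(hf x).deriv]
      exact hC x hx.1.le hx.2.le) 0 ⟨le_rfl, hs⟩ s ⟨hs, le_rfl⟩ hs
  linarith

theorem Fr_le {φ σ : ℝ} (h0 : 0 ≤ φ) (h1 : φ < Real.pi / 2) (hσ : 0 ≤ σ) (hσ1 : σ ≤ 1) :
    Fr φ σ ≤ Real.log 2 + σ * (1 / 2 - 1 / Real.pi) +
      σ / Real.pi * ((1 - Real.cos φ) / (1 + Real.cos φ) + σ ^ 2 / 2) := by
  have hpi := Real.pi_pos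
  have hcφ : 0 < Real.cos φ := Real.cos_pos_of_mem_Ioo ⟨by linarith, by linarith⟩
  rw [← Fr_zero h0 h1]
  have h := mvt_le hσ (fun x => hasDerivAt_Fr hcφ x)
    (C := 1 / 2 - 1 / Real.pi + 1 / Real.pi * ((1 - Real.cos φ) / (1 + Real.cos φ) + σ ^ 2 / 2))
    (fun x hx0 hx1 => by
      have h2 := norm_lev_sub (norm_zs_lt_one hcφ x)
      have h3 := norm_zs_sq_le (φ := φ) (s := x) hcφ.le (by rw [abs_of_nonneg hx0]; linarith)
      have h4 := Complex.abs_re_le_norm (lev (zs φ x) - ((2 / Real.pi : ℝ) : ℂ))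
      rw [sub_re, Complex.ofReal_re] at h4
      have h5 := (abs_le.mp (h4.trans h2)).1
      have h6 : x ^ 2 ≤ σ ^ 2 := pow_le_pow_left₀ hx0 hx1 2
      have h7 : 2 / Real.pi * ‖zs φ x‖ ^ 2 ≤
          2 / Real.pi * ((1 - Real.cos φ) / (1 + Real.cos φ) + σ ^ 2 / 2) :=
        mul_le_mul_of_nonneg_left (by linarith) (by positivity)
      have h8 : 2 / Real.pi = 2 * (1 / Real.pi) := by ring
      rw [h8] at h5 h7
      linarith)
  refine h.trans (le_of_eq ?_)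
  ring

theorem tan_half_sq {φ : ℝ} (h0 : 0 ≤ φ) (h1 : φ < Real.pi / 2) :
    (1 - Real.cos φ) / (1 + Real.cos φ) = Real.tan (φ / 2) ^ 2 := by
  have hpi := Real.pi_pos
  have hc : 0 < Real.cos (φ / 2) := Real.cos_pos_of_mem_Ioo ⟨by linarith, by linarith⟩
  have h4 := Real.cos_sq (φ / 2)
  rw [show 2 * (φ / 2) = φ from by ring] at h4
  have h5 := Real.sin_sq_add_cos_sq (φ / 2)
  have h6 : Real.cos φ = 2 * Real.cos (φ / 2) ^ 2 - 1 := by linarith
  rw [h6, Real.tan_eq_sin_div_cos, div_pow]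
  have h7 : Real.sin (φ / 2) ^ 2 = 1 - Real.cos (φ / 2) ^ 2 := by linarith
  rw [h7]
  have hc2 : Real.cos (φ / 2) ^ 2 ≠ 0 := by positivity
  have h8 : 1 + (2 * Real.cos (φ / 2) ^ 2 - 1) = 2 * Real.cos (φ / 2) ^ 2 := by ring
  rw [h8]
  field_simp
  ring

theorem tan_half_nonneg {φ : ℝ} (h0 : 0 ≤ φ) (h1 : φ < Real.pi / 2) : 0 ≤ Real.tan (φ / 2) := by
  have hpi := Real.pi_pos
  exact Real.tan_nonneg_of_nonneg_of_le_pi_div_two (by linarith) (by linarith)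

theorem tan_half_lt_one {φ : ℝ} (h0 : 0 ≤ φ) (h1 : φ < Real.pi / 2) : Real.tan (φ / 2) < 1 := by
  have hpi := Real.pi_pos
  rw [← Real.tan_pi_div_four]
  exact Real.tan_lt_tan_of_nonneg_of_lt_pi_div_two (by linarith) (by linarith) (by linarith)

theorem hasDerivAt_V {V : ℂ → ℂ} {R : ℝ} (hR : 1 < R) (hV : DifferentiableOn ℂ V (Metric.ball 0 R))
    {φ : ℝ} (h : 0 < Real.cos φ) (s : ℝ) :
    HasDerivAt (fun s : ℝ => (V (zs φ s)).re) (-(deriv V (zs φ s) * (1 - zs φ s ^ 2)).re / 2) s := by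
  have hz := norm_zs_lt_one h s
  have hmem : zs φ s ∈ Metric.ball (0 : ℂ) R := by
    rw [mem_ball_zero_iff]; linarith
  have h1 : HasDerivAt V (deriv V (zs φ s)) (zs φ s) :=
    (hV.differentiableAt (Metric.isOpen_ball.mem_nhds hmem)).hasDerivAt
  have h2 : HasDerivAt (fun s : ℝ => V (zs φ s)) (deriv V (zs φ s) * (-(1 - zs φ s ^ 2) / 2)) s :=
    h1.comp s (hasDerivAt_zs h.le s)
  have h3 := (Complex.reCLM.hasFDerivAt.comp_hasDerivAt s h2)
  have h4 : (Complex.reCLM ∘ fun s : ℝ => V (zs φ s)) = fun s : ℝ => (V (zs φ s)).re := rfl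
  rw [h4] at h3
  refine h3.congr_deriv ?_
  rw [Complex.reCLM_apply]
  have h5 : deriv V (zs φ s) * (-(1 - zs φ s ^ 2) / 2) =
      ((-(1 / 2) : ℝ) : ℂ) * (deriv V (zs φ s) * (1 - zs φ s ^ 2)) := by push_cast; ring
  rw [h5, Complex.re_ofReal_mul]
  ring

theorem vfar {V : ℂ → ℂ} {R e v1 ya yb : ℝ} (hR : 1 < R)
    (hV : DifferentiableOn ℂ V (Metric.ball 0 R)) (h1 : (deriv V 0).re = v1) (hv1 : 0 < v1)
    (he : 0 < e)
    (him : ∀ y : ℝ, |y| ≤ ya ∨ (yb ≤ |y| ∧ |y| ≤ 1) → (V (y * I)).re ≤ -e * y ^ 2) :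
    ∃ σ0 : ℝ, 0 < σ0 ∧ σ0 ≤ 1 ∧ ∀ φ s : ℝ, 0 ≤ φ → φ < Real.pi / 2 →
      (Real.tan (φ / 2) ≤ ya ∨ yb ≤ Real.tan (φ / 2)) → 0 ≤ s → s ≤ σ0 →
      (V (zs φ s)).re ≤ -(e / 2) * Real.tan (φ / 2) ^ 2 - (v1 / 4) * s := by
  have hd : DifferentiableOn ℂ (deriv V) (Metric.ball 0 R) := hV.deriv Metric.isOpen_ball
  set g : ℂ → ℂ := fun z => deriv V z * (1 - z ^ 2) with hg
  have hgc : ContinuousOn g (Metric.ball 0 R) :=
    hd.continuousOn.mul (by fun_prop)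
  have hsub : Metric.closedBall (0 : ℂ) 1 ⊆ Metric.ball 0 R := Metric.closedBall_subset_ball hR
  obtain ⟨K, hK⟩ := (isCompact_closedBall (0 : ℂ) 1).exists_bound_of_continuousOn
    (hgc.mono hsub)
  have h0R : (0 : ℂ) ∈ Metric.ball (0 : ℂ) R := Metric.mem_ball_self (by linarith)
  have hgc0 : ContinuousAt (fun z => (g z).re) 0 :=
    Complex.continuous_re.continuousAt.comp (hgc.continuousAt (Metric.isOpen_ball.mem_nhds h0R))
  have hg0 : (g 0).re = v1 := by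
    simp only [hg]
    rw [show (1 : ℂ) - 0 ^ 2 = 1 from by ring, mul_one, h1]
  have hev : ∀ᶠ z in nhds (0 : ℂ), v1 / 2 < (g z).re := by
    apply hgc0.eventually_const_lt
    change v1 / 2 < (g 0).re
    rw [hg0]; linarith
  obtain ⟨r1, hr1, hr2⟩ := Metric.eventually_nhds_iff.mp hev
  set r0 : ℝ := r1 / 2 with hr0
  have hr0p : 0 < r0 := by positivity
  have hK0 : 0 ≤ K := (norm_nonneg _).trans (hK 0 (by simp))
  have hlow : ∀ z : ℂ, ‖z‖ ≤ r0 → v1 / 2 < (g z).re := by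
    intro z hz
    apply hr2
    rw [dist_zero_right]; linarith
  set A : ℝ := K / 2 + v1 / 4 with hA
  have hAp : 0 < A := by positivity
  refine ⟨min 1 (min r0 (e * r0 ^ 2 / (8 * A))), by positivity, min_le_left _ _, ?_⟩
  intro φ s hφ0 hφ1 hφ hs0 hs1
  have hpi := Real.pi_pos
  have hcφ : 0 < Real.cos φ := Real.cos_pos_of_mem_Ioo ⟨by linarith, by linarith⟩
  have hc : 0 < Real.cos (φ / 2) := Real.cos_pos_of_mem_Ioo ⟨by linarith, by linarith⟩
  have hs1' : s ≤ 1 := hs1.trans (min_le_left _ _)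
  have hs2 : s ≤ r0 := hs1.trans ((min_le_right _ _).trans (min_le_left _ _))
  have hs3 : s ≤ e * r0 ^ 2 / (8 * A) := hs1.trans ((min_le_right _ _).trans (min_le_right _ _))
  set y : ℝ := Real.tan (φ / 2) with hy
  have hy0 : 0 ≤ y := tan_half_nonneg hφ0 hφ1
  have hy1 : y < 1 := tan_half_lt_one hφ0 hφ1
  have hf0 : (V (zs φ 0)).re ≤ -e * y ^ 2 := by
    have h2 := him (-y) (by
      rw [abs_neg, abs_of_nonneg hy0]
      rcases hφ with h | h
      · exact Or.inl h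
      · exact Or.inr ⟨h, hy1.le⟩)
    rw [neg_sq] at h2
    rw [zs_zero hc]
    exact h2
  have hder := fun x : ℝ => hasDerivAt_V hR hV hcφ x
  by_cases hyr : y ≤ r0 / 2
  · have h2 := mvt_le hs0 hder (C := -(v1 / 4)) (fun x hx0 hx1 => by
      have h3 := norm_zs_sq_le (φ := φ) (s := x) hcφ.le (by rw [abs_of_nonneg hx0]; linarith)
      rw [tan_half_sq hφ0 hφ1] at h3
      have h4 : ‖zs φ x‖ ≤ r0 := by
        apply le_of_sq_le_sq _ hr0p.le
        have h5 : Real.tan (φ / 2) ^ 2 ≤ (r0 / 2) ^ 2 := pow_le_pow_left₀ hy0 hyr 2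
        have h6 : x ^ 2 ≤ r0 ^ 2 := pow_le_pow_left₀ hx0 (hx1.trans hs2) 2
        nlinarith
      have h5 := hlow _ h4
      simp only [hg] at h5
      linarith)
    nlinarith [sq_nonneg y, mul_nonneg he.le (sq_nonneg y)]
  · push Not at hyr
    have h2 := mvt_le hs0 hder (C := K / 2) (fun x hx0 hx1 => by
      have h3 := norm_zs_lt_one hcφ x
      have h4 := hK (zs φ x) (by rw [mem_closedBall_zero_iff]; exact h3.le)
      have h5 := (abs_le.mp ((Complex.abs_re_le_norm _).trans h4)).1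
      simp only [hg] at h5
      linarith)
    have h6 : (r0 / 2) ^ 2 ≤ y ^ 2 := pow_le_pow_left₀ (by positivity) hyr.le 2
    have h7 : s * (8 * A) ≤ e * r0 ^ 2 := by
      rwa [le_div_iff₀ (by positivity)] at hs3
    have h8 : e * (r0 / 2) ^ 2 ≤ e * y ^ 2 := mul_le_mul_of_nonneg_left h6 he.le
    rw [hA] at h7
    nlinarith

/-- **The far part.** -/
theorem far_bound {V : ℂ → ℂ} {R e v1 ya yb : ℝ} (hR : 1 < R)
    (hV : DifferentiableOn ℂ V (Metric.ball 0 R)) (h1 : (deriv V 0).re = v1) (hv1 : 0 < v1)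
    (he : 0 < e)
    (him : ∀ y : ℝ, |y| ≤ ya ∨ (yb ≤ |y| ∧ |y| ≤ 1) → (V (y * I)).re ≤ -e * y ^ 2) :
    ∃ κ : ℝ, 0 < κ ∧ ∃ a0 : ℝ, 0 < a0 ∧ ∃ c : ℝ, 0 < c ∧ ∀ a : ℝ, 0 < a → a ≤ a0 →
      ∀ σ : ℝ, 0 < σ → σ ≤ κ * a → ∀ φ : ℝ, 0 ≤ φ → φ ≤ Real.pi →
      (φ ≤ 2 * Real.arctan ya ∨ 2 * Real.arctan yb ≤ φ) → ‖1 - up σ φ‖ < ‖1 + up σ φ‖ →
      ‖1 + up σ φ‖ * Real.exp (Psi (zu (up σ φ)) + (a : ℂ) * V (zu (up σ φ))).re ≤
        2 * Real.exp (σ * (1 / 2 - 1 / Real.pi) - c * a * σ) := by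
  obtain ⟨σ0, hσ0, hσ01, hvf⟩ := vfar hR hV h1 hv1 he him
  have hpi := Real.pi_pos
  have hpi3 := Real.pi_gt_three
  refine ⟨e, he, min (σ0 / e) (v1 / e ^ 2), by positivity, v1 / 12, by positivity, ?_⟩
  intro a ha ha0 σ hσ hσa φ hφ0 hφpi hφ hlt
  have ha1 : a * e ≤ σ0 := by
    have := ha0.trans (min_le_left _ _)
    rwa [le_div_iff₀ he] at this
  have ha2 : a * e ^ 2 ≤ v1 := by
    have := ha0.trans (min_le_right _ _)
    rwa [le_div_iff₀ (by positivity)] at this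
  have hσ0' : σ ≤ σ0 := hσa.trans (by linarith)
  have hcφ : 0 < Real.cos φ := by
    have h2 : ‖1 - up σ φ‖ ^ 2 < ‖1 + up σ φ‖ ^ 2 :=
      pow_lt_pow_left₀ hlt (norm_nonneg _) (by norm_num)
    unfold up at h2
    rw [norm_one_sub_exp_sq, norm_one_add_exp_sq] at h2
    have h3 := Real.exp_pos σ
    have h4 : Real.cosh σ - Real.cos φ < Real.cosh σ + Real.cos φ :=
      lt_of_mul_lt_mul_left h2 (by positivity)
    linarith
  have hφ1 : φ < Real.pi / 2 := by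
    by_contra hcon
    push Not at hcon
    have := Real.cos_nonpos_of_pi_div_two_le_of_le hcon (by linarith)
    linarith
  have hφ' : Real.tan (φ / 2) ≤ ya ∨ yb ≤ Real.tan (φ / 2) := by
    rcases hφ with h | h
    · left
      rw [← Real.tan_arctan ya]
      apply Real.strictMonoOn_tan.monotoneOn ⟨by linarith, by linarith⟩
        ⟨Real.neg_pi_div_two_lt_arctan _, Real.arctan_lt_pi_div_two _⟩
      linarith
    · right
      rw [← Real.tan_arctan yb]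
      apply Real.strictMonoOn_tan.monotoneOn
        ⟨Real.neg_pi_div_two_lt_arctan _, Real.arctan_lt_pi_div_two _⟩ ⟨by linarith, by linarith⟩
      linarith
  have hA := hvf φ σ hφ0 hφ1 hφ' hσ.le hσ0'
  have hB := Fr_le hφ0 hφ1 hσ.le (hσ0'.trans hσ01)
  rw [tan_half_sq hφ0 hφ1] at hB
  set y : ℝ := Real.tan (φ / 2) with hy
  have hne := one_add_exp_ne hcφ.le σ
  have hpos : 0 < ‖1 + exp ((σ : ℂ) + φ * I)‖ := norm_pos_iff.mpr hne
  have e1 : ‖1 + up σ φ‖ * Real.exp (Psi (zu (up σ φ)) + (a : ℂ) * V (zu (up σ φ))).re =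
      Real.exp (Fr φ σ + a * (V (zs φ σ)).re) := by
    unfold Fr
    rw [add_assoc, Real.exp_add, Real.exp_log hpos, add_re, Complex.re_ofReal_mul]
    rfl
  have e2 : 2 * Real.exp (σ * (1 / 2 - 1 / Real.pi) - v1 / 12 * a * σ) =
      Real.exp (Real.log 2 + (σ * (1 / 2 - 1 / Real.pi) - v1 / 12 * a * σ)) := by
    rw [Real.exp_add, Real.exp_log (by norm_num)]
  rw [e1, e2]
  apply Real.exp_le_exp.mpr
  have hA' : a * (V (zs φ σ)).re ≤ a * (-(e / 2) * y ^ 2 - v1 / 4 * σ) :=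
    mul_le_mul_of_nonneg_left hA ha.le
  have hy2 : 0 ≤ y ^ 2 := sq_nonneg y
  have hinv : 1 / Real.pi ≤ 1 / 3 := by
    apply one_div_le_one_div_of_le (by norm_num) hpi3.le
  have e3 : σ / Real.pi * (y ^ 2 + σ ^ 2 / 2) ≤ σ / 3 * (y ^ 2 + σ ^ 2 / 2) := by
    apply mul_le_mul_of_nonneg_right _ (by positivity)
    rw [div_le_div_iff_of_pos_left hσ hpi (by norm_num)]
    exact hpi3.le
  have e4 : σ * y ^ 2 ≤ e * a * y ^ 2 := mul_le_mul_of_nonneg_right hσa hy2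
  have e5 : σ * σ ^ 2 ≤ σ * (v1 * a) := by
    apply mul_le_mul_of_nonneg_left _ hσ.le
    calc σ ^ 2 ≤ (e * a) ^ 2 := pow_le_pow_left₀ hσ.le hσa 2
      _ = (a * e ^ 2) * a := by ring
      _ ≤ v1 * a := mul_le_mul_of_nonneg_right ha2 ha.le
  nlinarith [mul_nonneg he.le (mul_nonneg ha.le hy2), mul_nonneg hv1.le (mul_nonneg ha.le hσ.le)]

end Pool.Agent.Lib.MP_0430e4_lc.BY
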