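import Pool.Agent.Lib.MP_0430e4_lc.BY.E
import Pool.Agent.Lib.MP_0430e4_lc.BY.P.AFar

/-!
# Block P, analytic half: the fields `out`, `inn`, `edge` of `Good` (helper30)
-/

set_option autoImplicit false

namespace Pool.Agent.Lib.MP_0430e4_lc.BY

open Complex

theorem norm_zu_lt {u : ℂ} (h : ‖1 - u‖ < ‖1 + u‖) : ‖zu u‖ < 1 := by
  unfold zu
  have h0 : 0 < ‖1 + u‖ := (norm_nonneg _).trans_lt h
  rw [norm_div, div_lt_one h0]
  exact h

theorem norm_add_sq_add_sub (u : ℂ) : ‖1 + u‖ ^ 2 + ‖1 - u‖ ^ 2 = 2 + 2 * ‖u‖ ^ 2 := by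
  rw [← Complex.normSq_eq_norm_sq, ← Complex.normSq_eq_norm_sq, ← Complex.normSq_eq_norm_sq,
    Complex.normSq_apply, Complex.normSq_apply, Complex.normSq_apply, add_re, add_im, sub_re,
    sub_im, one_re, one_im]
  ring

theorem re_zu_nonpos {u : ℂ} (h1 : 1 ≤ ‖u‖) : (zu u).re ≤ 0 := by
  unfold zu
  rw [Complex.div_re, ← add_div]
  apply div_nonpos_of_nonpos_of_nonneg _ (Complex.normSq_nonneg _)
  rw [add_re, add_im, sub_re, sub_im, one_re, one_im]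
  have h2 : 1 ≤ ‖u‖ ^ 2 := one_le_pow₀ h1
  rw [← Complex.normSq_eq_norm_sq, Complex.normSq_apply] at h2
  nlinarith

/-- `|(1+u) E*(z)| ≤ 4|u| / (2+2|u|^2)^(1/2)` outside the unit disc of `u`. -/
theorem out_core {u : ℂ} (h1 : 1 ≤ ‖u‖) (h : ‖1 - u‖ < ‖1 + u‖) :
    ‖1 + u‖ * Real.exp (Psi (zu u)).re ≤ 4 * ‖u‖ / Real.sqrt (2 + 2 * ‖u‖ ^ 2) := by
  have h0 : 0 < ‖1 + u‖ := (norm_nonneg _).trans_lt h
  have hne : (1 + u : ℂ) ≠ 0 := norm_pos_iff.mp h0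
  have hz := norm_zu_lt h
  have hre := re_zu_nonpos h1
  have hz' : ‖-(zu u)‖ < 1 := by rwa [norm_neg]
  have h2 := sq_ge hz' (by rw [neg_re]; linarith)
  rw [norm_neg] at h2
  have h3 := norm_Es_mul_neg hz
  have h4 : 1 - zu u ^ 2 = 4 * u / (1 + u) ^ 2 := by
    unfold zu
    field_simp
    ring
  have h5 : ‖1 - zu u ^ 2‖ = 4 * ‖u‖ / ‖1 + u‖ ^ 2 := by
    rw [h4, norm_div, norm_mul, norm_pow]
    norm_num
  have h6 : 1 + ‖zu u‖ ^ 2 = (2 + 2 * ‖u‖ ^ 2) / ‖1 + u‖ ^ 2 := by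
    rw [← norm_add_sq_add_sub]
    unfold zu
    rw [norm_div]
    field_simp
  rw [← norm_Es]
  set S : ℝ := Real.sqrt (2 + 2 * ‖u‖ ^ 2) with hS
  have hSpos : 0 < S := Real.sqrt_pos.mpr (by positivity)
  have hS2 : S ^ 2 = 2 + 2 * ‖u‖ ^ 2 := Real.sq_sqrt (by positivity)
  have h7 : S / ‖1 + u‖ ≤ ‖Es (-(zu u))‖ := by
    apply le_of_sq_le_sq _ (norm_nonneg _)
    rw [div_pow, hS2, ← h6]
    exact h2
  rw [le_div_iff₀ hSpos]
  have h8 : ‖Es (zu u)‖ * (S / ‖1 + u‖) ≤ 4 * ‖u‖ / ‖1 + u‖ ^ 2 := by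
    rw [← h5, ← h3]
    exact mul_le_mul_of_nonneg_left h7 (norm_nonneg _)
  have h9 : ‖1 + u‖ * ‖Es (zu u)‖ * S = ‖Es (zu u)‖ * (S / ‖1 + u‖) * ‖1 + u‖ ^ 2 := by
    field_simp
  rw [h9]
  calc ‖Es (zu u)‖ * (S / ‖1 + u‖) * ‖1 + u‖ ^ 2 ≤ 4 * ‖u‖ / ‖1 + u‖ ^ 2 * ‖1 + u‖ ^ 2 :=
        mul_le_mul_of_nonneg_right h8 (by positivity)
    _ = 4 * ‖u‖ := by field_simp

theorem exp_L_le {V : ℂ → ℂ} {K a η : ℝ} (hK : ∀ z : ℂ, ‖z‖ ≤ 1 → ‖V z‖ ≤ K) (ha : 0 ≤ a)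
    (haη : a * K ≤ η) {z : ℂ} (hz : ‖z‖ < 1) {A B : ℝ} (hA : 0 ≤ A)
    (h : A * Real.exp (Psi z).re ≤ B) :
    A * Real.exp (Psi z + (a : ℂ) * V z).re ≤ B * Real.exp η := by
  have h1 : (V z).re ≤ K := (Complex.re_le_norm _).trans (hK z hz.le)
  have h2 : a * (V z).re ≤ η := (mul_le_mul_of_nonneg_left h1 ha).trans haη
  rw [add_re, Complex.re_ofReal_mul, Real.exp_add, ← mul_assoc]
  exact mul_le_mul h (Real.exp_le_exp.mpr h2) (Real.exp_pos _).le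
    ((mul_nonneg hA (Real.exp_pos _).le).trans h)

/-- the field `out` -/
theorem out_bound {V : ℂ → ℂ} {K a η : ℝ} (hK : ∀ z : ℂ, ‖z‖ ≤ 1 → ‖V z‖ ≤ K) (ha : 0 ≤ a)
    (haη : a * K ≤ η) {u : ℂ} (h1 : 1 ≤ ‖u‖) (h : ‖1 - u‖ < ‖1 + u‖) :
    ‖1 + u‖ * Real.exp (Psi (zu u) + (a : ℂ) * V (zu u)).re ≤
      4 * ‖u‖ / Real.sqrt (2 + 2 * ‖u‖ ^ 2) * Real.exp η :=
  exp_L_le hK ha haη (norm_zu_lt h) (norm_nonneg _) (out_core h1 h)

theorem norm_zs_add_I {φ s : ℝ} (hφ : 0 ≤ Real.cos φ) (h : |s| + |φ - Real.pi / 2| ≤ 1) :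
    ‖zs φ s + I‖ ≤ 3 * (|s| + |φ - Real.pi / 2|) := by
  set u : ℂ := exp ((s : ℂ) + φ * I) with hu
  have hne : (1 + u : ℂ) ≠ 0 := one_add_exp_ne hφ s
  have h1 : zs φ s + I = (1 - I) * (I - u) / (1 + u) := by
    unfold zs
    rw [← hu]
    field_simp
    linear_combination (1 : ℂ) * Complex.I_sq
  have h2 : 1 ≤ ‖1 + u‖ := by
    have h3 := Complex.re_le_norm (1 + u)
    rw [add_re, one_re, hu, exp_re'] at h3
    have := mul_nonneg (Real.exp_pos s).le hφ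
    linarith
  have h3 : ‖(1 : ℂ) - I‖ ≤ 3 / 2 := by
    apply le_of_sq_le_sq _ (by norm_num)
    rw [← Complex.normSq_eq_norm_sq, Complex.normSq_apply]
    simp
    norm_num
  set w : ℂ := (s : ℂ) + ((φ - Real.pi / 2 : ℝ) : ℂ) * I with hw
  have hwn : ‖w‖ ≤ |s| + |φ - Real.pi / 2| := by
    rw [hw]
    refine (norm_add_le _ _).trans ?_
    rw [norm_mul, Complex.norm_I, mul_one, Complex.norm_real, Complex.norm_real,
      Real.norm_eq_abs, Real.norm_eq_abs]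
  have h4 : u = I * exp w := by
    have h5 : exp ((Real.pi / 2 : ℝ) * I) = I := by
      push_cast
      exact Complex.exp_pi_div_two_mul_I
    rw [← h5, ← Complex.exp_add, hu, hw]
    congr 1
    push_cast
    ring
  have h6 : ‖I - u‖ ≤ 2 * (|s| + |φ - Real.pi / 2|) := by
    rw [h4]
    have h7 : I - I * exp w = -(I * (exp w - 1)) := by ring
    rw [h7, norm_neg, norm_mul, Complex.norm_I, one_mul]
    have h8 := Complex.norm_exp_sub_one_le (x := w) (hwn.trans h)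
    linarith
  rw [h1, norm_div, norm_mul]
  calc ‖(1 : ℂ) - I‖ * ‖I - u‖ / ‖1 + u‖ ≤ ‖(1 : ℂ) - I‖ * ‖I - u‖ :=
        div_le_self (by positivity) h2
    _ ≤ 3 / 2 * (2 * (|s| + |φ - Real.pi / 2|)) :=
        mul_le_mul h3 h6 (norm_nonneg _) (by norm_num)
    _ = _ := by ring

/-- the local frequency is close to `1/2` near the corner -/
theorem lev_near (ρ : ℝ) (hρ : 0 < ρ) : ∃ ρ' : ℝ, 0 < ρ' ∧ ρ' ≤ 1 / 2 ∧ ∀ φ s : ℝ,
    Real.pi / 2 - ρ' ≤ φ → φ < Real.pi / 2 → |s| ≤ ρ' → ‖lev (zs φ s)‖ ≤ ρ := by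
  obtain ⟨r, hr, h⟩ := lev_small ρ hρ
  refine ⟨min (1 / 2) (r / 6), by positivity, min_le_left _ _, ?_⟩
  intro φ s h1 h2 h3
  have hm1 := min_le_left (1 / 2) (r / 6)
  have hm2 := min_le_right (1 / 2) (r / 6)
  have hpi := Real.pi_gt_three
  have hc : 0 < Real.cos φ := Real.cos_pos_of_mem_Ioo ⟨by linarith, by linarith⟩
  have h4 : |φ - Real.pi / 2| ≤ min (1 / 2) (r / 6) := by
    rw [abs_of_nonpos (by linarith)]; linarith
  apply h _ (norm_zs_lt_one hc s)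
  right
  have h5 := norm_zs_add_I (φ := φ) (s := s) hc.le (by linarith)
  linarith

/-- mean value inequality on `[s, 0]` -/
theorem mvt_ge {f f' : ℝ → ℝ} {C s : ℝ} (hs : s ≤ 0) (hf : ∀ x, HasDerivAt f (f' x) x)
    (hC : ∀ x, s ≤ x → x ≤ 0 → C ≤ f' x) : f s ≤ f 0 + C * s := by
  have h := Convex.mul_sub_le_image_sub_of_le_deriv (convex_Icc s (0 : ℝ))
    (f := f) (fun x _ => (hf x).continuousAt.continuousWithinAt)
    (fun x _ => (hf x).differentiableAt.differentiableWithinAt) (C := C)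
    (fun x hx => by
      rw [interior_Icc] at hx
      rw [(hf x).deriv]
      exact hC x hx.1.le hx.2.le) s ⟨le_rfl, hs⟩ 0 ⟨hs, le_rfl⟩ hs
  linarith

theorem exp_Fr {φ s : ℝ} (hc : 0 < Real.cos φ) :
    ‖1 + up s φ‖ * Real.exp (Psi (zu (up s φ))).re = Real.exp (Fr φ s) := by
  have hpos : 0 < ‖1 + exp ((s : ℂ) + φ * I)‖ := norm_pos_iff.mpr (one_add_exp_ne hc.le s)
  unfold Fr
  rw [Real.exp_add, Real.exp_log hpos]
  rfl

/-- the inner side near the corner: `Fr φ s ≤ log 2 + s (1/2 - ρ/2)`. -/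
theorem inn_core (ρ : ℝ) (hρ : 0 < ρ) : ∃ ρ' : ℝ, 0 < ρ' ∧ ρ' ≤ 1 / 2 ∧ ∀ φ s : ℝ,
    Real.pi / 2 - ρ' ≤ φ → φ < Real.pi / 2 → -ρ' ≤ s → s ≤ 0 →
    Fr φ s ≤ Real.log 2 + s * (1 / 2 - ρ / 2) := by
  obtain ⟨ρ', h1, h2, h3⟩ := lev_near ρ hρ
  refine ⟨ρ', h1, h2, fun φ s hφ0 hφ1 hs0 hs1 => ?_⟩
  have hpi := Real.pi_gt_three
  have hc : 0 < Real.cos φ := Real.cos_pos_of_mem_Ioo ⟨by linarith, by linarith⟩
  rw [← Fr_zero (φ := φ) (by linarith) hφ1]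
  have h := mvt_ge hs1 (fun x => hasDerivAt_Fr hc x) (C := 1 / 2 - ρ / 2) (fun x hx0 hx1 => by
    have h4 := h3 φ x hφ0 hφ1 (by rw [abs_of_nonpos hx1]; linarith)
    have h5 := (Complex.re_le_norm (lev (zs φ x))).trans h4
    linarith)
  refine h.trans (le_of_eq ?_)
  ring

/-- the field `inn` -/
theorem inn_bound (ρ : ℝ) (hρ : 0 < ρ) : ∃ ρ' : ℝ, 0 < ρ' ∧ ρ' ≤ 1 / 2 ∧
    ∀ (V : ℂ → ℂ) (K a η : ℝ), (∀ z : ℂ, ‖z‖ ≤ 1 → ‖V z‖ ≤ K) → 0 ≤ a → a * K ≤ η →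
    ∀ φ s : ℝ, Real.pi / 2 - ρ' ≤ φ → φ < Real.pi / 2 → -ρ' ≤ s → s ≤ 0 →
    ‖1 + up s φ‖ * Real.exp (Psi (zu (up s φ)) + (a : ℂ) * V (zu (up s φ))).re ≤
      2 * Real.exp (s * (1 / 2 - ρ / 2) + η) := by
  obtain ⟨ρ', h1, h2, h3⟩ := inn_core ρ hρ
  refine ⟨ρ', h1, h2, fun V K a η hK ha haη φ s hφ0 hφ1 hs0 hs1 => ?_⟩
  have hpi := Real.pi_gt_three
  have hc : 0 < Real.cos φ := Real.cos_pos_of_mem_Ioo ⟨by linarith, by linarith⟩
  rw [Real.exp_add, ← mul_assoc]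
  apply exp_L_le hK ha haη (show ‖zu (up s φ)‖ < 1 from norm_zs_lt_one hc s) (norm_nonneg _)
  rw [exp_Fr hc]
  calc Real.exp (Fr φ s) ≤ Real.exp (Real.log 2 + s * (1 / 2 - ρ / 2)) :=
        Real.exp_le_exp.mpr (h3 φ s hφ0 hφ1 hs0 hs1)
    _ = _ := by rw [Real.exp_add, Real.exp_log (by norm_num)]

theorem out_half {s φ : ℝ} (hs : 0 ≤ s) (hc : 0 < Real.cos φ) :
    ‖1 + up s φ‖ * Real.exp (Psi (zu (up s φ))).re ≤ 2 * Real.exp (s / 2) := by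
  have hn : ‖up s φ‖ = Real.exp s := norm_exp' s φ
  have h1 : 1 ≤ ‖up s φ‖ := by rw [hn]; exact Real.one_le_exp hs
  have h2 : ‖1 - up s φ‖ < ‖1 + up s φ‖ := by
    have h3 := norm_zs_lt_one hc s
    have h4 : 0 < ‖1 + up s φ‖ := norm_pos_iff.mpr (one_add_exp_ne hc.le s)
    have h5 : zs φ s = (1 - up s φ) / (1 + up s φ) := rfl
    rwa [h5, norm_div, div_lt_one h4] at h3
  refine (out_core h1 h2).trans ?_
  rw [hn]
  have hS : 0 < Real.sqrt (2 + 2 * Real.exp s ^ 2) := Real.sqrt_pos.mpr (by positivity)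
  rw [div_le_iff₀ hS]
  apply le_of_sq_le_sq _ (by positivity)
  have h6 : Real.exp (s / 2) ^ 2 = Real.exp s := by
    rw [← Real.exp_nat_mul]; congr 1; push_cast; ring
  rw [mul_pow, mul_pow, mul_pow, Real.sq_sqrt (by positivity), h6]
  nlinarith [Real.exp_pos s, sq_nonneg (Real.exp s - 1),
    mul_nonneg (Real.exp_pos s).le (sq_nonneg (Real.exp s - 1))]

/-- the field `edge` -/
theorem edge_bound {V : ℂ → ℂ} {R e ya yb ρ ρ' : ℝ} (hR : 1 < R)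
    (hV : DifferentiableOn ℂ V (Metric.ball 0 R)) (he : 0 < e)
    (hinn : ∀ φ s : ℝ, Real.pi / 2 - ρ' ≤ φ → φ < Real.pi / 2 → -ρ' ≤ s → s ≤ 0 →
      Fr φ s ≤ Real.log 2 + s * (1 / 2 - ρ / 2))
    (hya : 0 < ya) (hyab : ya ≤ yb) (hyb1 : yb < 1) (hρ' : 0 < ρ')
    (hpa : Real.pi / 2 - ρ' ≤ 2 * Real.arctan ya)
    (h1 : (V (((-ya : ℝ) : ℂ) * I)).re ≤ -e * ya ^ 2)
    (h2 : (V (((-yb : ℝ) : ℂ) * I)).re ≤ -e * yb ^ 2) :
    ∃ τ0 : ℝ, 0 < τ0 ∧ τ0 ≤ ρ' ∧ ∀ a : ℝ, 0 < a → ∀ s φ : ℝ, -τ0 ≤ s → s ≤ τ0 →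
      (φ = 2 * Real.arctan ya ∨ φ = 2 * Real.arctan yb) →
      ‖1 + up s φ‖ * Real.exp (Psi (zu (up s φ)) + (a : ℂ) * V (zu (up s φ))).re ≤
        2 * Real.exp (max (s / 2) (s * (1 / 2 - ρ / 2)) - a * (e / 2 * ya ^ 2)) := by
  have hd : DifferentiableOn ℂ (deriv V) (Metric.ball 0 R) := hV.deriv Metric.isOpen_ball
  set g : ℂ → ℂ := fun z => deriv V z * (1 - z ^ 2) with hg
  have hgc : ContinuousOn g (Metric.ball 0 R) := hd.continuousOn.mul (by fun_prop)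
  have hsub : Metric.closedBall (0 : ℂ) 1 ⊆ Metric.ball 0 R := Metric.closedBall_subset_ball hR
  obtain ⟨K0, hK0⟩ := (isCompact_closedBall (0 : ℂ) 1).exists_bound_of_continuousOn
    (hgc.mono hsub)
  set K : ℝ := max K0 1 with hKdef
  have hK : ∀ z ∈ Metric.closedBall (0 : ℂ) 1, ‖g z‖ ≤ K := fun z hz => (hK0 z hz).trans (le_max_left _ _)
  have hKp : 0 < K := lt_of_lt_of_le one_pos (le_max_right _ _)
  have hpi := Real.pi_gt_three
  refine ⟨min ρ' (e * ya ^ 2 / K), by positivity, min_le_left _ _, ?_⟩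
  intro a ha s φ hs0 hs1 hφ
  have ht1 := min_le_left ρ' (e * ya ^ 2 / K)
  have ht2 := min_le_right ρ' (e * ya ^ 2 / K)
  -- the angle
  obtain ⟨y, hy, hφy, hyya, hy1, hVy⟩ : ∃ y : ℝ, ya ≤ y ∧ φ = 2 * Real.arctan y ∧
      ya ^ 2 ≤ y ^ 2 ∧ y < 1 ∧ (V (((-y : ℝ) : ℂ) * I)).re ≤ -e * ya ^ 2 := by
    rcases hφ with h | h
    · exact ⟨ya, le_rfl, h, le_rfl, by linarith, h1⟩
    · refine ⟨yb, hyab, h, pow_le_pow_left₀ hya.le hyab 2, hyb1, h2.trans ?_⟩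
      have := pow_le_pow_left₀ hya.le hyab 2
      nlinarith [mul_le_mul_of_nonneg_left this he.le]
  have hat : Real.arctan y < Real.pi / 4 := by
    rw [← Real.arctan_one]
    exact Real.arctan_strictMono hy1
  have hφ1 : φ < Real.pi / 2 := by rw [hφy]; linarith
  have hφ0 : Real.pi / 2 - ρ' ≤ φ := by
    rw [hφy]
    have := Real.arctan_strictMono.monotone hy
    linarith
  have hφnn : 0 ≤ φ := by
    rw [hφy]
    have := Real.arctan_nonneg.mpr (hya.le.trans hy)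
    linarith
  have hc : 0 < Real.cos φ := Real.cos_pos_of_mem_Ioo ⟨by linarith, by linarith⟩
  have hc2 : 0 < Real.cos (φ / 2) := Real.cos_pos_of_mem_Ioo ⟨by linarith, by linarith⟩
  have hz0 : (V (zs φ 0)).re ≤ -e * ya ^ 2 := by
    rw [zs_zero hc2, hφy, show 2 * Real.arctan y / 2 = Real.arctan y from by ring,
      Real.tan_arctan]
    exact hVy
  have hder := fun x : ℝ => hasDerivAt_V hR hV hc x
  have hbd : ∀ x : ℝ, |(-(deriv V (zs φ x) * (1 - zs φ x ^ 2)).re / 2)| ≤ K / 2 := by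
    intro x
    have h3 := norm_zs_lt_one hc x
    have h4 := hK (zs φ x) (by rw [mem_closedBall_zero_iff]; exact h3.le)
    have h5 := (Complex.abs_re_le_norm _).trans h4
    simp only [hg] at h5
    rw [abs_div, abs_neg, abs_of_pos (show (0 : ℝ) < 2 by norm_num)]
    linarith
  have hVs : (V (zs φ s)).re ≤ -(e / 2 * ya ^ 2) := by
    have hsK : |s| * K ≤ e * ya ^ 2 := by
      have : |s| ≤ e * ya ^ 2 / K := (abs_le.mpr ⟨by linarith, by linarith⟩)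
      rwa [le_div_iff₀ hKp] at this
    rcases le_total 0 s with h | h
    · have h6 := mvt_le h hder (C := K / 2) (fun x _ _ => (abs_le.mp (hbd x)).2)
      rw [abs_of_nonneg h] at hsK
      linarith
    · have h6 := mvt_ge h hder (C := -(K / 2)) (fun x _ _ => (abs_le.mp (hbd x)).1)
      rw [abs_of_nonpos h] at hsK
      linarith
  have hmain : ‖1 + up s φ‖ * Real.exp (Psi (zu (up s φ))).re ≤
      2 * Real.exp (max (s / 2) (s * (1 / 2 - ρ / 2))) := by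
    rcases le_total 0 s with h | h
    · refine (out_half h hc).trans ?_
      apply mul_le_mul_of_nonneg_left _ (by norm_num)
      exact Real.exp_le_exp.mpr (le_max_left _ _)
    · rw [exp_Fr hc]
      have h7 := hinn φ s hφ0 hφ1 (by linarith) h
      calc Real.exp (Fr φ s) ≤ Real.exp (Real.log 2 + max (s / 2) (s * (1 / 2 - ρ / 2))) := by
            apply Real.exp_le_exp.mpr
            exact h7.trans (add_le_add le_rfl (le_max_right _ _))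
        _ = _ := by rw [Real.exp_add, Real.exp_log (by norm_num)]
  rw [add_re, Complex.re_ofReal_mul, Real.exp_add, ← mul_assoc, sub_eq_add_neg, Real.exp_add,
    ← mul_assoc]
  apply mul_le_mul hmain _ (Real.exp_pos _).le (by positivity)
  apply Real.exp_le_exp.mpr
  have h8 : zs φ s = zu (up s φ) := rfl
  rw [← h8]
  have := mul_le_mul_of_nonneg_left hVs ha.le
  linarith

end Pool.Agent.Lib.MP_0430e4_lc.BY
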