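import Pool.Agent.Lib.MP_0430e4_lc.BY.P.ATop
import Pool.Agent.Lib.MP_0430e4_lc.BY.P.AEdge

/-!
# Block P, analytic half: `ExistsGood` from the perturbation `V` (helper30)
-/

set_option autoImplicit false

namespace Pool.Agent.Lib.MP_0430e4_lc.BY

open Complex

/-- what is needed of the low coefficients -/
def LowOK : Prop := ∀ (V : ℂ → ℂ) (R v1 e K ya yb : ℝ), VData V R v1 e K ya yb →
  ∃ a0 : ℝ, 0 < a0 ∧ ∀ a : ℝ, 0 < a → a ≤ a0 → ∀ n k : ℕ, (k : ℝ) ≤ 7 / 100 * n →
    0 ≤ (iteratedDeriv k (fun z : ℂ => Complex.exp ((n : ℂ) * (Psi z + (a : ℂ) * V z))) 0).re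

theorem existsGood_of (hV : ExistsV) (hlow : LowOK) : ExistsGood := by
  intro ρ hρ hρ80
  have hpi := Real.pi_pos
  have hpi3 := Real.pi_gt_three
  obtain ⟨ρ1, hρ1, hρ1h, hinn⟩ := inn_bound ρ hρ
  obtain ⟨ρ2, hρ2, hρ2h, hcore⟩ := inn_core ρ hρ
  set m : ℝ := min ρ (min ρ1 ρ2) with hm
  have hmp : 0 < m := by positivity
  have hmρ : m ≤ ρ := min_le_left _ _
  have hmρ1 : m ≤ ρ1 := (min_le_right _ _).trans (min_le_left _ _)
  have hmρ2 : m ≤ ρ2 := (min_le_right _ _).trans (min_le_right _ _)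
  have htan : Real.tan (Real.pi / 4 - m / 2) < 1 := by
    rw [← Real.tan_pi_div_four]
    apply Real.tan_lt_tan_of_lt_of_lt_pi_div_two (by linarith) (by linarith) (by linarith)
  obtain ⟨V, R, v1, e, K, ya, yb, hD, hya⟩ :=
    hV (1 - Real.tan (Real.pi / 4 - m / 2)) (by linarith)
  have hya' : Real.tan (Real.pi / 4 - m / 2) < ya := by linarith
  have hat : Real.pi / 4 - m / 2 < Real.arctan ya := by
    rw [← Real.arctan_tan (x := Real.pi / 4 - m / 2) (by linarith) (by linarith)]
    exact Real.arctan_strictMono hya'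
  have hab := Real.arctan_strictMono hD.hab
  have hb1 : Real.arctan yb < Real.pi / 4 := by
    rw [← Real.arctan_one]
    exact Real.arctan_strictMono hD.hyb
  have hyapos : 0 < ya := by linarith [hD.hya]
  have hyb1 := hD.hyb
  have hyab := hD.hab
  have he := hD.he
  -- the edges
  obtain ⟨τ0, hτ0, hτ0m, hedge⟩ := edge_bound (V := V) (R := R) (e := e) (ya := ya) (yb := yb)
    (ρ := ρ) (ρ' := m) hD.hR hD.diff he
    (fun φ s h1 h2 h3 h4 => hcore φ s (by linarith) h2 (by linarith) h4)
    hyapos hyab.le hyb1 hmp (by linarith)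
    (by
      have h1 := hD.axis (-ya) (Or.inl (by rw [abs_neg, abs_of_pos hyapos]))
      rwa [neg_sq] at h1)
    (by
      have h1 := hD.axis (-yb) (Or.inr (by
        rw [abs_neg, abs_of_pos (by linarith)]; exact ⟨le_rfl, hyb1.le⟩))
      rwa [neg_sq] at h1)
  refine ⟨2 * Real.arctan ya, 2 * Real.arctan yb, min τ0 ρ, by linarith, by linarith, by linarith,
    by positivity, min_le_right _ _, ?_⟩
  intro η hη
  set τ : ℝ := min τ0 ρ with hτ
  have hτp : 0 < τ := by positivity
  have hττ0 : τ ≤ τ0 := min_le_left _ _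
  have hτρ : τ ≤ ρ := min_le_right _ _
  obtain ⟨at', hat', x0, hx0, htop⟩ := top_bound hD
  obtain ⟨ab', hab', hbside⟩ := bside_bound hD
  obtain ⟨κ, hκ, af, haf, c, hc, hfar⟩ := far_bound (V := V) (R := R) (e := e) (v1 := v1)
    (ya := ya) (yb := yb) hD.hR hD.diff hD.der hD.hv1 he hD.axis
  obtain ⟨al, hal, hl⟩ := hlow V R v1 e K ya yb hD
  have hK0 : 0 ≤ K := (norm_nonneg _).trans (hD.bd 0 (by simp))
  set a : ℝ := min (min at' ab') (min (min af al) (min (η / (K + 1)) (1 / e))) with ha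
  have hap : 0 < a := by positivity
  have ha1 : a ≤ at' := (min_le_left _ _).trans (min_le_left _ _)
  have ha2 : a ≤ ab' := (min_le_left _ _).trans (min_le_right _ _)
  have ha3 : a ≤ af := (min_le_right _ _).trans ((min_le_left _ _).trans (min_le_left _ _))
  have ha4 : a ≤ al := (min_le_right _ _).trans ((min_le_left _ _).trans (min_le_right _ _))
  have ha5 : a ≤ η / (K + 1) :=
    (min_le_right _ _).trans ((min_le_right _ _).trans (min_le_left _ _))
  have ha6 : a ≤ 1 / e :=
    (min_le_right _ _).trans ((min_le_right _ _).trans (min_le_right _ _))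
  have haK : a * K ≤ η := by
    rw [le_div_iff₀ (by positivity)] at ha5
    nlinarith
  have hae : a * e ≤ 1 := by rwa [le_div_iff₀ he] at ha6
  have hya2 : ya ^ 2 ≤ 1 := pow_le_one₀ hyapos.le (by linarith)
  set e' : ℝ := a * (e / 2 * ya ^ 2) with he'
  have he'p : 0 < e' := by positivity
  have he'1 : e' ≤ a * (e / 2) := by
    rw [he']
    apply mul_le_mul_of_nonneg_left _ hap.le
    nlinarith
  have he'2 : e' ≤ 1 := by
    refine he'1.trans ?_
    linarith
  set σ : ℝ := min (min e' η) (min τ (κ * a)) with hσ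
  have hσp : 0 < σ := by positivity
  have hσe : σ ≤ e' := (min_le_left _ _).trans (min_le_left _ _)
  have hση : σ ≤ η := (min_le_left _ _).trans (min_le_right _ _)
  have hστ : σ ≤ τ := (min_le_right _ _).trans (min_le_left _ _)
  have hσκ : σ ≤ κ * a := (min_le_right _ _).trans (min_le_right _ _)
  set ε : ℝ := min (c * a * σ) e' with hε
  have hεp : 0 < ε := by positivity
  refine ⟨fun z => Psi z + (a : ℂ) * V z, e', σ, ε, ?_⟩
  constructor
  · exact differentiableOn_Psi.add ((hD.diff.mono (Metric.ball_subset_ball hD.hR.le)).const_mul _)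
  · intro z hz
    simp only [map_add, map_mul, Complex.conj_ofReal]
    rw [Psi_conj, hD.conj z (hz.trans hD.hR)]
  · simp only [Psi_zero, hD.zero, mul_zero, add_zero]
  · intro n k hk
    exact hl a hap ha4 n k hk
  · exact ⟨x0, hx0, fun z hz0 hz1 => (htop a hap ha1 z hz0 hz1).trans (by linarith)⟩
  · intro z hz0 hz1
    refine (hbside a hap ha2 z hz0 hz1).trans ?_
    apply mul_le_mul_of_nonneg_left _ (norm_nonneg _)
    exact Real.exp_le_exp.mpr (by linarith)
  · intro φ hφ0 hφ1 hφ hlt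
    refine (hfar a hap ha3 σ hσp hσκ φ hφ0 hφ1 hφ hlt).trans ?_
    apply mul_le_mul_of_nonneg_left _ (by norm_num)
    apply Real.exp_le_exp.mpr
    have := min_le_left (c * a * σ) e'
    linarith
  · intro u hu1 hu2
    exact out_bound hD.bd hap.le haK hu1 hu2
  · intro s φ hs0 hs1 hφ0 hφ1
    exact hinn V K a η hD.bd hap.le haK φ s (by linarith) (by linarith) (by linarith) hs1
  · intro s φ hs0 hs1 hφ
    exact hedge a hap s φ (by linarith) (by linarith) hφ
  · exact hρ
  · exact hρ80
  · linarith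
  · linarith
  · linarith
  · exact hτp
  · exact hτρ
  · exact he'p
  · exact he'2
  · exact hεp
  · exact min_le_right _ _
  · exact hσp
  · exact hσe
  · exact hση
  · exact hστ

end Pool.Agent.Lib.MP_0430e4_lc.BY
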