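import Pool.Agent.Lib.MP_0430e4_lc.BY.PsiA
import Pool.Agent.Lib.MP_0430e4_lc.BY.LowPos

/-!
# BLOCK A of BEYOND: the field `low` of `Good` (helper66)

The Taylor coefficients of `exp (n (Psi + a V))` of index `≤ 7 n / 100` are nonnegative for small `a > 0`.
-/

set_option autoImplicit false

namespace Pool.Agent.Lib.MP_0430e4_lc.BY

open Complex

/-- Taylor coefficients from a convergent expansion. -/
theorem low_coeff {f : ℂ → ℂ} {c : ℕ → ℂ} {r : ℝ} (hr : 0 < r)
    (hf : DifferentiableOn ℂ f (Metric.ball 0 r))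
    (h : ∀ z : ℂ, ‖z‖ < r → HasSum (fun j : ℕ => c j * z ^ j) (f z)) (j : ℕ) :
    iteratedDeriv j f 0 = (j.factorial : ℂ) * c j := by
  have h0 : (0 : ℂ) ∈ Metric.ball (0 : ℂ) r := Metric.mem_ball_self hr
  have hnb : Metric.ball (0 : ℂ) r ∈ nhds (0 : ℂ) := Metric.isOpen_ball.mem_nhds h0
  have ha : AnalyticAt ℂ f 0 := hf.analyticAt hnb
  have h1 := ha.hasFPowerSeriesAt
  have h2 : HasFPowerSeriesAt f (FormalMultilinearSeries.ofScalars ℂ c) 0 := by
    rw [hasFPowerSeriesAt_iff]
    filter_upwards [hnb] with z hz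
    rw [zero_add]
    have h3 := h z (by simpa using hz)
    refine h3.congr_fun ?_
    intro n
    rw [FormalMultilinearSeries.coeff_ofScalars, smul_eq_mul, mul_comm]
  have h3 := h1.eq_formalMultilinearSeries h2
  have h4 := congrArg (fun p => FormalMultilinearSeries.coeff p j) h3
  simp only [FormalMultilinearSeries.coeff_ofScalars] at h4
  have h5 : (j.factorial : ℂ) ≠ 0 := by exact_mod_cast Nat.factorial_ne_zero j
  rw [← h4]
  field_simp

/-- Expansion of a holomorphic function, with the factorial normalisation. -/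
theorem low_hasSum {V : ℂ → ℂ} {R : ℝ} (hV : DifferentiableOn ℂ V (Metric.ball 0 R)) {z : ℂ}
    (hz : ‖z‖ < R) :
    HasSum (fun j : ℕ => (iteratedDeriv j V 0 / (j.factorial : ℂ)) * z ^ j) (V z) := by
  have h1 := Complex.hasSum_taylorSeries_on_ball hV (z := z) (by simpa using hz)
  refine h1.congr_fun ?_
  intro n
  simp only [sub_zero, smul_eq_mul]
  ring

open ComplexConjugate in
theorem low_real {V : ℂ → ℂ} {R : ℝ} (hR : 0 < R) (hV : DifferentiableOn ℂ V (Metric.ball 0 R))
    (hc : ∀ z : ℂ, ‖z‖ < R → V (conj z) = conj (V z)) (j : ℕ) :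
    ((iteratedDeriv j V 0).re : ℂ) = iteratedDeriv j V 0 := by
  have h1 := low_coeff hR hV (c := fun j => conj (iteratedDeriv j V 0 / (j.factorial : ℂ)))
    (fun z hz => by
      have h2 := low_hasSum hV (z := conj z) (by rw [Complex.norm_conj]; exact hz)
      have h3 := h2.map (starRingEnd ℂ).toAddMonoidHom Complex.continuous_conj
      have h4 : (starRingEnd ℂ).toAddMonoidHom (V (conj z)) = V z := by
        show conj (V (conj z)) = V z
        rw [hc z hz, Complex.conj_conj]
      rw [h4] at h3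
      refine h3.congr_fun ?_
      intro n
      show _ = conj _
      simp) j
  have h5 : (j.factorial : ℂ) ≠ 0 := by exact_mod_cast Nat.factorial_ne_zero j
  have h6 : iteratedDeriv j V 0 = conj (iteratedDeriv j V 0) := by
    have h7 : conj (iteratedDeriv j V 0 / (j.factorial : ℂ)) =
        conj (iteratedDeriv j V 0) / (j.factorial : ℂ) := by
      rw [map_div₀, Complex.conj_natCast]
    rw [h7, mul_div_cancel₀ _ h5] at h1
    exact h1
  exact Complex.conj_eq_iff_re.1 h6.symm

theorem low_bd {V : ℂ → ℂ} {R : ℝ} (hR : 1 < R) (hV : DifferentiableOn ℂ V (Metric.ball 0 R)) :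
    ∃ K : ℝ, 0 ≤ K ∧ ∀ j : ℕ, 1 ≤ j → ‖(j : ℂ) * (iteratedDeriv j V 0 / (j.factorial : ℂ))‖ ≤ K := by
  obtain ⟨r, hr1, hr2⟩ := exists_between hR
  have hr0 : 0 < r := by linarith
  have hsub : Metric.closedBall (0 : ℂ) r ⊆ Metric.ball 0 R := Metric.closedBall_subset_ball hr2
  have hco : ContinuousOn V (Metric.closedBall 0 r) := hV.continuousOn.mono hsub
  obtain ⟨B, hB⟩ := (isCompact_closedBall (0 : ℂ) r).exists_bound_of_continuousOn hco
  have hB0 : 0 ≤ B := (norm_nonneg _).trans (hB 0 (Metric.mem_closedBall_self hr0.le))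
  have hd : DiffContOnCl ℂ V (Metric.ball 0 r) :=
    DifferentiableOn.diffContOnCl_ball (U := Metric.ball 0 R) hV hsub
  refine ⟨B / (r - 1), div_nonneg hB0 (by linarith), fun j _ => ?_⟩
  have h1 := Complex.norm_iteratedDeriv_le_of_forall_mem_sphere_norm_le j hr0 hd
    (C := B) (fun z hz => hB z (Metric.sphere_subset_closedBall hz))
  have hf : (0 : ℝ) < j.factorial := by exact_mod_cast Nat.factorial_pos j
  rw [norm_mul, norm_div, Complex.norm_natCast, Complex.norm_natCast]
  have h2 : ‖iteratedDeriv j V 0‖ / j.factorial ≤ B / r ^ j := by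
    rw [div_le_iff₀ hf]
    calc ‖iteratedDeriv j V 0‖ ≤ j.factorial * B / r ^ j := h1
      _ = B / r ^ j * j.factorial := by ring
  have h3 : (j : ℝ) * (r - 1) ≤ r ^ j := by
    have h4 := one_add_mul_le_pow (a := r - 1) (by linarith) j
    have h5 : 1 + (r - 1) = r := by ring
    rw [h5] at h4
    linarith
  have hrj : 0 < r ^ j := pow_pos hr0 j
  calc (j : ℝ) * (‖iteratedDeriv j V 0‖ / j.factorial) ≤ j * (B / r ^ j) :=
        mul_le_mul_of_nonneg_left h2 (Nat.cast_nonneg j)
    _ ≤ B / (r - 1) := by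
        rw [mul_div_assoc', div_le_div_iff₀ hrj (by linarith)]
        nlinarith [mul_le_mul_of_nonneg_left h3 hB0]

/-- **The field `low`** -/
theorem low_bound {V : ℂ → ℂ} {R : ℝ} (hR : 1 < R) (hV : DifferentiableOn ℂ V (Metric.ball 0 R))
    (hc : ∀ z : ℂ, ‖z‖ < R → V (starRingEnd ℂ z) = starRingEnd ℂ (V z)) (h0 : V 0 = 0)
    (hv : 0 < (deriv V 0).re) :
    ∃ a0 > (0 : ℝ), ∀ a : ℝ, 0 < a → a ≤ a0 → ∀ n k : ℕ, (k : ℝ) ≤ 7 / 100 * n →
      0 ≤ (iteratedDeriv k (fun z : ℂ => Complex.exp ((n : ℂ) * (Psi z + (a : ℂ) * V z))) 0).re := by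
  obtain ⟨K, hK0, hK⟩ := low_bd hR hV
  refine ⟨1 / (100 * (K + 1)), by positivity, fun a ha ha0 n k hk => ?_⟩
  have haK : a * K ≤ 1 / 100 := by
    calc a * K ≤ 1 / (100 * (K + 1)) * K := mul_le_mul_of_nonneg_right ha0 hK0
      _ ≤ 1 / 100 := by
          rw [div_mul_eq_mul_div, div_le_div_iff₀ (by positivity) (by norm_num)]
          nlinarith
  have hR0 : 0 < R := by linarith
  have hV1 : DifferentiableOn ℂ V (Metric.ball 0 1) :=
    hV.mono (Metric.ball_subset_ball hR.le)
  set ψ : ℂ → ℂ := fun z => Psi z + (a : ℂ) * V z with hψ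
  have hψd : DifferentiableOn ℂ ψ (Metric.ball 0 1) :=
    differentiableOn_Psi.add (hV1.const_mul _)
  have hψ0 : ψ 0 = 0 := by simp [hψ, Psi_zero, h0]
  set v : ℕ → ℝ := fun j => (iteratedDeriv j V 0).re / (j.factorial : ℝ) with hvd
  have hvc : ∀ j : ℕ, (v j : ℂ) = iteratedDeriv j V 0 / (j.factorial : ℂ) := by
    intro j
    rw [hvd]
    push_cast
    rw [low_real hR0 hV hc j]
  have hco : ∀ j : ℕ, iteratedDeriv j ψ 0 = (j.factorial : ℂ) * ((gc j / j + a * v j : ℝ) : ℂ) := by
    intro j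
    refine low_coeff (c := fun j => ((gc j / j + a * v j : ℝ) : ℂ)) one_pos hψd (fun z hz => ?_) j
    have h1 := (hasSum_Psi hz).add ((low_hasSum hV (z := z) (by linarith)).mul_left (a : ℂ))
    refine h1.congr_fun ?_
    intro m
    rw [← hvc]
    push_cast
    ring
  rcases Nat.eq_zero_or_pos n with hn | hn
  · subst hn
    have hk0 : k = 0 := by
      have : (k : ℝ) ≤ 0 := by simpa using hk
      exact_mod_cast le_antisymm this (Nat.cast_nonneg k)
    subst hk0
    simp
  · have hnr : (0 : ℝ) < n := by exact_mod_cast hn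
    have hpi := Real.pi_lt_d2
    have hpi0 := Real.pi_pos
    have hs1 : (636 / 1000 : ℝ) ≤ 2 / Real.pi := by
      rw [le_div_iff₀ hpi0]
      have := Real.pi_lt_d4
      nlinarith
    have hv1 : v 1 = (deriv V 0).re := by
      rw [hvd]
      simp [iteratedDeriv_one]
    have hs : 2 / Real.pi ≤ 2 / Real.pi + a * v 1 := by
      have : 0 ≤ a * v 1 := by rw [hv1]; positivity
      linarith
    have hvb : ∀ j : ℕ, 1 ≤ j → |(j : ℝ) * v j| ≤ K := by
      intro j hj
      have h1 := hK j hj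
      rw [← hvc] at h1
      have h2 : (j : ℂ) * (v j : ℂ) = (((j : ℝ) * v j : ℝ) : ℂ) := by push_cast; ring
      rw [h2, Complex.norm_real, Real.norm_eq_abs] at h1
      exact h1
    obtain ⟨r, hr, hre⟩ := exp_low_pos (ψ := ψ) one_pos hψd hψ0 (s := 2 / Real.pi + a * v 1)
      (G := 108 / 100) (κ := 7 / 100) (by linarith) (by norm_num) (by norm_num)
      (by
        set s := 2 / Real.pi + a * v 1
        nlinarith)
      (fun j => gc j + a * ((j : ℝ) * v j)) (by rw [gc_one]; simp)
      (fun j hj => by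
        have h1 := abs_gc_le j
        have h2 := hvb j (by omega)
        calc |gc j + a * ((j : ℝ) * v j)| ≤ |gc j| + |a * ((j : ℝ) * v j)| := abs_add_le _ _
          _ ≤ 107 / 100 + a * K := by
              rw [abs_mul, abs_of_pos ha]
              exact add_le_add h1 (mul_le_mul_of_nonneg_left h2 ha.le)
          _ ≤ 108 / 100 := by linarith)
      (fun j => by
        rw [hco (j + 1), Nat.factorial_succ]
        have hj : ((j : ℝ) + 1) ≠ 0 := by positivity
        have hj' : ((j : ℂ) + 1) ≠ 0 := by exact_mod_cast hj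
        push_cast
        field_simp)
      hnr k (by linarith)
    have h1 : (fun z : ℂ => Complex.exp ((n : ℂ) * (Psi z + (a : ℂ) * V z))) =
        fun z => Complex.exp (((n : ℝ) : ℂ) * ψ z) := by
      funext z
      simp [hψ]
    rw [h1, hre]
    have h2 : (k.factorial : ℂ) * (r : ℂ) = (((k.factorial : ℝ) * r : ℝ) : ℂ) := by push_cast; ring
    rw [h2, Complex.ofReal_re]
    positivity

end Pool.Agent.Lib.MP_0430e4_lc.BY
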