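import Pool.Agent.Lib.MP_0430e4_lc.BY.P.VData

/-!
# BLOCK V of BEYOND: the explicit rational perturbation (helper80, from helper64's formula)

`V z = z * (-1 + (1001/1000) h (r z) + z/100)`, `h w = (1 - w^2)/(1 + 2 s w + w^2)^2`.
-/

set_option autoImplicit false

open Complex

namespace Pool.Agent.Lib.MP_0430e4_lc.BY

/-- the denominator -/
noncomputable def vD (s : ℝ) (w : ℂ) : ℂ := 1 + 2 * (s : ℂ) * w + w ^ 2

/-- `h w = (1 - w^2)/(1 + 2 s w + w^2)^2` -/
noncomputable def vh (s : ℝ) (w : ℂ) : ℂ := (1 - w ^ 2) / (vD s w) ^ 2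

/-- the perturbation -/
noncomputable def vV (s r : ℝ) (z : ℂ) : ℂ :=
  z * (-1 + (1001 / 1000 : ℂ) * vh s ((r : ℂ) * z) + z / 100)

theorem vD_ne {s : ℝ} (hs0 : 0 < s) (hs1 : s < 1) {w : ℂ} (hw : ‖w‖ < 1) : vD s w ≠ 0 := by
  intro h
  have hn : w.re ^ 2 + w.im ^ 2 < 1 := by
    have h1 : ‖w‖ ^ 2 < 1 := by nlinarith [norm_nonneg w]
    rw [← Complex.normSq_eq_norm_sq, Complex.normSq_apply] at h1
    linarith
  have hre : 1 + 2 * s * w.re + (w.re ^ 2 - w.im ^ 2) = 0 := by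
    have := congrArg Complex.re h
    simpa [vD, pow_two] using this
  have him : 2 * s * w.im + 2 * w.re * w.im = 0 := by
    have := congrArg Complex.im h
    simp [vD, pow_two] at this
    linarith
  have him' : w.im * (s + w.re) = 0 := by linarith
  rcases mul_eq_zero.mp him' with h1 | h1
  · rw [h1] at hre
    nlinarith [sq_nonneg (w.re + s)]
  · have h2 : w.re = -s := by linarith
    rw [h2] at hre hn
    linarith

theorem vD_sub (s : ℝ) (z w : ℂ) : vD s z - vD s w = (z - w) * (2 * (s : ℂ) + z + w) := by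
  unfold vD; ring

theorem vV_diff {s r : ℝ} (hs0 : 0 < s) (hs1 : s < 1) (hr0 : 0 < r) :
    DifferentiableOn ℂ (vV s r) (Metric.ball 0 (1 / r)) := by
  intro z hz
  rw [Metric.mem_ball, dist_zero_right] at hz
  have hw : ‖(r : ℂ) * z‖ < 1 := by
    rw [norm_mul, Complex.norm_real, Real.norm_of_nonneg hr0.le]
    rwa [lt_div_iff₀' hr0] at hz
  have hne := vD_ne hs0 hs1 hw
  apply DifferentiableAt.differentiableWithinAt
  unfold vV vh
  have h1 : DifferentiableAt ℂ (fun z : ℂ => vD s ((r : ℂ) * z)) z := by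
    unfold vD; fun_prop
  have h2 : DifferentiableAt ℂ (fun z : ℂ => (1 - ((r : ℂ) * z) ^ 2) / (vD s ((r : ℂ) * z)) ^ 2) z := by
    apply DifferentiableAt.div (by fun_prop) (h1.pow 2)
    exact pow_ne_zero 2 hne
  exact differentiableAt_id.mul (((differentiableAt_const _).add ((differentiableAt_const _).mul h2)).add
    (differentiableAt_id.div_const _))

theorem vV_conj (s r : ℝ) (z : ℂ) : vV s r (starRingEnd ℂ z) = starRingEnd ℂ (vV s r z) := by
  unfold vV vh vD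
  simp only [map_mul, map_add, map_neg, map_one, map_div₀, map_sub, map_pow, Complex.conj_ofReal,
    map_ofNat]

theorem vV_der (s r : ℝ) :
    (deriv (vV s r) 0).re = 1 / 1000 := by
  have h1 : DifferentiableAt ℂ (fun z : ℂ => vD s ((r : ℂ) * z)) 0 := by
    unfold vD; fun_prop
  have hne : vD s ((r : ℂ) * 0) ≠ 0 := by simp [vD]
  have h2 : DifferentiableAt ℂ (fun z : ℂ => (1 - ((r : ℂ) * z) ^ 2) / (vD s ((r : ℂ) * z)) ^ 2) 0 := by
    apply DifferentiableAt.div (by fun_prop) (h1.pow 2)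
    exact pow_ne_zero 2 hne
  have h3 : DifferentiableAt ℂ
      (fun z : ℂ => -1 + (1001 / 1000 : ℂ) * vh s ((r : ℂ) * z) + z / 100) 0 := by
    unfold vh
    exact ((differentiableAt_const _).add ((differentiableAt_const _).mul h2)).add
      (differentiableAt_id.div_const _)
  have h4 := (hasDerivAt_id (0 : ℂ)).mul h3.hasDerivAt
  have h5 : HasDerivAt (vV s r) (1 / 1000 : ℂ) 0 := by
    refine h4.congr_deriv ?_
    simp [vh, vD]
    norm_num
  rw [h5.deriv]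
  norm_num

/-- real part on the imaginary axis -/
theorem vV_axis (s r y : ℝ) (hne : (1 - r ^ 2 * y ^ 2) ^ 2 + (2 * s * r * y) ^ 2 ≠ 0) :
    (vV s r (y * I)).re = -(y ^ 2 / 100) + 1001 / 1000 *
      (4 * s * r * y ^ 2 * (1 + r ^ 2 * y ^ 2) * (1 - r ^ 2 * y ^ 2) /
        ((1 - r ^ 2 * y ^ 2) ^ 2 + (2 * s * r * y) ^ 2) ^ 2) := by
  set a : ℝ := 1 - r ^ 2 * y ^ 2 with ha
  set c : ℝ := 2 * s * r * y with hc
  have hI : (I : ℂ) ^ 2 = -1 := Complex.I_sq
  have hD : vD s ((r : ℂ) * (y * I)) = (a : ℂ) + (c : ℂ) * I := by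
    unfold vD
    rw [ha, hc]
    push_cast
    linear_combination ((r : ℂ) * y) ^ 2 * hI
  have hN : (1 - ((r : ℂ) * (y * I)) ^ 2) = ((1 + r ^ 2 * y ^ 2 : ℝ) : ℂ) := by
    push_cast
    linear_combination (-((r : ℂ) * y) ^ 2) * hI
  have hac : ((a ^ 2 + c ^ 2 : ℝ) : ℂ) ≠ 0 := by exact_mod_cast hne
  have hDne : (a : ℂ) + (c : ℂ) * I ≠ 0 := by
    intro h
    apply hac
    have : ((a ^ 2 + c ^ 2 : ℝ) : ℂ) = ((a : ℂ) + (c : ℂ) * I) * ((a : ℂ) - (c : ℂ) * I) := by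
      push_cast
      linear_combination (c : ℂ) ^ 2 * hI
    rw [this, h, zero_mul]
  have hinv : vh s ((r : ℂ) * (y * I)) =
      ((1 + r ^ 2 * y ^ 2 : ℝ) : ℂ) * ((a : ℂ) - (c : ℂ) * I) ^ 2 / ((a ^ 2 + c ^ 2 : ℝ) : ℂ) ^ 2 := by
    unfold vh
    rw [hD, hN]
    rw [div_eq_div_iff (pow_ne_zero 2 hDne) (pow_ne_zero 2 hac)]
    push_cast
    have : ((a : ℂ) ^ 2 + (c : ℂ) ^ 2) = ((a : ℂ) + (c : ℂ) * I) * ((a : ℂ) - (c : ℂ) * I) := by
      linear_combination (c : ℂ) ^ 2 * hI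
    rw [this]
    ring
  have h1 : vV s r (y * I) = ((-(y ^ 2 / 100) + 1001 / 1000 *
      (y * (1 + r ^ 2 * y ^ 2) * (2 * a * c) / (a ^ 2 + c ^ 2) ^ 2) : ℝ) : ℂ) +
      ((-y + 1001 / 1000 * (y * (1 + r ^ 2 * y ^ 2) * (a ^ 2 - c ^ 2) / (a ^ 2 + c ^ 2) ^ 2) : ℝ) : ℂ) * I := by
    unfold vV
    rw [hinv]
    push_cast
    have hac' : (a : ℂ) ^ 2 + (c : ℂ) ^ 2 ≠ 0 := by
      have := hac; push_cast at this; exact this
    field_simp
    ring_nf
    have hI3 : (I : ℂ) ^ 3 = -I := by rw [pow_succ, hI]; ring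
    rw [hI, hI3]
    ring
  rw [h1, Complex.add_re, Complex.ofReal_re, Complex.mul_re, Complex.ofReal_re, Complex.ofReal_im,
    Complex.I_re, Complex.I_im]
  have h2 : y * (1 + r ^ 2 * y ^ 2) * (2 * a * c) = 4 * s * r * y ^ 2 * (1 + r ^ 2 * y ^ 2) * a := by
    rw [hc]; ring
  rw [h2]
  ring

theorem vV_real (s r x : ℝ) :
    (vV s r (x : ℂ)).re =
      x * (-1 + 1001 / 1000 * ((1 - (r * x) ^ 2) / (1 + 2 * s * (r * x) + (r * x) ^ 2) ^ 2) + x / 100) := by
  have h1 : vV s r (x : ℂ) = ((x * (-1 + 1001 / 1000 *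
      ((1 - (r * x) ^ 2) / (1 + 2 * s * (r * x) + (r * x) ^ 2) ^ 2) + x / 100) : ℝ) : ℂ) := by
    unfold vV vh vD
    push_cast
    ring
  rw [h1, Complex.ofReal_re]

/-- on the unit circle -/
theorem vV_arc {s r : ℝ} (hs0 : 0 < s) (hs1 : s ≤ 1 / 1000) (hr0 : 1 / 2 ≤ r) (hr1 : r ≤ 1)
    (hr : 1 - r ≤ s ^ 4 / 10 ^ 6) {z : ℂ} (hz : ‖z‖ = 1) (hx : -(s / 2) ≤ z.re) :
    (vV s r z).re ≤ -(s / 2) := by
  set x : ℝ := z.re with hxd
  have hsq : z.re ^ 2 + z.im ^ 2 = 1 := by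
    have h1 : ‖z‖ ^ 2 = 1 := by rw [hz]; norm_num
    rw [← Complex.normSq_eq_norm_sq, Complex.normSq_apply] at h1
    linarith
  have hs4 : s ^ 4 / 10 ^ 6 ≤ s / 10 ^ 6 := by
    have h1 : s ^ 4 ≤ s := by
      have : s ^ 4 = s * s ^ 3 := by ring
      rw [this]
      have h2 : s ^ 3 ≤ 1 := pow_le_one₀ hs0.le (by linarith)
      nlinarith
    linarith [div_le_div_of_nonneg_right h1 (show (0:ℝ) ≤ 10 ^ 6 by norm_num)]
  -- D(z) = z (2x + 2s)
  have hzc : z * (starRingEnd ℂ z) = 1 := by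
    rw [Complex.mul_conj, Complex.normSq_eq_norm_sq, hz]; norm_num
  have hadd : z + starRingEnd ℂ z = ((2 * x : ℝ) : ℂ) := by
    rw [Complex.add_conj]
  have hsub : z - starRingEnd ℂ z = ((2 * z.im : ℝ) : ℂ) * I := by
    rw [Complex.sub_conj]
  have hDz : vD s z = z * ((2 * x + 2 * s : ℝ) : ℂ) := by
    unfold vD
    have h1 : ((2 * x + 2 * s : ℝ) : ℂ) = z + starRingEnd ℂ z + 2 * (s : ℂ) := by
      rw [hadd]; push_cast; ring
    rw [h1]
    linear_combination (-1 : ℂ) * hzc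
  have hpos : s ≤ 2 * x + 2 * s := by linarith
  have hpos' : 0 < 2 * x + 2 * s := by linarith
  have hDzn : ‖vD s z‖ = 2 * x + 2 * s := by
    rw [hDz, norm_mul, hz, one_mul, Complex.norm_real, Real.norm_of_nonneg hpos'.le]
  have hz0 : z ≠ 0 := by
    intro h; rw [h, norm_zero] at hz; norm_num at hz
  -- re (z h(z)) = 0
  have hre0 : (z * vh s z).re = 0 := by
    have h1 : z * vh s z = ((-2 * z.im / (2 * x + 2 * s) ^ 2 : ℝ) : ℂ) * I := by
      unfold vh
      rw [hDz]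
      have h2 : ((2 * x + 2 * s : ℝ) : ℂ) ≠ 0 := by exact_mod_cast hpos'.ne'
      have h3 : z * (1 - z ^ 2) = z ^ 2 * (-(((2 * z.im : ℝ) : ℂ) * I)) := by
        rw [← hsub]
        linear_combination (-z) * hzc
      have h4 : z * ((1 - z ^ 2) / (z * ((2 * x + 2 * s : ℝ) : ℂ)) ^ 2) =
          (z * (1 - z ^ 2)) / (z ^ 2 * ((2 * x + 2 * s : ℝ) : ℂ) ^ 2) := by
        rw [mul_pow, mul_div_assoc]
      rw [h4, h3, mul_div_mul_left _ _ (pow_ne_zero 2 hz0)]
      push_cast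
      field_simp
    rw [h1, Complex.re_ofReal_mul, Complex.I_re, mul_zero]
  -- D(rz)
  set w : ℂ := (r : ℂ) * z with hw
  have hwn : ‖w‖ = r := by
    rw [hw, norm_mul, hz, mul_one, Complex.norm_real, Real.norm_of_nonneg (by linarith)]
  have hzw : ‖z - w‖ = 1 - r := by
    have : z - w = ((1 - r : ℝ) : ℂ) * z := by rw [hw]; push_cast; ring
    rw [this, norm_mul, hz, mul_one, Complex.norm_real, Real.norm_of_nonneg (by linarith)]
  have hsum : ‖2 * (s : ℂ) + z + w‖ ≤ 3 := by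
    calc ‖2 * (s : ℂ) + z + w‖ ≤ ‖2 * (s : ℂ) + z‖ + ‖w‖ := norm_add_le _ _
      _ ≤ ‖2 * (s : ℂ)‖ + ‖z‖ + ‖w‖ := by gcongr; exact norm_add_le _ _
      _ ≤ 3 := by
          rw [hz, hwn, norm_mul, Complex.norm_real, Real.norm_of_nonneg hs0.le]
          simp
          linarith
  have hDD : ‖vD s z - vD s w‖ ≤ 3 * (1 - r) := by
    rw [vD_sub, norm_mul, hzw]
    have : 0 ≤ 1 - r := by linarith
    nlinarith
  have hDw : s / 2 ≤ ‖vD s w‖ := by
    have h1 := norm_sub_norm_le (vD s z) (vD s w)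
    rw [hDzn] at h1
    have h2 : 3 * (1 - r) ≤ s / 2 := by
      linarith
    linarith
  have hDzl : s ≤ ‖vD s z‖ := by rw [hDzn]; exact hpos
  have hDzu : ‖vD s z‖ ≤ 3 := by
    rw [hDzn]
    have : x ≤ 1 := by linarith [sq_nonneg z.im, sq_nonneg (x - 1)]
    linarith
  have hDwu : ‖vD s w‖ ≤ 3 := by
    unfold vD
    calc ‖1 + 2 * (s : ℂ) * w + w ^ 2‖ ≤ ‖1 + 2 * (s : ℂ) * w‖ + ‖w ^ 2‖ := norm_add_le _ _
      _ ≤ ‖(1 : ℂ)‖ + ‖2 * (s : ℂ) * w‖ + ‖w ^ 2‖ := by gcongr; exact norm_add_le _ _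
      _ ≤ 3 := by
          rw [norm_mul, norm_mul, Complex.norm_real, Real.norm_of_nonneg hs0.le, norm_pow, hwn]
          simp
          nlinarith
  have hDz0 : vD s z ≠ 0 := by rw [← norm_pos_iff]; linarith
  have hDw0 : vD s w ≠ 0 := by rw [← norm_pos_iff]; linarith
  have hdiff : vh s w - vh s z = ((1 - w ^ 2) * (vD s z) ^ 2 - (1 - z ^ 2) * (vD s w) ^ 2) /
      ((vD s w) ^ 2 * (vD s z) ^ 2) := by
    unfold vh
    rw [div_sub_div _ _ (pow_ne_zero 2 hDw0) (pow_ne_zero 2 hDz0)]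
    ring
  have hr1' : 0 ≤ 1 - r := by linarith
  have hnum : ‖(1 - w ^ 2) * (vD s z) ^ 2 - (1 - z ^ 2) * (vD s w) ^ 2‖ ≤ 54 * (1 - r) := by
    have h1 : (1 - w ^ 2) * (vD s z) ^ 2 - (1 - z ^ 2) * (vD s w) ^ 2 =
        (z - w) * (z + w) * (vD s z) ^ 2 + (1 - z ^ 2) * ((vD s z - vD s w) * (vD s z + vD s w)) := by
      ring
    rw [h1]
    have h2 : ‖(z - w) * (z + w) * (vD s z) ^ 2‖ ≤ (1 - r) * 2 * 3 ^ 2 := by
      rw [norm_mul, norm_mul, hzw, norm_pow]
      have h3 : ‖z + w‖ ≤ 2 := (norm_add_le _ _).trans (by rw [hz, hwn]; linarith)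
      gcongr
    have h3 : ‖(1 - z ^ 2) * ((vD s z - vD s w) * (vD s z + vD s w))‖ ≤ 2 * (3 * (1 - r) * 6) := by
      rw [norm_mul, norm_mul]
      have h4 : ‖1 - z ^ 2‖ ≤ 2 := by
        refine (norm_sub_le _ _).trans ?_
        rw [norm_pow, hz]; norm_num
      have h5 : ‖vD s z + vD s w‖ ≤ 6 := (norm_add_le _ _).trans (by linarith)
      gcongr
    refine (norm_add_le _ _).trans ?_
    linarith
  have hden : s ^ 4 / 4 ≤ ‖(vD s w) ^ 2 * (vD s z) ^ 2‖ := by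
    rw [norm_mul, norm_pow, norm_pow]
    calc s ^ 4 / 4 = (s / 2) ^ 2 * s ^ 2 := by ring
      _ ≤ _ := by gcongr
  have hh : ‖vh s w - vh s z‖ ≤ 1 / 4000 := by
    rw [hdiff, norm_div]
    have hs4' : 0 < s ^ 4 / 4 := by positivity
    rw [div_le_iff₀ (lt_of_lt_of_le hs4' hden)]
    calc _ ≤ 54 * (1 - r) := hnum
      _ ≤ 54 * (s ^ 4 / 10 ^ 6) := by linarith
      _ ≤ 1 / 4000 * (s ^ 4 / 4) := by
          have : 0 < s ^ 4 := by positivity
          linarith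
      _ ≤ _ := by gcongr
  have hrez : (z * vh s w).re ≤ 1 / 4000 := by
    have h1 : (z * vh s w).re = (z * vh s z).re + (z * (vh s w - vh s z)).re := by
      rw [← Complex.add_re]; congr 1; ring
    rw [h1, hre0, zero_add]
    refine (Complex.re_le_norm _).trans ?_
    rw [norm_mul, hz, one_mul]
    exact hh
  have hV : (vV s r z).re = -x + 1001 / 1000 * (z * vh s w).re + (x ^ 2 - z.im ^ 2) / 100 := by
    have h1 : vV s r z = -z + ((1001 / 1000 : ℝ) : ℂ) * (z * vh s w) + ((1 / 100 : ℝ) : ℂ) * (z ^ 2) := by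
      unfold vV
      push_cast
      ring
    have hz2 : (z ^ 2).re = x ^ 2 - z.im ^ 2 := by
      rw [pow_two, Complex.mul_re, ← hxd]; ring
    rw [h1, Complex.add_re, Complex.add_re, Complex.re_ofReal_mul, Complex.re_ofReal_mul, Complex.neg_re,
      hz2, ← hxd]
    ring
  rw [hV]
  have him : z.im ^ 2 = 1 - x ^ 2 := by linarith
  rw [him]
  have hx1 : x ≤ 1 := by linarith [sq_nonneg z.im, sq_nonneg (x - 1)]
  nlinarith [hrez, hx, hx1, hs1, hs0]

theorem existsV : ExistsV := by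
  intro ρ hρ
  set p : ℝ := min ρ (1 / 2) with hp
  have hp0 : 0 < p := lt_min hρ (by norm_num)
  have hp1 : p ≤ 1 / 2 := min_le_right _ _
  have hpρ : p ≤ ρ := min_le_left _ _
  set s : ℝ := p ^ 3 / 20000 with hs
  have hp3 : p ^ 3 ≤ 1 / 8 := by
    calc p ^ 3 ≤ (1 / 2) ^ 3 := pow_le_pow_left₀ hp0.le hp1 3
      _ = 1 / 8 := by norm_num
  have hs0 : 0 < s := by positivity
  have hs1 : s ≤ 1 / 1000 := by rw [hs]; linarith
  have hs1' : s < 1 := by linarith
  set r : ℝ := 1 - s ^ 4 / 10 ^ 6 with hr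
  have hs4 : s ^ 4 ≤ s ^ 3 := by
    have : s ^ 4 = s ^ 3 * s := by ring
    rw [this]
    have h3 : 0 < s ^ 3 := by positivity
    exact mul_le_of_le_one_right h3.le hs1'.le
  have hs3 : s ^ 3 ≤ s := by
    have h2 : s ^ 2 ≤ 1 := pow_le_one₀ hs0.le hs1'.le
    have : s ^ 3 = s * s ^ 2 := by ring
    rw [this]; exact mul_le_of_le_one_right hs0.le h2
  have hs4p : 0 < s ^ 4 := by positivity
  have hs3p : 0 < s ^ 3 := by positivity
  have hr1 : r < 1 := by rw [hr]; linarith [div_pos hs4p (show (0:ℝ) < 10 ^ 6 by norm_num)]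
  have hr99 : 99 / 100 ≤ r := by
    rw [hr]
    have : s ^ 4 / 10 ^ 6 ≤ 1 / 100 := by
      rw [div_le_iff₀ (by norm_num)]; linarith
    linarith
  have hr0 : 0 < r := by linarith
  have hRr : 1 < 1 / r := by rw [lt_div_iff₀ hr0]; linarith
  have hdiff := vV_diff hs0 hs1' hr0
  have hsub : Metric.closedBall (0 : ℂ) 1 ⊆ Metric.ball 0 (1 / r) :=
    Metric.closedBall_subset_ball hRr
  obtain ⟨K, hK⟩ := (isCompact_closedBall (0 : ℂ) 1).exists_bound_of_continuousOn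
    (hdiff.continuousOn.mono hsub)
  set ya : ℝ := 1 - p / 2 with hya
  set yb : ℝ := 1 - s ^ 3 / 8000 with hyb
  have hspp : s ≤ p / 20000 := by
    rw [hs]
    have : p ^ 3 ≤ p := by
      have h2 : p ^ 2 ≤ 1 := pow_le_one₀ hp0.le (by linarith)
      have : p ^ 3 = p * p ^ 2 := by ring
      rw [this]; exact mul_le_of_le_one_right hp0.le h2
    linarith
  refine ⟨vV s r, 1 / r, 1 / 1000, s / 2, K, ya, yb, ⟨hRr, hdiff, fun z _ => vV_conj s r z, ?_,
    vV_der s r, by norm_num, by positivity, ?_, ?_, ?_, ?_, ?_, ?_, ?_⟩, ?_⟩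
  · simp [vV]
  · intro z hz
    exact hK z (by rw [Metric.mem_closedBall, dist_zero_right]; exact hz)
  · intro z hz hx
    exact vV_arc hs0 hs1 (by linarith) hr1.le (by rw [hr]; linarith) hz hx
  · intro y hy
    set Y : ℝ := r ^ 2 * y ^ 2 with hY
    have hy2 : y ^ 2 ≤ 1 := by
      rcases hy with h | ⟨_, h⟩
      · have : |y| ≤ 1 := h.trans (by rw [hya]; linarith)
        rw [← sq_abs]; exact pow_le_one₀ (abs_nonneg _) this
      · rw [← sq_abs]; exact pow_le_one₀ (abs_nonneg _) h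
    have hr2 : r ^ 2 < 1 := pow_lt_one₀ hr0.le hr1 two_ne_zero
    have hy0 : 0 ≤ y ^ 2 := sq_nonneg y
    have hY0 : 0 ≤ Y := by positivity
    have hY1 : Y ≤ r ^ 2 := by rw [hY]; exact mul_le_of_le_one_right (sq_nonneg r) hy2
    have ha0 : 0 < 1 - Y := by linarith
    have hne : (1 - Y) ^ 2 + (2 * s * r * y) ^ 2 ≠ 0 := by positivity
    rw [vV_axis s r y hne]
    have hc2 : (2 * s * r * y) ^ 2 = 4 * s ^ 2 * Y := by rw [hY]; ring
    have hden : 0 < ((1 - Y) ^ 2 + (2 * s * r * y) ^ 2) ^ 2 := by positivity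
    have hfrac : 4 * s * r * y ^ 2 * (1 + Y) * (1 - Y) /
        ((1 - Y) ^ 2 + (2 * s * r * y) ^ 2) ^ 2 ≤ y ^ 2 / 250 := by
      rw [div_le_iff₀ hden]
      have hmain : 4 * s * r * (1 + Y) * (1 - Y) ≤
          1 / 250 * ((1 - Y) ^ 2 + (2 * s * r * y) ^ 2) ^ 2 := by
        have h8 : 4 * s * r * (1 + Y) * (1 - Y) ≤ 8 * s * (1 - Y) := by
          have h9 : r * (1 + Y) ≤ 2 := by
            have h90 := mul_le_mul hr1.le (show 1 + Y ≤ 2 by linarith) (by linarith) zero_le_one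
            linarith
          have h10 : 0 ≤ 4 * s * (1 - Y) := by positivity
          linarith [mul_le_mul_of_nonneg_right h9 h10]
        rcases hy with h | ⟨h, _⟩
        · -- |y| ≤ ya
          have h1 : y ^ 2 ≤ ya ^ 2 := by
            rw [← sq_abs]; exact pow_le_pow_left₀ (abs_nonneg _) h 2
          have h2 : p / 2 ≤ 1 - Y := by
            have h3 : Y ≤ y ^ 2 := by rw [hY]; exact mul_le_of_le_one_left hy0 hr2.le
            have h4 : ya ^ 2 ≤ 1 - p / 2 := by rw [hya]; exact pow_le_of_le_one (by linarith) (by linarith) two_ne_zero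
            linarith
          have h3 : (p / 2) ^ 3 ≤ (1 - Y) ^ 3 := pow_le_pow_left₀ (by positivity) h2 3
          have h4 : 8 * s ≤ 1 / 250 * (1 - Y) ^ 3 := by
            rw [hs]; linarith
          have h5 : 8 * s * (1 - Y) ≤ 1 / 250 * (1 - Y) ^ 4 := by
            have : (1 - Y) ^ 4 = (1 - Y) ^ 3 * (1 - Y) := by ring
            rw [this]; linarith [mul_le_mul_of_nonneg_right h4 ha0.le]
          have h6 : (1 - Y) ^ 4 ≤ ((1 - Y) ^ 2 + (2 * s * r * y) ^ 2) ^ 2 := by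
            have : (1 - Y) ^ 4 = ((1 - Y) ^ 2) ^ 2 := by ring
            rw [this]
            apply pow_le_pow_left₀ (by positivity)
            linarith [sq_nonneg (2 * s * r * y)]
          linarith
        · -- yb ≤ |y|
          have hyb0 : 0 ≤ yb := by rw [hyb]; linarith
          have h1 : yb ^ 2 ≤ y ^ 2 := by
            rw [← sq_abs y]; exact pow_le_pow_left₀ hyb0 h 2
          have h2 : 1 - s ^ 3 / 4000 ≤ yb ^ 2 := by rw [hyb]; linarith [sq_nonneg (s ^ 3 / 8000)]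
          have h3 : 1 - 2 * (s ^ 4 / 10 ^ 6) ≤ r ^ 2 := by rw [hr]; linarith [sq_nonneg (s ^ 4 / 10 ^ 6)]
          have h4 : 1 - Y ≤ s ^ 3 / 2000 := by
            have h5 : (1 - 2 * (s ^ 4 / 10 ^ 6)) * (1 - s ^ 3 / 4000) ≤ Y := by
              rw [hY]
              apply mul_le_mul h3 (h2.trans h1) _ (by positivity)
              linarith
            linarith [show (0 : ℝ) ≤ s ^ 4 / 10 ^ 6 * (s ^ 3 / 4000) by positivity]
          have h5 : 1 / 2 ≤ Y := by linarith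
          have h6 : 4 * s ^ 4 ≤ ((1 - Y) ^ 2 + (2 * s * r * y) ^ 2) ^ 2 := by
            rw [hc2]
            calc 4 * s ^ 4 = (2 * s ^ 2) ^ 2 := by ring
              _ ≤ _ := by
                apply pow_le_pow_left₀ (by positivity)
                linarith [sq_nonneg (1 - Y), mul_le_mul_of_nonneg_left h5 (show (0 : ℝ) ≤ 4 * s ^ 2 by positivity)]
          have h7 : 8 * s * (1 - Y) ≤ 8 * s * (s ^ 3 / 2000) :=
            mul_le_mul_of_nonneg_left h4 (by positivity)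
          linarith
      calc 4 * s * r * y ^ 2 * (1 + Y) * (1 - Y) = y ^ 2 * (4 * s * r * (1 + Y) * (1 - Y)) := by ring
        _ ≤ y ^ 2 * (1 / 250 * ((1 - Y) ^ 2 + (2 * s * r * y) ^ 2) ^ 2) :=
            mul_le_mul_of_nonneg_left hmain hy0
        _ = _ := by ring
    linarith [mul_le_mul_of_nonneg_right hs1 hy0]
  · intro x hx0 hx1
    rw [vV_real]
    have hrx : 0 < r * x := by positivity
    have hden1 : 1 ≤ (1 + 2 * s * (r * x) + (r * x) ^ 2) ^ 2 := by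
      have : 1 ≤ 1 + 2 * s * (r * x) + (r * x) ^ 2 := by
        have : 0 ≤ 2 * s * (r * x) := by positivity
        linarith [sq_nonneg (r * x)]
      exact one_le_pow₀ this
    have hrx1 : r * x ≤ 1 := mul_le_one₀ hr1.le (by linarith) hx1
    have hnum : 0 ≤ 1 - (r * x) ^ 2 := by linarith [pow_le_one₀ hrx.le hrx1 (n := 2)]
    have h1 : (1 - (r * x) ^ 2) / (1 + 2 * s * (r * x) + (r * x) ^ 2) ^ 2 ≤ 1 - (r * x) ^ 2 :=
      div_le_self hnum hden1
    have h2 : (99 / 100 * (1 / 10)) * (99 / 100 * x) ≤ (r * x) ^ 2 := by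
      rw [pow_two]
      apply mul_le_mul
      · exact mul_le_mul hr99 hx0 (by norm_num) hr0.le
      · exact mul_le_mul_of_nonneg_right hr99 (by linarith)
      · positivity
      · exact hrx.le
    have h3 : -1 + 1001 / 1000 * ((1 - (r * x) ^ 2) / (1 + 2 * s * (r * x) + (r * x) ^ 2) ^ 2) +
        x / 100 ≤ -(7 / 1000) := by
      have h4 : (99 / 100 * (1 / 10)) * (99 / 100 * x) - x / 100 ≥ 8 / 1000 := by linarith
      linarith
    have h5 : x * (-1 + 1001 / 1000 * ((1 - (r * x) ^ 2) /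
        (1 + 2 * s * (r * x) + (r * x) ^ 2) ^ 2) + x / 100) ≤ x * (-(7 / 1000)) :=
      mul_le_mul_of_nonneg_left h3 (by linarith)
    have h6 : s / 2 ≤ 1 / 10 ^ 4 := by
      rw [hs]; linarith
    linarith
  · rw [hya]; linarith
  · rw [hya, hyb]
    have : s ^ 3 ≤ p / 20000 := hs3.trans hspp
    linarith
  · rw [hyb]; linarith
  · rw [hya]; linarith

end Pool.Agent.Lib.MP_0430e4_lc.BY
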