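import Pool.Agent.Lib.MP_0430e4_lc.BY.P.AGood
import Pool.Agent.Lib.MP_0430e4_lc.BY.P.ALow

/-!
# `LowOK` from helper66's `low_bound`
-/

set_option autoImplicit false

namespace Pool.Agent.Lib.MP_0430e4_lc.BY

theorem low_ok : LowOK := by
  intro V R v1 e K ya yb h
  obtain ⟨a0, ha0, h1⟩ := low_bound h.hR h.diff h.conj h.zero (by rw [h.der]; exact h.hv1)
  exact ⟨a0, ha0, h1⟩

theorem existsGood_of_V (hV : ExistsV) : ExistsGood := existsGood_of hV low_ok

end Pool.Agent.Lib.MP_0430e4_lc.BY
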