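import Mathlib

/-!
# Data of the perturbation `V` (BEYOND, block V)
-/

set_option autoImplicit false

namespace Pool.Agent.Lib.MP_0430e4_lc.BY

/-- what is used of the perturbation `V` -/
structure VData (V : ℂ → ℂ) (R v1 e K ya yb : ℝ) : Prop where
  hR : 1 < R
  diff : DifferentiableOn ℂ V (Metric.ball 0 R)
  conj : ∀ z : ℂ, ‖z‖ < R → V (starRingEnd ℂ z) = starRingEnd ℂ (V z)
  zero : V 0 = 0
  der : (deriv V 0).re = v1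
  hv1 : 0 < v1
  he : 0 < e
  bd : ∀ z : ℂ, ‖z‖ ≤ 1 → ‖V z‖ ≤ K
  arc : ∀ z : ℂ, ‖z‖ = 1 → -e ≤ z.re → (V z).re ≤ -e
  axis : ∀ y : ℝ, |y| ≤ ya ∨ (yb ≤ |y| ∧ |y| ≤ 1) → (V (y * Complex.I)).re ≤ -e * y ^ 2
  real : ∀ x : ℝ, 1 / 10 ≤ x → x ≤ 1 → (V (x : ℂ)).re ≤ -e
  hya : 1 / 2 ≤ ya
  hab : ya < yb
  hyb : yb < 1

/-- block V -/
def ExistsV : Prop := ∀ ρ : ℝ, 0 < ρ → ∃ (V : ℂ → ℂ) (R v1 e K ya yb : ℝ),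
  VData V R v1 e K ya yb ∧ 1 - ρ < ya

end Pool.Agent.Lib.MP_0430e4_lc.BY
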