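import Pool.Agent.Lib.MP_0430e4_lc.BY.E
import Pool.Agent.Lib.MP_0430e4_lc.BY.P.VData

/-!
# Block P, analytic half: the fields `top` and `bside` of `Good` (helper30)
-/

set_option autoImplicit false

namespace Pool.Agent.Lib.MP_0430e4_lc.BY

open Complex

theorem half_log_le {x A : ℝ} (hx : Real.exp x ^ 2 ≤ A) (_hA : 0 < A) : x ≤ Real.log A / 2 := by
  have h1 : Real.log (Real.exp x ^ 2) ≤ Real.log A :=
    Real.log_le_log (by positivity) hx
  rw [Real.log_pow, Real.log_exp] at h1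
  push_cast at h1
  linarith

/-- uniform continuity of `V` -/
theorem unif_V {V : ℂ → ℂ} {R e : ℝ} (hR : 1 < R) (hV : DifferentiableOn ℂ V (Metric.ball 0 R))
    (he : 0 < e) : ∃ δ : ℝ, 0 < δ ∧ ∀ z w : ℂ, ‖z‖ ≤ 1 → ‖w‖ ≤ 1 → ‖z - w‖ ≤ δ →
      |(V z).re - (V w).re| ≤ e := by
  have hsub : Metric.closedBall (0 : ℂ) 1 ⊆ Metric.ball 0 R := Metric.closedBall_subset_ball hR
  have hc : ContinuousOn V (Metric.closedBall (0 : ℂ) 1) := hV.continuousOn.mono hsub
  have hu := (isCompact_closedBall (0 : ℂ) 1).uniformContinuousOn_of_continuous hc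
  obtain ⟨δ, hδ, h⟩ := Metric.uniformContinuousOn_iff.mp hu e he
  refine ⟨δ / 2, by positivity, fun z w hz hw hzw => ?_⟩
  have h1 := h z (by rwa [mem_closedBall_zero_iff]) w (by rwa [mem_closedBall_zero_iff])
    (by rw [dist_eq_norm]; linarith)
  rw [dist_eq_norm] at h1
  have h2 := Complex.abs_re_le_norm (V z - V w)
  rw [sub_re] at h2
  linarith

theorem re_Psi_le {z : ℂ} (hz : ‖z‖ < 1) : (Psi z).re ≤ Real.log 2 / 2 := by
  have h1 := norm_Es_le hz
  rw [norm_Es] at h1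
  apply half_log_le _ (by norm_num)
  calc Real.exp (Psi z).re ^ 2 ≤ Real.sqrt 2 ^ 2 := pow_le_pow_left₀ (Real.exp_pos _).le h1 2
    _ = 2 := Real.sq_sqrt (by norm_num)

theorem re_Psi_le_norm {z : ℂ} (hz : ‖z‖ < 1) : (Psi z).re ≤ (Psi (‖z‖ : ℂ)).re := by
  have h := mono_angle (z := z) (w := (‖z‖ : ℂ)) hz (by simp)
    (by rw [Complex.ofReal_re]; exact Complex.re_le_norm z)
  rw [norm_Es, norm_Es] at h
  exact Real.exp_le_exp.mp h

/-- on the left of the disc, away from the axis, `E*` is smaller than on the real axis. -/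
theorem re_Psi_left {z : ℂ} {η : ℝ} (hz : ‖z‖ < 1) (hη : 0 ≤ η) (h : z.re ≤ -η) :
    (Psi z).re ≤ (Psi (‖z‖ : ℂ)).re - η ^ 2 / 2 := by
  have h1 := sq_le hz (by linarith)
  have hzr : ‖((‖z‖ : ℝ) : ℂ)‖ = ‖z‖ := by simp
  have h2 := sq_ge (z := ((‖z‖ : ℝ) : ℂ)) (by rw [hzr]; exact hz)
    (by rw [Complex.ofReal_re]; exact norm_nonneg z)
  rw [hzr] at h2
  have hn1 : ‖z‖ ^ 2 ≤ 1 := pow_le_one₀ (norm_nonneg _) hz.le
  have hn0 : 0 ≤ ‖z‖ ^ 2 := by positivity
  have h3 : η ^ 2 ≤ z.re ^ 2 := by nlinarith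
  set m : ℝ := ‖z‖ ^ 2 with hm
  have h4 : 1 + m - 4 * z.re ^ 2 / (1 + m) ≤ (1 + m) * (1 - η ^ 2) := by
    have h5 : (1 + m) * η ^ 2 ≤ 4 * z.re ^ 2 / (1 + m) := by
      rw [le_div_iff₀ (by positivity)]
      have h6 : (1 + m) * (1 + m) ≤ 4 := by nlinarith
      nlinarith [mul_le_mul_of_nonneg_right h6 (sq_nonneg η)]
    linarith
  have h7 : 1 - η ^ 2 ≤ Real.exp (-η ^ 2) := by
    have := Real.add_one_le_exp (-η ^ 2)
    linarith
  have h8 : ‖Es z‖ ^ 2 ≤ ‖Es ((‖z‖ : ℝ) : ℂ)‖ ^ 2 * Real.exp (-η ^ 2) := by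
    calc ‖Es z‖ ^ 2 ≤ (1 + m) * (1 - η ^ 2) := h1.trans h4
      _ ≤ (1 + m) * Real.exp (-η ^ 2) := mul_le_mul_of_nonneg_left h7 (by positivity)
      _ ≤ _ := mul_le_mul_of_nonneg_right h2 (Real.exp_pos _).le
  rw [norm_Es, norm_Es, ← Real.exp_nat_mul, ← Real.exp_nat_mul, ← Real.exp_add] at h8
  have h9 := Real.exp_le_exp.mp h8
  push_cast at h9
  linarith

/-- the field `top` -/
theorem top_bound {V : ℂ → ℂ} {R v1 e K ya yb : ℝ} (h : VData V R v1 e K ya yb) :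
    ∃ a0 : ℝ, 0 < a0 ∧ ∃ x0 : ℝ, x0 < 1 ∧ ∀ a : ℝ, 0 < a → a ≤ a0 → ∀ z : ℂ, x0 ≤ ‖z‖ → ‖z‖ < 1 →
      (Psi z + (a : ℂ) * V z).re ≤ Real.log 2 / 2 - a * (e / 2) := by
  have he := h.he
  obtain ⟨δ, hδ, hu⟩ := unif_V h.hR h.diff (show 0 < e / 2 by positivity)
  have hK0 : 0 ≤ K := (norm_nonneg _).trans (h.bd 0 (by simp))
  set A : ℝ := K + e with hA
  have hAp : 0 < A := by positivity
  refine ⟨e ^ 2 / (8 * A), by positivity, max (1 / 2) (1 - δ), ?_, ?_⟩
  · apply max_lt (by norm_num) (by linarith)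
  intro a ha ha0 z hz0 hz1
  have hz12 : 1 / 2 ≤ ‖z‖ := (le_max_left _ _).trans hz0
  have hzδ : 1 - δ ≤ ‖z‖ := (le_max_right _ _).trans hz0
  have haA : a * (8 * A) ≤ e ^ 2 := by rwa [le_div_iff₀ (by positivity)] at ha0
  rw [add_re, Complex.re_ofReal_mul]
  have hVK : (V z).re ≤ K := (Complex.re_le_norm _).trans (h.bd z hz1.le)
  by_cases hre : -(e / 2) ≤ z.re
  · -- compare with the point on the circle
    have hzp : 0 < ‖z‖ := by linarith
    set w : ℂ := ((‖z‖⁻¹ : ℝ) : ℂ) * z with hw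
    have hwn : ‖w‖ = 1 := by
      rw [hw, norm_mul, Complex.norm_real, Real.norm_eq_abs, abs_of_pos (inv_pos.mpr hzp)]
      exact inv_mul_cancel₀ hzp.ne'
    have hwre : -e ≤ w.re := by
      rw [hw, Complex.re_ofReal_mul]
      have h1 : ‖z‖⁻¹ ≤ 2 := by
        rw [inv_le_comm₀ hzp (by norm_num)]; linarith
      have h2 : 0 < ‖z‖⁻¹ := inv_pos.mpr hzp
      nlinarith
    have hzw : ‖z - w‖ ≤ δ := by
      have h3 : z - w = ((1 - ‖z‖⁻¹ : ℝ) : ℂ) * z := by rw [hw]; push_cast; ring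
      rw [h3, norm_mul, Complex.norm_real, Real.norm_eq_abs]
      have h4 : |1 - ‖z‖⁻¹| * ‖z‖ = 1 - ‖z‖ := by
        rw [abs_of_nonpos, neg_sub, sub_mul, inv_mul_cancel₀ hzp.ne']; ring
        have := one_le_inv₀ hzp |>.mpr hz1.le
        linarith
      rw [h4]; linarith
    have h5 := hu z w hz1.le hwn.le hzw
    have h6 := h.arc w hwn hwre
    have h7 := (abs_le.mp h5).2
    have h8 : (V z).re ≤ -(e / 2) := by linarith
    have h9 := mul_le_mul_of_nonneg_left h8 ha.le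
    have h10 := re_Psi_le hz1
    linarith
  · push Not at hre
    have h1 := re_Psi_left (η := e / 2) hz1 (by positivity) hre.le
    have hzr : ‖((‖z‖ : ℝ) : ℂ)‖ = ‖z‖ := by simp
    have h2 := re_Psi_le (z := ((‖z‖ : ℝ) : ℂ)) (by rw [hzr]; exact hz1)
    have h3 := mul_le_mul_of_nonneg_left hVK ha.le
    nlinarith

/-- the field `bside` -/
theorem bside_bound {V : ℂ → ℂ} {R v1 e K ya yb : ℝ} (h : VData V R v1 e K ya yb) :
    ∃ a0 : ℝ, 0 < a0 ∧ ∀ a : ℝ, 0 < a → a ≤ a0 → ∀ z : ℂ, 1 / 10 ≤ ‖z‖ → ‖z‖ < 1 →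
      Real.exp (Psi z + (a : ℂ) * V z).re ≤ ‖Es (‖z‖ : ℂ)‖ * Real.exp (-(a * (e / 2))) := by
  have he := h.he
  obtain ⟨δ, hδ, hu⟩ := unif_V h.hR h.diff (show 0 < e / 2 by positivity)
  have hK0 : 0 ≤ K := (norm_nonneg _).trans (h.bd 0 (by simp))
  set A : ℝ := K + e with hA
  have hAp : 0 < A := by positivity
  set d : ℝ := min δ (1 / 2) with hd
  have hdp : 0 < d := by positivity
  have hdδ : d ≤ δ := min_le_left _ _
  have hd12 : d ≤ 1 / 2 := min_le_right _ _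
  have hpi := Real.pi_pos
  refine ⟨min (e ^ 2 / (8 * A)) (d * (d ^ 2 / 2) / (8 * Real.pi * A)), by positivity, ?_⟩
  intro a ha ha0 z hz0 hz1
  have haA : a * (8 * A) ≤ e ^ 2 := by
    have := ha0.trans (min_le_left _ _)
    rwa [le_div_iff₀ (by positivity)] at this
  have haB : a * (8 * Real.pi * A) ≤ d * (d ^ 2 / 2) := by
    have := ha0.trans (min_le_right _ _)
    rwa [le_div_iff₀ (by positivity)] at this
  have hVK : (V z).re ≤ K := (Complex.re_le_norm _).trans (h.bd z hz1.le)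
  rw [norm_Es, ← Real.exp_add]
  apply Real.exp_le_exp.mpr
  rw [add_re, Complex.re_ofReal_mul]
  have hmono := re_Psi_le_norm hz1
  have hzp : 0 < ‖z‖ := by linarith
  by_cases hcirc : 1 - d ≤ ‖z‖
  · by_cases hre : -(e / 2) ≤ z.re
    · set w : ℂ := ((‖z‖⁻¹ : ℝ) : ℂ) * z with hw
      have hwn : ‖w‖ = 1 := by
        rw [hw, norm_mul, Complex.norm_real, Real.norm_eq_abs, abs_of_pos (inv_pos.mpr hzp)]
        exact inv_mul_cancel₀ hzp.ne'
      have hwre : -e ≤ w.re := by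
        rw [hw, Complex.re_ofReal_mul]
        have h1 : ‖z‖⁻¹ ≤ 2 := by
          rw [inv_le_comm₀ hzp (by norm_num)]; linarith
        have h2 : 0 < ‖z‖⁻¹ := inv_pos.mpr hzp
        nlinarith
      have hzw : ‖z - w‖ ≤ δ := by
        have h3 : z - w = ((1 - ‖z‖⁻¹ : ℝ) : ℂ) * z := by rw [hw]; push_cast; ring
        rw [h3, norm_mul, Complex.norm_real, Real.norm_eq_abs]
        have h4 : |1 - ‖z‖⁻¹| * ‖z‖ = 1 - ‖z‖ := by
          rw [abs_of_nonpos, neg_sub, sub_mul, inv_mul_cancel₀ hzp.ne']; ring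
          have := one_le_inv₀ hzp |>.mpr hz1.le
          linarith
        rw [h4]; linarith
      have h5 := hu z w hz1.le hwn.le hzw
      have h6 := h.arc w hwn hwre
      have h7 := (abs_le.mp h5).2
      have h8 : (V z).re ≤ -(e / 2) := by linarith
      have h9 := mul_le_mul_of_nonneg_left h8 ha.le
      linarith
    · push Not at hre
      have h1 := re_Psi_left (η := e / 2) hz1 (by positivity) hre.le
      have h3 := mul_le_mul_of_nonneg_left hVK ha.le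
      nlinarith
  · push Not at hcirc
    by_cases hre : ‖z‖ - d ^ 2 / 2 ≤ z.re
    · -- near the real axis
      have hzw : ‖z - ((‖z‖ : ℝ) : ℂ)‖ ≤ δ := by
        have h3 : ‖z - ((‖z‖ : ℝ) : ℂ)‖ ^ 2 = 2 * ‖z‖ * (‖z‖ - z.re) := by
          have h4 : ‖z‖ ^ 2 = z.re * z.re + z.im * z.im := by
            rw [← Complex.normSq_eq_norm_sq, Complex.normSq_apply]
          rw [← Complex.normSq_eq_norm_sq, Complex.normSq_apply, sub_re, sub_im,
            Complex.ofReal_re, Complex.ofReal_im]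
          nlinarith
        apply le_trans _ hdδ
        apply le_of_sq_le_sq _ hdp.le
        rw [h3]
        have h5 : ‖z‖ - z.re ≤ d ^ 2 / 2 := by linarith
        have h6 : 0 ≤ ‖z‖ - z.re := sub_nonneg.mpr (Complex.re_le_norm z)
        nlinarith
      have hzr : ‖((‖z‖ : ℝ) : ℂ)‖ = ‖z‖ := by simp
      have h5 := hu z ((‖z‖ : ℝ) : ℂ) hz1.le (by rw [hzr]; exact hz1.le) hzw
      have h6 := h.real ‖z‖ hz0 hz1.le
      have h7 := (abs_le.mp h5).2
      have h8 : (V z).re ≤ -(e / 2) := by linarith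
      have h9 := mul_le_mul_of_nonneg_left h8 ha.le
      linarith
    · push Not at hre
      have h1 := damping hz1
      rw [norm_Es, norm_Es, ← Real.exp_add] at h1
      have h2 := Real.exp_le_exp.mp h1
      have h3 := mul_le_mul_of_nonneg_left hVK ha.le
      have h4 : d * (d ^ 2 / 2) / (8 * Real.pi) ≤
          (1 - ‖z‖ ^ 2) * (‖z‖ - z.re) / (8 * Real.pi) := by
        apply div_le_div_of_nonneg_right _ (by positivity)
        apply mul_le_mul _ (by linarith) (by positivity) _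
        · nlinarith
        · nlinarith
      have h5 : a * A ≤ d * (d ^ 2 / 2) / (8 * Real.pi) := by
        rw [le_div_iff₀ (by positivity)]
        linarith
      rw [hA] at h5
      nlinarith

end Pool.Agent.Lib.MP_0430e4_lc.BY
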