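import Pool.Agent.Lib.MP_0430e4_lc.BY.P.Pair
import Pool.Agent.Lib.MP_0430e4_lc.BY.Gen30

/-!
Pairing of an arc of the contour with a code (block P of BEYOND, helper1).
-/

open Finset MeasureTheory

namespace Pool.Agent.Lib.MP_0430e4_lc.BY

variable {n : ℕ}

/-- the arc integral -/
noncomputable def Iarc (G : ℝ → ℂ) (R pa pb : ℝ) (w : ℕ) : ℂ :=
  ∫ θ in pa..pb, G θ * ((R : ℂ) ^ w * Complex.exp ((w : ℂ) * ((θ : ℂ) * Complex.I)))⁻¹

theorem norm_ker {R : ℝ} (hR : 1 ≤ R) (w : ℕ) (θ : ℝ) :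
    ‖((R : ℂ) ^ w * Complex.exp ((w : ℂ) * ((θ : ℂ) * Complex.I)))⁻¹‖ ≤ 1 := by
  have h1 : (w : ℂ) * ((θ : ℂ) * Complex.I) = ((w * θ : ℝ) : ℂ) * Complex.I := by push_cast; ring
  rw [h1, norm_inv, norm_mul, Complex.norm_exp_ofReal_mul_I, mul_one, norm_pow, Complex.norm_real,
    Real.norm_eq_abs, abs_of_nonneg (by linarith)]
  exact inv_le_one_of_one_le₀ (one_le_pow₀ hR)

theorem norm_Iarc_le {G : ℝ → ℂ} {R pa pb Gm : ℝ} (hR : 1 ≤ R) (hab : pa ≤ pb)
    (hG : ∀ θ, pa ≤ θ → θ ≤ pb → ‖G θ‖ ≤ Gm) (w : ℕ) : ‖Iarc G R pa pb w‖ ≤ (pb - pa) * Gm := by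
  unfold Iarc
  have h1 := intervalIntegral.norm_integral_le_of_norm_le_const (a := pa) (b := pb)
    (f := fun θ : ℝ => G θ * ((R : ℂ) ^ w * Complex.exp ((w : ℂ) * ((θ : ℂ) * Complex.I)))⁻¹) (C := Gm)
    (by
      intro θ hθ
      rw [Set.uIoc_of_le hab] at hθ
      rw [norm_mul]
      have h2 := hG θ hθ.1.le hθ.2
      calc ‖G θ‖ * ‖((R : ℂ) ^ w * Complex.exp ((w : ℂ) * ((θ : ℂ) * Complex.I)))⁻¹‖
          ≤ Gm * 1 := mul_le_mul h2 (norm_ker hR w θ) (norm_nonneg _) ((norm_nonneg _).trans h2)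
        _ = Gm := mul_one _)
  rw [abs_of_nonneg (by linarith)] at h1
  linarith

/-- the enumerator at `t/((1-t)R) e^{-iθ}` as a sum over the weights -/
theorem enum_ray (C : Finset (Wd n)) {t R : ℝ} (ht : t < 1) (hR : 0 < R) (θ : ℝ) :
    ((1 - t : ℝ) : ℂ) ^ n * ∑ x ∈ C, ∑ y ∈ C,
      (((t / ((1 - t) * R) : ℝ) : ℂ) * Complex.exp (-((θ : ℂ) * Complex.I))) ^ wt (x - y) =
    ∑ w ∈ range (n + 1), (Nw C w : ℂ) * (((t ^ w * (1 - t) ^ (n - w) : ℝ) : ℂ) *
      ((R : ℂ) ^ w * Complex.exp ((w : ℂ) * ((θ : ℂ) * Complex.I)))⁻¹) := by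
  rw [sum_pairs C (fun w => (((t / ((1 - t) * R) : ℝ) : ℂ) *
    Complex.exp (-((θ : ℂ) * Complex.I))) ^ w), Finset.mul_sum]
  apply Finset.sum_congr rfl
  intro w hw
  have hwn : w ≤ n := Nat.lt_succ_iff.mp (Finset.mem_range.mp hw)
  have h1t : ((1 - t : ℝ) : ℂ) ≠ 0 := by
    exact_mod_cast (sub_pos.mpr ht).ne'
  have hRc : (R : ℂ) ≠ 0 := by exact_mod_cast hR.ne'
  have h2 : ((1 - t : ℝ) : ℂ) ^ n = ((1 - t : ℝ) : ℂ) ^ (n - w) * ((1 - t : ℝ) : ℂ) ^ w := by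
    rw [← pow_add, Nat.sub_add_cancel hwn]
  have h3 : Complex.exp (-((θ : ℂ) * Complex.I)) ^ w =
      (Complex.exp ((w : ℂ) * ((θ : ℂ) * Complex.I)))⁻¹ := by
    rw [← Complex.exp_nat_mul, ← Complex.exp_neg]; congr 1; ring
  rw [mul_pow, h3, h2]
  have h4 : (((t / ((1 - t) * R) : ℝ) : ℂ)) = (t : ℂ) / (((1 - t : ℝ) : ℂ) * (R : ℂ)) := by
    push_cast; ring
  have h5 : ((t ^ w * (1 - t) ^ (n - w) : ℝ) : ℂ) = (t : ℂ) ^ w * ((1 - t : ℝ) : ℂ) ^ (n - w) := by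
    push_cast; ring
  rw [h4, h5, div_pow, mul_pow, mul_inv]
  have h6 : ((1 - t : ℝ) : ℂ) ^ w ≠ 0 := pow_ne_zero _ h1t
  have h7 : (R : ℂ) ^ w ≠ 0 := pow_ne_zero _ hRc
  field_simp

theorem arc_pair (hn : 1 ≤ n) (C : Finset (Wd n)) (S : Finset ℕ) (hS : S ⊆ range (n + 1)) {R pa pb : ℝ}
    (hR : 1 ≤ R) (hab : pa ≤ pb) {G : ℝ → ℂ} (hGc : ContinuousOn G (Set.Icc pa pb)) {Gm : ℝ}
    (hG : ∀ θ, pa ≤ θ → θ ≤ pb → ‖G θ‖ ≤ Gm) {η : ℝ} (hη : 0 < η) (hη1 : η < 1 / 2) {T A : ℝ}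
    (hT0 : 0 ≤ T) (hA0 : 0 ≤ A)
    (hT : ∀ θ, pa ≤ θ → θ ≤ pb → ∀ t : ℝ, |t - 1 / 2| ≤ η →
      (1 - t) ^ n * ‖∑ x ∈ C, ∑ y ∈ C,
        (((t / ((1 - t) * R) : ℝ) : ℂ) * Complex.exp (-((θ : ℂ) * Complex.I))) ^ wt (x - y)‖ ≤ T)
    (hA : ∀ w ∈ S, |(w : ℝ) / n - 1 / 2| ≤ η / 2 → (Nw C w : ℝ) ≤ A * n.choose w) :
    ‖∑ w ∈ S, ((Nw C w : ℝ) / n.choose w : ℝ) * Iarc G R pa pb w‖ ≤
      (n + 1) * ((pb - pa) * Gm) * (T + (n + 1) * A * Real.exp (-(n * η ^ 2 / 16)) +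
        ∑ w ∈ range (n + 1) \ S, (Nw C w : ℝ) * (1 / 2 + η) ^ n) +
      ∑ w ∈ S.filter (fun w : ℕ => η / 2 < |(w : ℝ) / n - 1 / 2|),
        (Nw C w : ℝ) / n.choose w * ‖Iarc G R pa pb w‖ := by
  classical
  have hGm0 : 0 ≤ Gm := (norm_nonneg _).trans (hG pa le_rfl hab)
  have hL0 : 0 ≤ (pb - pa) * Gm := mul_nonneg (by linarith) hGm0
  have hI : ∀ w, ‖Iarc G R pa pb w‖ ≤ (pb - pa) * Gm := norm_Iarc_le hR hab hG
  have hcpos : ∀ w ∈ range (n + 1), (0 : ℝ) < n.choose w := fun w hw => by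
    exact_mod_cast Nat.choose_pos (Nat.lt_succ_iff.mp (Finset.mem_range.mp hw))
  -- splitting
  have hsplit : ∑ w ∈ S, (((Nw C w : ℝ) / n.choose w : ℝ) : ℂ) * Iarc G R pa pb w =
      ∑ w ∈ range (n + 1), (((Nw C w : ℝ) / n.choose w * Jw n w η : ℝ) : ℂ) * Iarc G R pa pb w -
      ∑ w ∈ range (n + 1) \ S, (((Nw C w : ℝ) / n.choose w * Jw n w η : ℝ) : ℂ) * Iarc G R pa pb w +
      ∑ w ∈ S, (((Nw C w : ℝ) / n.choose w * (1 - Jw n w η) : ℝ) : ℂ) * Iarc G R pa pb w := by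
    have h1 := Finset.sum_sdiff (f := fun w => (((Nw C w : ℝ) / n.choose w * Jw n w η : ℝ) : ℂ) *
      Iarc G R pa pb w) hS
    rw [← h1]
    have h2 : ∑ w ∈ S, (((Nw C w : ℝ) / n.choose w : ℝ) : ℂ) * Iarc G R pa pb w =
        ∑ w ∈ S, (((Nw C w : ℝ) / n.choose w * Jw n w η : ℝ) : ℂ) * Iarc G R pa pb w +
        ∑ w ∈ S, (((Nw C w : ℝ) / n.choose w * (1 - Jw n w η) : ℝ) : ℂ) * Iarc G R pa pb w := by
      rw [← Finset.sum_add_distrib]
      apply Finset.sum_congr rfl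
      intro w _
      push_cast; ring
    rw [h2]; ring
  -- term 1
  have hterm1 : ‖∑ w ∈ range (n + 1), (((Nw C w : ℝ) / n.choose w * Jw n w η : ℝ) : ℂ) *
      Iarc G R pa pb w‖ ≤ (n + 1) * ((pb - pa) * Gm) * T := by
    have h1 : ∑ w ∈ range (n + 1), (((Nw C w : ℝ) / n.choose w * Jw n w η : ℝ) : ℂ) *
        Iarc G R pa pb w = ((n : ℂ) + 1) * ∫ t in (1 / 2 - η)..(1 / 2 + η),
          ∑ w ∈ range (n + 1), (Nw C w : ℂ) * ((t ^ w * (1 - t) ^ (n - w) : ℝ) : ℂ) *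
            Iarc G R pa pb w := by
      rw [intervalIntegral.integral_finsetSum, Finset.mul_sum]
      · apply Finset.sum_congr rfl
        intro w hw
        have h2 : ∀ t : ℝ, (Nw C w : ℂ) * ((t ^ w * (1 - t) ^ (n - w) : ℝ) : ℂ) * Iarc G R pa pb w =
            ((Nw C w : ℂ) * Iarc G R pa pb w) * ((t ^ w * (1 - t) ^ (n - w) : ℝ) : ℂ) := fun t => by ring
        simp only [h2]
        rw [intervalIntegral.integral_const_mul, intervalIntegral.integral_ofReal]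
        unfold Jw
        have h3 := (hcpos w hw).ne'
        have h3' : (n.choose w : ℂ) ≠ 0 := by exact_mod_cast h3
        push_cast
        field_simp
      · intro w _
        apply Continuous.intervalIntegrable
        fun_prop
    rw [h1, norm_mul]
    have h2 : ‖(n : ℂ) + 1‖ = (n : ℝ) + 1 := by
      have : (n : ℂ) + 1 = ((n + 1 : ℝ) : ℂ) := by push_cast; ring
      rw [this, Complex.norm_real, Real.norm_eq_abs, abs_of_nonneg (by positivity)]
    rw [h2]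
    have h3 : ‖∫ t in (1 / 2 - η)..(1 / 2 + η), ∑ w ∈ range (n + 1), (Nw C w : ℂ) *
        ((t ^ w * (1 - t) ^ (n - w) : ℝ) : ℂ) * Iarc G R pa pb w‖ ≤
        ((pb - pa) * Gm * T) * |(1 / 2 + η) - (1 / 2 - η)| := by
      apply intervalIntegral.norm_integral_le_of_norm_le_const
      intro t ht
      rw [Set.uIoc_of_le (by linarith)] at ht
      have ht1 : t < 1 := by linarith [ht.2]
      have ht2 : |t - 1 / 2| ≤ η := by rw [abs_le]; constructor <;> linarith [ht.1, ht.2]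
      have h4 : ∑ w ∈ range (n + 1), (Nw C w : ℂ) * ((t ^ w * (1 - t) ^ (n - w) : ℝ) : ℂ) *
          Iarc G R pa pb w = ∫ θ in pa..pb, G θ * (((1 - t : ℝ) : ℂ) ^ n * ∑ x ∈ C, ∑ y ∈ C,
            (((t / ((1 - t) * R) : ℝ) : ℂ) * Complex.exp (-((θ : ℂ) * Complex.I))) ^ wt (x - y)) := by
        have h5 : ∀ θ : ℝ, G θ * (((1 - t : ℝ) : ℂ) ^ n * ∑ x ∈ C, ∑ y ∈ C,
            (((t / ((1 - t) * R) : ℝ) : ℂ) * Complex.exp (-((θ : ℂ) * Complex.I))) ^ wt (x - y)) =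
            ∑ w ∈ range (n + 1), ((Nw C w : ℂ) * ((t ^ w * (1 - t) ^ (n - w) : ℝ) : ℂ)) *
              (G θ * ((R : ℂ) ^ w * Complex.exp ((w : ℂ) * ((θ : ℂ) * Complex.I)))⁻¹) := by
          intro θ
          rw [enum_ray C ht1 (by linarith) θ, Finset.mul_sum]
          apply Finset.sum_congr rfl
          intro w _
          ring
        simp only [h5]
        rw [intervalIntegral.integral_finsetSum]
        · apply Finset.sum_congr rfl
          intro w _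
          rw [intervalIntegral.integral_const_mul]
          rfl
        · intro w _
          apply IntervalIntegrable.const_mul
          apply ContinuousOn.intervalIntegrable
          rw [Set.uIcc_of_le hab]
          apply hGc.mul
          apply Continuous.continuousOn
          apply Continuous.inv₀
          · fun_prop
          · intro θ
            have hRc : (R : ℂ) ≠ 0 := by
              have : R ≠ 0 := by linarith
              exact_mod_cast this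
            exact mul_ne_zero (pow_ne_zero _ hRc) (Complex.exp_ne_zero _)
      rw [h4]
      have h6 := intervalIntegral.norm_integral_le_of_norm_le_const (a := pa) (b := pb)
        (f := fun θ : ℝ => G θ * (((1 - t : ℝ) : ℂ) ^ n * ∑ x ∈ C, ∑ y ∈ C,
            (((t / ((1 - t) * R) : ℝ) : ℂ) * Complex.exp (-((θ : ℂ) * Complex.I))) ^ wt (x - y)))
        (C := Gm * T) (by
          intro θ hθ
          rw [Set.uIoc_of_le hab] at hθ
          rw [norm_mul]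
          apply mul_le_mul (hG θ hθ.1.le hθ.2) _ (norm_nonneg _) hGm0
          rw [norm_mul, norm_pow, Complex.norm_real, Real.norm_eq_abs, abs_of_nonneg (by linarith)]
          exact hT θ hθ.1.le hθ.2 t ht2)
      rw [abs_of_nonneg (by linarith)] at h6
      linarith
    have h4 : |(1 / 2 + η) - (1 / 2 - η)| ≤ 1 := by
      rw [abs_of_nonneg (by linarith)]; linarith
    have h5 : ((pb - pa) * Gm * T) * |(1 / 2 + η) - (1 / 2 - η)| ≤ (pb - pa) * Gm * T := by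
      have := mul_le_mul_of_nonneg_left h4 (mul_nonneg hL0 hT0)
      linarith
    calc ((n : ℝ) + 1) * _ ≤ ((n : ℝ) + 1) * ((pb - pa) * Gm * T) :=
          mul_le_mul_of_nonneg_left (h3.trans h5) (by positivity)
      _ = _ := by ring
  -- term 2
  have hterm2 : ‖∑ w ∈ range (n + 1) \ S, (((Nw C w : ℝ) / n.choose w * Jw n w η : ℝ) : ℂ) *
      Iarc G R pa pb w‖ ≤ (n + 1) * ((pb - pa) * Gm) *
        ∑ w ∈ range (n + 1) \ S, (Nw C w : ℝ) * (1 / 2 + η) ^ n := by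
    rw [Finset.mul_sum]
    refine (norm_sum_le _ _).trans (Finset.sum_le_sum fun w hw => ?_)
    have hw1 : w ∈ range (n + 1) := (Finset.mem_sdiff.mp hw).1
    have hwn : w ≤ n := Nat.lt_succ_iff.mp (Finset.mem_range.mp hw1)
    have hc := hcpos w hw1
    have hJ0 := Jw_nonneg n w hη.le hη1.le
    rw [norm_mul, Complex.norm_real, Real.norm_eq_abs, abs_of_nonneg (by positivity)]
    have h1 : (Nw C w : ℝ) / n.choose w * Jw n w η ≤ (Nw C w : ℝ) * ((n + 1) * (1 / 2 + η) ^ n) := by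
      have h2 := Jw_le hwn hη.le hη1.le
      calc (Nw C w : ℝ) / n.choose w * Jw n w η
          ≤ (Nw C w : ℝ) / n.choose w * ((n + 1) * n.choose w * (1 / 2 + η) ^ n) :=
            mul_le_mul_of_nonneg_left h2 (by positivity)
        _ = _ := by field_simp
    calc (Nw C w : ℝ) / n.choose w * Jw n w η * ‖Iarc G R pa pb w‖
        ≤ (Nw C w : ℝ) * ((n + 1) * (1 / 2 + η) ^ n) * ((pb - pa) * Gm) :=
          mul_le_mul h1 (hI w) (norm_nonneg _) (by positivity)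
      _ = _ := by ring
  -- term 3
  have hterm3 : ‖∑ w ∈ S, (((Nw C w : ℝ) / n.choose w * (1 - Jw n w η) : ℝ) : ℂ) *
      Iarc G R pa pb w‖ ≤ (n + 1) * ((pb - pa) * Gm) * ((n + 1) * A * Real.exp (-(n * η ^ 2 / 16))) +
      ∑ w ∈ S.filter (fun w : ℕ => η / 2 < |(w : ℝ) / n - 1 / 2|),
        (Nw C w : ℝ) / n.choose w * ‖Iarc G R pa pb w‖ := by
    refine (norm_sum_le _ _).trans ?_
    rw [← Finset.sum_filter_add_sum_filter_not S (fun w : ℕ => η / 2 < |(w : ℝ) / n - 1 / 2|), add_comm]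
    apply add_le_add
    · have h1 : ∀ w ∈ S.filter (fun w : ℕ => ¬ η / 2 < |(w : ℝ) / n - 1 / 2|),
          ‖(((Nw C w : ℝ) / n.choose w * (1 - Jw n w η) : ℝ) : ℂ) * Iarc G R pa pb w‖ ≤
            A * ((n + 1) * Real.exp (-(n * η ^ 2 / 16))) * ((pb - pa) * Gm) := by
        intro w hw
        obtain ⟨hwS, hww⟩ := Finset.mem_filter.mp hw
        rw [not_lt] at hww
        have hw1 := hS hwS
        have hwn : w ≤ n := Nat.lt_succ_iff.mp (Finset.mem_range.mp hw1)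
        have hc := hcpos w hw1
        have hJ1 := Jw_le_one hwn hη.le hη1.le
        have h2 := one_sub_Jw_le hn hwn hη.le hη1.le hww
        have h3 : (Nw C w : ℝ) / n.choose w ≤ A := by
          rw [div_le_iff₀ hc]; exact hA w hwS hww
        have h0 : 0 ≤ 1 - Jw n w η := by linarith
        rw [norm_mul, Complex.norm_real, Real.norm_eq_abs, abs_of_nonneg (by positivity)]
        apply mul_le_mul _ (hI w) (norm_nonneg _) (by positivity)
        exact mul_le_mul h3 h2 h0 hA0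
      have h2 := Finset.sum_le_sum h1
      rw [Finset.sum_const, nsmul_eq_mul] at h2
      refine h2.trans ?_
      have h3 : ((S.filter (fun w : ℕ => ¬ η / 2 < |(w : ℝ) / n - 1 / 2|)).card : ℝ) ≤ n + 1 := by
        have h4 : (S.filter (fun w : ℕ => ¬ η / 2 < |(w : ℝ) / n - 1 / 2|)).card ≤ n + 1 := by
          calc _ ≤ S.card := Finset.card_filter_le _ _
            _ ≤ (range (n + 1)).card := Finset.card_le_card hS
            _ = n + 1 := Finset.card_range _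
        exact_mod_cast h4
      calc ((S.filter (fun w : ℕ => ¬ η / 2 < |(w : ℝ) / n - 1 / 2|)).card : ℝ) *
            (A * ((n + 1) * Real.exp (-(n * η ^ 2 / 16))) * ((pb - pa) * Gm))
          ≤ (n + 1) * (A * ((n + 1) * Real.exp (-(n * η ^ 2 / 16))) * ((pb - pa) * Gm)) :=
            mul_le_mul_of_nonneg_right h3 (by positivity)
        _ = _ := by ring
    · apply Finset.sum_le_sum
      intro w hw
      obtain ⟨hwS, _⟩ := Finset.mem_filter.mp hw
      have hw1 := hS hwS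
      have hwn : w ≤ n := Nat.lt_succ_iff.mp (Finset.mem_range.mp hw1)
      have hc := hcpos w hw1
      have hJ1 := Jw_le_one hwn hη.le hη1.le
      have hJ0 := Jw_nonneg n w hη.le hη1.le
      have h0 : 0 ≤ 1 - Jw n w η := by linarith
      rw [norm_mul, Complex.norm_real, Real.norm_eq_abs, abs_of_nonneg (by positivity)]
      apply mul_le_mul_of_nonneg_right _ (norm_nonneg _)
      calc (Nw C w : ℝ) / n.choose w * (1 - Jw n w η) ≤ (Nw C w : ℝ) / n.choose w * 1 :=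
            mul_le_mul_of_nonneg_left (by linarith) (by positivity)
        _ = _ := mul_one _
  rw [hsplit]
  calc _ ≤ ‖∑ w ∈ range (n + 1), (((Nw C w : ℝ) / n.choose w * Jw n w η : ℝ) : ℂ) *
        Iarc G R pa pb w‖ + ‖∑ w ∈ range (n + 1) \ S, (((Nw C w : ℝ) / n.choose w * Jw n w η : ℝ) : ℂ) *
        Iarc G R pa pb w‖ + ‖∑ w ∈ S, (((Nw C w : ℝ) / n.choose w * (1 - Jw n w η) : ℝ) : ℂ) *
        Iarc G R pa pb w‖ := (norm_add_le _ _).trans (add_le_add_left (norm_sub_le _ _) _)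
    _ ≤ _ := by
      have h1 : (n + 1) * ((pb - pa) * Gm) * (T + (n + 1) * A * Real.exp (-(n * η ^ 2 / 16)) +
        ∑ w ∈ range (n + 1) \ S, (Nw C w : ℝ) * (1 / 2 + η) ^ n) =
        (n + 1) * ((pb - pa) * Gm) * T +
        (n + 1) * ((pb - pa) * Gm) * ((n + 1) * A * Real.exp (-(n * η ^ 2 / 16))) +
        (n + 1) * ((pb - pa) * Gm) * ∑ w ∈ range (n + 1) \ S, (Nw C w : ℝ) * (1 / 2 + η) ^ n := by ring
      rw [h1]
      linarith

end Pool.Agent.Lib.MP_0430e4_lc.BY
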