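import Pool.Agent.Lib.MP_0430e4_lc.BY.P.Good

/-!
# N01 (BEYOND block P): the Taylor coefficients `cf L n k` of `exp (n L)`

`L` is holomorphic on the unit ball and `L (conj z) = conj (L z)`.

PROOF. `f z = exp (n L z)` is differentiable on `ball 0 1`, so `Complex.hasSum_taylorSeries_on_ball`
gives `HasSum (fun k => (k!)⁻¹ • z^k • iteratedDeriv k f 0) (f z)`.  The numbers `iteratedDeriv k f 0`
are real: `f (conj z) = conj (f z)`, hence (`star` of the series at `conj z`) both `iteratedDeriv k f 0`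
and its conjugate are Taylor coefficients of `f` (uniqueness of power series), or directly
`iteratedDeriv k (conj ∘ f ∘ conj) = conj ∘ iteratedDeriv k f ∘ conj` by induction on `k`
(`HasDerivAt.conj_conj` / `deriv_conj_conj` in Mathlib: `iteratedDeriv` of the function `conj f conj`).
`cf_bound`: `Complex.norm_iteratedDeriv_le_of_forall_mem_sphere_norm_le` with radius `x` (`f` is
differentiable on a neighbourhood of the closed ball of radius `x < 1`: `DiffContOnCl`).
-/

set_option autoImplicit false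

open Finset Polynomial

namespace Pool.Agent.Lib.MP_0430e4_lc.BY

private theorem N01_diff {L : ℂ → ℂ} (hd : DifferentiableOn ℂ L (Metric.ball 0 1)) (n : ℕ) :
    DifferentiableOn ℂ (fun z => Complex.exp (n * L z)) (Metric.ball 0 1) :=
  ((differentiableOn_const (n : ℂ)).mul hd).cexp

private theorem N01_iter_conj (f : ℂ → ℂ) (k : ℕ) :
    iteratedDeriv k (starRingEnd ℂ ∘ f ∘ starRingEnd ℂ) =
      starRingEnd ℂ ∘ iteratedDeriv k f ∘ starRingEnd ℂ := by
  induction k with
  | zero => simp [iteratedDeriv_zero]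
  | succ k ih => rw [iteratedDeriv_succ, ih, deriv_conj_conj, iteratedDeriv_succ]

private theorem N01_iter_real {L : ℂ → ℂ}
    (hconj : ∀ z : ℂ, ‖z‖ < 1 → L (starRingEnd ℂ z) = starRingEnd ℂ (L z)) (n k : ℕ) :
    starRingEnd ℂ (iteratedDeriv k (fun z => Complex.exp (n * L z)) 0) =
      iteratedDeriv k (fun z => Complex.exp (n * L z)) 0 := by
  set f : ℂ → ℂ := fun z => Complex.exp (n * L z) with hf
  have h1 : (starRingEnd ℂ ∘ f ∘ starRingEnd ℂ) =ᶠ[nhds 0] f := by
    filter_upwards [Metric.ball_mem_nhds (0 : ℂ) one_pos] with z hz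
    rw [mem_ball_zero_iff] at hz
    simp only [Function.comp_apply, hf]
    rw [hconj z hz, ← Complex.exp_conj, map_mul, Complex.conj_conj, Complex.conj_natCast]
  have h2 := h1.iteratedDeriv_eq k
  rw [N01_iter_conj] at h2
  simp only [Function.comp_apply, map_zero] at h2
  exact h2

private theorem N01_cf_eq {L : ℂ → ℂ}
    (hconj : ∀ z : ℂ, ‖z‖ < 1 → L (starRingEnd ℂ z) = starRingEnd ℂ (L z)) (n k : ℕ) :
    (cf L n k : ℂ) = iteratedDeriv k (fun z => Complex.exp (n * L z)) 0 / (k.factorial : ℂ) := by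
  unfold cf
  have h1 := N01_iter_real hconj n k
  rw [← Complex.div_natCast_re]
  refine (Complex.conj_eq_iff_re.mp ?_)
  rw [map_div₀, h1, Complex.conj_natCast]

theorem cf_hasSum {L : ℂ → ℂ} (hd : DifferentiableOn ℂ L (Metric.ball 0 1))
    (hc : ∀ z : ℂ, ‖z‖ < 1 → L (starRingEnd ℂ z) = starRingEnd ℂ (L z)) (n : ℕ) {z : ℂ}
    (hz : ‖z‖ < 1) : HasSum (fun k => (cf L n k : ℂ) * z ^ k) (Complex.exp ((n : ℂ) * L z)) := by
  have h1 := Complex.hasSum_taylorSeries_on_ball (N01_diff hd n) (z := z) (by simpa using hz)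
  have h2 : (fun k => (cf L n k : ℂ) * z ^ k) = (fun k : ℕ => ((k.factorial : ℂ))⁻¹ •
      (z - 0) ^ k • iteratedDeriv k (fun z => Complex.exp (n * L z)) 0) := by
    funext k
    rw [N01_cf_eq hc, smul_eq_mul, smul_eq_mul, sub_zero, div_eq_mul_inv]
    ring
  rw [h2]
  exact h1

theorem cf_bound {L : ℂ → ℂ} (hd : DifferentiableOn ℂ L (Metric.ball 0 1)) (n k : ℕ) {x B : ℝ}
    (hx0 : 0 < x) (hx : x < 1) (hB : ∀ z : ℂ, ‖z‖ = x → ‖Complex.exp ((n : ℂ) * L z)‖ ≤ B) :
    |cf L n k| * x ^ k ≤ B := by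
  have h1 : DiffContOnCl ℂ (fun z => Complex.exp (n * L z)) (Metric.ball 0 x) := by
    apply DifferentiableOn.diffContOnCl
    rw [closure_ball _ hx0.ne']
    exact (N01_diff hd n).mono (Metric.closedBall_subset_ball hx)
  have h2 := Complex.norm_iteratedDeriv_le_of_forall_mem_sphere_norm_le k hx0 h1
    (C := B) (by
      intro z hz
      rw [mem_sphere_zero_iff_norm] at hz
      exact hB z hz)
  have hk : (0 : ℝ) < (k.factorial : ℝ) := by exact_mod_cast Nat.factorial_pos k
  have hxk : 0 < x ^ k := pow_pos hx0 k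
  have h4 : |cf L n k| ≤ ‖iteratedDeriv k (fun z => Complex.exp (n * L z)) 0‖ / (k.factorial : ℝ) := by
    unfold cf
    rw [abs_div, abs_of_pos hk]
    exact div_le_div_of_nonneg_right (Complex.abs_re_le_norm _) hk.le
  have h5 : |cf L n k| ≤ B / x ^ k := by
    refine h4.trans ?_
    rw [div_le_iff₀ hk]
    refine h2.trans (le_of_eq ?_)
    ring
  rwa [le_div_iff₀ hxk] at h5

theorem cf_zero {L : ℂ → ℂ} (h0 : L 0 = 0) (n : ℕ) : cf L n 0 = 1 := by
  unfold cf
  rw [iteratedDeriv_zero, h0, mul_zero, Complex.exp_zero]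
  simp

end Pool.Agent.Lib.MP_0430e4_lc.BY
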