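import Pool.Agent.Lib.MP_0430e4_lc.BY.P.N01

/-!
# N02 (BEYOND block P): `|c_k| ≤ (√2 e^(-e))^n` for ALL `k`

PROOF. Let `x0` be as in `Good.top`. For `x` with `max x0 (1/2) < x < 1` and `‖z‖ = x`:
`‖exp (n L z)‖ = exp (n re (L z)) ≤ exp (n (log 2/2 - e)) = (√2 e^(-e))^n =: B`, so
`|c_k| x^k ≤ B` by `cf_bound`. Let `x → 1` (`le_of_tendsto` along `𝓝[<] 1`, or: if `|c_k| > B` choose
`x` with `|c_k| x^k > B` by continuity).
-/

set_option autoImplicit false

open Finset Polynomial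

namespace Pool.Agent.Lib.MP_0430e4_lc.BY

theorem abs_cf_le {L : ℂ → ℂ} {ρ pa pb τ η e σ ε : ℝ} (hG : Good L ρ pa pb τ η e σ ε) (n k : ℕ) :
    |cf L n k| ≤ (Real.sqrt 2 * Real.exp (-e)) ^ n := by
  obtain ⟨x0, hx01, htop⟩ := hG.top
  have hexp : Real.sqrt 2 * Real.exp (-e) = Real.exp (Real.log 2 / 2 - e) := by
    rw [sub_eq_add_neg, Real.exp_add, Real.exp_half, Real.exp_log (by norm_num)]
  have hmain : ∀ x : ℝ, max x0 (1 / 2) < x → x < 1 →
      |cf L n k| * x ^ k ≤ (Real.sqrt 2 * Real.exp (-e)) ^ n := by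
    intro x hx hx1
    have h1 : x0 < x := lt_of_le_of_lt (le_max_left _ _) hx
    have h2 : (1 : ℝ) / 2 < x := lt_of_le_of_lt (le_max_right _ _) hx
    refine cf_bound hG.diff n k (by linarith) hx1 ?_
    intro z hz
    have h3 := htop z (by rw [hz]; exact h1.le) (by rw [hz]; exact hx1)
    rw [Complex.norm_exp, hexp, ← Real.exp_nat_mul]
    refine Real.exp_le_exp.2 ?_
    have h4 : ((n : ℂ) * L z).re = n * (L z).re := by simp
    rw [h4]
    exact mul_le_mul_of_nonneg_left h3 (Nat.cast_nonneg n)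
  have hlim : Filter.Tendsto (fun x : ℝ => |cf L n k| * x ^ k) (nhdsWithin 1 (Set.Iio 1))
      (nhds (|cf L n k| * 1 ^ k)) := by
    refine Filter.Tendsto.mono_left ?_ nhdsWithin_le_nhds
    exact (continuous_const.mul (continuous_pow k)).tendsto 1
  rw [one_pow, mul_one] at hlim
  refine le_of_tendsto hlim ?_
  have hmax : max x0 (1 / 2) < (1 : ℝ) := max_lt hx01 (by norm_num)
  filter_upwards [Ioo_mem_nhdsLT hmax] with x hx
  exact hmain x hx.1 hx.2

end Pool.Agent.Lib.MP_0430e4_lc.BY
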