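import Pool.Agent.Lib.MP_0430e4_lc.BY.P.N02

/-!
# N03 (BEYOND block P): bound of `G(u) = ∑_{k ≤ n/2} c_k (1-u)^k (1+u)^(n-k)` at every point `u`

PROOF of `Gp_bound`. Put `p = ‖1-u‖`, `q = ‖1+u‖`, so `‖1-u²‖ = p q`.
(a) `q ≤ p`: every term has `p^k q^(n-k) = (pq)^k q^(n-2k) ≤ (pq)^k √(pq)^(n-2k) = √(pq)^n` (`2k ≤ n`,
`q ≤ √(pq)`); there are `n/2+1 ≤ n+1` terms.
(b) `p < q` and `1 - 1/n < p/q`: `p^k q^(n-k) ≤ q^n`, and `q^n = √(pq)^n (q/p)^(n/2) ≤ 2 √(pq)^n` because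
`(q/p)^n ≤ (1-1/n)^(-n) ≤ 4` for `n ≥ 2` (`(1 - 1/n)^n ≥ 1/4`, increasing in `n`; Bernoulli:
`(1-1/n)^n ≥ ((1-1/n)^2)^(n/2)..`, or `(1-1/n)^⌈n/2⌉ ≥ 1 - ⌈n/2⌉/n ≥ 1/4`, `one_add_mul_le_pow`).
So `‖G(u)‖ ≤ (n/2+1) B q^n ≤ 2 (n+1) B √(pq)^n`.
(c) `p < q`, `x := p/q = ‖zu u‖ ≤ 1 - 1/n`: `G(u) = (1+u)^n ∑_{k ≤ n/2} c_k z^k = (1+u)^n (T z - ∑_{k > n/2} c_k z^k)`
(`Gp_eval`, `HasSum`), and the tail is at most `B x^(n/2+1)/(1-x) ≤ n B x^(n/2+1)`, with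
`q^n x^(n/2+1) ≤ q^n √x^n = √(pq)^n` (`2 (n/2+1) ≥ n`, `x ≤ 1`).
`G_good`: `Gp_bound` with `T z = exp (n L z)`, `B = (√2 e^(-e))^n` (`abs_cf_le`, `cf_hasSum`) and
`‖1+u‖^n ‖exp (n L z)‖ = (‖1+u‖ exp (re (L z)))^n ≤ X^n`.
`tail_exp`: `‖1 - u²‖ ≤ 1 + e^(2s)` and `2 (1 + e^(2s)) = 4 e^s cosh s ≤ 4 e^s e^(s²/2)` (`Real.cosh_le_exp_half_sq`).
-/

set_option autoImplicit false

open Finset Polynomial

namespace Pool.Agent.Lib.MP_0430e4_lc.BY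

private theorem N03_aeval (n m : ℕ) (c : ℕ → ℝ) (u : ℂ) :
    (Gp n m c).aeval u = ∑ k ∈ range (m + 1), (c k : ℂ) * ((1 - u) ^ k * (1 + u) ^ (n - k)) := by
  unfold Gp
  rw [map_sum]
  refine sum_congr rfl fun k _ => ?_
  rw [map_mul, map_mul, map_pow, map_pow, map_sub, map_add, map_one, aeval_X, aeval_C]
  rfl

private theorem N03_half {n : ℕ} (hn : 1 ≤ n) {x : ℝ} (hx : 1 - 1 / ((n : ℝ) + 1) ≤ x) :
    1 / 2 ≤ Real.sqrt x ^ n := by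
  have hn0 : (0 : ℝ) < n := by exact_mod_cast hn
  have h1 : Real.exp (-(1 / (n : ℝ))) ≤ x := by
    refine le_trans ?_ hx
    have h2 := Real.add_one_le_exp (1 / (n : ℝ))
    have h3 : 0 < 1 / (n : ℝ) + 1 := by positivity
    rw [Real.exp_neg]
    refine (inv_anti₀ h3 h2).trans (le_of_eq ?_)
    field_simp
    ring
  have h2 : Real.exp (-(1 / (2 * (n : ℝ)))) ≤ Real.sqrt x := by
    refine Real.le_sqrt_of_sq_le ?_
    refine le_trans (le_of_eq ?_) h1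
    rw [← Real.exp_nat_mul]
    congr 1
    push_cast
    field_simp
  have h3 : (Real.exp (-(1 / (2 * (n : ℝ))))) ^ n ≤ Real.sqrt x ^ n :=
    pow_le_pow_left₀ (Real.exp_pos _).le h2 n
  refine le_trans ?_ h3
  rw [← Real.exp_nat_mul]
  have h5 : (n : ℝ) * -(1 / (2 * (n : ℝ))) = -(1 / 2) := by field_simp
  rw [h5]
  have := Real.add_one_le_exp (-(1 / 2 : ℝ))
  linarith

private theorem N03_card (n : ℕ) : ((n / 2 + 1 : ℕ) : ℝ) ≤ (n : ℝ) + 1 := by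
  have h : n / 2 + 1 ≤ n + 1 := by omega
  exact_mod_cast h

/-- the cut series inside the unit disc -/
private theorem N03_F {n : ℕ} (hn : 1 ≤ n) (c : ℕ → ℝ) {B : ℝ} (hB : ∀ k, |c k| ≤ B) (T : ℂ → ℂ)
    (hT : ∀ z : ℂ, ‖z‖ < 1 → HasSum (fun k => (c k : ℂ) * z ^ k) (T z)) {z : ℂ} (hz1 : ‖z‖ < 1) :
    ‖∑ k ∈ range (n / 2 + 1), (c k : ℂ) * z ^ k‖ ≤ ‖T z‖ + 2 * (n + 1) * B * Real.sqrt ‖z‖ ^ n := by
  have hB0 : 0 ≤ B := (abs_nonneg _).trans (hB 0)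
  have hnz := norm_nonneg z
  have hs0 : 0 ≤ Real.sqrt ‖z‖ := Real.sqrt_nonneg _
  have hs1 : Real.sqrt ‖z‖ ≤ 1 := Real.sqrt_le_one.mpr hz1.le
  have hsz : Real.sqrt ‖z‖ ^ 2 = ‖z‖ := Real.sq_sqrt hnz
  by_cases h1 : ‖z‖ ≤ 1 - 1 / ((n : ℝ) + 1)
  · have hpos : (0 : ℝ) < 1 / ((n : ℝ) + 1) := by positivity
    have htail : HasSum (fun k => (c (k + (n / 2 + 1)) : ℂ) * z ^ (k + (n / 2 + 1)))
        (T z - ∑ k ∈ range (n / 2 + 1), (c k : ℂ) * z ^ k) := by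
      have := (hasSum_nat_add_iff' (n / 2 + 1)).mpr (hT z hz1)
      exact this
    have hgeo : HasSum (fun k : ℕ => B * ‖z‖ ^ (n / 2 + 1) * ‖z‖ ^ k)
        (B * ‖z‖ ^ (n / 2 + 1) * (1 - ‖z‖)⁻¹) :=
      (hasSum_geometric_of_lt_one hnz hz1).mul_left _
    have h2 : ‖T z - ∑ k ∈ range (n / 2 + 1), (c k : ℂ) * z ^ k‖ ≤ B * ‖z‖ ^ (n / 2 + 1) * (1 - ‖z‖)⁻¹ := by
      rw [← htail.tsum_eq, ← hgeo.tsum_eq]
      apply tsum_of_norm_bounded hgeo.summable.hasSum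
      intro k
      rw [norm_mul, norm_pow, Complex.norm_real, Real.norm_eq_abs, pow_add]
      calc |c (k + (n / 2 + 1))| * (‖z‖ ^ k * ‖z‖ ^ (n / 2 + 1))
          ≤ B * (‖z‖ ^ k * ‖z‖ ^ (n / 2 + 1)) :=
            mul_le_mul_of_nonneg_right (hB _) (by positivity)
        _ = _ := by ring
    have h3 : (1 - ‖z‖)⁻¹ ≤ (n : ℝ) + 1 := by
      have h4 : 1 / ((n : ℝ) + 1) ≤ 1 - ‖z‖ := by linarith
      have h5 := inv_anti₀ hpos h4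
      rwa [one_div, inv_inv] at h5
    have h6 : ‖z‖ ^ (n / 2 + 1) ≤ Real.sqrt ‖z‖ ^ n := by
      calc ‖z‖ ^ (n / 2 + 1) = Real.sqrt ‖z‖ ^ (2 * (n / 2 + 1)) := by rw [pow_mul, hsz]
        _ ≤ Real.sqrt ‖z‖ ^ n := pow_le_pow_of_le_one hs0 hs1 (by omega)
    have h7 : ‖∑ k ∈ range (n / 2 + 1), (c k : ℂ) * z ^ k‖ ≤
        ‖T z‖ + ‖T z - ∑ k ∈ range (n / 2 + 1), (c k : ℂ) * z ^ k‖ := by
      have h8 := norm_sub_le (T z) (T z - ∑ k ∈ range (n / 2 + 1), (c k : ℂ) * z ^ k)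
      rwa [sub_sub_cancel] at h8
    have h9 : B * ‖z‖ ^ (n / 2 + 1) * (1 - ‖z‖)⁻¹ ≤ 2 * ((n : ℝ) + 1) * B * Real.sqrt ‖z‖ ^ n := by
      calc B * ‖z‖ ^ (n / 2 + 1) * (1 - ‖z‖)⁻¹
          ≤ B * Real.sqrt ‖z‖ ^ n * ((n : ℝ) + 1) := by
            apply mul_le_mul (mul_le_mul_of_nonneg_left h6 hB0) h3
              (inv_nonneg.mpr (by linarith)) (by positivity)
        _ ≤ 2 * (B * Real.sqrt ‖z‖ ^ n * ((n : ℝ) + 1)) := by
            have : 0 ≤ B * Real.sqrt ‖z‖ ^ n * ((n : ℝ) + 1) := by positivity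
            linarith
        _ = _ := by ring
    linarith
  · have h1' := (not_le.1 h1).le
    have h3 : ‖∑ k ∈ range (n / 2 + 1), (c k : ℂ) * z ^ k‖ ≤ ((n : ℝ) + 1) * B := by
      refine (norm_sum_le _ _).trans ?_
      calc ∑ k ∈ range (n / 2 + 1), ‖(c k : ℂ) * z ^ k‖ ≤ ∑ k ∈ range (n / 2 + 1), B := by
            refine sum_le_sum fun k _ => ?_
            rw [norm_mul, norm_pow, Complex.norm_real, Real.norm_eq_abs]
            calc |c k| * ‖z‖ ^ k ≤ B * 1 := mul_le_mul (hB k) (pow_le_one₀ hnz hz1.le) (by positivity) hB0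
              _ = B := mul_one B
        _ = ((n / 2 + 1 : ℕ) : ℝ) * B := by rw [sum_const, card_range, nsmul_eq_mul]
        _ ≤ _ := mul_le_mul_of_nonneg_right (N03_card n) hB0
    have h4 := N03_half hn h1'
    have h6 : 0 ≤ 2 * ((n : ℝ) + 1) * B := by positivity
    have h7 := mul_le_mul_of_nonneg_left h4 h6
    have h8 := norm_nonneg (T z)
    linarith

theorem Gp_bound {n : ℕ} (hn : 2 ≤ n) (c : ℕ → ℝ) {B : ℝ} (hB : ∀ k, |c k| ≤ B) (T : ℂ → ℂ)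
    (hT : ∀ z : ℂ, ‖z‖ < 1 → HasSum (fun k => (c k : ℂ) * z ^ k) (T z)) (u : ℂ) :
    (‖1 - u‖ < ‖1 + u‖ → ‖(Gp n (n / 2) c).aeval u‖ ≤
      ‖1 + u‖ ^ n * ‖T (zu u)‖ + 2 * (n + 1) * B * Real.sqrt ‖1 - u ^ 2‖ ^ n) ∧
    (‖1 + u‖ ≤ ‖1 - u‖ → ‖(Gp n (n / 2) c).aeval u‖ ≤
      2 * (n + 1) * B * Real.sqrt ‖1 - u ^ 2‖ ^ n) := by
  have hB0 : 0 ≤ B := (abs_nonneg _).trans (hB 0)
  have hpq : ‖1 - u ^ 2‖ = ‖1 - u‖ * ‖1 + u‖ := by
    rw [← norm_mul]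
    congr 1
    ring
  constructor
  · intro h
    have hq : 0 < ‖1 + u‖ := lt_of_le_of_lt (norm_nonneg _) h
    have hu : 1 + u ≠ 0 := norm_pos_iff.mp hq
    have hz : ‖zu u‖ < 1 := by
      unfold zu
      rwa [norm_div, div_lt_one hq]
    have h1 := N03_F (n := n) (by omega) c hB T hT hz
    rw [Gp_eval (Nat.div_le_self n 2) c u hu, norm_mul, norm_pow]
    have h2 : ‖1 + u‖ * Real.sqrt ‖zu u‖ = Real.sqrt ‖1 - u ^ 2‖ := by
      have h3 : ‖1 - u ^ 2‖ = ‖1 + u‖ ^ 2 * ‖zu u‖ := by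
        rw [hpq]
        unfold zu
        rw [norm_div]
        field_simp
      rw [h3, Real.sqrt_mul (by positivity), Real.sqrt_sq hq.le]
    have h4 := mul_le_mul_of_nonneg_left h1 (pow_pos hq n).le
    refine h4.trans (le_of_eq ?_)
    rw [← h2, mul_pow]
    ring
  · intro h
    have hq0 := norm_nonneg (1 + u)
    have hp0 := norm_nonneg (1 - u)
    have hr0 : 0 ≤ Real.sqrt ‖1 - u ^ 2‖ := Real.sqrt_nonneg _
    have hr2 : Real.sqrt ‖1 - u ^ 2‖ ^ 2 = ‖1 - u‖ * ‖1 + u‖ := by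
      rw [Real.sq_sqrt (norm_nonneg _), hpq]
    have hqr : ‖1 + u‖ ≤ Real.sqrt ‖1 - u ^ 2‖ := by
      refine Real.le_sqrt_of_sq_le ?_
      rw [hpq, sq]
      exact mul_le_mul_of_nonneg_right h hq0
    rw [N03_aeval]
    refine (norm_sum_le _ _).trans ?_
    calc ∑ k ∈ range (n / 2 + 1), ‖(c k : ℂ) * ((1 - u) ^ k * (1 + u) ^ (n - k))‖
        ≤ ∑ k ∈ range (n / 2 + 1), B * Real.sqrt ‖1 - u ^ 2‖ ^ n := by
          refine sum_le_sum fun k hk => ?_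
          have hk2 : 2 * k ≤ n := by
            have := mem_range.1 hk
            omega
          rw [norm_mul, norm_mul, norm_pow, norm_pow, Complex.norm_real, Real.norm_eq_abs]
          refine mul_le_mul (hB k) ?_ (by positivity) hB0
          have e1 : n - k = k + (n - 2 * k) := by omega
          have e2 : n = 2 * k + (n - 2 * k) := by omega
          calc ‖1 - u‖ ^ k * ‖1 + u‖ ^ (n - k) = (‖1 - u‖ * ‖1 + u‖) ^ k * ‖1 + u‖ ^ (n - 2 * k) := by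
                rw [e1, pow_add, mul_pow]
                ring
            _ ≤ (Real.sqrt ‖1 - u ^ 2‖ ^ 2) ^ k * Real.sqrt ‖1 - u ^ 2‖ ^ (n - 2 * k) := by
                rw [hr2]
                exact mul_le_mul_of_nonneg_left (pow_le_pow_left₀ hq0 hqr _) (by positivity)
            _ = Real.sqrt ‖1 - u ^ 2‖ ^ n := by
                rw [← pow_mul, ← pow_add, ← e2]
      _ = ((n / 2 + 1 : ℕ) : ℝ) * (B * Real.sqrt ‖1 - u ^ 2‖ ^ n) := by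
          rw [sum_const, card_range, nsmul_eq_mul]
      _ ≤ ((n : ℝ) + 1) * (B * Real.sqrt ‖1 - u ^ 2‖ ^ n) := mul_le_mul_of_nonneg_right (N03_card n) (by positivity)
      _ ≤ 2 * (((n : ℝ) + 1) * (B * Real.sqrt ‖1 - u ^ 2‖ ^ n)) := by
          have : 0 ≤ ((n : ℝ) + 1) * (B * Real.sqrt ‖1 - u ^ 2‖ ^ n) := by positivity
          linarith
      _ = _ := by ring

theorem G_good {L : ℂ → ℂ} {ρ pa pb τ η e σ ε : ℝ} (hG : Good L ρ pa pb τ η e σ ε) {n : ℕ}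
    (hn : 2 ≤ n) (u : ℂ) {X : ℝ} (hX0 : 0 ≤ X)
    (hX : ‖1 - u‖ < ‖1 + u‖ → ‖1 + u‖ * Real.exp (L (zu u)).re ≤ X) :
    ‖(Gn L n).aeval u‖ ≤
      X ^ n + 2 * (n + 1) * (Real.sqrt 2 * Real.exp (-e) * Real.sqrt ‖1 - u ^ 2‖) ^ n := by
  obtain ⟨h1, h2⟩ := Gp_bound hn (cf L n) (fun k => abs_cf_le hG n k) (fun z => Complex.exp ((n : ℂ) * L z))
    (fun z hz => cf_hasSum hG.diff hG.conj n hz) u
  have e1 : 2 * ((n : ℝ) + 1) * (Real.sqrt 2 * Real.exp (-e)) ^ n * Real.sqrt ‖1 - u ^ 2‖ ^ n =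
      2 * (n + 1) * (Real.sqrt 2 * Real.exp (-e) * Real.sqrt ‖1 - u ^ 2‖) ^ n := by
    rw [mul_pow (Real.sqrt 2 * Real.exp (-e))]
    ring
  rw [e1] at h1 h2
  unfold Gn
  by_cases h : ‖1 - u‖ < ‖1 + u‖
  · refine (h1 h).trans (add_le_add_left ?_ _)
    have h3 : ‖Complex.exp ((n : ℂ) * L (zu u))‖ = Real.exp (L (zu u)).re ^ n := by
      rw [Complex.norm_exp, ← Real.exp_nat_mul]
      congr 1
      rw [Complex.mul_re, Complex.natCast_re, Complex.natCast_im, zero_mul, sub_zero]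
    rw [h3, ← mul_pow]
    exact pow_le_pow_left₀ (mul_nonneg (norm_nonneg _) (Real.exp_pos _).le) (hX h) n
  · exact (h2 (not_lt.1 h)).trans (le_add_of_nonneg_left (pow_nonneg hX0 n))

theorem norm_up (s φ : ℝ) : ‖up s φ‖ = Real.exp s := by
  unfold up
  rw [Complex.norm_exp]
  congr 1
  simp

private theorem N03_cosh (s : ℝ) : 1 + Real.exp s ^ 2 ≤ 2 * Real.exp (s + s ^ 2 / 2) := by
  have h1 := Real.cosh_le_exp_half_sq s
  rw [Real.cosh_eq] at h1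
  have h2 : 1 + Real.exp s ^ 2 = Real.exp s * (Real.exp s + Real.exp (-s)) := by
    rw [mul_add, ← Real.exp_add s (-s), add_neg_cancel, Real.exp_zero]
    ring
  rw [h2, Real.exp_add]
  have h3 : Real.exp s + Real.exp (-s) ≤ 2 * Real.exp (s ^ 2 / 2) := by linarith
  have h4 := mul_le_mul_of_nonneg_left h3 (Real.exp_pos s).le
  linarith

theorem tail_exp (s φ : ℝ) :
    Real.sqrt 2 * Real.sqrt ‖1 - up s φ ^ 2‖ ≤ 2 * Real.exp (s / 2 + s ^ 2 / 4) := by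
  have h1 : ‖1 - up s φ ^ 2‖ ≤ 2 * Real.exp (s + s ^ 2 / 2) := by
    refine (norm_sub_le _ _).trans ?_
    rw [norm_one, norm_pow, norm_up]
    exact N03_cosh s
  rw [← Real.sqrt_mul zero_le_two]
  refine Real.sqrt_le_iff.2 ⟨by positivity, ?_⟩
  calc 2 * ‖1 - up s φ ^ 2‖ ≤ 2 * (2 * Real.exp (s + s ^ 2 / 2)) := mul_le_mul_of_nonneg_left h1 zero_le_two
    _ = (2 * Real.exp (s / 2 + s ^ 2 / 4)) ^ 2 := by
        rw [mul_pow, ← Real.exp_nat_mul]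
        have e1 : ((2 : ℕ) : ℝ) * (s / 2 + s ^ 2 / 4) = s + s ^ 2 / 2 := by
          push_cast
          ring
        rw [e1]
        ring

end Pool.Agent.Lib.MP_0430e4_lc.BY
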