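import Pool.Agent.Lib.MP_0430e4_lc.BY.P.N03
import Pool.Agent.Lib.MP_0430e4_lc.BY.P.N04

/-!
# N06 (BEYOND block P): the near integral for weights outside the window

Hypotheses: `δ* n ≤ w` is NOT needed. Write `H v = aeval (exp v) G * exp (-w v)`, entire; `nr = ∫ φ in pa..pb, H (σ + i φ)`.
By `rect_le` with `s0 = σ` and `s1 = τ` (first case) or `s1 = -τ` (second case).
All bounds of `‖G (up s φ)‖` come from `G_good` (give `X`) and `tail_exp`: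
`‖H (s + iφ)‖ ≤ (X^n + 2(n+1) (2 e^(s/2 + s²/4 - e))^n) e^(-w s)`.
FIRST CASE `(1/2+ρ) n ≤ w`. Vertical side `s = τ`: `out` with `4R/√(2+2R²) ≤ 2 √R = 2 e^(τ/2)` (`(2+2R²) ≥ 4R`), so
`X = 2 e^(τ/2+η)`; `e^(-wτ) ≤ e^(-(1/2+ρ)τ n)`: total `≤ 2^n (e^(n(η-ρτ)) + 2(n+1) e^(n(τ²/4-ρτ-e))) ≤ (2n+3) 2^n e^(-κ n)`
(`η ≤ ρτ/4`, `τ ≤ ρ`).
Horizontal sides, `s ∈ [σ,τ]`, `φ = pa, pb`: `edge`, `max (s/2) (s(1/2-ρ/2)) = s/2`, `X = 2 e^(s/2-e)`; total
`≤ 2^n e^(-en) (1 + 2(n+1) e^(n(s²/4 - ρ s)))  ≤ (2n+3) 2^n e^(-en)`.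
SECOND CASE `w ≤ (1/2-ρ) n`. Vertical side `s = -τ`: `inn`, `X = 2 e^(-τ(1/2-ρ/2)+η)`, `e^(wτ) ≤ e^((1/2-ρ)τ n)`: total
`≤ 2^n (e^(n(η-ρτ/2)) + 2(n+1) e^(n(τ²/4-ρτ-e)))`. Horizontal sides: `s ∈ [-τ,0]`: `max = s(1/2-ρ/2)`, first part
`≤ 2^n e^(-en)` (as `s ≤ 0`, `w ≤ (1/2-ρ)n`), tail `≤ 2^n e^(-en) e^(n(s²/4-ρ|s|))`; `s ∈ [0,σ]`: first part
`≤ 2^n e^(n(s/2-e)) ≤ 2^n e^(-en/2)` (`s ≤ σ ≤ e`), tail `≤ 2^n e^(n(s/2+s²/4-e)) ≤ 2^n e^(-en/4)` (`s ≤ e ≤ 1`).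
Lengths: `pb - pa ≤ 2`, `|s1 - σ| ≤ 2τ ≤ 1`: `nr ≤ (2 + 2) (2n+3) 2^n e^(-κn) ≤ 20 (n+1) 2^n e^(-κ n)`,
`κ = min (ρτ/4) (e/4)`.
-/

set_option autoImplicit false

open Finset Polynomial

namespace Pool.Agent.Lib.MP_0430e4_lc.BY

private theorem N06_tail (s φ e : ℝ) :
    Real.sqrt 2 * Real.exp (-e) * Real.sqrt ‖1 - up s φ ^ 2‖ ≤ 2 * Real.exp (s / 2 + s ^ 2 / 4 - e) := by
  have h1 := tail_exp s φ
  have h2 : 2 * Real.exp (s / 2 + s ^ 2 / 4 - e) = Real.exp (-e) * (2 * Real.exp (s / 2 + s ^ 2 / 4)) := by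
    have : s / 2 + s ^ 2 / 4 - e = -e + (s / 2 + s ^ 2 / 4) := by ring
    rw [this, Real.exp_add]
    ring
  rw [h2]
  calc Real.sqrt 2 * Real.exp (-e) * Real.sqrt ‖1 - up s φ ^ 2‖
      = Real.exp (-e) * (Real.sqrt 2 * Real.sqrt ‖1 - up s φ ^ 2‖) := by ring
    _ ≤ _ := mul_le_mul_of_nonneg_left h1 (Real.exp_pos _).le

private theorem N06_pow (y : ℝ) (n : ℕ) : (2 * Real.exp y) ^ n = 2 ^ n * Real.exp (n * y) := by
  rw [mul_pow, ← Real.exp_nat_mul]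

private theorem N06_G {L : ℂ → ℂ} {ρ pa pb τ η e σ ε : ℝ} (hG : Good L ρ pa pb τ η e σ ε) {n : ℕ}
    (hn : 2 ≤ n) (s φ : ℝ) {y : ℝ}
    (hX : ‖1 - up s φ‖ < ‖1 + up s φ‖ → ‖1 + up s φ‖ * Real.exp (L (zu (up s φ))).re ≤ 2 * Real.exp y) :
    ‖(Gn L n).aeval (up s φ)‖ ≤ 2 ^ n * Real.exp (n * y) +
      2 * (n + 1) * (2 ^ n * Real.exp (n * (s / 2 + s ^ 2 / 4 - e))) := by
  have h1 := G_good hG hn (up s φ) (X := 2 * Real.exp y) (by positivity) hX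
  have h2 := N06_tail s φ e
  have h3 : (Real.sqrt 2 * Real.exp (-e) * Real.sqrt ‖1 - up s φ ^ 2‖) ^ n ≤
      (2 * Real.exp (s / 2 + s ^ 2 / 4 - e)) ^ n := pow_le_pow_left₀ (by positivity) h2 n
  rw [N06_pow] at h1 h3
  have h4 : 2 * ((n : ℝ) + 1) * (Real.sqrt 2 * Real.exp (-e) * Real.sqrt ‖1 - up s φ ^ 2‖) ^ n ≤
      2 * ((n : ℝ) + 1) * (2 ^ n * Real.exp (n * (s / 2 + s ^ 2 / 4 - e))) :=
    mul_le_mul_of_nonneg_left h3 (by positivity)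
  linarith

/-- the integrand -/
private noncomputable def N06H (G : ℝ[X]) (w : ℕ) (v : ℂ) : ℂ :=
  G.aeval (Complex.exp v) * Complex.exp (-(w : ℂ) * v)

private theorem N06_diff (G : ℝ[X]) (w : ℕ) : Differentiable ℂ (N06H G w) := by
  unfold N06H
  apply Differentiable.mul
  · have h : (fun v : ℂ => G.aeval (Complex.exp v)) =
        (fun z : ℂ => (G.map (algebraMap ℝ ℂ)).eval z) ∘ Complex.exp := by
      funext v
      simp [Polynomial.eval_map, Polynomial.aeval_def]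
    rw [h]
    exact (Polynomial.differentiable _).comp Complex.differentiable_exp
  · fun_prop

private theorem N06_H {L : ℂ → ℂ} {ρ pa pb τ η e σ ε κ : ℝ} (hG : Good L ρ pa pb τ η e σ ε) {n : ℕ}
    (hn : 2 ≤ n) (w : ℕ) (s φ : ℝ) {y : ℝ}
    (hX : ‖1 - up s φ‖ < ‖1 + up s φ‖ → ‖1 + up s φ‖ * Real.exp (L (zu (up s φ))).re ≤ 2 * Real.exp y)
    (h1 : n * y - w * s ≤ -κ * n) (h2 : n * (s / 2 + s ^ 2 / 4 - e) - w * s ≤ -κ * n) :
    ‖N06H (Gn L n) w ((s : ℂ) + (φ : ℂ) * Complex.I)‖ ≤ (2 * n + 3) * 2 ^ n * Real.exp (-κ * n) := by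
  unfold N06H
  rw [norm_mul]
  have h3 : ‖Complex.exp (-(w : ℂ) * ((s : ℂ) + (φ : ℂ) * Complex.I))‖ = Real.exp (-(w * s)) := by
    rw [Complex.norm_exp]
    congr 1
    simp
  rw [h3]
  have h4 := N06_G hG hn s φ hX
  have h5 : Complex.exp ((s : ℂ) + (φ : ℂ) * Complex.I) = up s φ := rfl
  rw [h5]
  refine (mul_le_mul_of_nonneg_right h4 (Real.exp_pos _).le).trans ?_
  have e1 : 2 ^ n * Real.exp (n * y) * Real.exp (-(w * s)) ≤ 2 ^ n * Real.exp (-κ * n) := by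
    rw [mul_assoc, ← Real.exp_add]
    apply mul_le_mul_of_nonneg_left _ (by positivity)
    apply Real.exp_le_exp.2
    linarith
  have e2 : 2 ^ n * Real.exp (n * (s / 2 + s ^ 2 / 4 - e)) * Real.exp (-(w * s)) ≤
      2 ^ n * Real.exp (-κ * n) := by
    rw [mul_assoc, ← Real.exp_add]
    apply mul_le_mul_of_nonneg_left _ (by positivity)
    apply Real.exp_le_exp.2
    linarith
  have e4 := mul_le_mul_of_nonneg_left e2 (by positivity : (0 : ℝ) ≤ 2 * ((n : ℝ) + 1))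
  calc _ = 2 ^ n * Real.exp (n * y) * Real.exp (-(w * s)) +
      2 * ((n : ℝ) + 1) * (2 ^ n * Real.exp (n * (s / 2 + s ^ 2 / 4 - e)) * Real.exp (-(w * s))) := by ring
    _ ≤ 2 ^ n * Real.exp (-κ * n) + 2 * ((n : ℝ) + 1) * (2 ^ n * Real.exp (-κ * n)) := add_le_add e1 e4
    _ = _ := by ring

private theorem N06_out {L : ℂ → ℂ} {ρ pa pb τ η e σ ε : ℝ} (hG : Good L ρ pa pb τ η e σ ε)
    {s : ℝ} (hs : 0 ≤ s) (φ : ℝ) : ‖1 - up s φ‖ < ‖1 + up s φ‖ →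
      ‖1 + up s φ‖ * Real.exp (L (zu (up s φ))).re ≤ 2 * Real.exp (s / 2 + η) := by
  intro hlt
  have h1 := hG.out (up s φ) (by rw [norm_up]; exact Real.one_le_exp hs) hlt
  rw [norm_up] at h1
  refine h1.trans ?_
  have h2 : 2 * Real.exp (s / 2 + η) = 2 * Real.exp (s / 2) * Real.exp η := by rw [Real.exp_add]; ring
  rw [h2]
  apply mul_le_mul_of_nonneg_right _ (Real.exp_pos _).le
  obtain ⟨R, hR⟩ : ∃ R : ℝ, R = Real.exp (s / 2) := ⟨_, rfl⟩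
  have hR2 : Real.exp s = R ^ 2 := by
    rw [hR, ← Real.exp_nat_mul]
    congr 1
    push_cast
    ring
  have hR0 : 0 < R := by rw [hR]; exact Real.exp_pos _
  rw [hR2, ← hR]
  rw [div_le_iff₀ (by positivity)]
  have h3 : 2 * R ≤ Real.sqrt (2 + 2 * (R ^ 2) ^ 2) := by
    apply Real.le_sqrt_of_sq_le
    linarith [sq_nonneg (R ^ 2 - 1)]
  nlinarith

theorem nr_off {L : ℂ → ℂ} {ρ pa pb τ η e σ ε κ : ℝ} (hG : Good L ρ pa pb τ η e σ ε)
    (hη : η ≤ ρ * τ / 4) (hκ1 : κ ≤ ρ * τ / 4) (hκ2 : κ ≤ e / 4) {n : ℕ} (hn : 2 ≤ n) (w : ℕ)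
    (hw : (w : ℝ) ≤ (1 / 2 - ρ) * n ∨ (1 / 2 + ρ) * n ≤ w) :
    ‖nr (Gn L n) σ pa pb w‖ ≤ 20 * (n + 1) * 2 ^ n * Real.exp (-κ * n) := by
  have hρ := hG.hρ
  have hρ' := hG.hρ'
  have hτ := hG.hτ
  have hτρ := hG.hτρ
  have he := hG.he
  have he1 := hG.he1
  have hσ := hG.hσ
  have hσe := hG.hσe
  have hστ := hG.hστ
  have hab := hG.hab
  have hn0 : (0 : ℝ) ≤ n := Nat.cast_nonneg _
  have hw0 : (0 : ℝ) ≤ w := Nat.cast_nonneg _
  have hρτ : 0 < ρ * τ := mul_pos hρ hτ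
  have hττ : τ ^ 2 ≤ ρ * τ := by nlinarith
  obtain ⟨C, hC⟩ : ∃ C : ℝ, C = (2 * n + 3) * 2 ^ n * Real.exp (-κ * n) := ⟨_, rfl⟩
  have hC0 : 0 ≤ C := by rw [hC]; positivity
  have hpp : pb - pa ≤ 2 := by
    have := hG.hpb
    have := hG.hpa
    have := Real.pi_lt_four
    linarith
  have hfin : ∀ s1 : ℝ, |s1 - σ| ≤ 1 →
      (∀ φ : ℝ, pa ≤ φ → φ ≤ pb → ‖N06H (Gn L n) w ((s1 : ℂ) + (φ : ℂ) * Complex.I)‖ ≤ C) →
      (∀ s ∈ Set.uIcc σ s1, ‖N06H (Gn L n) w ((s : ℂ) + (pa : ℂ) * Complex.I)‖ ≤ C) →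
      (∀ s ∈ Set.uIcc σ s1, ‖N06H (Gn L n) w ((s : ℂ) + (pb : ℂ) * Complex.I)‖ ≤ C) →
      ‖nr (Gn L n) σ pa pb w‖ ≤ 20 * (n + 1) * 2 ^ n * Real.exp (-κ * n) := by
    intro s1 hs1 hA hBa hBb
    have h := rect_le (N06_diff (Gn L n) w) hab.le hA hBa hBb
    have h' : ‖nr (Gn L n) σ pa pb w‖ ≤ (pb - pa) * C + |s1 - σ| * (C + C) := h
    have h1 : (pb - pa) * C ≤ 2 * C := mul_le_mul_of_nonneg_right hpp hC0
    have h2 : |s1 - σ| * (C + C) ≤ 1 * (C + C) := mul_le_mul_of_nonneg_right hs1 (by linarith)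
    have h3 : 4 * C ≤ 20 * (n + 1) * 2 ^ n * Real.exp (-κ * n) := by
      rw [hC]
      have h4 : (4 * (2 * (n : ℝ) + 3)) * (2 ^ n * Real.exp (-κ * n)) ≤
          (20 * (n + 1)) * (2 ^ n * Real.exp (-κ * n)) :=
        mul_le_mul_of_nonneg_right (by linarith) (by positivity)
      linarith
    linarith
  rcases hw with hw | hw
  · -- second case
    have hw1 : (1 / 2 - ρ) * n * 1 ≤ (1 / 2 - ρ) * n := by linarith
    refine hfin (-τ) ?_ ?_ ?_ ?_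
    · rw [abs_le]
      constructor <;> linarith
    · intro φ h1 h2
      rw [hC]
      refine N06_H hG hn w (-τ) φ (y := -τ * (1 / 2 - ρ / 2) + η)
        (fun _ => hG.inn (-τ) φ (le_refl _) (by linarith) h1 h2) ?_ ?_
      · have a1 : w * τ ≤ (1 / 2 - ρ) * n * τ := mul_le_mul_of_nonneg_right hw hτ.le
        have a2 : (η - ρ * τ / 2) * n ≤ -κ * n := mul_le_mul_of_nonneg_right (by linarith) hn0
        linarith
      · have a1 : w * τ ≤ (1 / 2 - ρ) * n * τ := mul_le_mul_of_nonneg_right hw hτ.le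
        have a2 : (τ ^ 2 / 4 - ρ * τ - e) * n ≤ -κ * n := mul_le_mul_of_nonneg_right (by linarith) hn0
        linarith
    all_goals
      intro s hs
      rw [Set.uIcc_of_ge (by linarith), Set.mem_Icc] at hs
      obtain ⟨hs1, hs2⟩ := hs
      rw [hC]
      refine N06_H hG hn w s _ (y := max (s / 2) (s * (1 / 2 - ρ / 2)) - e)
        (fun _ => hG.edge s _ hs1 (by linarith) (by simp)) ?_ ?_
    all_goals
      rcases le_total s 0 with h0 | h0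
    · have hm : max (s / 2) (s * (1 / 2 - ρ / 2)) = s * (1 / 2 - ρ / 2) := max_eq_right (by nlinarith)
      rw [hm]
      have a1 : w * (-s) ≤ (1 / 2 - ρ) * n * (-s) := mul_le_mul_of_nonneg_right hw (by linarith)
      have a3 : 0 ≤ ρ * (-s) := mul_nonneg hρ.le (by linarith)
      have a2 : (s * ρ / 2 - e) * n ≤ -κ * n := mul_le_mul_of_nonneg_right (by linarith) hn0
      linarith
    · have hm : max (s / 2) (s * (1 / 2 - ρ / 2)) = s / 2 := max_eq_left (by nlinarith)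
      rw [hm]
      have a1 : 0 ≤ w * s := mul_nonneg hw0 h0
      have a2 : (s / 2 - e) * n ≤ -κ * n := mul_le_mul_of_nonneg_right (by linarith) hn0
      linarith
    · have a1 : w * (-s) ≤ (1 / 2 - ρ) * n * (-s) := mul_le_mul_of_nonneg_right hw (by linarith)
      have a3 : s ^ 2 ≤ ρ * (-s) := by nlinarith
      have a2 : (s ^ 2 / 4 - ρ * (-s) - e) * n ≤ -κ * n := mul_le_mul_of_nonneg_right (by nlinarith) hn0
      linarith
    · have a1 : 0 ≤ w * s := mul_nonneg hw0 h0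
      have a3 : s ^ 2 ≤ e := by nlinarith
      have a2 : (s / 2 + s ^ 2 / 4 - e) * n ≤ -κ * n := mul_le_mul_of_nonneg_right (by linarith) hn0
      linarith
    · have hm : max (s / 2) (s * (1 / 2 - ρ / 2)) = s * (1 / 2 - ρ / 2) := max_eq_right (by nlinarith)
      rw [hm]
      have a1 : w * (-s) ≤ (1 / 2 - ρ) * n * (-s) := mul_le_mul_of_nonneg_right hw (by linarith)
      have a3 : 0 ≤ ρ * (-s) := mul_nonneg hρ.le (by linarith)
      have a2 : (s * ρ / 2 - e) * n ≤ -κ * n := mul_le_mul_of_nonneg_right (by linarith) hn0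
      linarith
    · have hm : max (s / 2) (s * (1 / 2 - ρ / 2)) = s / 2 := max_eq_left (by nlinarith)
      rw [hm]
      have a1 : 0 ≤ w * s := mul_nonneg hw0 h0
      have a2 : (s / 2 - e) * n ≤ -κ * n := mul_le_mul_of_nonneg_right (by linarith) hn0
      linarith
    · have a1 : w * (-s) ≤ (1 / 2 - ρ) * n * (-s) := mul_le_mul_of_nonneg_right hw (by linarith)
      have a3 : s ^ 2 ≤ ρ * (-s) := by nlinarith
      have a2 : (s ^ 2 / 4 - ρ * (-s) - e) * n ≤ -κ * n := mul_le_mul_of_nonneg_right (by nlinarith) hn0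
      linarith
    · have a1 : 0 ≤ w * s := mul_nonneg hw0 h0
      have a3 : s ^ 2 ≤ e := by nlinarith
      have a2 : (s / 2 + s ^ 2 / 4 - e) * n ≤ -κ * n := mul_le_mul_of_nonneg_right (by linarith) hn0
      linarith
  · -- first case
    refine hfin τ ?_ ?_ ?_ ?_
    · rw [abs_le]
      constructor <;> linarith
    · intro φ h1 h2
      rw [hC]
      refine N06_H hG hn w τ φ (y := τ / 2 + η) (N06_out hG hτ.le φ) ?_ ?_
      · have a1 : (1 / 2 + ρ) * n * τ ≤ w * τ := mul_le_mul_of_nonneg_right hw hτ.le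
        have a2 : (η - ρ * τ) * n ≤ -κ * n := mul_le_mul_of_nonneg_right (by linarith) hn0
        linarith
      · have a1 : (1 / 2 + ρ) * n * τ ≤ w * τ := mul_le_mul_of_nonneg_right hw hτ.le
        have a2 : (τ ^ 2 / 4 - ρ * τ - e) * n ≤ -κ * n := mul_le_mul_of_nonneg_right (by linarith) hn0
        linarith
    all_goals
      intro s hs
      rw [Set.uIcc_of_le hστ, Set.mem_Icc] at hs
      obtain ⟨hs1, hs2⟩ := hs
      have h0 : 0 ≤ s := by linarith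
      rw [hC]
      refine N06_H hG hn w s _ (y := max (s / 2) (s * (1 / 2 - ρ / 2)) - e)
        (fun _ => hG.edge s _ (by linarith) hs2 (by simp)) ?_ ?_
    all_goals
      have a1 : (1 / 2 + ρ) * n * s ≤ w * s := mul_le_mul_of_nonneg_right hw h0
      have a3 : s ^ 2 ≤ ρ * s := by nlinarith
      have a4 : 0 ≤ ρ * s := mul_nonneg hρ.le h0
      have a2 : (s ^ 2 / 4 - ρ * s - e) * n ≤ -κ * n := mul_le_mul_of_nonneg_right (by linarith) hn0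
      have a5 : (-e - ρ * s) * n ≤ -κ * n := mul_le_mul_of_nonneg_right (by linarith) hn0
      have hm : max (s / 2) (s * (1 / 2 - ρ / 2)) = s / 2 := max_eq_left (by linarith)
      first
        | (rw [hm]; linarith)
        | linarith

end Pool.Agent.Lib.MP_0430e4_lc.BY
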