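import Pool.Agent.Lib.MP_0430e4_lc.BY.P.N03
import Pool.Agent.Lib.MP_0430e4_lc.BY.P.N05

/-!
# N07 (BEYOND block P): the far part, and the crude bound of the near part

`far_le`: `coeff_split` on `|u| = e^σ` with `A = sup` of `‖G‖` on the far arcs: `G_good` with
`X = 2 e^(σ(1/2-1/π) - ε)` (`Good.far`) and `tail_exp`:
`A = X^n + 2(n+1)(2 e^(σ/2+σ²/4-e))^n`. Since `w ≥ (1/2-1/π) n`, `e^(-σw) ≤ e^(-σ(1/2-1/π)n)`, and
`σ/2 + σ²/4 - σ(1/2 - 1/π) - e = σ/π + σ²/4 - e ≤ -e/4` (`σ ≤ e ≤ 1`, `1/π ≤ 1/3`). Total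
`≤ 2^n (e^(-εn) + 2(n+1) e^(-en/4)) ≤ (2n+3) 2^n e^(-κn)`, `κ ≤ ε/4 ≤ e/4`.
`nr_crude`: on the arc `[pa,pb]` at `s = σ`: `out` gives `X = 2 e^(σ/2+η)` (as `4R/√(2+2R²) ≤ 2√R`), `tail_exp`;
`e^(-σw) ≤ 1`, `σ ≤ η`, `σ ≤ e ≤ 1`: `‖G‖ ≤ 2^n e^(2ηn) + 2(n+1) 2^n`; length `pb - pa ≤ 2`.
`G_arc`: the same bound of `‖G‖` itself (used in the window).
-/

set_option autoImplicit false

open Finset Polynomial

namespace Pool.Agent.Lib.MP_0430e4_lc.BY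


private theorem N07_tail {L : ℂ → ℂ} {ρ pa pb τ η e σ ε : ℝ} (_ : Good L ρ pa pb τ η e σ ε) (φ : ℝ) :
    Real.sqrt 2 * Real.exp (-e) * Real.sqrt ‖1 - up σ φ ^ 2‖ ≤ 2 * Real.exp (σ / 2 + σ ^ 2 / 4 - e) := by
  have h1 := tail_exp σ φ
  have h2 : 2 * Real.exp (σ / 2 + σ ^ 2 / 4 - e) = Real.exp (-e) * (2 * Real.exp (σ / 2 + σ ^ 2 / 4)) := by
    have : σ / 2 + σ ^ 2 / 4 - e = -e + (σ / 2 + σ ^ 2 / 4) := by ring
    rw [this, Real.exp_add]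
    ring
  rw [h2]
  calc Real.sqrt 2 * Real.exp (-e) * Real.sqrt ‖1 - up σ φ ^ 2‖ = Real.exp (-e) * (Real.sqrt 2 * Real.sqrt ‖1 - up σ φ ^ 2‖) := by ring
    _ ≤ _ := mul_le_mul_of_nonneg_left h1 (Real.exp_pos _).le

private theorem N07_pow (y : ℝ) (n : ℕ) : (2 * Real.exp y) ^ n = 2 ^ n * Real.exp (n * y) := by
  rw [mul_pow, ← Real.exp_nat_mul]

private theorem N07_G {L : ℂ → ℂ} {ρ pa pb τ η e σ ε : ℝ} (hG : Good L ρ pa pb τ η e σ ε) {n : ℕ}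
    (hn : 2 ≤ n) (φ : ℝ) {y : ℝ} (hX : ‖1 - up σ φ‖ < ‖1 + up σ φ‖ → ‖1 + up σ φ‖ * Real.exp (L (zu (up σ φ))).re ≤ 2 * Real.exp y) :
    ‖(Gn L n).aeval (up σ φ)‖ ≤ 2 ^ n * Real.exp (n * y) + 2 * (n + 1) * (2 ^ n * Real.exp (n * (σ / 2 + σ ^ 2 / 4 - e))) := by
  have h1 := G_good hG hn (up σ φ) (X := 2 * Real.exp y) (by positivity) hX
  have h2 := N07_tail hG φ
  have h3 : (Real.sqrt 2 * Real.exp (-e) * Real.sqrt ‖1 - up σ φ ^ 2‖) ^ n ≤ (2 * Real.exp (σ / 2 + σ ^ 2 / 4 - e)) ^ n :=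
    pow_le_pow_left₀ (by positivity) h2 n
  rw [N07_pow] at h1 h3
  have h4 : 2 * ((n : ℝ) + 1) * (Real.sqrt 2 * Real.exp (-e) * Real.sqrt ‖1 - up σ φ ^ 2‖) ^ n ≤
      2 * ((n : ℝ) + 1) * (2 ^ n * Real.exp (n * (σ / 2 + σ ^ 2 / 4 - e))) := mul_le_mul_of_nonneg_left h3 (by positivity)
  linarith

theorem far_le {L : ℂ → ℂ} {ρ pa pb τ η e σ ε κ : ℝ} (hG : Good L ρ pa pb τ η e σ ε)
    (hκ : κ ≤ ε / 4) {n : ℕ} (hn : 2 ≤ n) (w : ℕ) (hw : (1 / 2 - 1 / Real.pi) * n ≤ w) :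
    |(Gn L n).coeff w - (nr (Gn L n) σ pa pb w).re / Real.pi| ≤
      (2 * n + 3) * 2 ^ n * Real.exp (-κ * n) := by
  have hπ : (3 : ℝ) < Real.pi := Real.pi_gt_three
  have hn0 : (0 : ℝ) ≤ n := Nat.cast_nonneg _
  have hpi : pb ≤ Real.pi := by
    have := hG.hpb
    linarith
  have h1 := coeff_split (Gn L n) (σ := σ) (pa := pa) (pb := pb) (A := 2 ^ n * Real.exp (n * (σ * (1 / 2 - 1 / Real.pi) - ε)) +
    2 * (n + 1) * (2 ^ n * Real.exp (n * (σ / 2 + σ ^ 2 / 4 - e)))) w hG.hpa.le hG.hab.le hpi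
    (fun φ h0 h1 h2 => N07_G hG hn φ (hG.far φ h0 h1 h2))
  refine h1.trans ?_
  have hσ := hG.hσ
  have hσe := hG.hσe
  have he := hG.he
  have he1 := hG.he1
  have hε := hG.hε
  have hεe := hG.hεe
  have hw' : σ * ((1 / 2 - 1 / Real.pi) * n) ≤ σ * w := mul_le_mul_of_nonneg_left hw hσ.le
  have e1 : 2 ^ n * Real.exp (n * (σ * (1 / 2 - 1 / Real.pi) - ε)) * Real.exp (-σ * w) ≤ 2 ^ n * Real.exp (-κ * n) := by
    rw [mul_assoc, ← Real.exp_add]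
    apply mul_le_mul_of_nonneg_left _ (by positivity)
    apply Real.exp_le_exp.2
    have h2 : κ * n ≤ ε * n := mul_le_mul_of_nonneg_right (by linarith) hn0
    nlinarith
  have e2 : 2 ^ n * Real.exp (n * (σ / 2 + σ ^ 2 / 4 - e)) * Real.exp (-σ * w) ≤ 2 ^ n * Real.exp (-κ * n) := by
    rw [mul_assoc, ← Real.exp_add]
    apply mul_le_mul_of_nonneg_left _ (by positivity)
    apply Real.exp_le_exp.2
    have h2 : κ * n ≤ (e / 4) * n := mul_le_mul_of_nonneg_right (by linarith) hn0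
    have h3 : σ / Real.pi ≤ e / 3 := by
      rw [div_le_div_iff₀ (by linarith) (by norm_num)]
      nlinarith
    have h4 : σ ^ 2 ≤ e := by nlinarith
    have h5 : σ / 2 + σ ^ 2 / 4 - e - σ * (1 / 2 - 1 / Real.pi) = σ / Real.pi + σ ^ 2 / 4 - e := by ring
    have h6 : σ / 2 + σ ^ 2 / 4 - e - σ * (1 / 2 - 1 / Real.pi) ≤ -(e / 4) := by
      rw [h5]
      linarith
    have h7 := mul_le_mul_of_nonneg_left h6 hn0
    nlinarith
  have e3 : (2 ^ n * Real.exp (n * (σ * (1 / 2 - 1 / Real.pi) - ε)) +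
    2 * (n + 1) * (2 ^ n * Real.exp (n * (σ / 2 + σ ^ 2 / 4 - e)))) * Real.exp (-σ * w) =
    2 ^ n * Real.exp (n * (σ * (1 / 2 - 1 / Real.pi) - ε)) * Real.exp (-σ * w) +
    2 * (n + 1) * (2 ^ n * Real.exp (n * (σ / 2 + σ ^ 2 / 4 - e)) * Real.exp (-σ * w)) := by ring
  rw [e3]
  have e4 := mul_le_mul_of_nonneg_left e2 (by positivity : (0 : ℝ) ≤ 2 * ((n : ℝ) + 1))
  calc _ ≤ 2 ^ n * Real.exp (-κ * n) + 2 * ((n : ℝ) + 1) * (2 ^ n * Real.exp (-κ * n)) := add_le_add e1 e4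
    _ = _ := by ring

theorem G_arc {L : ℂ → ℂ} {ρ pa pb τ η e σ ε : ℝ} (hG : Good L ρ pa pb τ η e σ ε) {n : ℕ}
    (hn : 2 ≤ n) (φ : ℝ) :
    ‖(Gn L n).aeval (up σ φ)‖ ≤ (2 * n + 3) * 2 ^ n * Real.exp (2 * η * n) := by
  have hn0 : (0 : ℝ) ≤ n := Nat.cast_nonneg _
  have hσ := hG.hσ
  have hσe := hG.hσe
  have he := hG.he
  have he1 := hG.he1
  have hση := hG.hση
  have hX : ‖1 - up σ φ‖ < ‖1 + up σ φ‖ → ‖1 + up σ φ‖ * Real.exp (L (zu (up σ φ))).re ≤ 2 * Real.exp (σ / 2 + η) := by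
    intro hlt
    have h1 := hG.out (up σ φ) (by rw [norm_up]; exact Real.one_le_exp hσ.le) hlt
    rw [norm_up] at h1
    refine h1.trans ?_
    have h2 : 2 * Real.exp (σ / 2 + η) = 2 * Real.exp (σ / 2) * Real.exp η := by rw [Real.exp_add]; ring
    rw [h2]
    apply mul_le_mul_of_nonneg_right _ (Real.exp_pos _).le
    obtain ⟨R, hR⟩ : ∃ R : ℝ, R = Real.exp (σ / 2) := ⟨_, rfl⟩
    have hR2 : Real.exp σ = R ^ 2 := by
      rw [hR, ← Real.exp_nat_mul]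
      congr 1
      push_cast
      ring
    have hR0 : 0 < R := by rw [hR]; exact Real.exp_pos _
    rw [hR2, ← hR]
    rw [div_le_iff₀ (by positivity)]
    have h3 : 2 * R ≤ Real.sqrt (2 + 2 * (R ^ 2) ^ 2) := by
      apply Real.le_sqrt_of_sq_le
      nlinarith [sq_nonneg (R ^ 2 - 1)]
    nlinarith
  refine (N07_G hG hn φ hX).trans ?_
  have e1 : Real.exp (n * (σ / 2 + η)) ≤ Real.exp (2 * η * n) := by
    apply Real.exp_le_exp.2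
    nlinarith
  have e2 : Real.exp (n * (σ / 2 + σ ^ 2 / 4 - e)) ≤ Real.exp (2 * η * n) := by
    apply Real.exp_le_exp.2
    have h4 : σ ^ 2 ≤ e := by nlinarith
    have h5 : σ / 2 + σ ^ 2 / 4 - e ≤ 0 := by linarith
    have h6 : n * (σ / 2 + σ ^ 2 / 4 - e) ≤ 0 := mul_nonpos_of_nonneg_of_nonpos hn0 h5
    have h7 : 0 ≤ 2 * η * n := by
      have : 0 ≤ η := by linarith
      positivity
    linarith
  have e3 := mul_le_mul_of_nonneg_left e1 (by positivity : (0 : ℝ) ≤ 2 ^ n)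
  have e4 := mul_le_mul_of_nonneg_left (mul_le_mul_of_nonneg_left e2 (by positivity : (0 : ℝ) ≤ 2 ^ n))
    (by positivity : (0 : ℝ) ≤ 2 * ((n : ℝ) + 1))
  calc _ ≤ 2 ^ n * Real.exp (2 * η * n) + 2 * ((n : ℝ) + 1) * (2 ^ n * Real.exp (2 * η * n)) := add_le_add e3 e4
    _ = _ := by ring

theorem nr_crude {L : ℂ → ℂ} {ρ pa pb τ η e σ ε : ℝ} (hG : Good L ρ pa pb τ η e σ ε) {n : ℕ}
    (hn : 2 ≤ n) (w : ℕ) :
    ‖nr (Gn L n) σ pa pb w‖ ≤ 2 * (2 * n + 3) * 2 ^ n * Real.exp (2 * η * n) := by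
  have hC0 : (0 : ℝ) ≤ (2 * n + 3) * 2 ^ n * Real.exp (2 * η * n) := by positivity
  have h1 : ∀ φ ∈ Set.uIoc pa pb, ‖(Gn L n).aeval (up σ φ) * Complex.exp (-(w : ℂ) * ((σ : ℂ) + (φ : ℂ) * Complex.I))‖ ≤
      (2 * n + 3) * 2 ^ n * Real.exp (2 * η * n) := by
    intro φ _
    rw [norm_mul]
    have h2 := G_arc hG hn φ
    have h3 : ‖Complex.exp (-(w : ℂ) * ((σ : ℂ) + (φ : ℂ) * Complex.I))‖ ≤ 1 := by
      rw [Complex.norm_exp]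
      apply Real.exp_le_one_iff.2
      have : (-(w : ℂ) * ((σ : ℂ) + (φ : ℂ) * Complex.I)).re = -(w : ℝ) * σ := by
        simp
      rw [this]
      have hσ := hG.hσ
      have hw : (0 : ℝ) ≤ w := Nat.cast_nonneg _
      nlinarith
    calc _ ≤ ((2 * n + 3) * 2 ^ n * Real.exp (2 * η * n)) * 1 := mul_le_mul h2 h3 (norm_nonneg _) hC0
      _ = _ := mul_one _
  have h2 := intervalIntegral.norm_integral_le_of_norm_le_const h1
  unfold nr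
  refine h2.trans ?_
  have h3 : |pb - pa| ≤ 2 := by
    rw [abs_of_pos (by linarith [hG.hab])]
    have := hG.hpb
    have := hG.hpa
    have := Real.pi_lt_four
    linarith
  calc _ ≤ ((2 * n + 3) * 2 ^ n * Real.exp (2 * η * n)) * 2 := mul_le_mul_of_nonneg_left h3 hC0
    _ = _ := by ring

end Pool.Agent.Lib.MP_0430e4_lc.BY
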