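import Pool.Agent.Lib.MP_0430e4_lc.BY.P.Good
import Pool.Agent.Lib.MP_0430e4_lc.BY.Beta

/-!
# N08 (BEYOND block P): inner and outer part of the beta integral

`inv_choose_eq` (BY/Beta.lean): `1/choose n w = (n+1) ∫_0^1 t^w (1-t)^(n-w)`.
`bin_le_inv`, `bin_nonneg`: the integrand is nonnegative on `[0,1]`, `[1/2-2ρ,1/2+2ρ] ⊆ [0,1]`.
`bin_le`: on the window `t ≤ 1/2+2ρ` and `1-t ≤ 1/2+2ρ`, so the integrand is `≤ (1/2+2ρ)^n`; length `4ρ ≤ 1`.
`bout_le` PROOF. Put `t3 = 1/2 - ρ`, `t2 = 1/2 - 2ρ`, `q = (t2/t3)^t3 ((1-t2)/(1-t3))^(1-t3) < 1` (weighted AM-GM with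
unequal terms, or `log x < x - 1` for `x ≠ 1` twice: `t3 (t2/t3 - 1) + (1-t3)((1-t2)/(1-t3) - 1) = 0`). For `t ≤ t2` and
`(1/2-ρ) n ≤ w ≤ n`: `choose n w * t^w (1-t)^(n-w) ≤ choose n w * t3^w (1-t3)^(n-w) * (t/t3)^w ((1-t)/(1-t3))^(n-w)`, the first
three factors are `≤ 1` (one term of `(t3 + (1-t3))^n`), and `(t/t3)^w ((1-t)/(1-t3))^(n-w) ≤ q^n`: the function
`t ↦ t^w (1-t)^(n-w)` is monotone on `[0, w/n]` (or: `(t/t3)^w ((1-t)/(1-t3))^(n-w) ≤ ((t/t3)^t3 ((1-t)/(1-t3))^(1-t3))^n`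
since `t/t3 ≤ 1 ≤ (1-t)/(1-t3)` and `w ≥ t3 n`, and `log` of the bracket, `t3 log(t/t3) + (1-t3) log ((1-t)/(1-t3))`,
is monotone in `t ≤ t3`; even simpler: with `λ = t2/t3 < 1` one may bound by hand, any `c > 0` is fine).
For `t ≥ 1/2+2ρ` and `w ≤ (1/2+ρ) n`: replace `t, w` by `1-t, n-w`.
So the outer integral of `choose n w * t^w (1-t)^(n-w)` is `≤ exp(-c n)`, `c = -log q`; multiply by `(n+1)/choose n w`.
-/

set_option autoImplicit false

open Finset Polynomial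

namespace Pool.Agent.Lib.MP_0430e4_lc.BY

/-- Chernoff bound for one term of the binomial distribution. -/
private theorem n08_chern {n w : ℕ} (hn : 1 ≤ n) (hw : w ≤ n) {t : ℝ} (h0 : 0 ≤ t) (h1 : t ≤ 1) :
    (n.choose w : ℝ) * (t ^ w * (1 - t) ^ (n - w)) ≤
      Real.exp (-(n * ((w : ℝ) / n - t) ^ 2 / 4)) := by
  have hn0 : (0 : ℝ) < n := by exact_mod_cast hn
  set x : ℝ := (w : ℝ) / n with hx
  have hx0 : 0 ≤ x := by positivity
  have hx1 : x ≤ 1 := by rw [hx, div_le_one hn0]; exact_mod_cast hw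
  have hwx : (w : ℝ) = n * x := by rw [hx]; field_simp
  set l : ℝ := (x - t) / 2 with hl
  have hl1 : |l| ≤ 1 := by
    rw [hl, abs_le]; constructor <;> linarith
  have e1 : Real.exp l ≤ 1 + l + l ^ 2 := by
    have := Real.abs_exp_sub_one_sub_id_le hl1
    have h2 := (abs_le.mp this).2
    linarith
  have e2 : 1 - t + t * Real.exp l ≤ Real.exp (t * l + l ^ 2) := by
    have h3 : t * Real.exp l ≤ t * (1 + l + l ^ 2) := mul_le_mul_of_nonneg_left e1 h0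
    have h4 : t * l ^ 2 ≤ l ^ 2 := by nlinarith [sq_nonneg l]
    have h5 := Real.add_one_le_exp (t * l + l ^ 2)
    nlinarith
  have e3 : (n.choose w : ℝ) * (t ^ w * (1 - t) ^ (n - w)) * Real.exp (l * w) ≤
      (1 - t + t * Real.exp l) ^ n := by
    rw [add_comm (1 - t), add_pow]
    have h6 := Finset.single_le_sum (s := Finset.range (n + 1))
      (f := fun k => (t * Real.exp l) ^ k * (1 - t) ^ (n - k) * (n.choose k : ℝ))
      (fun k _ => by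
        have : 0 ≤ 1 - t := by linarith
        positivity) (Finset.mem_range.mpr (Nat.lt_succ_of_le hw))
    refine le_trans (le_of_eq ?_) h6
    rw [mul_pow, ← Real.exp_nat_mul]
    have h7 : l * (w : ℝ) = (w : ℝ) * l := by ring
    rw [h7]; ring
  have e4 : (1 - t + t * Real.exp l) ^ n ≤ Real.exp (n * (t * l + l ^ 2)) := by
    rw [Real.exp_nat_mul]
    refine pow_le_pow_left₀ ?_ e2 n
    have : 0 ≤ 1 - t := by linarith
    positivity
  have e5 : (n.choose w : ℝ) * (t ^ w * (1 - t) ^ (n - w)) ≤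
      Real.exp (n * (t * l + l ^ 2)) * Real.exp (-(l * w)) := by
    rw [Real.exp_neg, ← div_eq_mul_inv, le_div_iff₀ (Real.exp_pos _)]
    exact e3.trans e4
  refine e5.trans ?_
  rw [← Real.exp_add]
  apply Real.exp_le_exp.mpr
  rw [hwx, hl]
  apply le_of_eq
  ring

private theorem n08_ii (n w : ℕ) (a b : ℝ) :
    IntervalIntegrable (fun t : ℝ => t ^ w * (1 - t) ^ (n - w)) MeasureTheory.volume a b := by
  apply Continuous.intervalIntegrable; fun_prop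

private theorem n08_nn (n w : ℕ) {a b : ℝ} (h0 : 0 ≤ a) (hab : a ≤ b) (h1 : b ≤ 1) :
    0 ≤ ∫ t in a..b, t ^ w * (1 - t) ^ (n - w) := by
  apply intervalIntegral.integral_nonneg hab
  intro t ht
  have h2 : 0 ≤ t := by linarith [ht.1]
  have h3 : 0 ≤ 1 - t := by linarith [ht.2]
  positivity

/-- the two tails -/
private theorem n08_tails {n w : ℕ} (hw : w ≤ n) (ρ : ℝ) :
    ((n.choose w : ℝ))⁻¹ - bin n ρ w = ((n : ℝ) + 1) *
      ((∫ t in (0 : ℝ)..(1 / 2 - 2 * ρ), t ^ w * (1 - t) ^ (n - w)) +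
        ∫ t in (1 / 2 + 2 * ρ)..(1 : ℝ), t ^ w * (1 - t) ^ (n - w)) := by
  rw [inv_choose_eq hw, ← intervalIntegral.integral_add_adjacent_intervals (n08_ii n w 0 (1 / 2 - 2 * ρ))
      (n08_ii n w (1 / 2 - 2 * ρ) 1),
    ← intervalIntegral.integral_add_adjacent_intervals (n08_ii n w (1 / 2 - 2 * ρ) (1 / 2 + 2 * ρ))
      (n08_ii n w (1 / 2 + 2 * ρ) 1)]
  unfold bin
  ring

theorem bin_nonneg {n w : ℕ} {ρ : ℝ} (h0 : 0 < ρ) (h1 : ρ ≤ 1 / 80) : 0 ≤ bin n ρ w := by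
  unfold bin
  exact mul_nonneg (by positivity) (n08_nn n w (by linarith) (by linarith) (by linarith))

theorem bin_le_inv {n w : ℕ} {ρ : ℝ} (h0 : 0 < ρ) (h1 : ρ ≤ 1 / 80) (hw : w ≤ n) :
    bin n ρ w ≤ ((n.choose w : ℝ))⁻¹ := by
  have h := n08_tails hw ρ
  have h2 := n08_nn n w (a := 0) (b := 1 / 2 - 2 * ρ) le_rfl (by linarith) (by linarith)
  have h3 := n08_nn n w (a := 1 / 2 + 2 * ρ) (b := 1) (by linarith) (by linarith) le_rfl
  have h4 : 0 ≤ ((n : ℝ) + 1) *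
      ((∫ t in (0 : ℝ)..(1 / 2 - 2 * ρ), t ^ w * (1 - t) ^ (n - w)) +
        ∫ t in (1 / 2 + 2 * ρ)..(1 : ℝ), t ^ w * (1 - t) ^ (n - w)) :=
    mul_nonneg (by positivity) (add_nonneg h2 h3)
  linarith

theorem bin_le {n w : ℕ} {ρ : ℝ} (h0 : 0 < ρ) (h1 : ρ ≤ 1 / 80) (hw : w ≤ n) :
    bin n ρ w ≤ (n + 1) * (1 / 2 + 2 * ρ) ^ n := by
  unfold bin
  refine mul_le_mul_of_nonneg_left ?_ (by positivity)
  have h2 : ∫ t in (1 / 2 - 2 * ρ)..(1 / 2 + 2 * ρ), t ^ w * (1 - t) ^ (n - w) ≤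
      ∫ t in (1 / 2 - 2 * ρ)..(1 / 2 + 2 * ρ), (1 / 2 + 2 * ρ) ^ n := by
    apply intervalIntegral.integral_mono_on (by linarith) (n08_ii n w _ _) (by simp)
    intro t ht
    have h3 : 0 ≤ t := by linarith [ht.1]
    have h4 : 0 ≤ 1 - t := by linarith [ht.2]
    calc t ^ w * (1 - t) ^ (n - w) ≤ (1 / 2 + 2 * ρ) ^ w * (1 / 2 + 2 * ρ) ^ (n - w) := by
          apply mul_le_mul
          · exact pow_le_pow_left₀ h3 ht.2 w
          · exact pow_le_pow_left₀ h4 (by linarith [ht.1]) _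
          · positivity
          · positivity
      _ = (1 / 2 + 2 * ρ) ^ n := by rw [← pow_add, Nat.add_sub_cancel' hw]
  refine h2.trans ?_
  rw [intervalIntegral.integral_const, smul_eq_mul]
  have h5 : 0 ≤ (1 / 2 + 2 * ρ) ^ n := by positivity
  nlinarith

theorem bout_le {ρ : ℝ} (h0 : 0 < ρ) (h1 : ρ ≤ 1 / 80) : ∃ c : ℝ, 0 < c ∧ ∀ n w : ℕ, w ≤ n →
    (1 / 2 - ρ) * n ≤ w → (w : ℝ) ≤ (1 / 2 + ρ) * n →
      ((n.choose w : ℝ))⁻¹ - bin n ρ w ≤ (n + 1) * ((n.choose w : ℝ))⁻¹ * Real.exp (-c * n) := by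
  refine ⟨ρ ^ 2 / 4, by positivity, ?_⟩
  intro n w hw hlo hhi
  have hch : (0 : ℝ) < n.choose w := by exact_mod_cast Nat.choose_pos hw
  rcases Nat.eq_zero_or_pos n with hn | hn
  · have hb := bin_nonneg (n := n) (w := w) h0 h1
    have e : Real.exp (-(ρ ^ 2 / 4) * n) = 1 := by rw [hn]; simp
    rw [e]
    have e2 : (n : ℝ) = 0 := by rw [hn]; simp
    rw [e2]
    linarith
  rw [n08_tails hw, mul_assoc]
  apply mul_le_mul_of_nonneg_left _ (by positivity)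
  have hn0 : (0 : ℝ) < n := by exact_mod_cast hn
  have hx1 : 1 / 2 - ρ ≤ (w : ℝ) / n := by rw [le_div_iff₀ hn0]; exact hlo
  have hx2 : (w : ℝ) / n ≤ 1 / 2 + ρ := by rw [div_le_iff₀ hn0]; exact hhi
  set E := Real.exp (-(ρ ^ 2 / 4) * n) with hE
  have hE0 : 0 < E := Real.exp_pos _
  have key : ∀ t : ℝ, 0 ≤ t → t ≤ 1 → ρ ≤ |(w : ℝ) / n - t| →
      t ^ w * (1 - t) ^ (n - w) ≤ ((n.choose w : ℝ))⁻¹ * E := by
    intro t ht0 ht1 hd
    have h2 : (n.choose w : ℝ) * (t ^ w * (1 - t) ^ (n - w)) ≤ E := by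
      refine (n08_chern hn hw ht0 ht1).trans (Real.exp_le_exp.mpr ?_)
      have h5 : ρ ^ 2 ≤ ((w : ℝ) / n - t) ^ 2 := by
        rw [← sq_abs ((w : ℝ) / n - t)]
        exact pow_le_pow_left₀ h0.le hd 2
      nlinarith [mul_le_mul_of_nonneg_left h5 hn0.le]
    rw [inv_mul_eq_div, le_div_iff₀ hch, mul_comm]
    exact h2
  have hA : (∫ t in (0 : ℝ)..(1 / 2 - 2 * ρ), t ^ w * (1 - t) ^ (n - w)) ≤
      (1 / 2 - 2 * ρ) * (((n.choose w : ℝ))⁻¹ * E) := by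
    have h6 : ∫ t in (0 : ℝ)..(1 / 2 - 2 * ρ), t ^ w * (1 - t) ^ (n - w) ≤
        ∫ t in (0 : ℝ)..(1 / 2 - 2 * ρ), ((n.choose w : ℝ))⁻¹ * E := by
      apply intervalIntegral.integral_mono_on (by linarith) (n08_ii n w _ _) (by simp)
      intro t ht
      apply key t ht.1 (by linarith [ht.2])
      rw [le_abs]; left; linarith [ht.2]
    refine h6.trans (le_of_eq ?_)
    rw [intervalIntegral.integral_const, smul_eq_mul, sub_zero]
  have hB : (∫ t in (1 / 2 + 2 * ρ)..(1 : ℝ), t ^ w * (1 - t) ^ (n - w)) ≤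
      (1 / 2 - 2 * ρ) * (((n.choose w : ℝ))⁻¹ * E) := by
    have h6 : ∫ t in (1 / 2 + 2 * ρ)..(1 : ℝ), t ^ w * (1 - t) ^ (n - w) ≤
        ∫ t in (1 / 2 + 2 * ρ)..(1 : ℝ), ((n.choose w : ℝ))⁻¹ * E := by
      apply intervalIntegral.integral_mono_on (by linarith) (n08_ii n w _ _) (by simp)
      intro t ht
      apply key t (by linarith [ht.1]) ht.2
      rw [le_abs]; right; linarith [ht.1]
    refine h6.trans (le_of_eq ?_)
    rw [intervalIntegral.integral_const, smul_eq_mul]; ring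
  have h7 : 0 ≤ ((n.choose w : ℝ))⁻¹ * E := by positivity
  nlinarith

end Pool.Agent.Lib.MP_0430e4_lc.BY
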