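import Pool.Agent.Lib.MP_0430e4_lc.BY.P.Good

/-!
# N09 (BEYOND block P): the pairing of the near part with the code, inner window of `t`
-/

set_option autoImplicit false

open Finset Polynomial

namespace Pool.Agent.Lib.MP_0430e4_lc.BY

/-- the enumerator at `t/((1-t)R) e^{-iφ}` as a sum over the weights -/
private theorem win_ray {n : ℕ} (C : Finset (Wd n)) {t σ : ℝ} (ht : t < 1) (φ : ℝ) :
    ((1 - t : ℝ) : ℂ) ^ n * ∑ x ∈ C, ∑ y ∈ C,
      (((t / ((1 - t) * Real.exp σ) : ℝ) : ℂ) * Complex.exp (-((φ : ℂ) * Complex.I))) ^ wt (x - y) =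
    ∑ w ∈ range (n + 1), (Nw C w : ℂ) * (((t ^ w * (1 - t) ^ (n - w) : ℝ) : ℂ) *
      Complex.exp (-(w : ℂ) * ((σ : ℂ) + (φ : ℂ) * Complex.I))) := by
  rw [sum_pairs C (fun w => (((t / ((1 - t) * Real.exp σ) : ℝ) : ℂ) *
    Complex.exp (-((φ : ℂ) * Complex.I))) ^ w), Finset.mul_sum]
  apply Finset.sum_congr rfl
  intro w hw
  have hwn : w ≤ n := Nat.lt_succ_iff.mp (Finset.mem_range.mp hw)
  have h1t : ((1 - t : ℝ) : ℂ) ≠ 0 := by
    exact_mod_cast (sub_pos.mpr ht).ne'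
  have h2 : ((1 - t : ℝ) : ℂ) ^ n = ((1 - t : ℝ) : ℂ) ^ (n - w) * ((1 - t : ℝ) : ℂ) ^ w := by
    rw [← pow_add, Nat.sub_add_cancel hwn]
  have h3 : Complex.exp (-(w : ℂ) * ((σ : ℂ) + (φ : ℂ) * Complex.I)) =
      ((Real.exp σ : ℝ) : ℂ)⁻¹ ^ w * Complex.exp (-((φ : ℂ) * Complex.I)) ^ w := by
    rw [Complex.ofReal_exp, ← Complex.exp_neg, ← Complex.exp_nat_mul, ← Complex.exp_nat_mul,
      ← Complex.exp_add]
    congr 1; ring
  have h4 : (((t / ((1 - t) * Real.exp σ) : ℝ) : ℂ)) =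
      (t : ℂ) * (((1 - t : ℝ) : ℂ)⁻¹ * ((Real.exp σ : ℝ) : ℂ)⁻¹) := by
    rw [Complex.ofReal_div, Complex.ofReal_mul, div_eq_mul_inv, mul_inv]
  have h5 : ((t ^ w * (1 - t) ^ (n - w) : ℝ) : ℂ) = (t : ℂ) ^ w * ((1 - t : ℝ) : ℂ) ^ (n - w) := by
    push_cast; ring
  rw [h3, h4, h5, h2]
  have h6 : ((1 - t : ℝ) : ℂ) ^ w * (((1 - t : ℝ) : ℂ)⁻¹) ^ w = 1 := by
    rw [← mul_pow, mul_inv_cancel₀ h1t, one_pow]
  calc _ = (Nw C w : ℂ) * ((t : ℂ) ^ w * ((1 - t : ℝ) : ℂ) ^ (n - w) *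
        (((1 - t : ℝ) : ℂ) ^ w * (((1 - t : ℝ) : ℂ)⁻¹) ^ w) *
        (((Real.exp σ : ℝ) : ℂ)⁻¹ ^ w * Complex.exp (-((φ : ℂ) * Complex.I)) ^ w)) := by ring
    _ = _ := by rw [h6]; ring

theorem win_main {n : ℕ} (C : Finset (Wd n)) (G : ℝ[X]) {σ ρ pa pb A B : ℝ} (h0 : 0 < ρ)
    (h1 : ρ ≤ 1 / 80) (hab : pa ≤ pb) (hA0 : 0 ≤ A) (hB0 : 0 ≤ B)
    (hA : ∀ φ : ℝ, pa ≤ φ → φ ≤ pb → ‖G.aeval (up σ φ)‖ ≤ A)
    (hB : ∀ φ : ℝ, pa ≤ φ → φ ≤ pb → ∀ t : ℝ, |t - 1 / 2| ≤ 2 * ρ →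
      (1 - t) ^ n * ‖∑ x ∈ C, ∑ y ∈ C, (((t / ((1 - t) * Real.exp σ) : ℝ) : ℂ) *
        Complex.exp (-((φ : ℂ) * Complex.I))) ^ wt (x - y)‖ ≤ B) :
    ‖∑ w ∈ range (n + 1), (Nw C w : ℂ) * (bin n ρ w : ℂ) * nr G σ pa pb w‖ ≤
      (n + 1) * (4 * ρ) * (pb - pa) * A * B := by
  classical
  have hcont : Continuous fun φ : ℝ => G.aeval (up σ φ) := by
    apply (Polynomial.continuous_aeval G).comp
    unfold up
    fun_prop
  have e1 : ∑ w ∈ range (n + 1), (Nw C w : ℂ) * (bin n ρ w : ℂ) * nr G σ pa pb w =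
      ((n : ℂ) + 1) * ∫ t in (1 / 2 - 2 * ρ)..(1 / 2 + 2 * ρ),
        ∑ w ∈ range (n + 1), (Nw C w : ℂ) * ((t ^ w * (1 - t) ^ (n - w) : ℝ) : ℂ) *
          nr G σ pa pb w := by
    rw [intervalIntegral.integral_finsetSum, Finset.mul_sum]
    · apply Finset.sum_congr rfl
      intro w _
      have h2 : ∀ t : ℝ, (Nw C w : ℂ) * ((t ^ w * (1 - t) ^ (n - w) : ℝ) : ℂ) * nr G σ pa pb w =
          ((Nw C w : ℂ) * nr G σ pa pb w) * ((t ^ w * (1 - t) ^ (n - w) : ℝ) : ℂ) := fun t => by ring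
      simp only [h2]
      rw [intervalIntegral.integral_const_mul, intervalIntegral.integral_ofReal]
      unfold bin
      push_cast
      ring
    · intro w _
      apply Continuous.intervalIntegrable
      fun_prop
  rw [e1, norm_mul]
  have e2 : ‖(n : ℂ) + 1‖ = (n : ℝ) + 1 := by
    have : (n : ℂ) + 1 = ((n + 1 : ℝ) : ℂ) := by push_cast; ring
    rw [this, Complex.norm_real, Real.norm_eq_abs, abs_of_nonneg (by positivity)]
  rw [e2]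
  have e3 : ‖∫ t in (1 / 2 - 2 * ρ)..(1 / 2 + 2 * ρ), ∑ w ∈ range (n + 1), (Nw C w : ℂ) *
      ((t ^ w * (1 - t) ^ (n - w) : ℝ) : ℂ) * nr G σ pa pb w‖ ≤
      ((A * B) * (pb - pa)) * |(1 / 2 + 2 * ρ) - (1 / 2 - 2 * ρ)| := by
    apply intervalIntegral.norm_integral_le_of_norm_le_const
    intro t ht
    rw [Set.uIoc_of_le (by linarith)] at ht
    have ht1 : t < 1 := by linarith [ht.2]
    have ht2 : |t - 1 / 2| ≤ 2 * ρ := by rw [abs_le]; constructor <;> linarith [ht.1, ht.2]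
    have h4 : ∑ w ∈ range (n + 1), (Nw C w : ℂ) * ((t ^ w * (1 - t) ^ (n - w) : ℝ) : ℂ) *
        nr G σ pa pb w = ∫ φ in pa..pb, G.aeval (up σ φ) * (((1 - t : ℝ) : ℂ) ^ n * ∑ x ∈ C, ∑ y ∈ C,
          (((t / ((1 - t) * Real.exp σ) : ℝ) : ℂ) * Complex.exp (-((φ : ℂ) * Complex.I))) ^ wt (x - y)) := by
      have h5 : ∀ φ : ℝ, G.aeval (up σ φ) * (((1 - t : ℝ) : ℂ) ^ n * ∑ x ∈ C, ∑ y ∈ C,
          (((t / ((1 - t) * Real.exp σ) : ℝ) : ℂ) * Complex.exp (-((φ : ℂ) * Complex.I))) ^ wt (x - y)) =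
          ∑ w ∈ range (n + 1), ((Nw C w : ℂ) * ((t ^ w * (1 - t) ^ (n - w) : ℝ) : ℂ)) *
            (G.aeval (up σ φ) * Complex.exp (-(w : ℂ) * ((σ : ℂ) + (φ : ℂ) * Complex.I))) := by
        intro φ
        rw [win_ray C ht1 φ, Finset.mul_sum]
        apply Finset.sum_congr rfl
        intro w _
        ring
      simp only [h5]
      rw [intervalIntegral.integral_finsetSum]
      · apply Finset.sum_congr rfl
        intro w _
        rw [intervalIntegral.integral_const_mul]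
        rfl
      · intro w _
        apply IntervalIntegrable.const_mul
        apply Continuous.intervalIntegrable
        fun_prop
    rw [h4]
    have h6 := intervalIntegral.norm_integral_le_of_norm_le_const (a := pa) (b := pb)
      (f := fun φ : ℝ => G.aeval (up σ φ) * (((1 - t : ℝ) : ℂ) ^ n * ∑ x ∈ C, ∑ y ∈ C,
          (((t / ((1 - t) * Real.exp σ) : ℝ) : ℂ) * Complex.exp (-((φ : ℂ) * Complex.I))) ^ wt (x - y)))
      (C := A * B) (by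
        intro φ hφ
        rw [Set.uIoc_of_le hab] at hφ
        rw [norm_mul]
        apply mul_le_mul (hA φ hφ.1.le hφ.2) _ (norm_nonneg _) hA0
        rw [norm_mul, norm_pow, Complex.norm_real, Real.norm_eq_abs, abs_of_nonneg (by linarith)]
        exact hB φ hφ.1.le hφ.2 t ht2)
    rw [abs_of_nonneg (by linarith)] at h6
    exact h6
  have e4 : |(1 / 2 + 2 * ρ) - (1 / 2 - 2 * ρ)| = 4 * ρ := by
    rw [abs_of_nonneg (by linarith)]; ring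
  rw [e4] at e3
  calc ((n : ℝ) + 1) * _ ≤ ((n : ℝ) + 1) * ((A * B) * (pb - pa) * (4 * ρ)) :=
        mul_le_mul_of_nonneg_left e3 (by positivity)
    _ = _ := by ring

end Pool.Agent.Lib.MP_0430e4_lc.BY
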