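import Pool.Agent.Lib.MP_0430e4_lc.BY.P.Good

/-!
# N1: the coefficients of `exp (n L)` and the truncated polynomial (BEYOND, block P; helper88)

`cf L n k` = coefficient of `z^k` in `exp (n L(z))`; `Fp` = the polynomial cut at `k ≤ n/2`.
-/

set_option autoImplicit false

namespace Pool.Agent.Lib.MP_0430e4_lc.BY

open Finset Metric

/-- the polynomial `∑_{k ≤ n/2} c_k z^k` -/
noncomputable def Fp (L : ℂ → ℂ) (n : ℕ) (z : ℂ) : ℂ :=
  ∑ k ∈ range (n / 2 + 1), (cf L n k : ℂ) * z ^ k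

section coeff

variable {L : ℂ → ℂ} (hd : DifferentiableOn ℂ L (ball 0 1))
  (hconj : ∀ z : ℂ, ‖z‖ < 1 → L (starRingEnd ℂ z) = starRingEnd ℂ (L z))

include hd in
theorem expL_diff (n : ℕ) : DifferentiableOn ℂ (fun z => Complex.exp (n * L z)) (ball 0 1) :=
  ((differentiableOn_const (n : ℂ)).mul hd).cexp

private theorem iter_conj (f : ℂ → ℂ) (k : ℕ) :
    iteratedDeriv k (starRingEnd ℂ ∘ f ∘ starRingEnd ℂ) =
      starRingEnd ℂ ∘ iteratedDeriv k f ∘ starRingEnd ℂ := by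
  induction k with
  | zero => simp [iteratedDeriv_zero]
  | succ k ih => rw [iteratedDeriv_succ, ih, deriv_conj_conj, iteratedDeriv_succ]

include hconj in
theorem iter_real (n k : ℕ) :
    starRingEnd ℂ (iteratedDeriv k (fun z => Complex.exp (n * L z)) 0) =
      iteratedDeriv k (fun z => Complex.exp (n * L z)) 0 := by
  set f : ℂ → ℂ := fun z => Complex.exp (n * L z) with hf
  have h1 : (starRingEnd ℂ ∘ f ∘ starRingEnd ℂ) =ᶠ[nhds 0] f := by
    filter_upwards [ball_mem_nhds (0 : ℂ) one_pos] with z hz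
    rw [mem_ball_zero_iff] at hz
    simp only [Function.comp_apply, hf]
    rw [hconj z hz, ← Complex.exp_conj, map_mul, Complex.conj_conj, Complex.conj_natCast]
  have h2 := h1.iteratedDeriv_eq k
  rw [iter_conj] at h2
  simp only [Function.comp_apply, map_zero] at h2
  exact h2

include hconj in
theorem cf_eq (n k : ℕ) :
    (cf L n k : ℂ) = iteratedDeriv k (fun z => Complex.exp (n * L z)) 0 / (k.factorial : ℂ) := by
  unfold cf
  have h1 := iter_real hconj n k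
  rw [← Complex.div_natCast_re]
  refine (Complex.conj_eq_iff_re.mp ?_)
  rw [map_div₀, h1, Complex.conj_natCast]

include hd hconj in
theorem cf_hasSum (n : ℕ) {z : ℂ} (hz : ‖z‖ < 1) :
    HasSum (fun k => (cf L n k : ℂ) * z ^ k) (Complex.exp (n * L z)) := by
  have h1 := Complex.hasSum_taylorSeries_on_ball (expL_diff hd n) (z := z) (by simpa using hz)
  have h2 : (fun k => (cf L n k : ℂ) * z ^ k) = (fun k : ℕ => ((k.factorial : ℂ))⁻¹ •
      (z - 0) ^ k • iteratedDeriv k (fun z => Complex.exp (n * L z)) 0) := by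
    funext k
    rw [cf_eq hconj, smul_eq_mul, smul_eq_mul, sub_zero, div_eq_mul_inv]
    ring
  rw [h2]
  exact h1

theorem cf_zero (h0 : L 0 = 0) (n : ℕ) : cf L n 0 = 1 := by
  unfold cf
  rw [iteratedDeriv_zero, h0, mul_zero, Complex.exp_zero]
  simp

theorem cf_nonneg {n k : ℕ}
    (h : 0 ≤ (iteratedDeriv k (fun z => Complex.exp (n * L z)) 0).re) : 0 ≤ cf L n k := by
  unfold cf
  exact div_nonneg h (Nat.cast_nonneg _)

include hd in
/-- Cauchy's estimate on the circle of radius `x` -/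
theorem cf_le_of (n k : ℕ) {x b : ℝ} (hx0 : 0 < x) (hx1 : x < 1)
    (hb : ∀ z : ℂ, ‖z‖ = x → (L z).re ≤ b) : |cf L n k| * x ^ k ≤ Real.exp (n * b) := by
  have h1 : DiffContOnCl ℂ (fun z => Complex.exp (n * L z)) (ball 0 x) := by
    apply DifferentiableOn.diffContOnCl
    rw [closure_ball _ hx0.ne']
    exact (expL_diff hd n).mono (closedBall_subset_ball hx1)
  have h2 := Complex.norm_iteratedDeriv_le_of_forall_mem_sphere_norm_le k hx0 h1
    (C := Real.exp (n * b)) (by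
      intro z hz
      rw [mem_sphere_zero_iff_norm] at hz
      rw [Complex.norm_exp]
      apply Real.exp_le_exp.mpr
      have h3 : ((n : ℂ) * L z).re = n * (L z).re := by
        rw [Complex.mul_re, Complex.natCast_re, Complex.natCast_im, zero_mul, sub_zero]
      rw [h3]
      exact mul_le_mul_of_nonneg_left (hb z hz) (Nat.cast_nonneg n))
  have hk : (0 : ℝ) < (k.factorial : ℝ) := by exact_mod_cast Nat.factorial_pos k
  have hxk : 0 < x ^ k := pow_pos hx0 k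
  have h4 : |cf L n k| ≤ ‖iteratedDeriv k (fun z => Complex.exp (n * L z)) 0‖ / (k.factorial : ℝ) := by
    unfold cf
    rw [abs_div, abs_of_pos hk]
    exact div_le_div_of_nonneg_right (Complex.abs_re_le_norm _) hk.le
  have h5 : |cf L n k| ≤ Real.exp (n * b) / x ^ k := by
    refine h4.trans ?_
    rw [div_le_iff₀ hk]
    refine h2.trans (le_of_eq ?_)
    ring
  rwa [le_div_iff₀ hxk] at h5

include hd in
theorem cf_le {e : ℝ} (htop : ∃ x0 : ℝ, x0 < 1 ∧ ∀ z : ℂ, x0 ≤ ‖z‖ → ‖z‖ < 1 →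
    (L z).re ≤ Real.log 2 / 2 - e) (n k : ℕ) :
    |cf L n k| ≤ Real.exp (n * (Real.log 2 / 2 - e)) := by
  obtain ⟨x0, hx0, h⟩ := htop
  set y : ℝ := max x0 (1 / 2) with hy
  have hy1 : y < 1 := max_lt hx0 (by norm_num)
  have hy0 : 0 < y := lt_of_lt_of_le (by norm_num) (le_max_right _ _)
  have h1 : ∀ᶠ x in nhdsWithin (1 : ℝ) (Set.Iio 1), |cf L n k| * x ^ k ≤
      Real.exp (n * (Real.log 2 / 2 - e)) := by
    have h2 : Set.Ioo y 1 ∈ nhdsWithin (1 : ℝ) (Set.Iio 1) := Ioo_mem_nhdsLT hy1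
    filter_upwards [h2] with x hx
    apply cf_le_of hd n k (hy0.trans hx.1) hx.2
    intro z hz
    apply h z
    · rw [hz]; exact (le_max_left _ _).trans hx.1.le
    · rw [hz]; exact hx.2
  have h3 : Filter.Tendsto (fun x : ℝ => |cf L n k| * x ^ k) (nhdsWithin (1 : ℝ) (Set.Iio 1))
      (nhds (|cf L n k| * 1 ^ k)) := by
    apply Filter.Tendsto.mono_left _ nhdsWithin_le_nhds
    exact (continuous_const.mul (continuous_pow k)).tendsto 1
  have h4 := le_of_tendsto h3 h1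
  rwa [one_pow, mul_one] at h4

/-- a numerical fact: near the unit circle `‖z‖^(n/2) ≥ 1/2` -/
private theorem half_le {n : ℕ} (hn : 1 ≤ n) {x : ℝ} (hx : 1 - 1 / ((n : ℝ) + 1) ≤ x) :
    1 / 2 ≤ x ^ ((n : ℝ) / 2) := by
  have hn0 : (0 : ℝ) < n := by exact_mod_cast hn
  have h1 : Real.exp (-(1 / (n : ℝ))) ≤ x := by
    refine le_trans ?_ hx
    have h2 := Real.add_one_le_exp (1 / (n : ℝ))
    have h3 : 0 < 1 / (n : ℝ) + 1 := by positivity
    rw [Real.exp_neg]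
    refine (inv_anti₀ h3 h2).trans (le_of_eq ?_)
    field_simp
    ring
  have h4 : (Real.exp (-(1 / (n : ℝ)))) ^ ((n : ℝ) / 2) ≤ x ^ ((n : ℝ) / 2) :=
    Real.rpow_le_rpow (Real.exp_pos _).le h1 (by positivity)
  refine le_trans ?_ h4
  rw [← Real.exp_mul]
  have h5 : -(1 / (n : ℝ)) * ((n : ℝ) / 2) = -(1 / 2) := by field_simp
  rw [h5]
  have := Real.add_one_le_exp (-(1 / 2 : ℝ))
  linarith

include hd hconj in
theorem Fp_le {e : ℝ} (htop : ∃ x0 : ℝ, x0 < 1 ∧ ∀ z : ℂ, x0 ≤ ‖z‖ → ‖z‖ < 1 →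
    (L z).re ≤ Real.log 2 / 2 - e) (n : ℕ) (z : ℂ) :
    ‖Fp L n z‖ ≤ (if ‖z‖ < 1 then Real.exp (n * (L z).re) else 0) +
      2 * ((n : ℝ) + 1) * Real.exp (n * (Real.log 2 / 2 - e)) * ‖z‖ ^ ((n : ℝ) / 2) := by
  set E : ℝ := Real.exp (n * (Real.log 2 / 2 - e)) with hE
  have hE0 : 0 < E := Real.exp_pos _
  have hc : ∀ k, |cf L n k| ≤ E := fun k => cf_le hd htop n k
  have hm : n / 2 ≤ n := Nat.div_le_self n 2
  have hmr : ((n / 2 : ℕ) : ℝ) ≤ (n : ℝ) / 2 := Nat.cast_div_le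
  have hmr' : (n : ℝ) / 2 ≤ ((n / 2 + 1 : ℕ) : ℝ) := by
    have : n ≤ 2 * (n / 2 + 1) := by omega
    have h : (n : ℝ) ≤ 2 * ((n / 2 + 1 : ℕ) : ℝ) := by exact_mod_cast this
    linarith
  have hn0 : (0 : ℝ) ≤ n := Nat.cast_nonneg n
  have hnz := norm_nonneg z
  have hrp : 0 ≤ ‖z‖ ^ ((n : ℝ) / 2) := Real.rpow_nonneg hnz _
  have hif : 0 ≤ (if ‖z‖ < 1 then Real.exp (n * (L z).re) else 0) := by
    split_ifs
    · exact (Real.exp_pos _).le
    · exact le_refl _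
  have hterm : ‖Fp L n z‖ ≤ ∑ k ∈ range (n / 2 + 1), E * ‖z‖ ^ k := by
    unfold Fp
    refine (norm_sum_le _ _).trans (sum_le_sum fun k _ => ?_)
    rw [norm_mul, norm_pow, Complex.norm_real, Real.norm_eq_abs]
    exact mul_le_mul_of_nonneg_right (hc k) (pow_nonneg hnz _)
  have hcard : ((n / 2 + 1 : ℕ) : ℝ) ≤ (n : ℝ) + 1 := by
    push_cast
    have : ((n / 2 : ℕ) : ℝ) ≤ (n : ℝ) := by exact_mod_cast hm
    linarith
  by_cases h1 : ‖z‖ ≤ 1 - 1 / ((n : ℝ) + 1)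
  · -- inside
    have hpos : (0 : ℝ) < 1 / ((n : ℝ) + 1) := by positivity
    have hz1 : ‖z‖ < 1 := by linarith
    rw [if_pos hz1]
    have hs := cf_hasSum hd hconj n hz1
    have htail : HasSum (fun k => (cf L n (k + (n / 2 + 1)) : ℂ) * z ^ (k + (n / 2 + 1)))
        (Complex.exp (n * L z) - Fp L n z) := by
      have := (hasSum_nat_add_iff' (n / 2 + 1)).mpr hs
      exact this
    have hgeo : HasSum (fun k : ℕ => E * ‖z‖ ^ (n / 2 + 1) * ‖z‖ ^ k)
        (E * ‖z‖ ^ (n / 2 + 1) * (1 - ‖z‖)⁻¹) :=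
      (hasSum_geometric_of_lt_one hnz hz1).mul_left _
    have h2 : ‖Complex.exp (n * L z) - Fp L n z‖ ≤ E * ‖z‖ ^ (n / 2 + 1) * (1 - ‖z‖)⁻¹ := by
      rw [← htail.tsum_eq, ← hgeo.tsum_eq]
      apply tsum_of_norm_bounded hgeo.summable.hasSum
      intro k
      rw [norm_mul, norm_pow, Complex.norm_real, Real.norm_eq_abs, pow_add]
      calc |cf L n (k + (n / 2 + 1))| * (‖z‖ ^ k * ‖z‖ ^ (n / 2 + 1))
          ≤ E * (‖z‖ ^ k * ‖z‖ ^ (n / 2 + 1)) :=
            mul_le_mul_of_nonneg_right (hc _) (by positivity)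
        _ = _ := by ring
    have h3 : (1 - ‖z‖)⁻¹ ≤ (n : ℝ) + 1 := by
      have h4 : 1 / ((n : ℝ) + 1) ≤ 1 - ‖z‖ := by linarith
      have h5 := inv_anti₀ hpos h4
      rwa [one_div, inv_inv] at h5
    have h6 : ‖z‖ ^ (n / 2 + 1) ≤ ‖z‖ ^ ((n : ℝ) / 2) := by
      rcases eq_or_lt_of_le hnz with h0 | h0
      · rw [← h0, zero_pow (Nat.succ_ne_zero _)]
        exact Real.rpow_nonneg (le_refl _) _
      · rw [← Real.rpow_natCast]
        exact Real.rpow_le_rpow_of_exponent_ge h0 hz1.le hmr'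
    have h7 : ‖Fp L n z‖ ≤ ‖Complex.exp (n * L z)‖ + ‖Complex.exp (n * L z) - Fp L n z‖ := by
      have : Fp L n z = Complex.exp (n * L z) - (Complex.exp (n * L z) - Fp L n z) := by ring
      calc ‖Fp L n z‖ = ‖Complex.exp (n * L z) - (Complex.exp (n * L z) - Fp L n z)‖ := by rw [← this]
        _ ≤ _ := norm_sub_le _ _
    have h8 : ‖Complex.exp (n * L z)‖ = Real.exp (n * (L z).re) := by
      rw [Complex.norm_exp]
      congr 1
      rw [Complex.mul_re, Complex.natCast_re, Complex.natCast_im, zero_mul, sub_zero]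
    have h9 : E * ‖z‖ ^ (n / 2 + 1) * (1 - ‖z‖)⁻¹ ≤
        2 * ((n : ℝ) + 1) * E * ‖z‖ ^ ((n : ℝ) / 2) := by
      calc E * ‖z‖ ^ (n / 2 + 1) * (1 - ‖z‖)⁻¹
          ≤ E * ‖z‖ ^ ((n : ℝ) / 2) * ((n : ℝ) + 1) := by
            apply mul_le_mul (mul_le_mul_of_nonneg_left h6 hE0.le) h3
              (inv_nonneg.mpr (by linarith)) (by positivity)
        _ ≤ 2 * (E * ‖z‖ ^ ((n : ℝ) / 2) * ((n : ℝ) + 1)) := by
            have : 0 ≤ E * ‖z‖ ^ ((n : ℝ) / 2) * ((n : ℝ) + 1) := by positivity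
            linarith
        _ = _ := by ring
    rw [← h8]
    linarith
  · -- outside
    push Not at h1
    rcases le_or_gt ‖z‖ 1 with h2 | h2
    · have h3 : ‖Fp L n z‖ ≤ ((n : ℝ) + 1) * E := by
        refine hterm.trans ?_
        calc ∑ k ∈ range (n / 2 + 1), E * ‖z‖ ^ k ≤ ∑ k ∈ range (n / 2 + 1), E := by
              apply sum_le_sum
              intro k _
              have := pow_le_one₀ hnz h2 (n := k)
              nlinarith
          _ = ((n / 2 + 1 : ℕ) : ℝ) * E := by rw [sum_const, card_range, nsmul_eq_mul]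
          _ ≤ _ := mul_le_mul_of_nonneg_right hcard hE0.le
      have h4 : 1 / 2 ≤ ‖z‖ ^ ((n : ℝ) / 2) := by
        rcases Nat.eq_zero_or_pos n with h0 | h0
        · rw [h0]
          norm_num
        · exact half_le h0 h1.le
      have h5 : ((n : ℝ) + 1) * E ≤ 2 * ((n : ℝ) + 1) * E * ‖z‖ ^ ((n : ℝ) / 2) := by
        have h6 : 0 ≤ 2 * ((n : ℝ) + 1) * E := by positivity
        have := mul_le_mul_of_nonneg_left h4 h6
        linarith
      linarith
    · have h3 : ‖Fp L n z‖ ≤ ((n : ℝ) + 1) * E * ‖z‖ ^ ((n : ℝ) / 2) := by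
        refine hterm.trans ?_
        calc ∑ k ∈ range (n / 2 + 1), E * ‖z‖ ^ k
            ≤ ∑ k ∈ range (n / 2 + 1), E * ‖z‖ ^ ((n : ℝ) / 2) := by
              apply sum_le_sum
              intro k hk
              apply mul_le_mul_of_nonneg_left _ hE0.le
              rw [← Real.rpow_natCast]
              apply Real.rpow_le_rpow_of_exponent_le h2.le
              rw [mem_range] at hk
              have : (k : ℝ) ≤ ((n / 2 : ℕ) : ℝ) := by exact_mod_cast Nat.lt_succ_iff.mp hk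
              linarith
          _ = ((n / 2 + 1 : ℕ) : ℝ) * (E * ‖z‖ ^ ((n : ℝ) / 2)) := by
              rw [sum_const, card_range, nsmul_eq_mul]
          _ ≤ ((n : ℝ) + 1) * (E * ‖z‖ ^ ((n : ℝ) / 2)) :=
              mul_le_mul_of_nonneg_right hcard (by positivity)
          _ = _ := by ring
      have h4 : 0 ≤ ((n : ℝ) + 1) * E * ‖z‖ ^ ((n : ℝ) / 2) := by positivity
      linarith

/-- the transformed polynomial `(1+u)^n F((1-u)/(1+u))` -/
theorem Gn_eq (n : ℕ) (u : ℂ) (hu : 1 + u ≠ 0) :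
    (Gn L n).aeval u = (1 + u) ^ n * Fp L n (zu u) := by
  unfold Gn
  rw [Gp_eval (Nat.div_le_self n 2) _ u hu]
  rfl

include hd hconj in
theorem Gn_le {e : ℝ} (htop : ∃ x0 : ℝ, x0 < 1 ∧ ∀ z : ℂ, x0 ≤ ‖z‖ → ‖z‖ < 1 →
    (L z).re ≤ Real.log 2 / 2 - e) (n : ℕ) (u : ℂ) (hu : 1 + u ≠ 0) :
    ‖(Gn L n).aeval u‖ ≤
      (if ‖zu u‖ < 1 then Real.exp (n * (Real.log ‖1 + u‖ + (L (zu u)).re)) else 0) +
      2 * ((n : ℝ) + 1) * Real.exp (n * (Real.log 2 / 2 - e)) * ‖1 - u ^ 2‖ ^ ((n : ℝ) / 2) := by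
  rw [Gn_eq n u hu, norm_mul, norm_pow]
  have h1 := Fp_le hd hconj htop n (zu u)
  have hu0 : 0 < ‖1 + u‖ := norm_pos_iff.mpr hu
  have hpn : 0 < ‖1 + u‖ ^ n := pow_pos hu0 n
  refine (mul_le_mul_of_nonneg_left h1 hpn.le).trans ?_
  rw [mul_add]
  have h2 : ‖1 + u‖ ^ n * (if ‖zu u‖ < 1 then Real.exp (n * (L (zu u)).re) else 0) =
      (if ‖zu u‖ < 1 then Real.exp (n * (Real.log ‖1 + u‖ + (L (zu u)).re)) else 0) := by
    split_ifs with h
    · rw [mul_add, Real.exp_add, ← Real.log_pow, Real.exp_log hpn]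
    · rw [mul_zero]
  have h3 : ‖1 + u‖ ^ n * ‖zu u‖ ^ ((n : ℝ) / 2) = ‖1 - u ^ 2‖ ^ ((n : ℝ) / 2) := by
    have h4 : ‖1 - u ^ 2‖ = ‖1 + u‖ ^ (2 : ℝ) * ‖zu u‖ := by
      unfold zu
      rw [norm_div, Real.rpow_two, show (1 : ℂ) - u ^ 2 = (1 + u) * (1 - u) by ring, norm_mul]
      field_simp
    rw [h4, Real.mul_rpow (by positivity) (norm_nonneg _), ← Real.rpow_mul hu0.le,
      show (2 : ℝ) * ((n : ℝ) / 2) = n by ring, Real.rpow_natCast]
  rw [h2]
  refine le_of_eq ?_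
  congr 1
  calc ‖1 + u‖ ^ n * (2 * ((n : ℝ) + 1) * Real.exp (n * (Real.log 2 / 2 - e)) *
        ‖zu u‖ ^ ((n : ℝ) / 2))
      = 2 * ((n : ℝ) + 1) * Real.exp (n * (Real.log 2 / 2 - e)) *
        (‖1 + u‖ ^ n * ‖zu u‖ ^ ((n : ℝ) / 2)) := by ring
    _ = _ := by rw [h3]

end coeff

end Pool.Agent.Lib.MP_0430e4_lc.BY
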