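import Pool.Agent.Lib.MP_0430e4_lc.BY.P.N03
import Pool.Agent.Lib.MP_0430e4_lc.BY.P.N05
import Pool.Agent.Lib.MP_0430e4_lc.BY.Beta

/-!
# N10 (BEYOND block P): the coefficients of `G` at the high weights `n - v`
-/

set_option autoImplicit false

open Finset Polynomial

namespace Pool.Agent.Lib.MP_0430e4_lc.BY

theorem coeff_high {L : ℂ → ℂ} {ρ pa pb τ η e σ ε : ℝ} (hG : Good L ρ pa pb τ η e σ ε) {n : ℕ}
    (hn : 2 ≤ n) {R : ℝ} (hR : 1 ≤ R) (w : ℕ) :
    |(Gn L n).coeff w| * R ^ w ≤ (4 * R / Real.sqrt (2 + 2 * R ^ 2) * Real.exp η) ^ n +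
      2 * (n + 1) * (Real.exp (-e) * Real.sqrt (2 + 2 * R ^ 2)) ^ n := by
  have hR0 : 0 < R := by linarith
  apply coeff_circle (Gn L n) hR0 w
  intro u hu
  have h1 := G_good hG hn u (X := 4 * R / Real.sqrt (2 + 2 * R ^ 2) * Real.exp η) (by positivity)
    (by
      intro h
      have h2 := hG.out u (by rw [hu]; exact hR) h
      rw [hu] at h2
      exact h2)
  refine h1.trans ?_
  apply add_le_add_right
  apply mul_le_mul_of_nonneg_left _ (by positivity)
  apply pow_le_pow_left₀ (by positivity)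
  have h3 : ‖1 - u ^ 2‖ ≤ 1 + R ^ 2 := by
    calc ‖1 - u ^ 2‖ ≤ ‖(1 : ℂ)‖ + ‖u ^ 2‖ := norm_sub_le _ _
      _ = 1 + R ^ 2 := by rw [norm_one, norm_pow, hu]
  have h4 : Real.sqrt (2 + 2 * R ^ 2) = Real.sqrt 2 * Real.sqrt (1 + R ^ 2) := by
    rw [← Real.sqrt_mul (by norm_num)]; congr 1; ring
  rw [h4]
  calc Real.sqrt 2 * Real.exp (-e) * Real.sqrt ‖1 - u ^ 2‖ ≤
        Real.sqrt 2 * Real.exp (-e) * Real.sqrt (1 + R ^ 2) :=
        mul_le_mul_of_nonneg_left (Real.sqrt_le_sqrt h3) (by positivity)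
    _ = _ := by ring

/-- the mode of the binomial distribution -/
private theorem N10_mode_le {n v : ℕ} (hv : 1 ≤ v) (hvn : v < n) {t : ℝ} (h0 : 0 ≤ t) (h1 : t ≤ 1) :
    t ^ v * (1 - t) ^ (n - v) ≤
      ((v : ℝ) / n) ^ v * (1 - (v : ℝ) / n) ^ (n - v) := by
  have hn0 : (0 : ℝ) < n := by exact_mod_cast (by omega : 0 < n)
  have hv0 : (0 : ℝ) < v := by exact_mod_cast hv
  have hvn' : (v : ℝ) < n := by exact_mod_cast hvn
  set x : ℝ := (v : ℝ) / n with hx
  have hx0 : 0 < x := by positivity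
  have hx1 : x < 1 := (div_lt_one hn0).mpr hvn'
  have hnv : ((n - v : ℕ) : ℝ) = n * (1 - x) := by
    rw [Nat.cast_sub hvn.le, hx]; field_simp
  have hvx : (v : ℝ) = n * x := by rw [hx]; field_simp
  rcases h0.eq_or_lt with h | h
  · subst h
    rw [zero_pow (by omega), zero_mul]
    have : 0 ≤ 1 - x := by linarith
    positivity
  rcases h1.eq_or_lt with h' | h'
  · subst h'
    rw [sub_self, zero_pow (by omega), mul_zero]
    have : 0 ≤ 1 - x := by linarith
    positivity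
  have h1t : 0 < 1 - t := by linarith
  have h1x : 0 < 1 - x := by linarith
  rw [← Real.exp_log (by positivity : 0 < t ^ v * (1 - t) ^ (n - v)),
    ← Real.exp_log (by positivity : 0 < x ^ v * (1 - x) ^ (n - v))]
  apply Real.exp_le_exp.mpr
  rw [Real.log_mul (by positivity) (by positivity), Real.log_mul (by positivity) (by positivity),
    Real.log_pow, Real.log_pow, Real.log_pow, Real.log_pow, hnv, hvx]
  have h2 : Real.log (t / x) ≤ t / x - 1 := Real.log_le_sub_one_of_pos (by positivity)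
  have h3 : Real.log ((1 - t) / (1 - x)) ≤ (1 - t) / (1 - x) - 1 :=
    Real.log_le_sub_one_of_pos (by positivity)
  rw [Real.log_div h.ne' hx0.ne'] at h2
  rw [Real.log_div h1t.ne' h1x.ne'] at h3
  have h4 : x * (Real.log t - Real.log x) ≤ t - x := by
    have := mul_le_mul_of_nonneg_left h2 hx0.le
    have e1 : x * (t / x - 1) = t - x := by field_simp
    linarith
  have h5 : (1 - x) * (Real.log (1 - t) - Real.log (1 - x)) ≤ x - t := by
    have := mul_le_mul_of_nonneg_left h3 h1x.le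
    have e1 : (1 - x) * ((1 - t) / (1 - x) - 1) = x - t := by field_simp; ring
    linarith
  have h6 : x * (Real.log t - Real.log x) + (1 - x) * (Real.log (1 - t) - Real.log (1 - x)) ≤ 0 := by
    linarith
  have h7 := mul_le_mul_of_nonneg_left h6 hn0.le
  linarith [h7]

private theorem N10_inv_choose_le {n v : ℕ} (hv : 1 ≤ v) (hvn : v < n) :
    ((n.choose v : ℝ))⁻¹ ≤ ((n : ℝ) + 1) * (((v : ℝ) / n) ^ v * (1 - (v : ℝ) / n) ^ (n - v)) := by
  have hc : (0 : ℝ) < n.choose v := by exact_mod_cast Nat.choose_pos hvn.le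
  have h2 : ∫ t in (0 : ℝ)..1, t ^ v * (1 - t) ^ (n - v) ≤
      ((v : ℝ) / n) ^ v * (1 - (v : ℝ) / n) ^ (n - v) := by
    have h3 : ∫ t in (0 : ℝ)..1, t ^ v * (1 - t) ^ (n - v) ≤
        ∫ t in (0 : ℝ)..1, ((v : ℝ) / n) ^ v * (1 - (v : ℝ) / n) ^ (n - v) := by
      apply intervalIntegral.integral_mono_on zero_le_one
        (Continuous.intervalIntegrable (by fun_prop) _ _) (by simp)
      intro t ht
      exact N10_mode_le hv hvn ht.1 ht.2
    simpa using h3
  rw [inv_choose_eq hvn.le]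
  exact mul_le_mul_of_nonneg_left h2 (by positivity)

theorem pow_le_choose {n v : ℕ} (hv : v ≤ n) :
    (n : ℝ) ^ n ≤ (n + 1) * n.choose v * ((n - v : ℝ) ^ (n - v) * (v : ℝ) ^ v) := by
  rcases Nat.eq_zero_or_pos v with h0 | h0
  · subst h0
    have : 0 ≤ (n : ℝ) * (n : ℝ) ^ n := by positivity
    simp only [Nat.choose_zero_right, Nat.cast_one, Nat.cast_zero, sub_zero, Nat.sub_zero, pow_zero,
      mul_one]
    linarith
  rcases hv.eq_or_lt with h1 | h1
  · subst h1
    have : 0 ≤ (v : ℝ) * (v : ℝ) ^ v := by positivity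
    simp only [Nat.choose_self, Nat.cast_one, Nat.sub_self, pow_zero, mul_one, one_mul]
    linarith
  · have h2 := N10_inv_choose_le h0 h1
    have hn0 : (0 : ℝ) < n := by exact_mod_cast (by omega : 0 < n)
    have hc : (0 : ℝ) < n.choose v := by exact_mod_cast Nat.choose_pos hv
    have h3 : (1 - (v : ℝ) / n) = (n - v : ℝ) / n := by field_simp
    have h4 : (n : ℝ) ^ n = (n : ℝ) ^ v * (n : ℝ) ^ (n - v) := by
      rw [← pow_add, Nat.add_sub_cancel' hv]
    rw [h3, div_pow, div_pow, inv_le_iff_one_le_mul₀ hc] at h2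
    have h5 : (n : ℝ) ^ n * 1 ≤ (n : ℝ) ^ n * (((n : ℝ) + 1) * ((v : ℝ) ^ v / (n : ℝ) ^ v *
        ((n - v : ℝ) ^ (n - v) / (n : ℝ) ^ (n - v))) * n.choose v) :=
      mul_le_mul_of_nonneg_left h2 (by positivity)
    have h6 : (n : ℝ) ^ n * (((n : ℝ) + 1) * ((v : ℝ) ^ v / (n : ℝ) ^ v *
        ((n - v : ℝ) ^ (n - v) / (n : ℝ) ^ (n - v))) * n.choose v) =
        (n + 1) * n.choose v * ((n - v : ℝ) ^ (n - v) * (v : ℝ) ^ v) := by
      rw [h4]
      field_simp
    rw [h6, mul_one] at h5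
    exact h5

/-- the exponents add up: with `x = max v 1 / n`, `R² = (1-x)/x` -/
private theorem N10_exp {n v : ℕ} (hn : 5 ≤ n) (hv : 5 * v ≤ n) :
    ∃ s : ℝ, 0 < s ∧ 4 * Real.exp s / Real.sqrt (2 + 2 * Real.exp s ^ 2) ≤
        Real.sqrt 2 * (4 / 5) * Real.sqrt (1 + Real.exp s ^ 2) ∧
      (1 + Real.sqrt 2) ^ v * ((n.choose v : ℝ))⁻¹ * Real.exp (-(s * (n - v : ℕ))) *
        (1 + Real.exp s ^ 2) ^ ((n : ℝ) / 2) ≤ 3 * (n + 1) := by
  have hn0 : (0 : ℝ) < n := by exact_mod_cast (by omega : 0 < n)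
  set m : ℕ := max v 1 with hm
  have hm1 : 1 ≤ m := le_max_right _ _
  have hm5 : 5 * m ≤ n := by
    rcases le_total v 1 with h | h
    · rw [hm, max_eq_right h]; omega
    · rw [hm, max_eq_left h]; omega
  have hm0 : (0 : ℝ) < m := by exact_mod_cast hm1
  have hm5' : 5 * (m : ℝ) ≤ n := by exact_mod_cast hm5
  set x : ℝ := (m : ℝ) / n with hx
  have hx0 : 0 < x := by positivity
  have hx5 : x ≤ 1 / 5 := by
    rw [hx, div_le_iff₀ hn0]; linarith
  have h1x : 0 < 1 - x := by linarith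
  have hmx : (m : ℝ) = n * x := by rw [hx]; field_simp
  set l := Real.log x with hl
  set q := Real.log (1 - x) with hq
  have hlq : l < q := Real.log_lt_log hx0 (by linarith)
  set s : ℝ := (q - l) / 2 with hs
  have hs0 : 0 < s := by rw [hs]; linarith
  have hR : Real.exp s ^ 2 = (1 - x) / x := by
    rw [← Real.exp_nat_mul, hs]
    have : ((2 : ℕ) : ℝ) * ((q - l) / 2) = q - l := by push_cast; ring
    rw [this, Real.exp_sub, hq, hl, Real.exp_log h1x, Real.exp_log hx0]
  have hR1 : 1 + Real.exp s ^ 2 = x⁻¹ := by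
    rw [hR]; field_simp; ring
  have hR2 : (1 + Real.exp s ^ 2) ^ ((n : ℝ) / 2) = Real.exp (-(l * (n / 2))) := by
    rw [hR1, Real.inv_rpow hx0.le, Real.rpow_def_of_pos hx0, Real.exp_neg]
  refine ⟨s, hs0, ?_, ?_⟩
  · have e0 : 0 < Real.exp s := Real.exp_pos s
    have h1 : 2 + 2 * Real.exp s ^ 2 = 2 * (1 + Real.exp s ^ 2) := by ring
    have h2 : 0 < 1 + Real.exp s ^ 2 := by positivity
    rw [h1, Real.sqrt_mul (by norm_num)]
    have h3 : 0 < Real.sqrt (1 + Real.exp s ^ 2) := Real.sqrt_pos.mpr h2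
    have h4 : 0 < Real.sqrt 2 := Real.sqrt_pos.mpr (by norm_num)
    rw [div_le_iff₀ (by positivity)]
    have h5 : Real.sqrt 2 * (4 / 5) * Real.sqrt (1 + Real.exp s ^ 2) *
        (Real.sqrt 2 * Real.sqrt (1 + Real.exp s ^ 2)) = 8 / 5 * (1 + Real.exp s ^ 2) := by
      have a1 := Real.mul_self_sqrt (by norm_num : (0 : ℝ) ≤ 2)
      have a2 := Real.mul_self_sqrt h2.le
      calc Real.sqrt 2 * (4 / 5) * Real.sqrt (1 + Real.exp s ^ 2) *
        (Real.sqrt 2 * Real.sqrt (1 + Real.exp s ^ 2)) = (Real.sqrt 2 * Real.sqrt 2) * (4 / 5) *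
          (Real.sqrt (1 + Real.exp s ^ 2) * Real.sqrt (1 + Real.exp s ^ 2)) := by ring
        _ = _ := by rw [a1, a2]; ring
    rw [h5, hR1]
    -- 4 R ≤ 8/5 x⁻¹ ; square
    have h6 : (4 * Real.exp s) ^ 2 ≤ (8 / 5 * x⁻¹) ^ 2 := by
      rw [mul_pow, hR]
      have h7 : (8 / 5 * x⁻¹) ^ 2 - 4 ^ 2 * ((1 - x) / x) = (16 / x ^ 2) * (4 / 25 - x * (1 - x)) := by
        field_simp; ring
      have h8 : 0 ≤ 4 / 25 - x * (1 - x) := by nlinarith
      have h9 : 0 ≤ (16 / x ^ 2) * (4 / 25 - x * (1 - x)) := by positivity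
      linarith
    exact le_of_sq_le_sq h6 (by positivity)
  · rw [hR2]
    have hq1 : q ≤ -x := by
      have := Real.log_le_sub_one_of_pos h1x
      rw [hq]; linarith
    rcases Nat.eq_zero_or_pos v with h0 | h0
    · -- v = 0
      subst h0
      have hm' : m = 1 := by rw [hm]; rfl
      rw [Nat.choose_zero_right, pow_zero, Nat.sub_zero, Nat.cast_one, inv_one, one_mul, one_mul,
        ← Real.exp_add]
      have h1 : -(s * n) + -(l * (n / 2)) = -(q * n / 2) := by rw [hs]; ring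
      rw [h1]
      have hxn : x * n = 1 := by rw [hx, hm']; field_simp; simp
      have h2 : -q ≤ x / (1 - x) := by
        have h3 := Real.log_le_sub_one_of_pos (inv_pos.mpr h1x)
        rw [Real.log_inv] at h3
        have h4 : (1 - x)⁻¹ - 1 = x / (1 - x) := by field_simp; ring
        rw [← h4]; exact h3
      have h3 : x / (1 - x) ≤ 2 * x := by
        rw [div_le_iff₀ h1x]; nlinarith
      have h4 : -(q * n / 2) ≤ 1 := by nlinarith
      calc Real.exp (-(q * n / 2)) ≤ Real.exp 1 := Real.exp_le_exp.mpr h4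
        _ ≤ 3 := by linarith [Real.exp_one_lt_d9]
        _ ≤ 3 * (n + 1) := by linarith
    · have hmv : m = v := by rw [hm]; exact max_eq_left h0
      have hvn : v < n := by omega
      have h1 := N10_inv_choose_le h0 hvn
      rw [← hmv] at h1 hvn ⊢
      rw [← hx] at h1
      have hmn : ((n - m : ℕ) : ℝ) = n * (1 - x) := by
        rw [Nat.cast_sub hvn.le, hmx]; ring
      have h2 : x ^ m * (1 - x) ^ (n - m) = Real.exp (n * x * l + n * (1 - x) * q) := by
        rw [Real.exp_add, ← hmx, ← hmn, mul_comm (m : ℝ) l, mul_comm ((n - m : ℕ) : ℝ) q, hl, hq,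
          ← Real.rpow_def_of_pos hx0, ← Real.rpow_def_of_pos h1x, Real.rpow_natCast, Real.rpow_natCast]
      rw [h2] at h1
      have h3 : (1 + Real.sqrt 2) ^ m = Real.exp (n * x * Real.log (1 + Real.sqrt 2)) := by
        have h4 : 0 < 1 + Real.sqrt 2 := by positivity
        rw [← hmx, mul_comm, ← Real.rpow_def_of_pos h4, Real.rpow_natCast]
      rw [h3, hmn]
      have h5 : Real.log (1 + Real.sqrt 2) + l / 2 ≤ 1 / 10 := by
        have h6 : (1 + Real.sqrt 2) ^ 2 * x ≤ Real.exp (1 / 5) := by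
          have a1 := Real.mul_self_sqrt (by norm_num : (0 : ℝ) ≤ 2)
          have a2 : Real.sqrt 2 ≤ 1.415 := by
            rw [Real.sqrt_le_left (by norm_num)]; norm_num
          have a3 : (1 + Real.sqrt 2) ^ 2 ≤ 5.84 := by linarith
          have a4 : (6 : ℝ) / 5 ≤ Real.exp (1 / 5) := by
            have := Real.add_one_le_exp (1 / 5 : ℝ); linarith
          nlinarith
        have h7 := Real.log_le_log (by positivity) h6
        rw [Real.log_exp, Real.log_mul (by positivity) (by positivity), Real.log_pow] at h7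
        push_cast at h7
        linarith
      calc Real.exp (n * x * Real.log (1 + Real.sqrt 2)) * ((n.choose m : ℝ))⁻¹ *
            Real.exp (-(s * (n * (1 - x)))) * Real.exp (-(l * (n / 2)))
          ≤ Real.exp (n * x * Real.log (1 + Real.sqrt 2)) *
            (((n : ℝ) + 1) * Real.exp (n * x * l + n * (1 - x) * q)) *
            Real.exp (-(s * (n * (1 - x)))) * Real.exp (-(l * (n / 2))) := by
              gcongr
        _ = ((n : ℝ) + 1) * Real.exp (n * x * (Real.log (1 + Real.sqrt 2) + l / 2) +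
            n * (1 - x) * q / 2) := by
              rw [show Real.exp (n * x * Real.log (1 + Real.sqrt 2)) *
                (((n : ℝ) + 1) * Real.exp (n * x * l + n * (1 - x) * q)) *
                Real.exp (-(s * (n * (1 - x)))) * Real.exp (-(l * (n / 2))) =
                ((n : ℝ) + 1) * (Real.exp (n * x * Real.log (1 + Real.sqrt 2)) *
                Real.exp (n * x * l + n * (1 - x) * q) *
                Real.exp (-(s * (n * (1 - x)))) * Real.exp (-(l * (n / 2)))) by ring,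
                ← Real.exp_add, ← Real.exp_add, ← Real.exp_add]
              congr 2
              rw [hs]; ring
        _ ≤ ((n : ℝ) + 1) * 1 := by
              apply mul_le_mul_of_nonneg_left _ (by positivity)
              rw [Real.exp_le_one_iff]
              have hnx : 0 < n * x := by positivity
              have b1 : n * x * (Real.log (1 + Real.sqrt 2) + l / 2) ≤ n * x * (1 / 10) :=
                mul_le_mul_of_nonneg_left h5 hnx.le
              have b2 : n * (1 - x) * q / 2 ≤ n * (1 - x) * (-x) / 2 := by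
                have : 0 ≤ n * (1 - x) := by positivity
                nlinarith
              nlinarith
        _ ≤ 3 * (n + 1) := by linarith

/-- `D ≤ n/5` -/
private theorem N10_five {n : ℕ} (hn : 60 ≤ n) : 5 * Dst n ≤ n := by
  have hpi : Real.pi < 3.1416 := Real.pi_lt_d4
  have hpi0 := Real.pi_pos
  have h1 : (1 / 2 - 1 / Real.pi : ℝ) ≤ 0.1817 := by
    have : (1 : ℝ) / 3.1416 ≤ 1 / Real.pi := one_div_le_one_div_of_le hpi0 hpi.le
    norm_num at this ⊢
    linarith
  have h2 : (0 : ℝ) ≤ 1 / 2 - 1 / Real.pi := by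
    have : (1 : ℝ) / Real.pi ≤ 1 / 2 := one_div_le_one_div_of_le (by norm_num) (by linarith [Real.pi_gt_three])
    linarith
  have hn' : (60 : ℝ) ≤ n := by exact_mod_cast hn
  have h3 : (Dst n : ℝ) < (1 / 2 - 1 / Real.pi) * n + 1 := Nat.ceil_lt_add_one (by positivity)
  have h4 : (5 : ℝ) * Dst n < n + 1 := by
    have : (1 / 2 - 1 / Real.pi) * (n : ℝ) ≤ 0.1817 * n := mul_le_mul_of_nonneg_right h1 (by linarith)
    linarith
  have h5 : 5 * Dst n < n + 1 := by exact_mod_cast h4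
  omega

theorem high_le {L : ℂ → ℂ} {ρ pa pb τ η e σ ε κ : ℝ} (hG : Good L ρ pa pb τ η e σ ε)
    (hη : η ≤ 1 / 100) (hκ1 : κ ≤ e) (hκ2 : κ ≤ 1 / 8) {n : ℕ} (hn : 100 ≤ n) {v : ℕ}
    (hv : v ≤ Dst n) :
    |(Gn L n).coeff (n - v)| * (1 + Real.sqrt 2) ^ v ≤
      10 * (n + 1) ^ 2 * n.choose v * Real.sqrt 2 ^ n * Real.exp (-κ * n) := by
  have hD := N10_five (n := n) (by omega)
  obtain ⟨s, hs, h1, h2⟩ := N10_exp (n := n) (v := v) (by omega) (by omega)
  have hvn : v ≤ n := by omega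
  have hco := coeff_high hG (n := n) (by omega) (R := Real.exp s) (Real.one_le_exp hs.le) (n - v)
  set A : ℝ := (1 + Real.exp s ^ 2) ^ ((n : ℝ) / 2) with hA
  have hA0 : 0 < A := by positivity
  have hsq : Real.sqrt (1 + Real.exp s ^ 2) ^ n = A := by
    rw [hA, Real.sqrt_eq_rpow, ← Real.rpow_natCast, ← Real.rpow_mul (by positivity)]
    congr 1; ring
  have h3 : (4 * Real.exp s / Real.sqrt (2 + 2 * Real.exp s ^ 2) * Real.exp η) ^ n ≤
      Real.sqrt 2 ^ n * A * Real.exp (-κ * n) := by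
    have h4 : 4 * Real.exp s / Real.sqrt (2 + 2 * Real.exp s ^ 2) * Real.exp η ≤
        (Real.sqrt 2 * Real.sqrt (1 + Real.exp s ^ 2)) * Real.exp (-(1 / 8)) := by
      have h5 : (4 / 5 : ℝ) * Real.exp η ≤ Real.exp (-(1 / 8)) := by
        have a1 : (4 / 5 : ℝ) ≤ Real.exp (-(1 / 5)) := by
          have := Real.add_one_le_exp (-(1 / 5) : ℝ); linarith
        calc (4 / 5 : ℝ) * Real.exp η ≤ Real.exp (-(1 / 5)) * Real.exp η :=
              mul_le_mul_of_nonneg_right a1 (Real.exp_pos _).le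
          _ = Real.exp (-(1 / 5) + η) := (Real.exp_add _ _).symm
          _ ≤ Real.exp (-(1 / 8)) := Real.exp_le_exp.mpr (by linarith)
      calc 4 * Real.exp s / Real.sqrt (2 + 2 * Real.exp s ^ 2) * Real.exp η
          ≤ (Real.sqrt 2 * (4 / 5) * Real.sqrt (1 + Real.exp s ^ 2)) * Real.exp η :=
            mul_le_mul_of_nonneg_right h1 (Real.exp_pos _).le
        _ = (Real.sqrt 2 * Real.sqrt (1 + Real.exp s ^ 2)) * (4 / 5 * Real.exp η) := by ring
        _ ≤ _ := mul_le_mul_of_nonneg_left h5 (by positivity)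
    calc _ ≤ ((Real.sqrt 2 * Real.sqrt (1 + Real.exp s ^ 2)) * Real.exp (-(1 / 8))) ^ n :=
          pow_le_pow_left₀ (by positivity) h4 n
      _ = Real.sqrt 2 ^ n * A * Real.exp (n * (-(1 / 8))) := by
          rw [mul_pow, mul_pow, hsq, ← Real.exp_nat_mul]
      _ ≤ _ := by
          apply mul_le_mul_of_nonneg_left _ (by positivity)
          apply Real.exp_le_exp.mpr
          have : (0 : ℝ) ≤ n := Nat.cast_nonneg n
          nlinarith
  have h4 : 2 * ((n : ℝ) + 1) * (Real.exp (-e) * Real.sqrt (2 + 2 * Real.exp s ^ 2)) ^ n ≤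
      (2 * n + 2) * (Real.sqrt 2 ^ n * A * Real.exp (-κ * n)) := by
    have a0 : Real.sqrt (2 + 2 * Real.exp s ^ 2) = Real.sqrt 2 * Real.sqrt (1 + Real.exp s ^ 2) := by
      rw [← Real.sqrt_mul (by norm_num)]; congr 1; ring
    have a1 : (Real.exp (-e) * Real.sqrt (2 + 2 * Real.exp s ^ 2)) ^ n =
        Real.sqrt 2 ^ n * A * Real.exp (n * (-e)) := by
      rw [a0, mul_pow, mul_pow, hsq, ← Real.exp_nat_mul]; ring
    have a2 : Real.exp (n * (-e)) ≤ Real.exp (-κ * n) := by
      apply Real.exp_le_exp.mpr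
      have : (0 : ℝ) ≤ n := Nat.cast_nonneg n
      nlinarith
    rw [a1]
    calc 2 * ((n : ℝ) + 1) * (Real.sqrt 2 ^ n * A * Real.exp (n * (-e))) ≤
          2 * ((n : ℝ) + 1) * (Real.sqrt 2 ^ n * A * Real.exp (-κ * n)) := by gcongr
      _ = _ := by ring
  have hcoef : |(Gn L n).coeff (n - v)| ≤
      (2 * n + 3) * (Real.sqrt 2 ^ n * Real.exp (-κ * n)) * (Real.exp (-(s * (n - v : ℕ))) * A) := by
    have h5 : |(Gn L n).coeff (n - v)| * Real.exp s ^ (n - v) ≤
        (2 * n + 3) * (Real.sqrt 2 ^ n * A * Real.exp (-κ * n)) := by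
      calc _ ≤ _ := hco
        _ ≤ Real.sqrt 2 ^ n * A * Real.exp (-κ * n) +
          (2 * n + 2) * (Real.sqrt 2 ^ n * A * Real.exp (-κ * n)) := add_le_add h3 h4
        _ = _ := by ring
    have h6 : Real.exp s ^ (n - v) = Real.exp (s * (n - v : ℕ)) := by
      rw [← Real.exp_nat_mul]; congr 1; ring
    rw [h6] at h5
    have h7 : |(Gn L n).coeff (n - v)| = |(Gn L n).coeff (n - v)| * Real.exp (s * (n - v : ℕ)) *
        Real.exp (-(s * (n - v : ℕ))) := by
      rw [mul_assoc, ← Real.exp_add]; simp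
    rw [h7]
    calc _ ≤ (2 * n + 3) * (Real.sqrt 2 ^ n * A * Real.exp (-κ * n)) * Real.exp (-(s * (n - v : ℕ))) :=
          mul_le_mul_of_nonneg_right h5 (Real.exp_pos _).le
      _ = _ := by ring
  have hc : (0 : ℝ) < n.choose v := by exact_mod_cast Nat.choose_pos hvn
  have hk : (1 + Real.sqrt 2) ^ v * Real.exp (-(s * (n - v : ℕ))) * A ≤ 3 * (n + 1) * n.choose v := by
    have h8 : (1 + Real.sqrt 2) ^ v * Real.exp (-(s * (n - v : ℕ))) * A =
        ((1 + Real.sqrt 2) ^ v * ((n.choose v : ℝ))⁻¹ * Real.exp (-(s * (n - v : ℕ))) * A) *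
          n.choose v := by
      field_simp
    rw [h8]
    exact mul_le_mul_of_nonneg_right h2 hc.le
  calc |(Gn L n).coeff (n - v)| * (1 + Real.sqrt 2) ^ v
      ≤ ((2 * n + 3) * (Real.sqrt 2 ^ n * Real.exp (-κ * n)) * (Real.exp (-(s * (n - v : ℕ))) * A)) *
        (1 + Real.sqrt 2) ^ v := mul_le_mul_of_nonneg_right hcoef (by positivity)
    _ = (2 * n + 3) * (Real.sqrt 2 ^ n * Real.exp (-κ * n)) *
        ((1 + Real.sqrt 2) ^ v * Real.exp (-(s * (n - v : ℕ))) * A) := by ring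
    _ ≤ (2 * n + 3) * (Real.sqrt 2 ^ n * Real.exp (-κ * n)) * (3 * (n + 1) * n.choose v) :=
        mul_le_mul_of_nonneg_left hk (by positivity)
    _ = (3 * (2 * n + 3) * (n + 1)) * (n.choose v * Real.sqrt 2 ^ n * Real.exp (-κ * n)) := by ring
    _ ≤ (10 * (n + 1) ^ 2) * (n.choose v * Real.sqrt 2 ^ n * Real.exp (-κ * n)) := by
        apply mul_le_mul_of_nonneg_right _ (by positivity)
        have : (0 : ℝ) ≤ n := Nat.cast_nonneg n
        nlinarith
    _ = _ := by ring

end Pool.Agent.Lib.MP_0430e4_lc.BY
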