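import Pool.Agent.Lib.MP_0430e4_lc.BY.P.N02

/-!
# N11 (BEYOND block P): the B side, and `F(1)`

`bside_le` PROOF. For `k ≤ 7n/100`: `cf L n k ≥ 0` (`Good.low`), `Sk C k ≥ 0`, so the term is `≥ 0`. For
`7n/100 < k ≤ n/2`: the hypothesis `hB` (from HB at `x2 = 1/10`, since `gr (1/10) n ≤ 7n/100`) gives `x ∈ [1/10, 1)` with
`Sk C k ‖Es x‖^n ≤ M' x^k choose n k`; by `cf_bound` and `Good.bside`
`|c_k| x^k ≤ (‖Es x‖ e^(-e))^n`. Hence `|c_k| / choose n k * Sk ≤ |c_k| x^k M' / ‖Es x‖^n ≤ M' e^(-en)`.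
The term `k = 0` is kept apart (`Sk C 0 = |C|²`, `c_0 = 1`). The sum has at most `n + 1` terms.
`fd_zero_le`: `fd_zero`, `abs_cf_le`, `n/2 + 1 ≤ n + 1` terms.
-/

set_option autoImplicit false

open Finset Polynomial

namespace Pool.Agent.Lib.MP_0430e4_lc.BY

private theorem N11_cf_nonneg {L : ℂ → ℂ} {n k : ℕ}
    (h : 0 ≤ (iteratedDeriv k (fun z : ℂ => Complex.exp ((n : ℂ) * L z)) 0).re) : 0 ≤ cf L n k := by
  unfold cf
  exact div_nonneg h (Nat.cast_nonneg _)

theorem bside_le {L : ℂ → ℂ} {ρ pa pb τ η e σ ε : ℝ} (hG : Good L ρ pa pb τ η e σ ε) {n : ℕ}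
    (C : Finset (Wd n)) {M' : ℝ} (hM : 0 ≤ M')
    (hB : ∀ k : ℕ, 7 / 100 * (n : ℝ) < k → 2 * k ≤ n → ∃ x : ℝ, 1 / 10 ≤ x ∧ x < 1 ∧
      Sk C k * ‖Es (x : ℂ)‖ ^ n ≤ M' * x ^ k * n.choose k) :
    (C.card : ℝ) ^ 2 - (n + 1) * M' * Real.exp (-e * n) ≤
      ∑ k ∈ range (n / 2 + 1), cf L n k / n.choose k * Sk C k := by
  have hn0 : (0 : ℝ) ≤ n := Nat.cast_nonneg n
  set B : ℝ := M' * Real.exp (-e * n) with hBdef
  have hB0 : 0 ≤ B := mul_nonneg hM (Real.exp_pos _).le
  have hterm : ∀ k ∈ range (n / 2 + 1), k ≠ 0 → -B ≤ cf L n k / n.choose k * Sk C k := by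
    intro k hk hk0
    rw [mem_range] at hk
    have hkn : k ≤ n := by omega
    have hch : (0 : ℝ) < n.choose k := by exact_mod_cast Nat.choose_pos hkn
    rcases le_or_gt (k : ℝ) (7 / 100 * n) with hlow | hhigh
    · have h3 := N11_cf_nonneg (L := L) (n := n) (k := k) (hG.low n k hlow)
      have h4 := Sk_nonneg C k
      have : 0 ≤ cf L n k / n.choose k * Sk C k := by positivity
      linarith
    · obtain ⟨x, hx0, hx1, hx⟩ := hB k hhigh (by omega)
      have hxpos : 0 < x := by linarith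
      have hE : 0 < ‖Es (x : ℂ)‖ := by
        unfold Es
        exact norm_pos_iff.mpr (Complex.exp_ne_zero _)
      have h6 := cf_bound hG.diff n k (x := x) (B := (‖Es (x : ℂ)‖ * Real.exp (-e)) ^ n)
        hxpos hx1 (by
          intro z hz
          have h7 := hG.bside z (by rw [hz]; exact hx0) (by rw [hz]; exact hx1)
          rw [hz] at h7
          have h8 : ‖Complex.exp ((n : ℂ) * L z)‖ = Real.exp (L z).re ^ n := by
            rw [Complex.norm_exp, ← Real.exp_nat_mul]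
            congr 1
            rw [Complex.mul_re, Complex.natCast_re, Complex.natCast_im, zero_mul, sub_zero]
          rw [h8]
          exact pow_le_pow_left₀ (Real.exp_pos _).le h7 n)
      have h7 : (‖Es (x : ℂ)‖ * Real.exp (-e)) ^ n = ‖Es (x : ℂ)‖ ^ n * Real.exp (-e * n) := by
        rw [mul_pow, ← Real.exp_nat_mul]
        congr 2
        ring
      rw [h7] at h6
      have hxk : 0 < x ^ k := pow_pos hxpos k
      have hEn : 0 < ‖Es (x : ℂ)‖ ^ n := pow_pos hE n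
      have hS := Sk_nonneg C k
      have h8 : |cf L n k| * Sk C k * (‖Es (x : ℂ)‖ ^ n * x ^ k) ≤
          (B * n.choose k) * (‖Es (x : ℂ)‖ ^ n * x ^ k) := by
        calc |cf L n k| * Sk C k * (‖Es (x : ℂ)‖ ^ n * x ^ k)
            = (|cf L n k| * x ^ k) * (Sk C k * ‖Es (x : ℂ)‖ ^ n) := by ring
          _ ≤ (‖Es (x : ℂ)‖ ^ n * Real.exp (-e * n)) * (M' * x ^ k * n.choose k) :=
              mul_le_mul h6 hx (by positivity) (by positivity)
          _ = _ := by rw [hBdef]; ring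
      have h9 := le_of_mul_le_mul_right h8 (by positivity)
      have h10 : |cf L n k / n.choose k * Sk C k| ≤ B := by
        rw [abs_mul, abs_div, abs_of_pos hch, abs_of_nonneg hS, div_mul_eq_mul_div,
          div_le_iff₀ hch]
        exact h9
      exact (abs_le.mp h10).1
  rw [sum_range_succ', cf_zero hG.zero, Nat.choose_zero_right, Sk_zero]
  have hsum : -((n / 2 : ℕ) * B) ≤
      ∑ k ∈ range (n / 2), cf L n (k + 1) / n.choose (k + 1) * Sk C (k + 1) := by
    have h11 : ∀ k ∈ range (n / 2), -B ≤ cf L n (k + 1) / n.choose (k + 1) * Sk C (k + 1) := by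
      intro k hk
      rw [mem_range] at hk
      exact hterm (k + 1) (by rw [mem_range]; omega) (Nat.succ_ne_zero k)
    have h12 := sum_le_sum h11
    rw [sum_const, card_range, nsmul_eq_mul] at h12
    linarith
  have hfin : ((n / 2 : ℕ) : ℝ) * B ≤ (n + 1) * M' * Real.exp (-e * n) := by
    rw [mul_assoc]
    refine mul_le_mul_of_nonneg_right ?_ hB0
    have : ((n / 2 : ℕ) : ℝ) ≤ (n : ℝ) := by exact_mod_cast Nat.div_le_self n 2
    linarith
  simp only [Nat.cast_one, div_one, one_mul]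
  linarith

theorem fd_zero_le {L : ℂ → ℂ} {ρ pa pb τ η e σ ε : ℝ} (hG : Good L ρ pa pb τ η e σ ε) (n : ℕ) :
    |fd n (n / 2) (cf L n) 0| ≤ (n + 1) * Real.sqrt 2 ^ n * Real.exp (-e * n) := by
  rw [fd_zero (Nat.div_le_self n 2)]
  have h1 : (Real.sqrt 2 * Real.exp (-e)) ^ n = Real.sqrt 2 ^ n * Real.exp (-e * n) := by
    rw [mul_pow, ← Real.exp_nat_mul]
    congr 2
    ring
  refine (abs_sum_le_sum_abs _ _).trans ?_
  calc ∑ k ∈ range (n / 2 + 1), |cf L n k|
      ≤ ∑ _k ∈ range (n / 2 + 1), Real.sqrt 2 ^ n * Real.exp (-e * n) :=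
        sum_le_sum fun k _ => (abs_cf_le hG n k).trans h1.le
    _ = ((n / 2 + 1 : ℕ) : ℝ) * (Real.sqrt 2 ^ n * Real.exp (-e * n)) := by
        rw [sum_const, card_range, nsmul_eq_mul]
    _ ≤ ((n : ℝ) + 1) * (Real.sqrt 2 ^ n * Real.exp (-e * n)) := by
        refine mul_le_mul_of_nonneg_right ?_ (by positivity)
        have h : n / 2 + 1 ≤ n + 1 := by omega
        exact_mod_cast h
    _ = _ := by ring

end Pool.Agent.Lib.MP_0430e4_lc.BY
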