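import Pool.Agent.Lib.MP_0430e4_lc.BY.P.N06
import Pool.Agent.Lib.MP_0430e4_lc.BY.P.N07
import Pool.Agent.Lib.MP_0430e4_lc.BY.P.N08
import Pool.Agent.Lib.MP_0430e4_lc.BY.P.N09
import Pool.Agent.Lib.MP_0430e4_lc.BY.P.N10
import Pool.Agent.Lib.MP_0430e4_lc.BY.P.N11

/-!
# N12 (BEYOND block P): the A side, middle weights, for one code and one `n`

Notation: `D = Dst n`, `G = Gn L n`, `g_w = G.coeff w`, `nr w = nr G σ pa pb w`, `f_w = fd n (n/2) (cf L n) w`,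
`choose n w * f_w = g_w` (`choose_mul_fd`). For `D ≤ w ≤ n - D`
`f_w = (g_w - re (nr w)/π)/choose + re (nr w)/π * (1/choose - bin w) + re (nr w)/π * bin w`.
`mid_le`: the first two parts, summed over `D ≤ w ≤ n - D`, with `N_w ≤ M' choose n w` (`M' = |C| 2^((-1/2+ε')n)`):
 (i) `far_le`: `N_w/choose * |…| ≤ M' (2n+3) 2^n e^(-κn)`;
 (ii) `|w - n/2| ≤ ρ n`: `bout_le` (constant `c`, hypothesis `hc`) and `nr_crude`: `≤ M' (n+1) e^(-cn) · 2(2n+3) 2^n e^(2ηn)`;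
 (iii) otherwise `1/choose - bin ≤ 1/choose` (`bin_nonneg`) and `nr_off`: `≤ M' 20 (n+1) 2^n e^(-κn)`.
 (`1/π ≤ 1`.) At most `n+1` weights: total `≤ 50 (n+1)^3 M' 2^n e^(-κn)` when `κ ≤ c - 2η`.
`tail_le`: the third part, i.e. `∑_{D ≤ w ≤ n-D} N_w bin re(nr)/π = re(all w)/π - (w = 0) - (w > n-D)`, `N_w = 0` for `0 < w < D`
(`Nw_of_lt`): all `w`: `win_main`, hypothesis `hX`; `w = 0`: `N_0 = |C|`, `bin ≤ (n+1)(1/2+2ρ)^n`, `nr_crude`; `w = n - v`,
`v < D`: `N ≤ M'' (1+√2)^v ≤ M'' (1+√2)^D`, same bounds. Everything is stated with the plain product bounds.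
-/

set_option autoImplicit false

open Finset Polynomial

namespace Pool.Agent.Lib.MP_0430e4_lc.BY

private theorem N12_dst {n w : ℕ} (h : Dst n ≤ w) : (1 / 2 - 1 / Real.pi) * n ≤ w := by
  unfold Dst at h
  exact (Nat.le_ceil _).trans (by exact_mod_cast h)

private theorem N12_pi (x : ℝ) : |x / Real.pi| ≤ |x| := by
  rw [abs_div, abs_of_pos Real.pi_pos]
  exact div_le_self (abs_nonneg x) (by linarith [Real.pi_gt_three])

private theorem N12_fd {n w : ℕ} (L : ℂ → ℂ) (hw : w ≤ n) :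
    fd n (n / 2) (cf L n) w = (Gn L n).coeff w * ((n.choose w : ℝ))⁻¹ := by
  have h1 := choose_mul_fd (n := n) (m := n / 2) (Nat.div_le_self n 2) w (cf L n)
  have h2 : (n.choose w : ℝ) ≠ 0 := by
    exact_mod_cast (Nat.choose_pos hw).ne'
  have h3 : (Gn L n).coeff w = (n.choose w : ℝ) * fd n (n / 2) (cf L n) w := by
    unfold Gn
    exact h1.symm
  rw [h3]
  field_simp

theorem mid_le {L : ℂ → ℂ} {ρ pa pb τ η e σ ε κ c : ℝ} (hG : Good L ρ pa pb τ η e σ ε)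
    (hη : η ≤ ρ * τ / 4) (hκ1 : κ ≤ ρ * τ / 4) (hκ2 : κ ≤ ε / 4) (hκ3 : κ ≤ c - 2 * η) {n : ℕ}
    (hn : 2 ≤ n)
    (hc : ∀ w : ℕ, w ≤ n → (1 / 2 - ρ) * n ≤ w → (w : ℝ) ≤ (1 / 2 + ρ) * n →
      ((n.choose w : ℝ))⁻¹ - bin n ρ w ≤ (n + 1) * ((n.choose w : ℝ))⁻¹ * Real.exp (-c * n))
    (C : Finset (Wd n)) {M' : ℝ} (hM : 0 ≤ M')
    (hA : ∀ w : ℕ, Dst n ≤ w → w + Dst n ≤ n → (Nw C w : ℝ) ≤ M' * n.choose w) :
    ∑ w ∈ (range (n + 1)).filter (fun w => Dst n ≤ w ∧ w + Dst n ≤ n),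
      (Nw C w : ℝ) * |fd n (n / 2) (cf L n) w - bin n ρ w * (nr (Gn L n) σ pa pb w).re / Real.pi| ≤
      50 * (n + 1) ^ 3 * M' * 2 ^ n * Real.exp (-κ * n) := by
  have hn1 : (1 : ℝ) ≤ (n : ℝ) + 1 := by
    have : (0 : ℝ) ≤ n := Nat.cast_nonneg n
    linarith
  obtain ⟨E, hE⟩ : ∃ E : ℝ, E = 2 ^ n * Real.exp (-κ * n) := ⟨_, rfl⟩
  have hE0 : 0 ≤ E := by
    rw [hE]
    positivity
  have hterm : ∀ w ∈ (range (n + 1)).filter (fun w => Dst n ≤ w ∧ w + Dst n ≤ n),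
      (Nw C w : ℝ) * |fd n (n / 2) (cf L n) w - bin n ρ w * (nr (Gn L n) σ pa pb w).re / Real.pi| ≤
      50 * (n + 1) ^ 2 * M' * E := by
    intro w hw
    obtain ⟨_, hw1, hw2⟩ := mem_filter.mp hw
    have hwn : w ≤ n := by omega
    have hch : (0 : ℝ) < (n.choose w : ℝ) := by
      exact_mod_cast Nat.choose_pos hwn
    have hN0 : (0 : ℝ) ≤ (Nw C w : ℝ) := Nat.cast_nonneg _
    have hN := hA w hw1 hw2
    have hNc : (Nw C w : ℝ) * ((n.choose w : ℝ))⁻¹ ≤ M' := by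
      rw [← div_eq_mul_inv, div_le_iff₀ hch]
      exact hN
    have hb1 := bin_le_inv (n := n) (w := w) hG.hρ hG.hρ' hwn
    have hb0 := bin_nonneg (n := n) (w := w) hG.hρ hG.hρ'
    obtain ⟨r, hr⟩ : ∃ r : ℝ, r = (nr (Gn L n) σ pa pb w).re / Real.pi := ⟨_, rfl⟩
    obtain ⟨g, hg⟩ : ∃ g : ℝ, g = (Gn L n).coeff w := ⟨_, rfl⟩
    have hfar := far_le hG hκ2 hn w (N12_dst hw1)
    rw [← hr, ← hg] at hfar
    have hsplit : fd n (n / 2) (cf L n) w - bin n ρ w * (nr (Gn L n) σ pa pb w).re / Real.pi =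
        (g - r) * ((n.choose w : ℝ))⁻¹ + r * (((n.choose w : ℝ))⁻¹ - bin n ρ w) := by
      rw [N12_fd L hwn, hr, hg]
      ring
    have h1 : |fd n (n / 2) (cf L n) w - bin n ρ w * (nr (Gn L n) σ pa pb w).re / Real.pi| ≤
        |g - r| * ((n.choose w : ℝ))⁻¹ + |r| * (((n.choose w : ℝ))⁻¹ - bin n ρ w) := by
      rw [hsplit]
      refine (abs_add_le _ _).trans ?_
      rw [abs_mul, abs_mul, abs_of_pos (inv_pos.mpr hch), abs_of_nonneg (sub_nonneg.mpr hb1)]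
    have hrle : |r| ≤ ‖nr (Gn L n) σ pa pb w‖ := by
      rw [hr]
      exact (N12_pi _).trans (Complex.abs_re_le_norm _)
    have h2 : (Nw C w : ℝ) * (|g - r| * ((n.choose w : ℝ))⁻¹) ≤ (2 * n + 3) * M' * E := by
      have h3 : |g - r| ≤ (2 * n + 3) * E := by
        rw [hE]
        linarith
      calc (Nw C w : ℝ) * (|g - r| * ((n.choose w : ℝ))⁻¹)
          = ((Nw C w : ℝ) * ((n.choose w : ℝ))⁻¹) * |g - r| := by ring
        _ ≤ M' * ((2 * n + 3) * E) := mul_le_mul hNc h3 (abs_nonneg _) hM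
        _ = (2 * n + 3) * M' * E := by ring
    have h4 : (Nw C w : ℝ) * (|r| * (((n.choose w : ℝ))⁻¹ - bin n ρ w)) ≤
        20 * (n + 1) ^ 2 * M' * E := by
      by_cases hwin : (1 / 2 - ρ) * n ≤ w ∧ (w : ℝ) ≤ (1 / 2 + ρ) * n
      · have h5 := hc w hwn hwin.1 hwin.2
        have h6 := nr_crude hG hn w
        have h7 : Real.exp (-c * n) * Real.exp (2 * η * n) ≤ Real.exp (-κ * n) := by
          rw [← Real.exp_add]
          apply Real.exp_le_exp.mpr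
          have : (0 : ℝ) ≤ n := Nat.cast_nonneg n
          nlinarith
        have h8 : |r| * (((n.choose w : ℝ))⁻¹ - bin n ρ w) ≤
            (2 * (2 * n + 3) * 2 ^ n * Real.exp (2 * η * n)) *
              ((n + 1) * ((n.choose w : ℝ))⁻¹ * Real.exp (-c * n)) :=
          mul_le_mul (hrle.trans h6) h5 (sub_nonneg.mpr hb1) (by positivity)
        calc (Nw C w : ℝ) * (|r| * (((n.choose w : ℝ))⁻¹ - bin n ρ w))
            ≤ (Nw C w : ℝ) * ((2 * (2 * n + 3) * 2 ^ n * Real.exp (2 * η * n)) *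
              ((n + 1) * ((n.choose w : ℝ))⁻¹ * Real.exp (-c * n))) :=
              mul_le_mul_of_nonneg_left h8 hN0
          _ = ((Nw C w : ℝ) * ((n.choose w : ℝ))⁻¹) * ((2 * (2 * n + 3) * (n + 1)) * 2 ^ n) *
              (Real.exp (-c * n) * Real.exp (2 * η * n)) := by ring
          _ ≤ M' * ((2 * (2 * n + 3) * (n + 1)) * 2 ^ n) * Real.exp (-κ * n) :=
              mul_le_mul (mul_le_mul_of_nonneg_right hNc (by positivity)) h7 (by positivity)
                (by positivity)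
          _ = (2 * (2 * n + 3) * (n + 1)) * (M' * E) := by rw [hE]; ring
          _ ≤ (20 * (n + 1) ^ 2) * (M' * E) := by
              refine mul_le_mul_of_nonneg_right ?_ (mul_nonneg hM hE0)
              nlinarith
          _ = _ := by ring
      · have hoff : (w : ℝ) ≤ (1 / 2 - ρ) * n ∨ (1 / 2 + ρ) * n ≤ w := by
          by_cases h5 : (1 / 2 - ρ) * n ≤ w
          · right
            by_contra h6
            exact hwin ⟨h5, le_of_lt (not_le.mp h6)⟩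
          · left
            exact le_of_lt (not_le.mp h5)
        have h5 := nr_off hG hη hκ1 (by linarith [hG.hεe]) hn w hoff
        have h6 : |r| * (((n.choose w : ℝ))⁻¹ - bin n ρ w) ≤
            (20 * (n + 1) * 2 ^ n * Real.exp (-κ * n)) * ((n.choose w : ℝ))⁻¹ :=
          mul_le_mul (hrle.trans h5) (by linarith) (sub_nonneg.mpr hb1) (by positivity)
        calc (Nw C w : ℝ) * (|r| * (((n.choose w : ℝ))⁻¹ - bin n ρ w))
            ≤ (Nw C w : ℝ) * ((20 * (n + 1) * 2 ^ n * Real.exp (-κ * n)) * ((n.choose w : ℝ))⁻¹) :=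
              mul_le_mul_of_nonneg_left h6 hN0
          _ = ((Nw C w : ℝ) * ((n.choose w : ℝ))⁻¹) * (20 * (n + 1) * 2 ^ n * Real.exp (-κ * n)) := by
              ring
          _ ≤ M' * (20 * (n + 1) * 2 ^ n * Real.exp (-κ * n)) :=
              mul_le_mul_of_nonneg_right hNc (by positivity)
          _ = (20 * (n + 1)) * (M' * E) := by rw [hE]; ring
          _ ≤ (20 * (n + 1) ^ 2) * (M' * E) := by
              refine mul_le_mul_of_nonneg_right ?_ (mul_nonneg hM hE0)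
              nlinarith
          _ = _ := by ring
    have h9 : (2 * (n : ℝ) + 3) * (M' * E) ≤ 3 * (n + 1) ^ 2 * (M' * E) := by
      refine mul_le_mul_of_nonneg_right ?_ (mul_nonneg hM hE0)
      nlinarith
    calc (Nw C w : ℝ) * |fd n (n / 2) (cf L n) w - bin n ρ w * (nr (Gn L n) σ pa pb w).re / Real.pi|
        ≤ (Nw C w : ℝ) * (|g - r| * ((n.choose w : ℝ))⁻¹ + |r| * (((n.choose w : ℝ))⁻¹ - bin n ρ w)) :=
          mul_le_mul_of_nonneg_left h1 hN0
      _ = (Nw C w : ℝ) * (|g - r| * ((n.choose w : ℝ))⁻¹) +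
          (Nw C w : ℝ) * (|r| * (((n.choose w : ℝ))⁻¹ - bin n ρ w)) := by ring
      _ ≤ (2 * n + 3) * M' * E + 20 * (n + 1) ^ 2 * M' * E := add_le_add h2 h4
      _ ≤ 50 * (n + 1) ^ 2 * M' * E := by
          have h10 : 0 ≤ (n + 1 : ℝ) ^ 2 * (M' * E) := by positivity
          nlinarith
  refine (sum_le_card_nsmul _ _ _ hterm).trans ?_
  rw [nsmul_eq_mul]
  have hcard : (((range (n + 1)).filter (fun w => Dst n ≤ w ∧ w + Dst n ≤ n)).card : ℝ) ≤ n + 1 := by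
    have h1 := card_filter_le (range (n + 1)) (fun w => Dst n ≤ w ∧ w + Dst n ≤ n)
    rw [card_range] at h1
    exact_mod_cast h1
  calc (((range (n + 1)).filter (fun w => Dst n ≤ w ∧ w + Dst n ≤ n)).card : ℝ) *
        (50 * (n + 1) ^ 2 * M' * E) ≤ (n + 1) * (50 * (n + 1) ^ 2 * M' * E) :=
        mul_le_mul_of_nonneg_right hcard (by positivity)
    _ = 50 * (n + 1) ^ 3 * M' * 2 ^ n * Real.exp (-κ * n) := by rw [hE]; ring

theorem tail_le {L : ℂ → ℂ} {ρ pa pb τ η e σ ε : ℝ} (hG : Good L ρ pa pb τ η e σ ε) {n : ℕ}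
    (hn : 2 ≤ n) (C : Finset (Wd n)) (hC : IsCode (Dst n) C) {M'' X : ℝ} (hM : (C.card : ℝ) ≤ M'')
    (hX : ‖∑ w ∈ range (n + 1), (Nw C w : ℂ) * (bin n ρ w : ℂ) * nr (Gn L n) σ pa pb w‖ ≤ X)
    (hH : ∀ v : ℕ, v ≤ Dst n → (Nw C (n - v) : ℝ) ≤ M'' * (1 + Real.sqrt 2) ^ v) :
    |∑ w ∈ (range (n + 1)).filter (fun w => Dst n ≤ w ∧ w + Dst n ≤ n),
      (Nw C w : ℝ) * (bin n ρ w * (nr (Gn L n) σ pa pb w).re / Real.pi)| ≤
      X + (n + 1) * (M'' * (1 + Real.sqrt 2) ^ Dst n) *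
        ((n + 1) * (1 / 2 + 2 * ρ) ^ n * (2 * (2 * n + 3) * 2 ^ n * Real.exp (2 * η * n))) := by
  have hM0 : 0 ≤ M'' := le_trans (Nat.cast_nonneg _) hM
  have hX0 : 0 ≤ X := le_trans (norm_nonneg _) hX
  have hs2 : (1 : ℝ) ≤ 1 + Real.sqrt 2 := by
    have := Real.sqrt_nonneg 2
    linarith
  have hρ := hG.hρ
  obtain ⟨T, hT⟩ : ∃ T : ℝ, T = (M'' * (1 + Real.sqrt 2) ^ Dst n) *
        ((n + 1) * (1 / 2 + 2 * ρ) ^ n * (2 * (2 * n + 3) * 2 ^ n * Real.exp (2 * η * n))) := ⟨_, rfl⟩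
  obtain ⟨f, hf⟩ : ∃ f : ℕ → ℝ, f = fun w =>
      (Nw C w : ℝ) * (bin n ρ w * (nr (Gn L n) σ pa pb w).re / Real.pi) := ⟨_, rfl⟩
  have hT0 : 0 ≤ T := by
    rw [hT]
    positivity
  have hpow : 0 ≤ (1 + Real.sqrt 2) ^ Dst n := by positivity
  have hfull : |∑ w ∈ range (n + 1), f w| ≤ X := by
    have h1 : ∑ w ∈ range (n + 1), f w =
        (∑ w ∈ range (n + 1), (Nw C w : ℂ) * (bin n ρ w : ℂ) * nr (Gn L n) σ pa pb w).re / Real.pi := by
      rw [Complex.re_sum, sum_div, hf]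
      refine sum_congr rfl fun w _ => ?_
      have h2 : ((Nw C w : ℂ) * (bin n ρ w : ℂ) * nr (Gn L n) σ pa pb w).re =
          (Nw C w : ℝ) * bin n ρ w * (nr (Gn L n) σ pa pb w).re := by
        have h3 : (Nw C w : ℂ) * (bin n ρ w : ℂ) = (((Nw C w : ℝ) * bin n ρ w : ℝ) : ℂ) := by
          push_cast
          rfl
        rw [h3, Complex.re_ofReal_mul]
      rw [h2]
      ring
    rw [h1]
    exact (N12_pi _).trans ((Complex.abs_re_le_norm _).trans hX)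
  have hcomp : ∀ w ∈ (range (n + 1)).filter (fun w => ¬ (Dst n ≤ w ∧ w + Dst n ≤ n)), |f w| ≤ T := by
    intro w hw
    obtain ⟨hw0, hw1⟩ := mem_filter.mp hw
    have hwn : w ≤ n := by
      have := mem_range.mp hw0
      omega
    have hb0 := bin_nonneg (n := n) (w := w) hG.hρ hG.hρ'
    have hb1 := bin_le (n := n) (w := w) hG.hρ hG.hρ' hwn
    have hnr := nr_crude hG hn w
    have hN : (Nw C w : ℝ) ≤ M'' * (1 + Real.sqrt 2) ^ Dst n := by
      by_cases h1 : w < Dst n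
      · by_cases h0 : w = 0
        · rw [h0, Nw_zero]
          refine hM.trans ?_
          exact le_mul_of_one_le_right hM0 (one_le_pow₀ hs2)
        · rw [Nw_of_lt hC h0 h1, Nat.cast_zero]
          exact mul_nonneg hM0 hpow
      · have h2 : n < w + Dst n := by
          by_contra h3
          exact hw1 ⟨not_lt.mp h1, not_lt.mp h3⟩
        have h3 := hH (n - w) (by omega)
        have h4 : n - (n - w) = w := by omega
        rw [h4] at h3
        refine h3.trans (mul_le_mul_of_nonneg_left ?_ hM0)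
        exact pow_le_pow_right₀ hs2 (by omega)
    have h5 : |f w| = (Nw C w : ℝ) * (bin n ρ w * |(nr (Gn L n) σ pa pb w).re / Real.pi|) := by
      rw [hf]
      simp only
      rw [mul_div_assoc, abs_mul, abs_mul, abs_of_nonneg hb0, abs_of_nonneg (Nat.cast_nonneg _)]
    have h6 : |(nr (Gn L n) σ pa pb w).re / Real.pi| ≤ 2 * (2 * n + 3) * 2 ^ n * Real.exp (2 * η * n) :=
      (N12_pi _).trans ((Complex.abs_re_le_norm _).trans hnr)
    rw [h5, hT]
    refine mul_le_mul hN ?_ (mul_nonneg hb0 (abs_nonneg _)) (mul_nonneg hM0 hpow)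
    exact mul_le_mul hb1 h6 (abs_nonneg _) (by positivity)
  have hsplit : ∑ w ∈ (range (n + 1)).filter (fun w => Dst n ≤ w ∧ w + Dst n ≤ n), f w =
      ∑ w ∈ range (n + 1), f w -
        ∑ w ∈ (range (n + 1)).filter (fun w => ¬ (Dst n ≤ w ∧ w + Dst n ≤ n)), f w := by
    rw [← sum_filter_add_sum_filter_not (range (n + 1)) (fun w => Dst n ≤ w ∧ w + Dst n ≤ n) f]
    ring
  have hc2 : |∑ w ∈ (range (n + 1)).filter (fun w => ¬ (Dst n ≤ w ∧ w + Dst n ≤ n)), f w| ≤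
      (n + 1) * T := by
    refine (abs_sum_le_sum_abs _ _).trans ((sum_le_card_nsmul _ _ _ hcomp).trans ?_)
    rw [nsmul_eq_mul]
    have hcard : (((range (n + 1)).filter (fun w => ¬ (Dst n ≤ w ∧ w + Dst n ≤ n))).card : ℝ) ≤
        n + 1 := by
      have h1 := card_filter_le (range (n + 1)) (fun w => ¬ (Dst n ≤ w ∧ w + Dst n ≤ n))
      rw [card_range] at h1
      exact_mod_cast h1
    exact mul_le_mul_of_nonneg_right hcard hT0
  have hgoal : |∑ w ∈ (range (n + 1)).filter (fun w => Dst n ≤ w ∧ w + Dst n ≤ n), f w| ≤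
      X + (n + 1) * T := by
    rw [hsplit, sub_eq_add_neg]
    refine (abs_add_le _ _).trans ?_
    rw [abs_neg]
    exact add_le_add hfull hc2
  rw [hf, hT] at hgoal
  refine hgoal.trans (le_of_eq ?_)
  ring

end Pool.Agent.Lib.MP_0430e4_lc.BY
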