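import Pool.Agent.Lib.MP_0430e4_lc.BY.P.N12

/-!
# N13 (BEYOND block P): the whole inequality for one code and one `n`

PROOF. `pairing_fd` with `m = n/2`, `c = cf L n`: `∑_k c_k/choose * S_k = ∑_w N_w f_w`. Left side `≥ |C|² - (n+1) M1 e^(-en)`
(`bside_le`). Right side: `w = 0`: `N_0 f_0 = |C| f_0` (`Nw_zero`, `fd_zero_le`); `0 < w < D`: `0`; `D ≤ w ≤ n-D`: `mid_le`,
`tail_le` (with `win_main` and `G_arc` for `X`); `w = n - v`, `v < D`: `N_w |f_w| = N_w |g_w|/choose n v ≤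
M3 (1+√2)^v |g_(n-v)|/choose n v ≤ M3 · 10 (n+1)² √2^n e^(-κn)` (`high_le`), at most `n+1` weights.
(`D ≤ n - D` and the ranges cover `[0, n]`: if `w + D > n` write `w = n - v`.)
-/

set_option autoImplicit false

open Finset Polynomial

namespace Pool.Agent.Lib.MP_0430e4_lc.BY

private theorem N13_fd {n w : ℕ} (L : ℂ → ℂ) (hw : w ≤ n) :
    fd n (n / 2) (cf L n) w = (Gn L n).coeff w * ((n.choose w : ℝ))⁻¹ := by
  have h1 := choose_mul_fd (n := n) (m := n / 2) (Nat.div_le_self n 2) w (cf L n)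
  have h2 : (n.choose w : ℝ) ≠ 0 := by
    exact_mod_cast (Nat.choose_pos hw).ne'
  have h3 : (Gn L n).coeff w = (n.choose w : ℝ) * fd n (n / 2) (cf L n) w := by
    unfold Gn
    exact h1.symm
  rw [h3]
  field_simp

theorem one_n {L : ℂ → ℂ} {ρ pa pb τ η e σ ε κ c : ℝ} (hG : Good L ρ pa pb τ η e σ ε)
    (hη : η ≤ ρ * τ / 4) (hη' : η ≤ 1 / 100) (hκ0 : 0 < κ) (hκ1 : κ ≤ ρ * τ / 4) (hκ2 : κ ≤ ε / 4)
    (hκ3 : κ ≤ c - 2 * η) (hκ4 : κ ≤ 1 / 8) {n : ℕ} (hn : 100 ≤ n)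
    (hc : ∀ w : ℕ, w ≤ n → (1 / 2 - ρ) * n ≤ w → (w : ℝ) ≤ (1 / 2 + ρ) * n →
      ((n.choose w : ℝ))⁻¹ - bin n ρ w ≤ (n + 1) * ((n.choose w : ℝ))⁻¹ * Real.exp (-c * n))
    (C : Finset (Wd n)) (hC : IsCode (Dst n) C) {M1 M2 M3 B : ℝ} (hM1 : 0 ≤ M1) (hM2 : 0 ≤ M2)
    (hM3 : (C.card : ℝ) ≤ M3) (hB0 : 0 ≤ B)
    (hB : ∀ k : ℕ, 7 / 100 * (n : ℝ) < k → 2 * k ≤ n → ∃ x : ℝ, 1 / 10 ≤ x ∧ x < 1 ∧
      Sk C k * ‖Es (x : ℂ)‖ ^ n ≤ M1 * x ^ k * n.choose k)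
    (hA : ∀ w : ℕ, Dst n ≤ w → w + Dst n ≤ n → (Nw C w : ℝ) ≤ M2 * n.choose w)
    (hH : ∀ v : ℕ, v ≤ Dst n → (Nw C (n - v) : ℝ) ≤ M3 * (1 + Real.sqrt 2) ^ v)
    (hW : ∀ φ : ℝ, pa ≤ φ → φ ≤ pb → ∀ t : ℝ, |t - 1 / 2| ≤ 2 * ρ →
      (1 - t) ^ n * ‖∑ x ∈ C, ∑ y ∈ C, (((t / ((1 - t) * Real.exp σ) : ℝ) : ℂ) *
        Complex.exp (-((φ : ℂ) * Complex.I))) ^ wt (x - y)‖ ≤ B) :
    (C.card : ℝ) ^ 2 ≤ (n + 1) * M1 * Real.exp (-e * n)
      + C.card * ((n + 1) * Real.sqrt 2 ^ n * Real.exp (-e * n))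
      + 50 * (n + 1) ^ 3 * M2 * 2 ^ n * Real.exp (-κ * n)
      + (n + 1) * ((2 * n + 3) * 2 ^ n * Real.exp (2 * η * n)) * B
      + (n + 1) * (M3 * (1 + Real.sqrt 2) ^ Dst n) *
        ((n + 1) * (1 / 2 + 2 * ρ) ^ n * (2 * (2 * n + 3) * 2 ^ n * Real.exp (2 * η * n)))
      + (n + 1) * (M3 * (10 * (n + 1) ^ 2 * Real.sqrt 2 ^ n * Real.exp (-κ * n))) := by
  have hn2 : 2 ≤ n := by omega
  have hn0 : (0 : ℝ) ≤ n := Nat.cast_nonneg n
  have hM30 : 0 ≤ M3 := le_trans (Nat.cast_nonneg _) hM3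
  have hρ := hG.hρ
  have hs2 : (0 : ℝ) ≤ 1 + Real.sqrt 2 := by
    have := Real.sqrt_nonneg 2
    linarith
  have hκe : κ ≤ e := by
    have h1 := hG.hεe
    have h2 := hG.he
    have h3 := hG.hε
    linarith
  -- the constants
  obtain ⟨A, hAdef⟩ : ∃ A : ℝ, A = (2 * n + 3) * 2 ^ n * Real.exp (2 * η * n) := ⟨_, rfl⟩
  have hA0 : 0 ≤ A := by
    rw [hAdef]
    positivity
  have hmid := mid_le hG hη hκ1 hκ2 hκ3 hn2 hc C hM2 hA
  have hwin := win_main C (Gn L n) (σ := σ) (ρ := ρ) (pa := pa) (pb := pb) (A := A) (B := B) hG.hρ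
    hG.hρ' hG.hab.le hA0 hB0 (fun φ _ _ => by
      rw [hAdef]
      exact G_arc hG hn2 φ) hW
  have hX : ‖∑ w ∈ range (n + 1), (Nw C w : ℂ) * (bin n ρ w : ℂ) * nr (Gn L n) σ pa pb w‖ ≤
      (n + 1) * A * B := by
    refine hwin.trans ?_
    have h1 : 4 * ρ * (pb - pa) ≤ 1 := by
      have h2 := hG.hρ'
      have h3 := hG.hpa
      have h4 := hG.hpb
      have h5 := hG.hab
      have h6 : pb - pa ≤ 2 := by linarith [Real.pi_lt_four]
      nlinarith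
    have h7 : (0 : ℝ) ≤ (n + 1) * A * B := by positivity
    calc (n + 1) * (4 * ρ) * (pb - pa) * A * B = (4 * ρ * (pb - pa)) * ((n + 1) * A * B) := by ring
      _ ≤ 1 * ((n + 1) * A * B) := mul_le_mul_of_nonneg_right h1 h7
      _ = _ := one_mul _
  have htail := tail_le hG hn2 C hC hM3 hX hH
  have hb := bside_le hG C hM1 hB
  rw [pairing_fd C (n / 2) (cf L n)] at hb
  -- the complement
  obtain ⟨f, hf⟩ : ∃ f : ℕ → ℝ, f = fun w => (Nw C w : ℝ) * fd n (n / 2) (cf L n) w := ⟨_, rfl⟩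
  obtain ⟨T, hT⟩ : ∃ T : ℝ, T = M3 * (10 * (n + 1) ^ 2 * Real.sqrt 2 ^ n * Real.exp (-κ * n)) := ⟨_, rfl⟩
  have hT0 : 0 ≤ T := by
    rw [hT]
    positivity
  obtain ⟨Z, hZ⟩ : ∃ Z : ℝ, Z = C.card * ((n + 1) * Real.sqrt 2 ^ n * Real.exp (-e * n)) := ⟨_, rfl⟩
  have hZ0 : 0 ≤ Z := by
    rw [hZ]
    positivity
  have hcomp : ∀ w ∈ (range (n + 1)).filter (fun w => ¬ (Dst n ≤ w ∧ w + Dst n ≤ n)),
      f w ≤ (if w = 0 then Z else 0) + T := by
    intro w hw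
    obtain ⟨hw0, hw1⟩ := mem_filter.mp hw
    have hwn : w ≤ n := by
      have := mem_range.mp hw0
      omega
    by_cases h0 : w = 0
    · rw [if_pos h0, hf, h0]
      simp only
      rw [Nw_zero, hZ]
      have h1 := (le_abs_self _).trans (fd_zero_le hG n)
      have h2 := mul_le_mul_of_nonneg_left h1 (Nat.cast_nonneg (α := ℝ) C.card)
      linarith
    rw [if_neg h0, zero_add]
    by_cases h1 : w < Dst n
    · rw [hf]
      simp only
      rw [Nw_of_lt hC h0 h1, Nat.cast_zero, zero_mul]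
      exact hT0
    have h2 : n < w + Dst n := by
      by_contra h3
      exact hw1 ⟨not_lt.mp h1, not_lt.mp h3⟩
    obtain ⟨v, hv⟩ : ∃ v, v = n - w := ⟨_, rfl⟩
    have hvw : n - v = w := by omega
    have hvD : v ≤ Dst n := by omega
    have hvn : v ≤ n := by omega
    have h3 := hH v hvD
    have h4 := high_le hG hη' hκe hκ4 hn hvD
    rw [hvw] at h3 h4
    have hch : (0 : ℝ) < (n.choose w : ℝ) := by
      exact_mod_cast Nat.choose_pos hwn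
    have hcv : n.choose v = n.choose w := by
      rw [hv]
      exact Nat.choose_symm hwn
    rw [hcv] at h4
    rw [hf]
    simp only
    rw [N13_fd L hwn]
    have hg0 : 0 ≤ |(Gn L n).coeff w| := abs_nonneg _
    calc (Nw C w : ℝ) * ((Gn L n).coeff w * ((n.choose w : ℝ))⁻¹)
        ≤ (Nw C w : ℝ) * (|(Gn L n).coeff w| * ((n.choose w : ℝ))⁻¹) :=
          mul_le_mul_of_nonneg_left (mul_le_mul_of_nonneg_right (le_abs_self _) (inv_pos.mpr hch).le)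
            (Nat.cast_nonneg _)
      _ ≤ (M3 * (1 + Real.sqrt 2) ^ v) * (|(Gn L n).coeff w| * ((n.choose w : ℝ))⁻¹) :=
          mul_le_mul_of_nonneg_right h3 (mul_nonneg hg0 (inv_pos.mpr hch).le)
      _ = M3 * (|(Gn L n).coeff w| * (1 + Real.sqrt 2) ^ v) * ((n.choose w : ℝ))⁻¹ := by ring
      _ ≤ M3 * (10 * (n + 1) ^ 2 * n.choose w * Real.sqrt 2 ^ n * Real.exp (-κ * n)) *
          ((n.choose w : ℝ))⁻¹ :=
          mul_le_mul_of_nonneg_right (mul_le_mul_of_nonneg_left h4 hM30) (inv_pos.mpr hch).le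
      _ = T := by
          rw [hT]
          field_simp
  have hcomp2 : ∑ w ∈ (range (n + 1)).filter (fun w => ¬ (Dst n ≤ w ∧ w + Dst n ≤ n)), f w ≤
      Z + (n + 1) * T := by
    refine (sum_le_sum hcomp).trans ?_
    rw [sum_add_distrib]
    refine add_le_add ?_ ?_
    · rw [sum_ite_eq']
      split_ifs
      · exact le_rfl
      · exact hZ0
    · rw [sum_const, nsmul_eq_mul]
      have hcard : (((range (n + 1)).filter (fun w => ¬ (Dst n ≤ w ∧ w + Dst n ≤ n))).card : ℝ) ≤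
          n + 1 := by
        have h1 := card_filter_le (range (n + 1)) (fun w => ¬ (Dst n ≤ w ∧ w + Dst n ≤ n))
        rw [card_range] at h1
        exact_mod_cast h1
      exact mul_le_mul_of_nonneg_right hcard hT0
  have hmain : ∑ w ∈ (range (n + 1)).filter (fun w => Dst n ≤ w ∧ w + Dst n ≤ n), f w ≤
      50 * (n + 1) ^ 3 * M2 * 2 ^ n * Real.exp (-κ * n) + ((n + 1) * A * B +
        (n + 1) * (M3 * (1 + Real.sqrt 2) ^ Dst n) *
        ((n + 1) * (1 / 2 + 2 * ρ) ^ n * (2 * (2 * n + 3) * 2 ^ n * Real.exp (2 * η * n)))) := by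
    have h1 : ∀ w ∈ (range (n + 1)).filter (fun w => Dst n ≤ w ∧ w + Dst n ≤ n), f w ≤
        (Nw C w : ℝ) * |fd n (n / 2) (cf L n) w - bin n ρ w * (nr (Gn L n) σ pa pb w).re / Real.pi| +
        (Nw C w : ℝ) * (bin n ρ w * (nr (Gn L n) σ pa pb w).re / Real.pi) := by
      intro w _
      rw [hf]
      simp only
      rw [← mul_add]
      refine mul_le_mul_of_nonneg_left ?_ (Nat.cast_nonneg _)
      have := le_abs_self (fd n (n / 2) (cf L n) w -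
        bin n ρ w * (nr (Gn L n) σ pa pb w).re / Real.pi)
      linarith
    refine (sum_le_sum h1).trans ?_
    rw [sum_add_distrib]
    exact add_le_add hmid ((le_abs_self _).trans htail)
  have htot : ∑ w ∈ range (n + 1), (Nw C w : ℝ) * fd n (n / 2) (cf L n) w ≤
      (50 * (n + 1) ^ 3 * M2 * 2 ^ n * Real.exp (-κ * n) + ((n + 1) * A * B +
        (n + 1) * (M3 * (1 + Real.sqrt 2) ^ Dst n) *
        ((n + 1) * (1 / 2 + 2 * ρ) ^ n * (2 * (2 * n + 3) * 2 ^ n * Real.exp (2 * η * n))))) +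
        (Z + (n + 1) * T) := by
    have h1 := sum_filter_add_sum_filter_not (range (n + 1))
      (fun w => Dst n ≤ w ∧ w + Dst n ≤ n) f
    have h2 : ∑ w ∈ range (n + 1), (Nw C w : ℝ) * fd n (n / 2) (cf L n) w =
        ∑ w ∈ range (n + 1), f w := by rw [hf]
    rw [h2, ← h1]
    exact add_le_add hmain hcomp2
  rw [hAdef, hZ, hT] at htot
  linarith

end Pool.Agent.Lib.MP_0430e4_lc.BY
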