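import Pool.Agent.Lib.MP_0430e4_lc.BY.P.N13
import Pool.Agent.Lib.MP_0430e4_lc.BY.FromM2

/-!
# N14 (BEYOND block P): Theorem M

PROOF. Given `η₀ > 0` (the user's number). `ρ := min (η₀/2) (1/80)`, `ExistsGood` gives `pa pb τ`
(`π/2 - η₀ < π/2 - ρ < pa`). Given the margin `τ₀ > 0`: `c` from `bout_le`, `η := min (ρτ/4) (min (c/8) (min (τ₀/16) (1/400)))`,
`Good L … η e σ ε` from `ExistsGood`; `κ := min` of `ρτ/4, ε/4, c/2, 1/8, τ₀/8, 1/100`. Suppose `n ≥ n₀` and the hypothesis holds.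
`ε' := κ/8`. HA, HB (`x2 = 1/10`; `gr_tenth : 1/10 * (psi1 (1/10)).re ≤ 7/100` is in block E), HHigh with `ε'` give
`M1 = |C| 2^((1/2+ε')n)`, `M2 = |C| 2^((-1/2+ε')n)`, `M3 = |C| 2^(ε' n)`, `B = |C| 2^((-1/2-τ₀)n)` (`R = e^σ ∈ [1,2]`, `|t-1/2| ≤ 2ρ ≤ η₀`).
`one_n` and division by `|C| > 0`:
`|C| ≤ poly(n) 2^(n/2) · (2^(ε'n) e^(-en) + e^(-en) + 2^(ε'n) e^(-κn) + e^(2ηn) 2^(-τ₀ n) + 2^(ε'n) ((1+√2)^(Dst n)/2^(n/2)) (1+4ρ)^n e^(2ηn) + 2^(ε'n) e^(-κn))`.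
Fifth term: `(1+√2)^(Dst n) ≤ (1+√2) e^(.8814·.1817 n)`, `1/π ≥ .3183`; `(1+4ρ)^n ≤ e^(n/20)`; `e^(2ηn) ≤ e^(n/200)`;
`.1602 + .05 + .005 - (log 2)/2 (= .3465) ≤ -.13`. Fourth: `2η ≤ τ₀/8`, `τ₀ log 2 ≥ .69 τ₀`. So all are `≤ poly · 2^(n/2) e^(-κn/2)`
and `|C| ≤ 2^(n/2) e^(-κn/4) ≤ 2^((1/2 - κ/4) n)` for `n ≥ n₀`. Take `g = κ/4`.
(`poly(n) e^(-κn/4) ≤ 1` for large `n`: `tendsto_pow_mul_exp_neg_atTop_nhds_zero` style, or `pw_large` of Struct.)
-/

set_option autoImplicit false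

open Finset Polynomial

namespace Pool.Agent.Lib.MP_0430e4_lc.BY

private theorem N14_pw (n : ℕ) (x : ℝ) : pw n x = Real.exp (Real.log 2 * x * n) := by
  unfold pw
  rw [Real.rpow_def_of_pos (by norm_num)]
  congr 1
  ring

private theorem N14_sqrt (n : ℕ) : Real.sqrt 2 ^ n = pw n (1 / 2) := by
  unfold pw
  rw [Real.sqrt_eq_rpow, Real.rpow_mul (by norm_num), Real.rpow_natCast]

private theorem N14_poly {k : ℝ} (hk : 0 < k) : ∃ n1 : ℕ, ∀ n : ℕ, n1 ≤ n → 100 * ((n : ℝ) + 1) ^ 3 ≤ Real.exp (k * n) := by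
  obtain ⟨N, hN⟩ := exists_nat_ge (19200 / k ^ 4)
  refine ⟨max N 1, fun n hn => ?_⟩
  have h1 : (1 : ℝ) ≤ n := by exact_mod_cast (le_max_right N 1).trans hn
  have h2 : 19200 / k ^ 4 ≤ n := hN.trans (by exact_mod_cast (le_max_left N 1).trans hn)
  have h3 := Real.pow_div_factorial_le_exp (k * n) (by positivity) 4
  have h4 : (Nat.factorial 4 : ℝ) = 24 := by norm_num [Nat.factorial]
  rw [h4] at h3
  refine le_trans ?_ h3
  rw [le_div_iff₀ (by norm_num)]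
  have h5 : ((n : ℝ) + 1) ^ 3 ≤ 8 * (n : ℝ) ^ 3 := by
    have : ((n : ℝ) + 1) ^ 3 ≤ (2 * (n : ℝ)) ^ 3 := pow_le_pow_left₀ (by linarith) (by linarith) 3
    linarith [this, (by ring : (2 * (n : ℝ)) ^ 3 = 8 * (n : ℝ) ^ 3)]
  have h6 : 19200 ≤ n * k ^ 4 := by
    rwa [div_le_iff₀ (by positivity)] at h2
  have h7 : (0 : ℝ) ≤ (n : ℝ) ^ 3 := by positivity
  calc 100 * ((n : ℝ) + 1) ^ 3 * 24 ≤ 19200 * (n : ℝ) ^ 3 := by linarith
    _ ≤ (n * k ^ 4) * (n : ℝ) ^ 3 := mul_le_mul_of_nonneg_right h6 h7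
    _ = (k * n) ^ 4 := by ring

/-- the comparison of the six terms -/
private theorem N14_six {n : ℕ} {κ η τ₀ ρ e : ℝ} (D : ℕ) (hκ0 : 0 < κ) (hκe : κ ≤ e) (hκτ : κ ≤ τ₀ / 8) (hκ1 : κ ≤ 1 / 100)
    (hητ : η ≤ τ₀ / 16) (hη1 : η ≤ 1 / 400) (hρ0 : 0 < ρ) (hρ : ρ ≤ 1 / 80) (hD : (D : ℝ) ≤ 183 / 1000 * n + 1) :
    (n + 1) * pw n (1 / 2 + κ / 8) * Real.exp (-e * n) + (n + 1) * Real.sqrt 2 ^ n * Real.exp (-e * n)
      + 50 * (n + 1) ^ 3 * pw n (-(1 / 2) + κ / 8) * 2 ^ n * Real.exp (-κ * n)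
      + (n + 1) * ((2 * n + 3) * 2 ^ n * Real.exp (2 * η * n)) * pw n (-(1 / 2) - τ₀)
      + (n + 1) * (pw n (κ / 8) * (1 + Real.sqrt 2) ^ D) *
        ((n + 1) * (1 / 2 + 2 * ρ) ^ n * (2 * (2 * n + 3) * 2 ^ n * Real.exp (2 * η * n)))
      + (n + 1) * (pw n (κ / 8) * (10 * (n + 1) ^ 2 * Real.sqrt 2 ^ n * Real.exp (-κ * n))) ≤
      100 * ((n : ℝ) + 1) ^ 3 * (pw n (1 / 2) * Real.exp (-(κ / 2) * n)) := by
  have hn : (0 : ℝ) ≤ n := Nat.cast_nonneg n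
  have hl1 := Real.log_two_gt_d9
  have hl2 := Real.log_two_lt_d9
  set H := pw n (1 / 2) with hH
  have hH0 : 0 < H := pw_pos _ _
  have hX0 : 0 < H * Real.exp (-(κ / 2) * n) := mul_pos hH0 (Real.exp_pos _)
  set X := H * Real.exp (-(κ / 2) * n) with hX
  have hκn : 0 ≤ κ * n := by positivity
  have hs : Real.sqrt 2 ^ n = H := N14_sqrt n
  have h2 : (2 : ℝ) ^ n = H * H := by
    rw [hH, ← pw_add, ← pw_one]
    norm_num
  have hpk : pw n (κ / 8) ≤ Real.exp (κ / 8 * n) := by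
    rw [N14_pw]
    apply Real.exp_le_exp.2
    nlinarith
  have t1 : pw n (1 / 2 + κ / 8) * Real.exp (-e * n) ≤ X := by
    rw [pw_add, mul_assoc, hX]
    refine mul_le_mul_of_nonneg_left ?_ hH0.le
    refine (mul_le_mul_of_nonneg_right hpk (Real.exp_pos _).le).trans ?_
    rw [← Real.exp_add]
    apply Real.exp_le_exp.2
    nlinarith
  have t2 : Real.sqrt 2 ^ n * Real.exp (-e * n) ≤ X := by
    rw [hs, hX]
    refine mul_le_mul_of_nonneg_left (Real.exp_le_exp.2 ?_) hH0.le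
    nlinarith
  have t3 : pw n (-(1 / 2) + κ / 8) * 2 ^ n * Real.exp (-κ * n) ≤ X := by
    have h3 : pw n (-(1 / 2) + κ / 8) * 2 ^ n = H * pw n (κ / 8) := by
      rw [← pw_one, ← pw_add, hH, ← pw_add]
      congr 1
      ring
    rw [h3, mul_assoc, hX]
    refine mul_le_mul_of_nonneg_left ?_ hH0.le
    refine (mul_le_mul_of_nonneg_right hpk (Real.exp_pos _).le).trans ?_
    rw [← Real.exp_add]
    apply Real.exp_le_exp.2
    linarith
  have t4 : 2 ^ n * Real.exp (2 * η * n) * pw n (-(1 / 2) - τ₀) ≤ X := by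
    have h3 : 2 ^ n * Real.exp (2 * η * n) * pw n (-(1 / 2) - τ₀) = H * (pw n (-τ₀) * Real.exp (2 * η * n)) := by
      rw [mul_right_comm, ← pw_one, ← pw_add, ← mul_assoc, hH, ← pw_add]
      congr 2
      ring
    rw [h3, hX]
    refine mul_le_mul_of_nonneg_left ?_ hH0.le
    rw [N14_pw, ← Real.exp_add]
    apply Real.exp_le_exp.2
    have h4 : Real.log 2 * -τ₀ + 2 * η ≤ -(κ / 2) := by nlinarith
    nlinarith
  have t5 : pw n (κ / 8) * (1 + Real.sqrt 2) ^ D * ((1 / 2 + 2 * ρ) ^ n * (2 ^ n * Real.exp (2 * η * n))) ≤ 3 * X := by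
    have hs2 : Real.sqrt 2 ≤ 1.5 := by
      rw [Real.sqrt_le_left (by norm_num)]
      norm_num
    have he : (1 + Real.sqrt 2) ≤ Real.exp 1 := by linarith [Real.exp_one_gt_d9]
    have h3 : (1 + Real.sqrt 2) ^ D ≤ Real.exp (183 / 1000 * n + 1) := by
      calc (1 + Real.sqrt 2) ^ D ≤ (Real.exp 1) ^ D := pow_le_pow_left₀ (by positivity) he D
        _ = Real.exp D := by rw [← Real.exp_nat_mul, mul_one]
        _ ≤ _ := Real.exp_le_exp.2 hD
    have h4 : (1 / 2 + 2 * ρ) ^ n * 2 ^ n ≤ Real.exp (1 / 20 * n) := by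
      rw [← mul_pow]
      calc ((1 / 2 + 2 * ρ) * 2) ^ n ≤ (Real.exp (1 / 20)) ^ n := by
            refine pow_le_pow_left₀ (by positivity) ?_ n
            have := Real.add_one_le_exp (1 / 20 : ℝ)
            linarith
        _ = _ := by rw [← Real.exp_nat_mul, mul_comm]
    have h5 : Real.exp (2 * η * n) ≤ Real.exp (1 / 200 * n) := by
      apply Real.exp_le_exp.2
      nlinarith
    have h6 : Real.exp 1 ≤ 3 := by linarith [Real.exp_one_lt_d9]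
    calc pw n (κ / 8) * (1 + Real.sqrt 2) ^ D * ((1 / 2 + 2 * ρ) ^ n * (2 ^ n * Real.exp (2 * η * n)))
        = pw n (κ / 8) * (1 + Real.sqrt 2) ^ D * (((1 / 2 + 2 * ρ) ^ n * 2 ^ n) * Real.exp (2 * η * n)) := by ring
      _ ≤ Real.exp (κ / 8 * n) * Real.exp (183 / 1000 * n + 1) * (Real.exp (1 / 20 * n) * Real.exp (1 / 200 * n)) := by
          gcongr
      _ = Real.exp 1 * Real.exp (κ / 8 * n + 183 / 1000 * n + 1 / 20 * n + 1 / 200 * n) := by
          rw [← Real.exp_add, ← Real.exp_add, ← Real.exp_add, ← Real.exp_add]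
          congr 1
          ring
      _ ≤ 3 * X := by
          refine mul_le_mul h6 ?_ (Real.exp_pos _).le (by norm_num)
          rw [hX, hH, N14_pw, ← Real.exp_add]
          apply Real.exp_le_exp.2
          nlinarith
  have t6 : pw n (κ / 8) * (Real.sqrt 2 ^ n * Real.exp (-κ * n)) ≤ X := by
    rw [hs, hX, mul_left_comm]
    refine mul_le_mul_of_nonneg_left ?_ hH0.le
    refine (mul_le_mul_of_nonneg_right hpk (Real.exp_pos _).le).trans ?_
    rw [← Real.exp_add]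
    apply Real.exp_le_exp.2
    linarith
  set m : ℝ := (n : ℝ) + 1 with hm
  have hm1 : 1 ≤ m := by linarith
  have hm3 : 2 * (n : ℝ) + 3 ≤ 3 * m := by linarith
  have hm0 : (0 : ℝ) ≤ 2 * n + 3 := by linarith
  have hm2 : m ≤ m ^ 3 := by nlinarith [mul_nonneg (sub_nonneg.2 hm1) (sub_nonneg.2 hm1), sq_nonneg m]
  have hm4 : m ^ 2 ≤ m ^ 3 := by nlinarith [sq_nonneg m]
  have b1 : m * pw n (1 / 2 + κ / 8) * Real.exp (-e * n) ≤ m ^ 3 * X := by
    calc m * pw n (1 / 2 + κ / 8) * Real.exp (-e * n) = m * (pw n (1 / 2 + κ / 8) * Real.exp (-e * n)) := by ring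
      _ ≤ m ^ 3 * X := mul_le_mul hm2 t1 (by have := pw_pos n (1 / 2 + κ / 8); positivity) (by positivity)
  have b2 : m * Real.sqrt 2 ^ n * Real.exp (-e * n) ≤ m ^ 3 * X := by
    calc m * Real.sqrt 2 ^ n * Real.exp (-e * n) = m * (Real.sqrt 2 ^ n * Real.exp (-e * n)) := by ring
      _ ≤ m ^ 3 * X := mul_le_mul hm2 t2 (by positivity) (by positivity)
  have b3 : 50 * m ^ 3 * pw n (-(1 / 2) + κ / 8) * 2 ^ n * Real.exp (-κ * n) ≤ 50 * (m ^ 3 * X) := by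
    calc 50 * m ^ 3 * pw n (-(1 / 2) + κ / 8) * 2 ^ n * Real.exp (-κ * n) =
        (50 * m ^ 3) * (pw n (-(1 / 2) + κ / 8) * 2 ^ n * Real.exp (-κ * n)) := by ring
      _ ≤ (50 * m ^ 3) * X := mul_le_mul_of_nonneg_left t3 (by positivity)
      _ = _ := by ring
  have b4 : m * ((2 * n + 3) * 2 ^ n * Real.exp (2 * η * n)) * pw n (-(1 / 2) - τ₀) ≤ 3 * (m ^ 3 * X) := by
    have h3 : m * (2 * n + 3) ≤ 3 * m ^ 3 := by linarith
    calc m * ((2 * n + 3) * 2 ^ n * Real.exp (2 * η * n)) * pw n (-(1 / 2) - τ₀)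
        = (m * (2 * n + 3)) * (2 ^ n * Real.exp (2 * η * n) * pw n (-(1 / 2) - τ₀)) := by ring
      _ ≤ (3 * m ^ 3) * X := mul_le_mul h3 t4 (by have := pw_pos n (-(1 / 2) - τ₀); positivity) (by positivity)
      _ = _ := by ring
  have b5 : m * (pw n (κ / 8) * (1 + Real.sqrt 2) ^ D) *
        (m * (1 / 2 + 2 * ρ) ^ n * (2 * (2 * n + 3) * 2 ^ n * Real.exp (2 * η * n))) ≤ 18 * (m ^ 3 * X) := by
    have h3 : m * m * (2 * (2 * n + 3)) ≤ 6 * m ^ 3 := by linarith [mul_nonneg (by linarith : (0 : ℝ) ≤ m) (by linarith : (0 : ℝ) ≤ m)]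
    calc m * (pw n (κ / 8) * (1 + Real.sqrt 2) ^ D) *
          (m * (1 / 2 + 2 * ρ) ^ n * (2 * (2 * n + 3) * 2 ^ n * Real.exp (2 * η * n)))
        = (m * m * (2 * (2 * n + 3))) * (pw n (κ / 8) * (1 + Real.sqrt 2) ^ D * ((1 / 2 + 2 * ρ) ^ n * (2 ^ n * Real.exp (2 * η * n)))) := by ring
      _ ≤ (6 * m ^ 3) * (3 * X) := mul_le_mul h3 t5 (by have := pw_pos n (κ / 8); positivity) (by positivity)
      _ = _ := by ring
  have b6 : m * (pw n (κ / 8) * (10 * m ^ 2 * Real.sqrt 2 ^ n * Real.exp (-κ * n))) ≤ 10 * (m ^ 3 * X) := by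
    calc m * (pw n (κ / 8) * (10 * m ^ 2 * Real.sqrt 2 ^ n * Real.exp (-κ * n)))
        = (10 * m ^ 3) * (pw n (κ / 8) * (Real.sqrt 2 ^ n * Real.exp (-κ * n))) := by ring
      _ ≤ (10 * m ^ 3) * X := mul_le_mul_of_nonneg_left t6 (by positivity)
      _ = _ := by ring
  have hmX : 0 ≤ m ^ 3 * X := by positivity
  refine (add_le_add (add_le_add (add_le_add (add_le_add (add_le_add b1 b2) b3) b4) b5) b6).trans ?_
  rw [mul_assoc 100 (m ^ 3) X]
  clear b1 b2 b3 b4 b5 b6 t1 t2 t3 t4 t5 t6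
  generalize m ^ 3 * X = Y at hmX ⊢
  linarith

theorem thmM (hE : ExistsGood) (hA : HA) (hB : HB) (hH : HHigh)
    (hgr : 1 / 10 * (psi1 ((1 / 10 : ℝ) : ℂ)).re ≤ 7 / 100) :
    ThmM fun n => ⌈(1 / 2 - 1 / Real.pi) * n⌉₊ := by
  intro η₀ hη₀
  set ρ : ℝ := min (η₀ / 2) (1 / 80) with hρdef
  have hρ0 : 0 < ρ := lt_min (by positivity) (by norm_num)
  have hρ1 : ρ ≤ η₀ / 2 := min_le_left _ _
  have hρ2 : ρ ≤ 1 / 80 := min_le_right _ _
  obtain ⟨pa, pb, τ, hpa, hab, hpb, hτ0, hτρ, hgood⟩ := hE ρ hρ0 hρ2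
  refine ⟨pa, pb, by linarith, hab, hpb, fun τ₀ hτ₀ => ?_⟩
  obtain ⟨c, hc0, hc⟩ := bout_le hρ0 hρ2
  set η : ℝ := min (ρ * τ / 4) (min (c / 8) (min (τ₀ / 16) (1 / 400))) with hηdef
  have hρτ : 0 < ρ * τ := mul_pos hρ0 hτ0
  have hη0 : 0 < η := lt_min (by positivity) (lt_min (by positivity) (lt_min (by positivity) (by norm_num)))
  have hη1 : η ≤ ρ * τ / 4 := min_le_left _ _
  have hη2 : η ≤ c / 8 := (min_le_right _ _).trans (min_le_left _ _)
  have hη3 : η ≤ τ₀ / 16 := (min_le_right _ _).trans ((min_le_right _ _).trans (min_le_left _ _))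
  have hη4 : η ≤ 1 / 400 := (min_le_right _ _).trans ((min_le_right _ _).trans (min_le_right _ _))
  obtain ⟨L, e, σ, ε, hG⟩ := hgood η hη0
  have hε0 := hG.hε
  have hεe := hG.hεe
  set κ : ℝ := min (ρ * τ / 4) (min (ε / 4) (min (c / 2) (min (1 / 100) (τ₀ / 8)))) with hκdef
  have hκ0 : 0 < κ := lt_min (by positivity) (lt_min (by positivity) (lt_min (by positivity) (lt_min (by norm_num) (by positivity))))
  have hκ1 : κ ≤ ρ * τ / 4 := min_le_left _ _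
  have hκ2 : κ ≤ ε / 4 := (min_le_right _ _).trans (min_le_left _ _)
  have hκ3 : κ ≤ c / 2 := (min_le_right _ _).trans ((min_le_right _ _).trans (min_le_left _ _))
  have hκ4 : κ ≤ 1 / 100 := (min_le_right _ _).trans ((min_le_right _ _).trans ((min_le_right _ _).trans (min_le_left _ _)))
  have hκ5 : κ ≤ τ₀ / 8 := (min_le_right _ _).trans ((min_le_right _ _).trans ((min_le_right _ _).trans (min_le_right _ _)))
  obtain ⟨nA, hnA⟩ := hA (κ / 8) (by positivity)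
  obtain ⟨nB, hnB⟩ := hB (κ / 8) (by positivity) (1 / 10) (by norm_num) (by norm_num)
  obtain ⟨nH, hnH⟩ := hH (κ / 8) (by positivity)
  obtain ⟨nP, hnP⟩ := N14_poly (show 0 < κ / 4 by positivity)
  refine ⟨κ / 4, by positivity, max nA (max nB (max nH (max nP 100))), fun n hn C hCne hC hW => ?_⟩
  have hn1 : nA ≤ n := (le_max_left _ _).trans hn
  have hn2 : nB ≤ n := (le_max_left _ _).trans ((le_max_right _ _).trans hn)
  have hn3 : nH ≤ n := (le_max_left _ _).trans ((le_max_right _ _).trans ((le_max_right _ _).trans hn))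
  have hn4 : nP ≤ n := (le_max_left _ _).trans ((le_max_right _ _).trans ((le_max_right _ _).trans ((le_max_right _ _).trans hn)))
  have hn5 : 100 ≤ n := (le_max_right _ _).trans ((le_max_right _ _).trans ((le_max_right _ _).trans ((le_max_right _ _).trans hn)))
  have hn0 : (0 : ℝ) < n := by exact_mod_cast (by omega : 0 < n)
  have hC' : IsCode (Dst n) C := hC
  have hM : (0 : ℝ) < C.card := by exact_mod_cast card_pos.2 hCne
  have hpk : 1 ≤ pw n (κ / 8) := by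
    rw [← pw_zero n]
    exact pw_mono n (by positivity)
  have h1 := one_n hG hη1 (by linarith) hκ0 hκ1 hκ2 (by linarith) (by linarith) hn5
    (fun w hw h2 h3 => hc n w hw h2 h3) C hC'
    (M1 := C.card * pw n (1 / 2 + κ / 8)) (M2 := C.card * pw n (-(1 / 2) + κ / 8)) (M3 := C.card * pw n (κ / 8))
    (B := C.card * pw n (-(1 / 2) - τ₀))
    (mul_nonneg hM.le (pw_pos _ _).le) (mul_nonneg hM.le (pw_pos _ _).le) (le_mul_of_one_le_right hM.le hpk)
    (mul_nonneg hM.le (pw_pos _ _).le)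
    (by
      intro k hk1 hk2
      refine hnB n hn2 C hC' k ?_ hk2
      have h3 := mul_le_mul_of_nonneg_right hgr hn0.le
      exact h3.trans hk1.le)
    (hnA n hn1 C hC')
    (hnH n hn3 C hC')
    (by
      intro φ h2 h3 t ht
      refine hW φ h2 h3 t (ht.trans (by linarith)) (Real.exp σ) ?_ ?_
      · exact Real.one_le_exp hG.hσ.le
      · have h4 : σ ≤ 1 / 400 := hG.hση.trans hη4
        have h5 : Real.exp σ ≤ Real.exp (Real.log 2) := Real.exp_le_exp.2 (by linarith [Real.log_two_gt_d9])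
        rwa [Real.exp_log (by norm_num)] at h5)
  have hD : ((Dst n : ℕ) : ℝ) ≤ 183 / 1000 * n + 1 := by
    unfold Dst
    have h2 : 0 ≤ (1 / 2 - 1 / Real.pi) * (n : ℝ) := by
      refine mul_nonneg ?_ hn0.le
      have h3 : 1 / Real.pi ≤ 1 / 2 := one_div_le_one_div_of_le (by norm_num) (by linarith [Real.pi_gt_three])
      linarith
    refine (Nat.ceil_lt_add_one h2).le.trans ?_
    have h3 : 1 / 2 - 1 / Real.pi ≤ 183 / 1000 := by
      have h4 : 1 / (3.15 : ℝ) ≤ 1 / Real.pi := one_div_le_one_div_of_le Real.pi_pos (by linarith [Real.pi_lt_d2])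
      have h5 : (317 / 1000 : ℝ) ≤ 1 / 3.15 := by norm_num
      linarith
    linarith [mul_le_mul_of_nonneg_right h3 hn0.le]
  have h2 := N14_six (n := n) (κ := κ) (η := η) (τ₀ := τ₀) (ρ := ρ) (e := e) (Dst n) hκ0 (by linarith) hκ5 hκ4 hη3 hη4 hρ0 hρ2 hD
  have h3 : (C.card : ℝ) * C.card ≤ C.card * (100 * ((n : ℝ) + 1) ^ 3 * (pw n (1 / 2) * Real.exp (-(κ / 2) * n))) := by
    rw [← pow_two]
    refine h1.trans (le_trans (le_of_eq ?_) (mul_le_mul_of_nonneg_left h2 hM.le))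
    ring
  have h4 := le_of_mul_le_mul_left h3 hM
  refine h4.trans ?_
  have h5 := hnP n hn4
  have h6 : pw n (1 / 2 - κ / 4) = pw n (1 / 2) * pw n (-(κ / 4)) := by
    rw [← pw_add]
    congr 1
  rw [h6]
  calc 100 * ((n : ℝ) + 1) ^ 3 * (pw n (1 / 2) * Real.exp (-(κ / 2) * n))
      ≤ Real.exp (κ / 4 * n) * (pw n (1 / 2) * Real.exp (-(κ / 2) * n)) :=
        mul_le_mul_of_nonneg_right h5 (mul_nonneg (pw_pos _ _).le (Real.exp_pos _).le)
    _ = pw n (1 / 2) * Real.exp (-(κ / 4) * n) := by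
        rw [mul_left_comm, ← Real.exp_add]
        congr 2
        ring
    _ ≤ pw n (1 / 2) * pw n (-(κ / 4)) := by
        refine mul_le_mul_of_nonneg_left ?_ (pw_pos _ _).le
        rw [N14_pw]
        apply Real.exp_le_exp.2
        have h7 := Real.log_two_lt_d9
        have h8 : 0 < κ * n := mul_pos hκ0 hn0
        nlinarith

end Pool.Agent.Lib.MP_0430e4_lc.BY
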