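import Pool.Agent.Lib.MP_0430e4_lc.BY.P.N1
import Pool.Agent.Lib.MP_0430e4_lc.BY.E

/-!
# N2: the B side of the pairing (BEYOND, block P; helper88)

The term `k = 0` is `|C|^2`, the terms `1 ≤ k ≤ 7n/100` are `≥ 0` (`Good.low`), the others are
exponentially small by (HB) with `x2 = 1/10` and `Good.bside`.
-/

set_option autoImplicit false

namespace Pool.Agent.Lib.MP_0430e4_lc.BY

open Finset Metric

/-- `(n + 1) ≤ exp (c n)` for large `n` -/
theorem n2_lin {c : ℝ} (hc : 0 < c) : ∃ n0 : ℕ, ∀ n ≥ n0, (n : ℝ) + 1 ≤ Real.exp (c * n) := by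
  obtain ⟨m, hm⟩ := exists_nat_ge (max 1 (4 / c ^ 2))
  refine ⟨m, fun n hn => ?_⟩
  have h1 : max 1 (4 / c ^ 2) ≤ (n : ℝ) := hm.trans (by exact_mod_cast hn)
  have h2 : (1 : ℝ) ≤ n := (le_max_left _ _).trans h1
  have h3 : 4 / c ^ 2 ≤ (n : ℝ) := (le_max_right _ _).trans h1
  rw [div_le_iff₀ (by positivity)] at h3
  have h4 := Real.quadratic_le_exp_of_nonneg (x := c * n) (by positivity)
  nlinarith

theorem bside_sum {L : ℂ → ℂ} {ρ pa pb τ η e σ ε : ℝ} (hG : Good L ρ pa pb τ η e σ ε) (hB : HB) :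
    ∃ n0 : ℕ, ∀ n ≥ n0, ∀ C : Finset (Wd n), IsCode (Dst n) C →
      (C.card : ℝ) ^ 2 - C.card * pw n (1 / 2) * Real.exp (-(e / 2 * n)) ≤
        ∑ k ∈ range (n / 2 + 1), cf L n k / n.choose k * Sk C k := by
  have he := hG.he
  obtain ⟨n1, h1⟩ := hB (e / 4) (by positivity) (1 / 10) (by norm_num) (by norm_num)
  obtain ⟨n2, h2⟩ := n2_lin (c := e / 4) (by positivity)
  refine ⟨max n1 n2, fun n hn C hC => ?_⟩
  have hn1 : n1 ≤ n := (le_max_left _ _).trans hn
  have hn2 : n2 ≤ n := (le_max_right _ _).trans hn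
  have hlin := h2 n hn2
  have hn0 : (0 : ℝ) ≤ n := Nat.cast_nonneg n
  set B : ℝ := C.card * pw n (1 / 2 + e / 4) * Real.exp (-(e * n)) with hBdef
  have hC0 : (0 : ℝ) ≤ C.card := Nat.cast_nonneg _
  have hpw : 0 < pw n (1 / 2 + e / 4) := pw_pos n _
  have hB0 : 0 ≤ B := by positivity
  have hterm : ∀ k ∈ range (n / 2 + 1), k ≠ 0 → -B ≤ cf L n k / n.choose k * Sk C k := by
    intro k hk hk0
    rw [mem_range] at hk
    have hkn : k ≤ n := by omega
    have hch : (0 : ℝ) < n.choose k := by exact_mod_cast Nat.choose_pos hkn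
    rcases le_or_gt (k : ℝ) (7 / 100 * n) with hlow | hhigh
    · have h3 := cf_nonneg (L := L) (n := n) (k := k) (hG.low n k hlow)
      have h4 := Sk_nonneg C k
      have : 0 ≤ cf L n k / n.choose k * Sk C k := by positivity
      linarith
    · have hgr : (1 / 10 : ℝ) * (psi1 ((1 / 10 : ℝ) : ℂ)).re * n ≤ k := by
        have h5 := gr_tenth
        unfold gr at h5
        have := mul_le_mul_of_nonneg_right h5 hn0
        linarith
      obtain ⟨x, hx0, hx1, hx⟩ := h1 n hn1 C hC k hgr (by omega)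
      have hxpos : 0 < x := by linarith
      have hE : 0 < ‖Es (x : ℂ)‖ := by
        unfold Es
        exact norm_pos_iff.mpr (Complex.exp_ne_zero _)
      have h6 := cf_le_of hG.diff n k (x := x) (b := Real.log (‖Es (x : ℂ)‖ * Real.exp (-e)))
        hxpos hx1 (by
          intro z hz
          rw [Real.le_log_iff_exp_le (by positivity), ← hz]
          exact hG.bside z (by rw [hz]; exact hx0) (by rw [hz]; exact hx1))
      have h7 : Real.exp (n * Real.log (‖Es (x : ℂ)‖ * Real.exp (-e))) =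
          ‖Es (x : ℂ)‖ ^ n * Real.exp (-(e * n)) := by
        rw [← Real.log_pow, Real.exp_log (by positivity), mul_pow, ← Real.exp_nat_mul]
        congr 2
        ring
      rw [h7] at h6
      have hxk : 0 < x ^ k := pow_pos hxpos k
      have hEn : 0 < ‖Es (x : ℂ)‖ ^ n := pow_pos hE n
      have hS := Sk_nonneg C k
      have h8 : |cf L n k| * Sk C k * (‖Es (x : ℂ)‖ ^ n * x ^ k) ≤
          (B * n.choose k) * (‖Es (x : ℂ)‖ ^ n * x ^ k) := by
        calc |cf L n k| * Sk C k * (‖Es (x : ℂ)‖ ^ n * x ^ k)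
            = (|cf L n k| * x ^ k) * (Sk C k * ‖Es (x : ℂ)‖ ^ n) := by ring
          _ ≤ (‖Es (x : ℂ)‖ ^ n * Real.exp (-(e * n))) *
              (C.card * pw n (1 / 2 + e / 4) * x ^ k * n.choose k) :=
              mul_le_mul h6 hx (by positivity) (by positivity)
          _ = _ := by rw [hBdef]; ring
      have h9 := le_of_mul_le_mul_right h8 (by positivity)
      have h10 : |cf L n k / n.choose k * Sk C k| ≤ B := by
        rw [abs_mul, abs_div, abs_of_pos hch, abs_of_nonneg hS, div_mul_eq_mul_div,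
          div_le_iff₀ hch]
        exact h9
      exact (abs_le.mp h10).1
  rw [sum_range_succ', cf_zero hG.zero, Nat.choose_zero_right, Sk_zero]
  have hsum : -((n / 2 : ℕ) * B) ≤
      ∑ k ∈ range (n / 2), cf L n (k + 1) / n.choose (k + 1) * Sk C (k + 1) := by
    have h11 : ∀ k ∈ range (n / 2), -B ≤ cf L n (k + 1) / n.choose (k + 1) * Sk C (k + 1) := by
      intro k hk
      rw [mem_range] at hk
      exact hterm (k + 1) (by rw [mem_range]; omega) (Nat.succ_ne_zero k)
    have h12 := sum_le_sum h11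
    rw [sum_const, card_range, nsmul_eq_mul] at h12
    linarith
  have hfin : ((n / 2 : ℕ) : ℝ) * B ≤ C.card * pw n (1 / 2) * Real.exp (-(e / 2 * n)) := by
    have h13 : ((n / 2 : ℕ) : ℝ) ≤ Real.exp (e / 4 * n) := by
      have : ((n / 2 : ℕ) : ℝ) ≤ (n : ℝ) := by exact_mod_cast Nat.div_le_self n 2
      linarith
    have h14 : pw n (1 / 2 + e / 4) ≤ pw n (1 / 2) * Real.exp (e / 4 * n) := by
      rw [pw_add]
      apply mul_le_mul_of_nonneg_left _ (pw_pos n _).le
      unfold pw
      rw [Real.rpow_def_of_pos (by norm_num)]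
      apply Real.exp_le_exp.mpr
      have h15 : Real.log 2 ≤ 1 := by
        have := Real.log_two_lt_d9
        linarith
      have h16 : 0 ≤ e / 4 * n := by positivity
      nlinarith
    calc ((n / 2 : ℕ) : ℝ) * B
        ≤ Real.exp (e / 4 * n) * (C.card * (pw n (1 / 2) * Real.exp (e / 4 * n)) *
            Real.exp (-(e * n))) := by
          rw [hBdef]
          apply mul_le_mul h13 _ (by positivity) (Real.exp_pos _).le
          apply mul_le_mul_of_nonneg_right _ (Real.exp_pos _).le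
          exact mul_le_mul_of_nonneg_left h14 hC0
      _ = C.card * pw n (1 / 2) * (Real.exp (e / 4 * n) * Real.exp (e / 4 * n) *
            Real.exp (-(e * n))) := by ring
      _ = _ := by
          rw [← Real.exp_add, ← Real.exp_add]
          congr 2
          ring
  simp only [Nat.cast_one, div_one, one_mul]
  linarith

end Pool.Agent.Lib.MP_0430e4_lc.BY
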