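import Pool.Agent.Lib.MP_0430e4_lc.BY.P.N1

/-!
# N3: pointwise bounds of the polynomial `Gn` in the regions of `Good` (BEYOND, block P; helper88)

`u = up s φ = exp (s + i φ)`.  `2nd n s e = 2 (n+1) 2^n exp (n (s/2 + s^2/4 - e))` is the contribution
of the cut.
-/

set_option autoImplicit false

namespace Pool.Agent.Lib.MP_0430e4_lc.BY

open Finset Metric

/-- contribution of the cut on the circle `|u| = e^s` -/
noncomputable def cut (n : ℕ) (s e : ℝ) : ℝ :=
  2 * ((n : ℝ) + 1) * 2 ^ n * Real.exp (n * (s / 2 + s ^ 2 / 4 - e))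

theorem cut_nonneg (n : ℕ) (s e : ℝ) : 0 ≤ cut n s e := by
  unfold cut; positivity

theorem norm_up (s φ : ℝ) : ‖up s φ‖ = Real.exp s := by
  unfold up
  rw [Complex.norm_exp]
  congr 1
  simp

theorem up_ne_zero (s φ : ℝ) : up s φ ≠ 0 := Complex.exp_ne_zero _

theorem up_neg (s φ : ℝ) : up s (-φ) = starRingEnd ℂ (up s φ) := by
  unfold up
  rw [← Complex.exp_conj]
  congr 1
  simp

/-- `G` is a real polynomial -/
theorem Gn_conj (L : ℂ → ℂ) (n : ℕ) (u : ℂ) :
    (Gn L n).aeval (starRingEnd ℂ u) = starRingEnd ℂ ((Gn L n).aeval u) := by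
  rw [Polynomial.aeval_conj]

theorem norm_Gn_neg (L : ℂ → ℂ) (n : ℕ) (s φ : ℝ) :
    ‖(Gn L n).aeval (up s (-φ))‖ = ‖(Gn L n).aeval (up s φ)‖ := by
  rw [up_neg, Gn_conj, Complex.norm_conj]

/-- `1 + e^(2s) ≤ 2 e^(s + s^2/2)` -/
theorem one_add_exp_two (s : ℝ) : 1 + Real.exp s ^ 2 ≤ 2 * Real.exp (s + s ^ 2 / 2) := by
  have h1 := Real.cosh_le_exp_half_sq s
  rw [Real.cosh_eq] at h1
  have h2 : 1 + Real.exp s ^ 2 = Real.exp s * (Real.exp s + Real.exp (-s)) := by
    rw [mul_add, ← Real.exp_add s (-s), add_neg_cancel, Real.exp_zero]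
    ring
  rw [h2, Real.exp_add]
  have h3 : Real.exp s + Real.exp (-s) ≤ 2 * Real.exp (s ^ 2 / 2) := by linarith
  have h4 := mul_le_mul_of_nonneg_left h3 (Real.exp_pos s).le
  linarith

theorem norm_one_sub_sq_le (s φ : ℝ) : ‖1 - up s φ ^ 2‖ ≤ 2 * Real.exp (s + s ^ 2 / 2) := by
  refine (norm_sub_le _ _).trans ?_
  rw [norm_one, norm_pow, norm_up]
  exact one_add_exp_two s

section

variable {L : ℂ → ℂ} {ρ pa pb τ η e σ ε : ℝ} (hG : Good L ρ pa pb τ η e σ ε)

include hG in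
theorem Gn_up_le (n : ℕ) (s φ : ℝ) (hu : 1 + up s φ ≠ 0) :
    ‖(Gn L n).aeval (up s φ)‖ ≤
      (if ‖1 - up s φ‖ < ‖1 + up s φ‖ then
        (‖1 + up s φ‖ * Real.exp (L (zu (up s φ))).re) ^ n else 0) + cut n s e := by
  have h1 := Gn_le hG.diff hG.conj hG.top n (up s φ) hu
  have hu0 : 0 < ‖1 + up s φ‖ := norm_pos_iff.mpr hu
  have h2 : ‖zu (up s φ)‖ < 1 ↔ ‖1 - up s φ‖ < ‖1 + up s φ‖ := by
    unfold zu
    rw [norm_div, div_lt_one hu0]
  have h3 : (if ‖zu (up s φ)‖ < 1 then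
      Real.exp (n * (Real.log ‖1 + up s φ‖ + (L (zu (up s φ))).re)) else 0) =
      (if ‖1 - up s φ‖ < ‖1 + up s φ‖ then
        (‖1 + up s φ‖ * Real.exp (L (zu (up s φ))).re) ^ n else 0) := by
    by_cases h : ‖1 - up s φ‖ < ‖1 + up s φ‖
    · rw [if_pos (h2.mpr h), if_pos h, Real.exp_nat_mul, Real.exp_add, Real.exp_log hu0]
    · rw [if_neg (fun h' => h (h2.mp h')), if_neg h]
  rw [h3] at h1
  refine h1.trans ?_
  have h4 : 2 * ((n : ℝ) + 1) * Real.exp (n * (Real.log 2 / 2 - e)) *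
      ‖1 - up s φ ^ 2‖ ^ ((n : ℝ) / 2) ≤ cut n s e := by
    have h5 : ‖1 - up s φ ^ 2‖ ^ ((n : ℝ) / 2) ≤
        (2 * Real.exp (s + s ^ 2 / 2)) ^ ((n : ℝ) / 2) :=
      Real.rpow_le_rpow (norm_nonneg _) (norm_one_sub_sq_le s φ) (by positivity)
    have h6 : (2 * Real.exp (s + s ^ 2 / 2)) ^ ((n : ℝ) / 2) =
        Real.exp (n * (Real.log 2 / 2)) * Real.exp (n * (s / 2 + s ^ 2 / 4)) := by
      rw [← Real.exp_add, Real.rpow_def_of_pos (by positivity), Real.log_mul (by norm_num)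
        (Real.exp_pos _).ne', Real.log_exp]
      congr 1
      ring
    have h7 : (2 : ℝ) ^ n = Real.exp (n * Real.log 2) := by
      rw [Real.exp_nat_mul, Real.exp_log (by norm_num)]
    unfold cut
    calc 2 * ((n : ℝ) + 1) * Real.exp (n * (Real.log 2 / 2 - e)) *
          ‖1 - up s φ ^ 2‖ ^ ((n : ℝ) / 2)
        ≤ 2 * ((n : ℝ) + 1) * Real.exp (n * (Real.log 2 / 2 - e)) *
          (Real.exp (n * (Real.log 2 / 2)) * Real.exp (n * (s / 2 + s ^ 2 / 4))) := by
          rw [← h6]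
          exact mul_le_mul_of_nonneg_left h5 (by positivity)
      _ = 2 * ((n : ℝ) + 1) * (Real.exp (n * (Real.log 2 / 2 - e)) *
          (Real.exp (n * (Real.log 2 / 2)) * Real.exp (n * (s / 2 + s ^ 2 / 4)))) := by ring
      _ = 2 * ((n : ℝ) + 1) * (Real.exp (n * Real.log 2) *
          Real.exp (n * (s / 2 + s ^ 2 / 4 - e))) := by
          rw [← Real.exp_add, ← Real.exp_add, ← Real.exp_add]
          congr 2
          ring
      _ = _ := by rw [h7]; ring
  linarith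

private theorem one_add_up_ne {s φ : ℝ} (h : s ≠ 0) : 1 + up s φ ≠ 0 := by
  intro h0
  have h1 : up s φ = -1 := by linear_combination h0
  have h2 := norm_up s φ
  rw [h1, norm_neg, norm_one] at h2
  apply h
  have h3 := congrArg Real.log h2
  rw [Real.log_one, Real.log_exp] at h3
  exact h3.symm

private theorem re_up (s φ : ℝ) : (up s φ).re = Real.exp s * Real.cos φ := by
  unfold up
  rw [Complex.exp_re]
  simp

private theorem one_add_up_ne' {s φ : ℝ} (h : 0 ≤ Real.cos φ) : 1 + up s φ ≠ 0 := by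
  intro h0
  have h1 := congrArg Complex.re h0
  rw [Complex.add_re, Complex.one_re, re_up, Complex.zero_re] at h1
  have := mul_nonneg (Real.exp_pos s).le h
  linarith

include hG in
/-- away from the bump, on the circle `|u| = e^σ` -/
theorem Gn_far (n : ℕ) {φ : ℝ} (h1 : |φ| ≤ Real.pi) (h2 : |φ| ≤ pa ∨ pb ≤ |φ|) :
    ‖(Gn L n).aeval (up σ φ)‖ ≤
      2 ^ n * Real.exp (n * (σ * (1 / 2 - 1 / Real.pi) - ε)) + cut n σ e := by
  have key : ∀ φ : ℝ, 0 ≤ φ → φ ≤ Real.pi → (φ ≤ pa ∨ pb ≤ φ) → ‖(Gn L n).aeval (up σ φ)‖ ≤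
      2 ^ n * Real.exp (n * (σ * (1 / 2 - 1 / Real.pi) - ε)) + cut n σ e := by
    intro φ h0 h1 h2
    refine (Gn_up_le hG n σ φ (one_add_up_ne hG.hσ.ne')).trans ?_
    apply add_le_add_left
    split_ifs with h3
    · have h4 := hG.far φ h0 h1 h2 h3
      have h5 := pow_le_pow_left₀ (by positivity) h4 n
      rwa [mul_pow (2 : ℝ), ← Real.exp_nat_mul] at h5
    · positivity
  rcases le_or_gt 0 φ with h | h
  · rw [abs_of_nonneg h] at h1 h2
    exact key φ h h1 h2
  · rw [abs_of_neg h] at h1 h2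
    have := key (-φ) (by linarith) h1 h2
    rwa [norm_Gn_neg] at this

include hG in
/-- outside the unit circle: `|G(e^(s+iφ))| ≤ 2^n e^(n (s/2 + η)) + cut` -/
theorem Gn_out (n : ℕ) {s φ : ℝ} (hs : 0 < s) :
    ‖(Gn L n).aeval (up s φ)‖ ≤ 2 ^ n * Real.exp (n * (s / 2 + η)) + cut n s e := by
  refine (Gn_up_le hG n s φ (one_add_up_ne hs.ne')).trans ?_
  apply add_le_add_left
  split_ifs with h3
  · have h4 := hG.out (up s φ) (by rw [norm_up]; exact Real.one_le_exp hs.le) h3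
    rw [norm_up] at h4
    have h6 : 4 * Real.exp s / Real.sqrt (2 + 2 * Real.exp s ^ 2) ≤ 2 * Real.exp (s / 2) := by
      have h7 : 0 < Real.sqrt (2 + 2 * Real.exp s ^ 2) := Real.sqrt_pos.mpr (by positivity)
      rw [div_le_iff₀ h7]
      have h8 : 2 * Real.exp (s / 2) ≤ Real.sqrt (2 + 2 * Real.exp s ^ 2) := by
        apply Real.le_sqrt_of_sq_le
        have h9 : (2 * Real.exp (s / 2)) ^ 2 = 4 * Real.exp s := by
          rw [mul_pow, ← Real.exp_nat_mul]
          norm_num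
          ring
        rw [h9]
        nlinarith [sq_nonneg (Real.exp s - 1)]
      have h10 : Real.exp s = Real.exp (s / 2) * Real.exp (s / 2) := by
        rw [← Real.exp_add]
        congr 1
        ring
      nlinarith [Real.exp_pos (s / 2)]
    have h5 : ‖1 + up s φ‖ * Real.exp (L (zu (up s φ))).re ≤ 2 * Real.exp (s / 2 + η) := by
      refine h4.trans ?_
      rw [Real.exp_add, ← mul_assoc]
      exact mul_le_mul_of_nonneg_right h6 (Real.exp_pos _).le
    have h11 := pow_le_pow_left₀ (by positivity) h5 n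
    rwa [mul_pow (2 : ℝ), ← Real.exp_nat_mul] at h11
  · positivity

include hG in
/-- sharper form outside the unit circle, for the high weights -/
theorem Gn_out' (n : ℕ) {s φ : ℝ} (hs : 0 < s) :
    ‖(Gn L n).aeval (up s φ)‖ ≤
      (4 * Real.exp s / Real.sqrt (2 + 2 * Real.exp s ^ 2)) ^ n * Real.exp (n * η) +
      2 * ((n : ℝ) + 1) * Real.exp (n * (Real.log 2 / 2 - e)) *
        (1 + Real.exp s ^ 2) ^ ((n : ℝ) / 2) := by
  have hu : 1 + up s φ ≠ 0 := one_add_up_ne hs.ne'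
  have hu0 : 0 < ‖1 + up s φ‖ := norm_pos_iff.mpr hu
  refine (Gn_le hG.diff hG.conj hG.top n (up s φ) hu).trans ?_
  apply add_le_add
  · split_ifs with h3
    · have h3' : ‖1 - up s φ‖ < ‖1 + up s φ‖ := by
        unfold zu at h3
        rwa [norm_div, div_lt_one hu0] at h3
      have h4 := hG.out (up s φ) (by rw [norm_up]; exact Real.one_le_exp hs.le) h3'
      rw [norm_up] at h4
      rw [Real.exp_nat_mul, Real.exp_add, Real.exp_log hu0, Real.exp_nat_mul, ← mul_pow]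
      exact pow_le_pow_left₀ (by positivity) h4 n
    · positivity
  · apply mul_le_mul_of_nonneg_left _ (by positivity)
    apply Real.rpow_le_rpow (norm_nonneg _) _ (by positivity)
    refine (norm_sub_le _ _).trans ?_
    rw [norm_one, norm_pow, norm_up]

include hG in
private theorem cos_nonneg_arc {φ : ℝ} (h1 : pa ≤ φ) (h2 : φ ≤ pb) : 0 ≤ Real.cos φ := by
  have := hG.hpa
  have := hG.hpb
  exact Real.cos_nonneg_of_neg_pi_div_two_le_of_le (by linarith [Real.pi_pos]) (by linarith)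

include hG in
/-- inside the unit circle, on the arc of the bump -/
theorem Gn_inn (n : ℕ) {s φ : ℝ} (hs : -τ ≤ s) (hs0 : s ≤ 0) (h1 : pa ≤ φ) (h2 : φ ≤ pb) :
    ‖(Gn L n).aeval (up s φ)‖ ≤
      2 ^ n * Real.exp (n * (s * (1 / 2 - ρ / 2) + η)) + cut n s e := by
  refine (Gn_up_le hG n s φ (one_add_up_ne' (cos_nonneg_arc hG h1 h2))).trans ?_
  apply add_le_add_left
  split_ifs with h3
  · have h5 := pow_le_pow_left₀ (by positivity) (hG.inn s φ hs hs0 h1 h2) n
    rwa [mul_pow (2 : ℝ), ← Real.exp_nat_mul] at h5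
  · positivity

include hG in
/-- at the ends of the arc of the bump -/
theorem Gn_edge (n : ℕ) {s φ : ℝ} (hs : -τ ≤ s) (hs0 : s ≤ τ) (h1 : φ = pa ∨ φ = pb) :
    ‖(Gn L n).aeval (up s φ)‖ ≤
      2 ^ n * Real.exp (n * (max (s / 2) (s * (1 / 2 - ρ / 2)) - e)) + cut n s e := by
  have hab := hG.hab
  have hc : 0 ≤ Real.cos φ := by
    rcases h1 with h | h
    · rw [h]; exact cos_nonneg_arc hG (le_refl _) hab.le
    · rw [h]; exact cos_nonneg_arc hG hab.le (le_refl _)
  refine (Gn_up_le hG n s φ (one_add_up_ne' hc)).trans ?_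
  apply add_le_add_left
  split_ifs with h3
  · have h5 := pow_le_pow_left₀ (by positivity) (hG.edge s φ hs hs0 h1) n
    rwa [mul_pow (2 : ℝ), ← Real.exp_nat_mul] at h5
  · positivity

end

end Pool.Agent.Lib.MP_0430e4_lc.BY
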