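import Pool.Agent.Lib.MP_0430e4_lc.BY.P.Arc
import Pool.Agent.Lib.MP_0430e4_lc.BY.P.Good

/-!
The window pairing for the near integrals `nr` (block P of BEYOND, helper1).
-/

set_option autoImplicit false

open Finset MeasureTheory Polynomial

namespace Pool.Agent.Lib.MP_0430e4_lc.BY

variable {n : ℕ}

theorem nr_eq_Iarc (G : ℝ[X]) (σ pa pb : ℝ) (w : ℕ) :
    nr G σ pa pb w = Iarc (fun φ => G.aeval (up σ φ)) (Real.exp σ) pa pb w := by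
  unfold nr Iarc
  apply intervalIntegral.integral_congr
  intro φ _
  simp only
  congr 1
  have h1 : ((Real.exp σ : ℝ) : ℂ) ^ w * Complex.exp ((w : ℂ) * ((φ : ℂ) * Complex.I)) =
      Complex.exp ((w : ℂ) * ((σ : ℂ) + (φ : ℂ) * Complex.I)) := by
    rw [Complex.ofReal_exp, ← Complex.exp_nat_mul, ← Complex.exp_add]
    congr 1; ring
  rw [h1, ← Complex.exp_neg]
  congr 1; ring

theorem continuous_up (s : ℝ) : Continuous (up s) := by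
  unfold up
  fun_prop

theorem continuous_aeval_up (G : ℝ[X]) (s : ℝ) : Continuous fun φ : ℝ => G.aeval (up s φ) := by
  exact (Polynomial.continuous_aeval G).comp (continuous_up s)

/-- window pairing for the near integrals -/
theorem near_window (hn : 1 ≤ n) (C : Finset (Wd n)) (S : Finset ℕ) (hS : S ⊆ range (n + 1))
    {σ pa pb ρ : ℝ} (hσ : 0 ≤ σ) (hab : pa ≤ pb) (hρ : 0 < ρ) (hρ1 : ρ ≤ 1 / 80) (G : ℝ[X]) {Gm T A : ℝ}
    (hT0 : 0 ≤ T) (hA0 : 0 ≤ A)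
    (hG : ∀ φ, pa ≤ φ → φ ≤ pb → ‖G.aeval (up σ φ)‖ ≤ Gm)
    (hT : ∀ φ, pa ≤ φ → φ ≤ pb → ∀ t : ℝ, |t - 1 / 2| ≤ 2 * ρ →
      (1 - t) ^ n * ‖∑ x ∈ C, ∑ y ∈ C,
        (((t / ((1 - t) * Real.exp σ) : ℝ) : ℂ) * Complex.exp (-((φ : ℂ) * Complex.I))) ^ wt (x - y)‖ ≤ T)
    (hA : ∀ w ∈ S, |(w : ℝ) / n - 1 / 2| ≤ ρ → (Nw C w : ℝ) ≤ A * n.choose w) :
    ‖∑ w ∈ S, ((Nw C w : ℝ) / n.choose w : ℝ) * nr G σ pa pb w‖ ≤
      (n + 1) * ((pb - pa) * Gm) * (T + (n + 1) * A * Real.exp (-(n * ρ ^ 2 / 4)) +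
        ∑ w ∈ range (n + 1) \ S, (Nw C w : ℝ) * (1 / 2 + 2 * ρ) ^ n) +
      ∑ w ∈ S.filter (fun w : ℕ => ρ < |(w : ℝ) / n - 1 / 2|),
        (Nw C w : ℝ) / n.choose w * ‖nr G σ pa pb w‖ := by
  have h := arc_pair hn C S hS (R := Real.exp σ) (pa := pa) (pb := pb) (Real.one_le_exp hσ) hab
    (G := fun φ => G.aeval (up σ φ)) (continuous_aeval_up G σ).continuousOn (Gm := Gm) hG
    (η := 2 * ρ) (by linarith) (by linarith) hT0 hA0 hT
    (by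
      intro w hw h1
      exact hA w hw (by linarith))
  simp only [← nr_eq_Iarc] at h
  have e1 : (2 * ρ) / 2 = ρ := by ring
  have e2 : (n : ℝ) * (2 * ρ) ^ 2 / 16 = n * ρ ^ 2 / 4 := by ring
  rw [e1, e2] at h
  exact h

end Pool.Agent.Lib.MP_0430e4_lc.BY
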