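import Pool.Agent.Lib.MP_0430e4_lc.BY.P.N1
import Pool.Agent.Lib.MP_0430e4_lc.BY.P.NW

/-!
The weights above `n - D` (block P of BEYOND, helper1).
-/

set_option autoImplicit false

open Finset MeasureTheory Polynomial

namespace Pool.Agent.Lib.MP_0430e4_lc.BY

theorem norm_up (s φ : ℝ) : ‖up s φ‖ = Real.exp s := by
  unfold up
  rw [Complex.norm_exp]
  simp

/-- coefficient bound on a circle -/
theorem coef_bound (G : ℝ[X]) (w : ℕ) (s B : ℝ) (hB : ∀ φ : ℝ, ‖G.aeval (up s φ)‖ ≤ B) :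
    |G.coeff w| * Real.exp (s * w) ≤ B := by
  set N := max G.natDegree w with hN
  have h1 := coef_circle N (fun k => (G.coeff k : ℂ)) s w (le_max_right _ _)
  have h2 : ∀ φ : ℝ, (∑ k ∈ Finset.range (N + 1), (G.coeff k : ℂ) * Complex.exp ((s + φ * Complex.I : ℂ)) ^ k) =
      G.aeval (up s φ) := by
    intro φ
    rw [Polynomial.aeval_eq_sum_range' (Nat.lt_succ_of_le (le_max_left G.natDegree w))]
    apply Finset.sum_congr rfl
    intro k _
    rw [Complex.real_smul]
    rfl
  simp only [h2] at h1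
  have h3 : ‖∫ φ in (-Real.pi)..Real.pi, G.aeval (up s φ) *
      Complex.exp (-(w * (s + φ * Complex.I)))‖ ≤ (B * Real.exp (-(s * w))) * |Real.pi - (-Real.pi)| := by
    apply intervalIntegral.norm_integral_le_of_norm_le_const
    intro φ _
    rw [norm_mul]
    have h4 : ‖Complex.exp (-((w : ℂ) * ((s : ℂ) + φ * Complex.I)))‖ = Real.exp (-(s * w)) := by
      rw [Complex.norm_exp]
      congr 1
      simp
      ring
    rw [h4]
    exact mul_le_mul_of_nonneg_right (hB φ) (Real.exp_pos _).le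
  rw [h1, norm_mul, norm_mul, Complex.norm_real, Complex.norm_real, Real.norm_eq_abs, Real.norm_eq_abs,
    abs_of_pos Real.pi_pos] at h3
  have h5 : |Real.pi - (-Real.pi)| = 2 * Real.pi := by
    rw [abs_of_nonneg (by linarith [Real.pi_pos])]; ring
  rw [h5] at h3
  have h6 : ‖(2 : ℂ)‖ = 2 := by simp
  rw [h6] at h3
  have h7 : |G.coeff w| ≤ B * Real.exp (-(s * w)) := by
    have hp : 0 < 2 * Real.pi := by linarith [Real.pi_pos]
    by_contra hc
    push Not at hc
    have := mul_lt_mul_of_pos_left hc hp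
    linarith
  calc |G.coeff w| * Real.exp (s * w) ≤ B * Real.exp (-(s * w)) * Real.exp (s * w) :=
        mul_le_mul_of_nonneg_right h7 (Real.exp_pos _).le
    _ = B := by rw [mul_assoc, ← Real.exp_add]; simp

/-- `G` outside the unit circle -/
theorem Gn_out {L : ℂ → ℂ} {ρ pa pb τ η e σ ε : ℝ} (hG : Good L ρ pa pb τ η e σ ε) (n : ℕ) {s : ℝ} (hs : 0 < s)
    (φ : ℝ) : ‖(Gn L n).aeval (up s φ)‖ ≤
      (4 * Real.exp s / Real.sqrt (2 + 2 * Real.exp s ^ 2) * Real.exp η) ^ n +
        2 * ((n : ℝ) + 1) * Real.exp (n * (Real.log 2 / 2 - e)) *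
          (1 + Real.exp s ^ 2) ^ ((n : ℝ) / 2) := by
  have hR : 1 < Real.exp s := Real.one_lt_exp_iff.mpr hs
  have hu : 1 + up s φ ≠ 0 := by
    intro h
    have h1 : up s φ = -1 := by linear_combination h
    have h2 := norm_up s φ
    rw [h1] at h2
    simp at h2
    linarith
  refine (Gn_le hG.diff hG.conj hG.top n (up s φ) hu).trans ?_
  have hX0 : 0 ≤ 4 * Real.exp s / Real.sqrt (2 + 2 * Real.exp s ^ 2) * Real.exp η := by positivity
  apply add_le_add
  · split_ifs with h
    · have h1 : 0 < ‖1 + up s φ‖ := norm_pos_iff.mpr hu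
      have h2 : ‖1 - up s φ‖ < ‖1 + up s φ‖ := by
        unfold zu at h
        rw [norm_div, div_lt_one h1] at h
        exact h
      have h3 := hG.out (up s φ) (by rw [norm_up]; exact hR.le) h2
      rw [norm_up] at h3
      have h4 : Real.exp (n * (Real.log ‖1 + up s φ‖ + (L (zu (up s φ))).re)) =
          (‖1 + up s φ‖ * Real.exp (L (zu (up s φ))).re) ^ n := by
        rw [Real.exp_nat_mul, Real.exp_add, Real.exp_log h1]
      rw [h4]
      exact pow_le_pow_left₀ (by positivity) h3 n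
    · positivity
  · apply mul_le_mul_of_nonneg_left _ (by positivity)
    apply Real.rpow_le_rpow (norm_nonneg _) _ (by positivity)
    calc ‖1 - up s φ ^ 2‖ ≤ ‖(1 : ℂ)‖ + ‖up s φ ^ 2‖ := norm_sub_le _ _
      _ = 1 + Real.exp s ^ 2 := by rw [norm_one, norm_pow, norm_up]

/-- the mode of the binomial distribution -/
theorem mode_le {n v : ℕ} (hv : 1 ≤ v) (hvn : v < n) {t : ℝ} (h0 : 0 ≤ t) (h1 : t ≤ 1) :
    t ^ v * (1 - t) ^ (n - v) ≤
      ((v : ℝ) / n) ^ v * (1 - (v : ℝ) / n) ^ (n - v) := by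
  have hn0 : (0 : ℝ) < n := by exact_mod_cast (by omega : 0 < n)
  have hv0 : (0 : ℝ) < v := by exact_mod_cast hv
  have hvn' : (v : ℝ) < n := by exact_mod_cast hvn
  set x : ℝ := (v : ℝ) / n with hx
  have hx0 : 0 < x := by positivity
  have hx1 : x < 1 := (div_lt_one hn0).mpr hvn'
  have hnv : ((n - v : ℕ) : ℝ) = n * (1 - x) := by
    rw [Nat.cast_sub hvn.le, hx]; field_simp
  have hvx : (v : ℝ) = n * x := by rw [hx]; field_simp
  rcases h0.eq_or_lt with h | h
  · subst h
    rw [zero_pow (by omega), zero_mul]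
    have : 0 ≤ 1 - x := by linarith
    positivity
  rcases h1.eq_or_lt with h' | h'
  · subst h'
    rw [sub_self, zero_pow (by omega), mul_zero]
    have : 0 ≤ 1 - x := by linarith
    positivity
  have h1t : 0 < 1 - t := by linarith
  have h1x : 0 < 1 - x := by linarith
  rw [← Real.exp_log (by positivity : 0 < t ^ v * (1 - t) ^ (n - v)),
    ← Real.exp_log (by positivity : 0 < x ^ v * (1 - x) ^ (n - v))]
  apply Real.exp_le_exp.mpr
  rw [Real.log_mul (by positivity) (by positivity), Real.log_mul (by positivity) (by positivity),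
    Real.log_pow, Real.log_pow, Real.log_pow, Real.log_pow, hnv, hvx]
  have h2 : Real.log (t / x) ≤ t / x - 1 := Real.log_le_sub_one_of_pos (by positivity)
  have h3 : Real.log ((1 - t) / (1 - x)) ≤ (1 - t) / (1 - x) - 1 :=
    Real.log_le_sub_one_of_pos (by positivity)
  rw [Real.log_div h.ne' hx0.ne'] at h2
  rw [Real.log_div h1t.ne' h1x.ne'] at h3
  have h4 : x * (Real.log t - Real.log x) ≤ t - x := by
    have := mul_le_mul_of_nonneg_left h2 hx0.le
    have e1 : x * (t / x - 1) = t - x := by field_simp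
    linarith
  have h5 : (1 - x) * (Real.log (1 - t) - Real.log (1 - x)) ≤ x - t := by
    have := mul_le_mul_of_nonneg_left h3 h1x.le
    have e1 : (1 - x) * ((1 - t) / (1 - x) - 1) = x - t := by field_simp; ring
    linarith
  have h6 : x * (Real.log t - Real.log x) + (1 - x) * (Real.log (1 - t) - Real.log (1 - x)) ≤ 0 := by
    linarith
  have h7 := mul_le_mul_of_nonneg_left h6 hn0.le
  nlinarith [h7]

theorem inv_choose_le {n v : ℕ} (hv : 1 ≤ v) (hvn : v < n) :
    ((n.choose v : ℝ))⁻¹ ≤ ((n : ℝ) + 1) * (((v : ℝ) / n) ^ v * (1 - (v : ℝ) / n) ^ (n - v)) := by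
  have h1 := choose_mul_beta hvn.le
  have hc : (0 : ℝ) < n.choose v := by exact_mod_cast Nat.choose_pos hvn.le
  have h2 : ∫ t in (0 : ℝ)..1, t ^ v * (1 - t) ^ (n - v) ≤
      ((v : ℝ) / n) ^ v * (1 - (v : ℝ) / n) ^ (n - v) := by
    have h3 : ∫ t in (0 : ℝ)..1, t ^ v * (1 - t) ^ (n - v) ≤
        ∫ t in (0 : ℝ)..1, ((v : ℝ) / n) ^ v * (1 - (v : ℝ) / n) ^ (n - v) := by
      apply intervalIntegral.integral_mono_on zero_le_one (ii_pow n v 0 1) (by simp)
      intro t ht
      exact mode_le hv hvn ht.1 ht.2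
    simpa using h3
  have h4 : ((n.choose v : ℝ))⁻¹ = ((n : ℝ) + 1) * ∫ t in (0 : ℝ)..1, t ^ v * (1 - t) ^ (n - v) := by
    field_simp
    linarith
  rw [h4]
  exact mul_le_mul_of_nonneg_left h2 (by positivity)

/-- the exponents add up: with `x = max v 1 / n`, `R² = (1-x)/x` -/
theorem high_weight_exp {n v : ℕ} (hn : 5 ≤ n) (hv : 5 * v ≤ n) :
    ∃ s : ℝ, 0 < s ∧ 4 * Real.exp s / Real.sqrt (2 + 2 * Real.exp s ^ 2) ≤
        Real.sqrt 2 * (4 / 5) * Real.sqrt (1 + Real.exp s ^ 2) ∧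
      (1 + Real.sqrt 2) ^ v * ((n.choose v : ℝ))⁻¹ * Real.exp (-(s * (n - v : ℕ))) *
        (1 + Real.exp s ^ 2) ^ ((n : ℝ) / 2) ≤ 3 * (n + 1) := by
  have hn0 : (0 : ℝ) < n := by exact_mod_cast (by omega : 0 < n)
  set m : ℕ := max v 1 with hm
  have hm1 : 1 ≤ m := le_max_right _ _
  have hm5 : 5 * m ≤ n := by
    rcases le_total v 1 with h | h
    · rw [hm, max_eq_right h]; omega
    · rw [hm, max_eq_left h]; omega
  have hm0 : (0 : ℝ) < m := by exact_mod_cast hm1
  have hm5' : 5 * (m : ℝ) ≤ n := by exact_mod_cast hm5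
  set x : ℝ := (m : ℝ) / n with hx
  have hx0 : 0 < x := by positivity
  have hx5 : x ≤ 1 / 5 := by
    rw [hx, div_le_iff₀ hn0]; linarith
  have h1x : 0 < 1 - x := by linarith
  have hmx : (m : ℝ) = n * x := by rw [hx]; field_simp
  set l := Real.log x with hl
  set q := Real.log (1 - x) with hq
  have hlq : l < q := Real.log_lt_log hx0 (by linarith)
  set s : ℝ := (q - l) / 2 with hs
  have hs0 : 0 < s := by rw [hs]; linarith
  have hR : Real.exp s ^ 2 = (1 - x) / x := by
    rw [← Real.exp_nat_mul, hs]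
    have : ((2 : ℕ) : ℝ) * ((q - l) / 2) = q - l := by push_cast; ring
    rw [this, Real.exp_sub, hq, hl, Real.exp_log h1x, Real.exp_log hx0]
  have hR1 : 1 + Real.exp s ^ 2 = x⁻¹ := by
    rw [hR]; field_simp; ring
  have hR2 : (1 + Real.exp s ^ 2) ^ ((n : ℝ) / 2) = Real.exp (-(l * (n / 2))) := by
    rw [hR1, Real.inv_rpow hx0.le, Real.rpow_def_of_pos hx0, Real.exp_neg]
  refine ⟨s, hs0, ?_, ?_⟩
  · have e0 : 0 < Real.exp s := Real.exp_pos s
    have h1 : 2 + 2 * Real.exp s ^ 2 = 2 * (1 + Real.exp s ^ 2) := by ring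
    have h2 : 0 < 1 + Real.exp s ^ 2 := by positivity
    rw [h1, Real.sqrt_mul (by norm_num)]
    have h3 : 0 < Real.sqrt (1 + Real.exp s ^ 2) := Real.sqrt_pos.mpr h2
    have h4 : 0 < Real.sqrt 2 := Real.sqrt_pos.mpr (by norm_num)
    rw [div_le_iff₀ (by positivity)]
    have h5 : Real.sqrt 2 * (4 / 5) * Real.sqrt (1 + Real.exp s ^ 2) *
        (Real.sqrt 2 * Real.sqrt (1 + Real.exp s ^ 2)) = 8 / 5 * (1 + Real.exp s ^ 2) := by
      have a1 := Real.mul_self_sqrt (by norm_num : (0 : ℝ) ≤ 2)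
      have a2 := Real.mul_self_sqrt h2.le
      calc Real.sqrt 2 * (4 / 5) * Real.sqrt (1 + Real.exp s ^ 2) *
        (Real.sqrt 2 * Real.sqrt (1 + Real.exp s ^ 2)) = (Real.sqrt 2 * Real.sqrt 2) * (4 / 5) *
          (Real.sqrt (1 + Real.exp s ^ 2) * Real.sqrt (1 + Real.exp s ^ 2)) := by ring
        _ = _ := by rw [a1, a2]; ring
    rw [h5, hR1]
    -- 4 R ≤ 8/5 x⁻¹ ; square
    have h6 : (4 * Real.exp s) ^ 2 ≤ (8 / 5 * x⁻¹) ^ 2 := by
      rw [mul_pow, hR]
      have h7 : (8 / 5 * x⁻¹) ^ 2 - 4 ^ 2 * ((1 - x) / x) = (16 / x ^ 2) * (4 / 25 - x * (1 - x)) := by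
        field_simp; ring
      have h8 : 0 ≤ 4 / 25 - x * (1 - x) := by nlinarith
      have h9 : 0 ≤ (16 / x ^ 2) * (4 / 25 - x * (1 - x)) := by positivity
      linarith
    exact le_of_sq_le_sq h6 (by positivity)
  · rw [hR2]
    have hq1 : q ≤ -x := by
      have := Real.log_le_sub_one_of_pos h1x
      rw [hq]; linarith
    rcases Nat.eq_zero_or_pos v with h0 | h0
    · -- v = 0
      subst h0
      have hm' : m = 1 := by rw [hm]; rfl
      rw [Nat.choose_zero_right, pow_zero, Nat.sub_zero, Nat.cast_one, inv_one, one_mul, one_mul,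
        ← Real.exp_add]
      have h1 : -(s * n) + -(l * (n / 2)) = -(q * n / 2) := by rw [hs]; ring
      rw [h1]
      have hxn : x * n = 1 := by rw [hx, hm']; field_simp; simp
      have h2 : -q ≤ x / (1 - x) := by
        have h3 := Real.log_le_sub_one_of_pos (inv_pos.mpr h1x)
        rw [Real.log_inv] at h3
        have h4 : (1 - x)⁻¹ - 1 = x / (1 - x) := by field_simp; ring
        rw [← h4]; exact h3
      have h3 : x / (1 - x) ≤ 2 * x := by
        rw [div_le_iff₀ h1x]; nlinarith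
      have h4 : -(q * n / 2) ≤ 1 := by nlinarith
      calc Real.exp (-(q * n / 2)) ≤ Real.exp 1 := Real.exp_le_exp.mpr h4
        _ ≤ 3 := by linarith [Real.exp_one_lt_d9]
        _ ≤ 3 * (n + 1) := by linarith
    · have hmv : m = v := by rw [hm]; exact max_eq_left h0
      have hvn : v < n := by omega
      have h1 := inv_choose_le h0 hvn
      rw [← hmv] at h1 hvn ⊢
      rw [← hx] at h1
      have hmn : ((n - m : ℕ) : ℝ) = n * (1 - x) := by
        rw [Nat.cast_sub hvn.le, hmx]; ring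
      have h2 : x ^ m * (1 - x) ^ (n - m) = Real.exp (n * x * l + n * (1 - x) * q) := by
        rw [Real.exp_add, ← hmx, ← hmn, mul_comm (m : ℝ) l, mul_comm ((n - m : ℕ) : ℝ) q, hl, hq,
          ← Real.rpow_def_of_pos hx0, ← Real.rpow_def_of_pos h1x, Real.rpow_natCast, Real.rpow_natCast]
      rw [h2] at h1
      have h3 : (1 + Real.sqrt 2) ^ m = Real.exp (n * x * Real.log (1 + Real.sqrt 2)) := by
        have h4 : 0 < 1 + Real.sqrt 2 := by positivity
        rw [← hmx, mul_comm, ← Real.rpow_def_of_pos h4, Real.rpow_natCast]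
      rw [h3, hmn]
      have h5 : Real.log (1 + Real.sqrt 2) + l / 2 ≤ 1 / 10 := by
        have h6 : (1 + Real.sqrt 2) ^ 2 * x ≤ Real.exp (1 / 5) := by
          have a1 := Real.mul_self_sqrt (by norm_num : (0 : ℝ) ≤ 2)
          have a2 : Real.sqrt 2 ≤ 1.415 := by
            rw [Real.sqrt_le_left (by norm_num)]; norm_num
          have a3 : (1 + Real.sqrt 2) ^ 2 ≤ 5.84 := by nlinarith
          have a4 : (6 : ℝ) / 5 ≤ Real.exp (1 / 5) := by
            have := Real.add_one_le_exp (1 / 5 : ℝ); linarith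
          nlinarith
        have h7 := Real.log_le_log (by positivity) h6
        rw [Real.log_exp, Real.log_mul (by positivity) (by positivity), Real.log_pow] at h7
        push_cast at h7
        linarith
      calc Real.exp (n * x * Real.log (1 + Real.sqrt 2)) * ((n.choose m : ℝ))⁻¹ *
            Real.exp (-(s * (n * (1 - x)))) * Real.exp (-(l * (n / 2)))
          ≤ Real.exp (n * x * Real.log (1 + Real.sqrt 2)) *
            (((n : ℝ) + 1) * Real.exp (n * x * l + n * (1 - x) * q)) *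
            Real.exp (-(s * (n * (1 - x)))) * Real.exp (-(l * (n / 2))) := by
              gcongr
        _ = ((n : ℝ) + 1) * Real.exp (n * x * (Real.log (1 + Real.sqrt 2) + l / 2) +
            n * (1 - x) * q / 2) := by
              rw [show Real.exp (n * x * Real.log (1 + Real.sqrt 2)) *
                (((n : ℝ) + 1) * Real.exp (n * x * l + n * (1 - x) * q)) *
                Real.exp (-(s * (n * (1 - x)))) * Real.exp (-(l * (n / 2))) =
                ((n : ℝ) + 1) * (Real.exp (n * x * Real.log (1 + Real.sqrt 2)) *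
                Real.exp (n * x * l + n * (1 - x) * q) *
                Real.exp (-(s * (n * (1 - x)))) * Real.exp (-(l * (n / 2)))) by ring,
                ← Real.exp_add, ← Real.exp_add, ← Real.exp_add]
              congr 2
              rw [hs]; ring
        _ ≤ ((n : ℝ) + 1) * 1 := by
              apply mul_le_mul_of_nonneg_left _ (by positivity)
              rw [Real.exp_le_one_iff]
              have hnx : 0 < n * x := by positivity
              have b1 : n * x * (Real.log (1 + Real.sqrt 2) + l / 2) ≤ n * x * (1 / 10) :=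
                mul_le_mul_of_nonneg_left h5 hnx.le
              have b2 : n * (1 - x) * q / 2 ≤ n * (1 - x) * (-x) / 2 := by
                have : 0 ≤ n * (1 - x) := by positivity
                nlinarith
              nlinarith
        _ ≤ 3 * (n + 1) := by linarith

/-- one high weight -/
theorem high_weight {L : ℂ → ℂ} {ρ pa pb τ η e σ ε : ℝ} (hG : Good L ρ pa pb τ η e σ ε) (hη : η ≤ 1 / 10)
    {n v : ℕ} (hn : 5 ≤ n) (hv : 5 * v ≤ n) (C : Finset (Wd n)) {K : ℝ} (hK : 0 ≤ K)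
    (hN : (Nw C (n - v) : ℝ) ≤ K * (1 + Real.sqrt 2) ^ v) :
    (Nw C (n - v) : ℝ) * |fd n (n / 2) (cf L n) (n - v)| ≤
      K * (3 * (n + 1) * (2 * n + 3)) * Real.exp (n * (Real.log 2 / 2 - e / 10)) := by
  obtain ⟨s, hs, h1, h2⟩ := high_weight_exp hn hv
  have hvn : v ≤ n := by omega
  have he := hG.he
  have he1 := hG.he1
  set A : ℝ := (1 + Real.exp s ^ 2) ^ ((n : ℝ) / 2) with hA
  have hA0 : 0 < A := by positivity
  have hsq : Real.sqrt (1 + Real.exp s ^ 2) ^ n = A := by
    rw [hA, Real.sqrt_eq_rpow, ← Real.rpow_natCast, ← Real.rpow_mul (by positivity)]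
    congr 1; ring
  have hs2 : Real.sqrt 2 ^ n = Real.exp (n * (Real.log 2 / 2)) := by
    rw [Real.sqrt_eq_rpow, Real.rpow_def_of_pos (by norm_num), ← Real.exp_nat_mul]
    congr 1; ring
  -- the bound of G on the circle
  have hB : ∀ φ : ℝ, ‖(Gn L n).aeval (up s φ)‖ ≤
      A * ((2 * n + 3) * Real.exp (n * (Real.log 2 / 2 - e / 10))) := by
    intro φ
    refine (Gn_out hG n hs φ).trans ?_
    have h3 : (4 * Real.exp s / Real.sqrt (2 + 2 * Real.exp s ^ 2) * Real.exp η) ^ n ≤
        A * Real.exp (n * (Real.log 2 / 2 - e / 10)) := by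
      have h4 : 4 * Real.exp s / Real.sqrt (2 + 2 * Real.exp s ^ 2) * Real.exp η ≤
          (Real.sqrt 2 * Real.sqrt (1 + Real.exp s ^ 2)) * Real.exp (-(1 / 10)) := by
        have h5 : (4 / 5 : ℝ) * Real.exp η ≤ Real.exp (-(1 / 10)) := by
          have a1 : (4 / 5 : ℝ) ≤ Real.exp (-(1 / 5)) := by
            have := Real.add_one_le_exp (-(1 / 5) : ℝ); linarith
          calc (4 / 5 : ℝ) * Real.exp η ≤ Real.exp (-(1 / 5)) * Real.exp η :=
                mul_le_mul_of_nonneg_right a1 (Real.exp_pos _).le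
            _ = Real.exp (-(1 / 5) + η) := (Real.exp_add _ _).symm
            _ ≤ Real.exp (-(1 / 10)) := Real.exp_le_exp.mpr (by linarith)
        calc 4 * Real.exp s / Real.sqrt (2 + 2 * Real.exp s ^ 2) * Real.exp η
            ≤ (Real.sqrt 2 * (4 / 5) * Real.sqrt (1 + Real.exp s ^ 2)) * Real.exp η :=
              mul_le_mul_of_nonneg_right h1 (Real.exp_pos _).le
          _ = (Real.sqrt 2 * Real.sqrt (1 + Real.exp s ^ 2)) * (4 / 5 * Real.exp η) := by ring
          _ ≤ _ := mul_le_mul_of_nonneg_left h5 (by positivity)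
      calc _ ≤ ((Real.sqrt 2 * Real.sqrt (1 + Real.exp s ^ 2)) * Real.exp (-(1 / 10))) ^ n :=
            pow_le_pow_left₀ (by positivity) h4 n
        _ = A * Real.exp (n * (Real.log 2 / 2 - 1 / 10)) := by
            rw [mul_pow, mul_pow, hsq, hs2, ← Real.exp_nat_mul]
            rw [show n * (Real.log 2 / 2 - 1 / 10) = n * (Real.log 2 / 2) + n * (-(1 / 10)) by ring,
              Real.exp_add]
            ring
        _ ≤ _ := by
            apply mul_le_mul_of_nonneg_left _ hA0.le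
            apply Real.exp_le_exp.mpr
            apply mul_le_mul_of_nonneg_left _ (Nat.cast_nonneg n)
            linarith
    have h4 : 2 * ((n : ℝ) + 1) * Real.exp (n * (Real.log 2 / 2 - e)) * A ≤
        A * ((2 * n + 2) * Real.exp (n * (Real.log 2 / 2 - e / 10))) := by
      have a1 : Real.exp (n * (Real.log 2 / 2 - e)) ≤ Real.exp (n * (Real.log 2 / 2 - e / 10)) := by
        apply Real.exp_le_exp.mpr
        apply mul_le_mul_of_nonneg_left _ (Nat.cast_nonneg n)
        linarith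
      calc 2 * ((n : ℝ) + 1) * Real.exp (n * (Real.log 2 / 2 - e)) * A =
            A * ((2 * n + 2) * Real.exp (n * (Real.log 2 / 2 - e))) := by ring
        _ ≤ _ := by gcongr
    calc _ ≤ A * Real.exp (n * (Real.log 2 / 2 - e / 10)) +
          A * ((2 * n + 2) * Real.exp (n * (Real.log 2 / 2 - e / 10))) := add_le_add h3 h4
      _ = _ := by ring
  have hco := coef_bound (Gn L n) (n - v) s _ hB
  have hfd : (n.choose (n - v) : ℝ) * fd n (n / 2) (cf L n) (n - v) = (Gn L n).coeff (n - v) :=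
    choose_mul_fd (Nat.div_le_self n 2) _ _
  have hc : (0 : ℝ) < n.choose (n - v) := by exact_mod_cast Nat.choose_pos (Nat.sub_le n v)
  have hcs : n.choose (n - v) = n.choose v := Nat.choose_symm hvn
  have hfd2 : |fd n (n / 2) (cf L n) (n - v)| = ((n.choose v : ℝ))⁻¹ * |(Gn L n).coeff (n - v)| := by
    rw [← hfd, abs_mul, abs_of_pos hc, hcs]
    rw [hcs] at hc
    field_simp
  have hco2 : |(Gn L n).coeff (n - v)| ≤ A * ((2 * n + 3) * Real.exp (n * (Real.log 2 / 2 - e / 10))) *
      Real.exp (-(s * (n - v : ℕ))) := by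
    rw [Real.exp_neg, ← div_eq_mul_inv, le_div_iff₀ (Real.exp_pos _)]
    exact hco
  have hci : 0 ≤ ((n.choose v : ℝ))⁻¹ := by positivity
  rw [hfd2]
  calc (Nw C (n - v) : ℝ) * (((n.choose v : ℝ))⁻¹ * |(Gn L n).coeff (n - v)|)
      ≤ (K * (1 + Real.sqrt 2) ^ v) * (((n.choose v : ℝ))⁻¹ *
        (A * ((2 * n + 3) * Real.exp (n * (Real.log 2 / 2 - e / 10))) *
          Real.exp (-(s * (n - v : ℕ))))) := by
        apply mul_le_mul hN _ (by positivity) (by positivity)
        exact mul_le_mul_of_nonneg_left hco2 hci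
    _ = K * ((2 * n + 3) * Real.exp (n * (Real.log 2 / 2 - e / 10))) *
        ((1 + Real.sqrt 2) ^ v * ((n.choose v : ℝ))⁻¹ * Real.exp (-(s * (n - v : ℕ))) * A) := by ring
    _ ≤ K * ((2 * n + 3) * Real.exp (n * (Real.log 2 / 2 - e / 10))) * (3 * (n + 1)) := by
        apply mul_le_mul_of_nonneg_left h2 (by positivity)
    _ = _ := by ring

/-- `D ≤ n/5` -/
theorem five_Dst_le {n : ℕ} (hn : 60 ≤ n) : 5 * Dst n ≤ n := by
  have hpi : Real.pi < 3.1416 := Real.pi_lt_d4
  have hpi0 := Real.pi_pos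
  have h1 : (1 / 2 - 1 / Real.pi : ℝ) ≤ 0.1817 := by
    have : (1 : ℝ) / 3.1416 ≤ 1 / Real.pi := one_div_le_one_div_of_le hpi0 hpi.le
    norm_num at this ⊢
    linarith
  have h2 : (0 : ℝ) ≤ 1 / 2 - 1 / Real.pi := by
    have : (1 : ℝ) / Real.pi ≤ 1 / 2 := one_div_le_one_div_of_le (by norm_num) (by linarith [Real.pi_gt_three])
    linarith
  have hn' : (60 : ℝ) ≤ n := by exact_mod_cast hn
  have h3 : (Dst n : ℝ) < (1 / 2 - 1 / Real.pi) * n + 1 := Nat.ceil_lt_add_one (by positivity)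
  have h4 : (5 : ℝ) * Dst n < n + 1 := by
    have : (1 / 2 - 1 / Real.pi) * (n : ℝ) ≤ 0.1817 * n := mul_le_mul_of_nonneg_right h1 (by linarith)
    nlinarith
  have h5 : 5 * Dst n < n + 1 := by exact_mod_cast h4
  omega

/-- polynomial factors are absorbed -/
theorem poly_absorb (e : ℝ) (he : 0 < e) : ∃ n₀ : ℕ, ∀ n : ℕ, n₀ ≤ n →
    ((n : ℝ) + 1) * (3 * (n + 1) * (2 * n + 3)) ≤ Real.exp (n * e) := by
  have h1 : Filter.Tendsto (fun x : ℝ => Real.exp (e * x) / x ^ 4) Filter.atTop Filter.atTop := by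
    simpa using tendsto_exp_mul_div_rpow_atTop 4 e he
  obtain ⟨X, hX⟩ := (Filter.eventually_atTop.mp (h1.eventually_ge_atTop 100))
  refine ⟨max 1 ⌈X⌉₊, fun n hn => ?_⟩
  have hn1 : (1 : ℝ) ≤ n := by exact_mod_cast (le_max_left _ _).trans hn
  have hnX : X ≤ n := (Nat.le_ceil X).trans (by exact_mod_cast (le_max_right _ _).trans hn)
  have h2 := hX n hnX
  rw [le_div_iff₀ (by positivity)] at h2
  have h3 : ((n : ℝ) + 1) * (3 * (n + 1) * (2 * n + 3)) ≤ 100 * (n : ℝ) ^ 4 := by
    have a1 : (n : ℝ) + 1 ≤ 2 * n := by linarith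
    have a2 : 2 * (n : ℝ) + 3 ≤ 5 * n := by linarith
    calc ((n : ℝ) + 1) * (3 * (n + 1) * (2 * n + 3)) ≤ (2 * n) * (3 * (2 * n) * (5 * n)) := by gcongr
      _ = 60 * (n : ℝ) ^ 3 := by ring
      _ ≤ 100 * (n : ℝ) ^ 3 * n := by nlinarith [pow_pos (by linarith : (0 : ℝ) < n) 3]
      _ = _ := by ring
  have h4 : e * (n : ℝ) = n * e := mul_comm _ _
  rw [h4] at h2
  linarith

/-- **the high weights** -/
theorem high {L : ℂ → ℂ} {ρ pa pb τ η e σ ε : ℝ} (hG : Good L ρ pa pb τ η e σ ε) (hη : η ≤ 1 / 10)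
    (hH : HHigh) : ∃ n₀ : ℕ, ∀ n ≥ n₀, ∀ C : Finset (Wd n), IsCode (Dst n) C →
      ∑ w ∈ (range (n + 1)).filter (fun w : ℕ => n < w + Dst n),
        (Nw C w : ℝ) * |fd n (n / 2) (cf L n) w| ≤
          C.card * Real.exp (n * (Real.log 2 / 2 - e / 20)) := by
  have he := hG.he
  obtain ⟨n1, h1⟩ := hH (e / 40) (by linarith)
  obtain ⟨n2, h2⟩ := poly_absorb (e / 40) (by linarith)
  refine ⟨max 60 (max n1 n2), fun n hn C hC => ?_⟩
  have hn60 : 60 ≤ n := (le_max_left _ _).trans hn
  have hn1 : n1 ≤ n := (le_max_left _ _).trans ((le_max_right _ _).trans hn)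
  have hn2 : n2 ≤ n := (le_max_right _ _).trans ((le_max_right _ _).trans hn)
  set K : ℝ := C.card * pw n (e / 40) with hK
  have hpw : 0 < pw n (e / 40) := pw_pos n _
  have hK0 : 0 ≤ K := by positivity
  have hD := five_Dst_le hn60
  have hterm : ∀ w ∈ (range (n + 1)).filter (fun w : ℕ => n < w + Dst n),
      (Nw C w : ℝ) * |fd n (n / 2) (cf L n) w| ≤
        K * (3 * (n + 1) * (2 * n + 3)) * Real.exp (n * (Real.log 2 / 2 - e / 10)) := by
    intro w hw
    obtain ⟨hw1, hw2⟩ := Finset.mem_filter.mp hw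
    have hwn : w ≤ n := Nat.lt_succ_iff.mp (Finset.mem_range.mp hw1)
    have e1 : w = n - (n - w) := by omega
    have h3 := high_weight hG hη (n := n) (v := n - w) (by omega) (by omega) C hK0
      (h1 n hn1 C hC (n - w) (by omega))
    rw [← e1] at h3
    exact h3
  have hcard : (((range (n + 1)).filter (fun w : ℕ => n < w + Dst n)).card : ℝ) ≤ n + 1 := by
    have := Finset.card_filter_le (range (n + 1)) (fun w : ℕ => n < w + Dst n)
    rw [Finset.card_range] at this
    exact_mod_cast this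
  have hP : pw n (e / 40) ≤ Real.exp (n * (e / 40)) := by
    unfold pw
    rw [Real.rpow_def_of_pos (by norm_num)]
    apply Real.exp_le_exp.mpr
    have hl : Real.log 2 ≤ 1 := by linarith [Real.log_two_lt_d9]
    have h0 : 0 ≤ e / 40 * n := by positivity
    nlinarith
  calc _ ≤ (((range (n + 1)).filter (fun w : ℕ => n < w + Dst n)).card : ℝ) *
        (K * (3 * (n + 1) * (2 * n + 3)) * Real.exp (n * (Real.log 2 / 2 - e / 10))) := by
        rw [← nsmul_eq_mul]
        exact Finset.sum_le_card_nsmul _ _ _ hterm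
    _ ≤ ((n : ℝ) + 1) * (K * (3 * (n + 1) * (2 * n + 3)) * Real.exp (n * (Real.log 2 / 2 - e / 10))) := by
        apply mul_le_mul_of_nonneg_right hcard (by positivity)
    _ = C.card * pw n (e / 40) * (((n : ℝ) + 1) * (3 * (n + 1) * (2 * n + 3))) *
        Real.exp (n * (Real.log 2 / 2 - e / 10)) := by rw [hK]; ring
    _ ≤ C.card * Real.exp (n * (e / 40)) * Real.exp (n * (e / 40)) *
        Real.exp (n * (Real.log 2 / 2 - e / 10)) := by
        gcongr
        exact h2 n hn2
    _ = C.card * Real.exp (n * (Real.log 2 / 2 - e / 20)) := by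
        rw [mul_assoc, mul_assoc, ← Real.exp_add, ← Real.exp_add]
        congr 2; ring

end Pool.Agent.Lib.MP_0430e4_lc.BY
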