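import Pool.Agent.Lib.MP_0430e4_lc.BY.PwC

/-!
Pairing identities for block P of project BEYOND (helper1).

`kr n k w` Krawtchouk numbers, `pairing`: `∑_k g_k S_k = ∑_w N_w ∑_k g_k K_k(w)`, symmetry, and
for `f(w) = ∑_{k ≤ m} c_k K_k(w)/C(n,k)`: `C(n,w) f(w)` is the coefficient of `u^w` in
`∑_k c_k (1-u)^k (1+u)^(n-k) = (1+u)^n F((1-u)/(1+u))`.
-/

open Finset Polynomial

namespace Pool.Agent.Lib.MP_0430e4_lc.BY

variable {n : ℕ}

/-- number of ordered pairs of code words at distance `w` -/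
def Nw (C : Finset (Wd n)) (w : ℕ) : ℕ := ((C ×ˢ C).filter (fun p => wt (p.1 - p.2) = w)).card

/-- `S_k = ∑_{wt y = k} (∑_{x ∈ C} (-1)^(x·y))^2` -/
noncomputable def Sk (C : Finset (Wd n)) (k : ℕ) : ℝ :=
  ∑ y ∈ univ.filter (fun y : Wd n => wt y = k), (∑ x ∈ C, e x y) ^ 2

/-- Krawtchouk number `K_k(w)`: the coefficient of `X^k` in `(1-X)^w (1+X)^(n-w)` -/
noncomputable def kr (n k w : ℕ) : ℝ := (((1 - X) ^ w * (1 + X) ^ (n - w) : ℝ[X])).coeff k

theorem wt_le (x : Wd n) : wt x ≤ n := by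
  unfold wt
  calc hammingNorm x ≤ Fintype.card (Fin n) := hammingNorm_le_card_fintype
    _ = n := Fintype.card_fin n

theorem gen_e {R : Type*} [CommRing R] [Algebra ℝ R] (x : Wd n) (z : R) :
    ∑ y : Wd n, (algebraMap ℝ R (e x y)) * z ^ wt y =
      (1 - z) ^ wt x * (1 + z) ^ (n - wt x) := by
  have h1 : ∀ y : Wd n, (algebraMap ℝ R (e x y)) * z ^ wt y =
      ∏ j, (if y j = 0 then 1 else (algebraMap ℝ R (sg (x j))) * z) := by
    intro y
    have h2 : z ^ wt y = ∏ j, (if y j = 0 then 1 else z) := by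
      unfold wt hammingNorm
      rw [Finset.prod_ite, Finset.prod_const_one, one_mul, Finset.prod_const]
    unfold e dotProduct
    rw [h2, sg_sum, map_prod, ← Finset.prod_mul_distrib]
    apply Finset.prod_congr rfl
    intro j _
    rcases z01 (y j) with h | h
    · simp [h, sg_zero]
    · simp [h]
  rw [Finset.sum_congr rfl fun y _ => h1 y]
  have h3 : ∏ j : Fin n, ∑ v : ZMod 2, (if v = 0 then (1 : R) else (algebraMap ℝ R (sg (x j))) * z) =
      ∑ y : Wd n, ∏ j, (if y j = 0 then 1 else (algebraMap ℝ R (sg (x j))) * z) := by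
    rw [Finset.prod_univ_sum, Fintype.piFinset_univ]
  rw [← h3]
  have h4 : ∀ j : Fin n, ∑ v : ZMod 2, (if v = 0 then (1 : R) else (algebraMap ℝ R (sg (x j))) * z) =
      if x j = 0 then 1 + z else 1 - z := by
    intro j
    rw [show (Finset.univ : Finset (ZMod 2)) = {0, 1} from by decide]
    rw [Finset.sum_pair (by decide)]
    rcases z01 (x j) with h | h
    · simp [h, sg_zero]
    · simp [h, sg_one, sub_eq_add_neg]
  rw [Finset.prod_congr rfl fun j _ => h4 j, Finset.prod_ite, Finset.prod_const, Finset.prod_const,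
    mul_comm]
  congr 2
  have h5 := Finset.card_filter_add_card_filter_not (s := (univ : Finset (Fin n))) (fun j => x j = 0)
  have h6 : (univ.filter (fun j : Fin n => ¬ x j = 0)).card = wt x := rfl
  rw [h6, Finset.card_univ, Fintype.card_fin] at h5
  omega

theorem sum_e_wt (x : Wd n) (k : ℕ) :
    ∑ y ∈ univ.filter (fun y : Wd n => wt y = k), e x y = kr n k (wt x) := by
  unfold kr
  rw [← gen_e x (X : ℝ[X]), Polynomial.finsetSum_coeff, Finset.sum_filter]
  apply Finset.sum_congr rfl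
  intro y _
  rw [Polynomial.algebraMap_eq, Polynomial.coeff_C_mul, Polynomial.coeff_X_pow]
  by_cases h : wt y = k
  · simp [h]
  · rw [if_neg h, if_neg (fun h' => h h'.symm), mul_zero]

theorem card_wt (w : ℕ) : (univ.filter (fun y : Wd n => wt y = w)).card = n.choose w := by
  have h1 : ((univ.filter (fun y : Wd n => wt y = w)).card : ℝ) = n.choose w := by
    have h2 := sum_e_wt (0 : Wd n) w
    have h3 : wt (0 : Wd n) = 0 := by unfold wt; rw [hammingNorm_zero]
    rw [h3] at h2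
    unfold kr at h2
    rw [pow_zero, one_mul, Nat.sub_zero, Polynomial.coeff_one_add_X_pow] at h2
    rw [← h2]
    simp only [e_zero_left, Finset.sum_const, nsmul_eq_mul, mul_one]
  exact_mod_cast h1

/-- symmetry of the Krawtchouk numbers -/
theorem kr_symm (k w : ℕ) :
    (n.choose w : ℝ) * kr n k w = n.choose k * kr n w k := by
  have h1 : ∀ a b : ℕ, ∑ x ∈ univ.filter (fun x : Wd n => wt x = a),
      ∑ y ∈ univ.filter (fun y : Wd n => wt y = b), e x y = n.choose a * kr n b a := by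
    intro a b
    rw [← card_wt (n := n) a, ← nsmul_eq_mul, ← Finset.sum_const]
    apply Finset.sum_congr rfl
    intro x hx
    rw [sum_e_wt, (Finset.mem_filter.mp hx).2]
  rw [← h1 w k, ← h1 k w, Finset.sum_comm]
  apply Finset.sum_congr rfl; intro y _
  apply Finset.sum_congr rfl; intro x _
  exact e_comm _ _

theorem sum_pairs (C : Finset (Wd n)) {R : Type*} [CommRing R] (f : ℕ → R) :
    ∑ x ∈ C, ∑ y ∈ C, f (wt (x - y)) = ∑ w ∈ range (n + 1), (Nw C w : R) * f w := by
  rw [← Finset.sum_product']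
  rw [← Finset.sum_fiberwise_of_maps_to (s := C ×ˢ C) (t := range (n + 1))
    (g := fun p : Wd n × Wd n => wt (p.1 - p.2))
    (fun p _ => Finset.mem_range.mpr (Nat.lt_succ_of_le (wt_le _)))]
  apply Finset.sum_congr rfl
  intro w _
  rw [Finset.sum_congr rfl (g := fun _ => f w) (fun p hp => by rw [(Finset.mem_filter.mp hp).2]),
    Finset.sum_const, nsmul_eq_mul]
  rfl

theorem Sk_eq (C : Finset (Wd n)) (k : ℕ) :
    Sk C k = ∑ x ∈ C, ∑ y ∈ C, kr n k (wt (x - y)) := by
  unfold Sk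
  have h1 : ∀ y : Wd n, (∑ x ∈ C, e x y) ^ 2 = ∑ x ∈ C, ∑ x' ∈ C, e (x - x') y := by
    intro y
    rw [sq, Finset.sum_mul_sum]
    apply Finset.sum_congr rfl; intro x _
    apply Finset.sum_congr rfl; intro x' _
    rw [sub_eq_add', e_add_left]
  rw [Finset.sum_congr rfl fun y _ => h1 y, Finset.sum_comm]
  apply Finset.sum_congr rfl; intro x _
  rw [Finset.sum_comm]
  apply Finset.sum_congr rfl; intro x' _
  exact sum_e_wt _ _

theorem Sk_nonneg (C : Finset (Wd n)) (k : ℕ) : 0 ≤ Sk C k :=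
  Finset.sum_nonneg fun _ _ => sq_nonneg _

theorem Sk_zero (C : Finset (Wd n)) : Sk C 0 = (C.card : ℝ) ^ 2 := by
  unfold Sk
  have h1 : univ.filter (fun y : Wd n => wt y = 0) = {0} := by
    ext y
    simp only [Finset.mem_filter, Finset.mem_univ, true_and, Finset.mem_singleton]
    unfold wt; exact hammingNorm_eq_zero
  rw [h1, Finset.sum_singleton]
  simp [e_zero_right]

/-- **Pairing** -/
theorem pairing (C : Finset (Wd n)) (s : Finset ℕ) (g : ℕ → ℝ) :
    ∑ k ∈ s, g k * Sk C k = ∑ w ∈ range (n + 1), (Nw C w : ℝ) * ∑ k ∈ s, g k * kr n k w := by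
  rw [← sum_pairs C (fun w => ∑ k ∈ s, g k * kr n k w)]
  simp only [Sk_eq, Finset.mul_sum]
  rw [Finset.sum_comm]
  apply Finset.sum_congr rfl; intro x _
  rw [Finset.sum_comm]

/-- the dual function of `F = ∑_{k ≤ m} c_k z^k` -/
noncomputable def fd (n m : ℕ) (c : ℕ → ℝ) (w : ℕ) : ℝ :=
  ∑ k ∈ range (m + 1), c k / n.choose k * kr n k w

/-- the polynomial `(1+u)^n F((1-u)/(1+u))` -/
noncomputable def Gp (n m : ℕ) (c : ℕ → ℝ) : ℝ[X] :=
  ∑ k ∈ range (m + 1), Polynomial.C (c k) * ((1 - X) ^ k * (1 + X) ^ (n - k))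

theorem choose_mul_fd {m : ℕ} (hm : m ≤ n) (w : ℕ) (c : ℕ → ℝ) :
    (n.choose w : ℝ) * fd n m c w = (Gp n m c).coeff w := by
  unfold fd Gp
  rw [Polynomial.finsetSum_coeff, Finset.mul_sum]
  apply Finset.sum_congr rfl
  intro k hk
  have hkn : k ≤ n := (Nat.lt_succ_iff.mp (Finset.mem_range.mp hk)).trans hm
  rw [Polynomial.coeff_C_mul]
  have h1 := kr_symm (n := n) k w
  have h2 : (n.choose k : ℝ) ≠ 0 := by
    exact_mod_cast (Nat.choose_pos hkn).ne'
  have h3 : ((1 - X) ^ k * (1 + X) ^ (n - k) : ℝ[X]).coeff w = kr n w k := rfl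
  rw [h3]
  calc (n.choose w : ℝ) * (c k / n.choose k * kr n k w)
      = c k / n.choose k * (n.choose w * kr n k w) := by ring
    _ = c k / n.choose k * (n.choose k * kr n w k) := by rw [h1]
    _ = c k * kr n w k := by field_simp

/-- the pairing of `F` with a code -/
theorem pairing_fd (C : Finset (Wd n)) (m : ℕ) (c : ℕ → ℝ) :
    ∑ k ∈ range (m + 1), c k / n.choose k * Sk C k =
      ∑ w ∈ range (n + 1), (Nw C w : ℝ) * fd n m c w := by
  rw [pairing]; rfl

theorem fd_zero {m : ℕ} (hm : m ≤ n) (c : ℕ → ℝ) : fd n m c 0 = ∑ k ∈ range (m + 1), c k := by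
  unfold fd
  apply Finset.sum_congr rfl
  intro k hk
  have hkn : k ≤ n := (Nat.lt_succ_iff.mp (Finset.mem_range.mp hk)).trans hm
  have h1 : kr n k 0 = n.choose k := by
    unfold kr
    rw [pow_zero, one_mul, Nat.sub_zero, Polynomial.coeff_one_add_X_pow]
  have h2 : (n.choose k : ℝ) ≠ 0 := by exact_mod_cast (Nat.choose_pos hkn).ne'
  rw [h1]; field_simp

theorem Nw_zero (C : Finset (Wd n)) : Nw C 0 = C.card := by
  unfold Nw
  refine Finset.card_bij' (fun p _ => p.1) (fun x _ => (x, x)) ?_ ?_ ?_ ?_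
  · intro p hp
    exact (Finset.mem_product.mp (Finset.mem_filter.mp hp).1).1
  · intro x hx
    rw [Finset.mem_filter, Finset.mem_product]
    refine ⟨⟨hx, hx⟩, ?_⟩
    simp only [sub_self]
    unfold wt; rw [hammingNorm_zero]
  · intro p hp
    have h1 := (Finset.mem_filter.mp hp).2
    unfold wt at h1
    rw [hammingNorm_eq_zero, sub_eq_zero] at h1
    exact Prod.ext rfl h1
  · intro x _; rfl

theorem Nw_of_lt {C : Finset (Wd n)} {d w : ℕ} (hC : IsCode d C) (h0 : w ≠ 0) (hw : w < d) :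
    Nw C w = 0 := by
  unfold Nw
  rw [Finset.card_eq_zero, Finset.filter_eq_empty_iff]
  intro p hp hpw
  rw [Finset.mem_product] at hp
  by_cases h : p.1 = p.2
  · rw [h, sub_self] at hpw
    unfold wt at hpw; rw [hammingNorm_zero] at hpw
    exact h0 hpw.symm
  · have := hC _ hp.1 _ hp.2 h
    omega

/-- evaluation of `Gp` -/
theorem Gp_eval {m : ℕ} (hm : m ≤ n) (c : ℕ → ℝ) (u : ℂ) (hu : 1 + u ≠ 0) :
    (Gp n m c).aeval u = (1 + u) ^ n * ∑ k ∈ range (m + 1), (c k : ℂ) * ((1 - u) / (1 + u)) ^ k := by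
  unfold Gp
  rw [map_sum, Finset.mul_sum]
  apply Finset.sum_congr rfl
  intro k hk
  have hkn : k ≤ n := (Nat.lt_succ_iff.mp (Finset.mem_range.mp hk)).trans hm
  simp only [map_mul, map_pow, map_sub, map_add, map_one, Polynomial.aeval_X, Polynomial.aeval_C]
  have h1 : (1 + u) ^ n = (1 + u) ^ (n - k) * (1 + u) ^ k := by
    rw [← pow_add, Nat.sub_add_cancel hkn]
  rw [h1, div_pow]
  have h2 : (1 + u) ^ k ≠ 0 := pow_ne_zero _ hu
  have h3 : (algebraMap ℝ ℂ) (c k) = (c k : ℂ) := rfl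
  rw [h3]
  field_simp

end Pool.Agent.Lib.MP_0430e4_lc.BY
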